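import Mathlib

set_option autoImplicit false

namespace Pool.Agent.Lib.MP_c8b0a1_an

open Finset

section field

variable {F : Type} [Field F] [Fintype F] [DecidableEq F]

lemma sum_psi (ψ : AddChar F ℂ) (hψ : ψ ≠ 1) (a : F) :
    ∑ t, ψ (t * a) = if a = 0 then (Fintype.card F : ℂ) else 0 := by
  rw [AddChar.sum_mulShift a (AddChar.IsPrimitive.of_ne_one hψ)]
  split_ifs <;> simp

omit [DecidableEq F] in
lemma norm_psi (ψ : AddChar F ℂ) (x : F) : ‖ψ x‖ = 1 := AddChar.norm_apply ψ x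

omit [DecidableEq F] in
lemma conj_psi (ψ : AddChar F ℂ) (x : F) : (starRingEnd ℂ) (ψ x) = ψ (-x) :=
  (AddChar.map_neg_eq_conj ψ x).symm

omit [DecidableEq F] in
lemma psi_mul_conj (ψ : AddChar F ℂ) (x y : F) :
    ψ x * (starRingEnd ℂ) (ψ y) = ψ (x - y) := by
  rw [conj_psi, ← AddChar.map_add_eq_mul, sub_eq_add_neg]

end field

lemma normsq_eq (z : ℂ) : ((‖z‖ ^ 2 : ℝ) : ℂ) = z * (starRingEnd ℂ) z := by
  rw [Complex.mul_conj, Complex.normSq_eq_norm_sq]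

/-- energy of a weight along a map -/
noncomputable def En {ι W : Type} [Fintype ι] [Fintype W] [DecidableEq W] (ω : ι → W) (a : ι → ℝ) : ℝ :=
  ∑ w, (∑ i with ω i = w, a i) ^ 2

lemma En_nonneg {ι W : Type} [Fintype ι] [Fintype W] [DecidableEq W] (ω : ι → W) (a : ι → ℝ) :
    0 ≤ En ω a := sum_nonneg fun _ _ => sq_nonneg _

lemma En_eq {ι W : Type} [Fintype ι] [Fintype W] [DecidableEq W] (ω : ι → W) (a : ι → ℝ) :
    En ω a = ∑ i, ∑ i', if ω i = ω i' then a i * a i' else 0 := by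
  unfold En
  have h : ∀ w, (∑ i with ω i = w, a i) ^ 2
      = ∑ i with ω i = w, ∑ i', if ω i = ω i' then a i * a i' else 0 := by
    intro w
    rw [sq, sum_mul_sum]
    refine sum_congr rfl fun i hi => ?_
    rw [sum_filter]
    refine sum_congr rfl fun i' _ => ?_
    rw [(mem_filter.1 hi).2]
    by_cases h : ω i' = w
    · simp [h]
    · simp [h, Ne.symm h]
  simp_rw [h]
  exact sum_fiberwise _ _ _

lemma fiber_sq_eq {ι W : Type} [Fintype ι] [Fintype W] [DecidableEq W] (ω : ι → W) (c : ι → ℂ) :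
    ((∑ w, ‖∑ i with ω i = w, c i‖ ^ 2 : ℝ) : ℂ)
      = ∑ i, ∑ i', if ω i = ω i' then c i * (starRingEnd ℂ) (c i') else 0 := by
  have h : ∀ w, ((‖∑ i with ω i = w, c i‖ ^ 2 : ℝ) : ℂ)
      = ∑ i with ω i = w, ∑ i', if ω i = ω i' then c i * (starRingEnd ℂ) (c i') else 0 := by
    intro w
    rw [normsq_eq, map_sum, sum_mul_sum]
    refine sum_congr rfl fun i hi => ?_
    rw [sum_filter]
    refine sum_congr rfl fun i' _ => ?_
    rw [(mem_filter.1 hi).2]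
    by_cases h : ω i' = w
    · simp [h]
    · simp [h, Ne.symm h]
  rw [Complex.ofReal_sum]
  simp_rw [h]
  exact sum_fiberwise _ _ _

lemma fiber_sq_le {ι W : Type} [Fintype ι] [Fintype W] [DecidableEq W] (ω : ι → W) (c : ι → ℂ) :
    ∑ w, ‖∑ i with ω i = w, c i‖ ^ 2 ≤ En ω (fun i => ‖c i‖) := by
  unfold En
  refine sum_le_sum fun w _ => ?_
  exact pow_le_pow_left₀ (norm_nonneg _) (norm_sum_le _ _) 2

section parseval

variable {F : Type} [Field F] [Fintype F]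

/-- expansion of a mass against an arbitrary kernel -/
lemma mass_expand {A ι W : Type} [Fintype ι] [AddCommGroup W] (ψ : AddChar F ℂ) (s : Finset A)
    (β : A → W → F) (hβ : ∀ x m m', β x (m - m') = β x m - β x m') (c : ι → ℂ) (ω : ι → W) :
    ((∑ x ∈ s, ‖∑ i, c i * ψ (β x (ω i))‖ ^ 2 : ℝ) : ℂ)
      = ∑ i, ∑ i', c i * (starRingEnd ℂ) (c i') * ∑ x ∈ s, ψ (β x (ω i - ω i')) := by
  rw [Complex.ofReal_sum]
  simp_rw [normsq_eq, map_sum, sum_mul_sum, mul_sum]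
  rw [sum_comm]
  refine sum_congr rfl fun i _ => ?_
  rw [sum_comm]
  refine sum_congr rfl fun i' _ => sum_congr rfl fun x _ => ?_
  rw [map_mul, hβ, ← psi_mul_conj]
  ring

lemma parseval {A ι W : Type} [Fintype A] [Fintype ι] [Fintype W] [AddCommGroup W] [DecidableEq W]
    (ψ : AddChar F ℂ) (β : A → W → F) (hβ : ∀ x m m', β x (m - m') = β x m - β x m') (N : ℝ)
    (h : ∀ m, ∑ x, ψ (β x m) = if m = 0 then (N : ℂ) else 0) (c : ι → ℂ) (ω : ι → W) :
    ∑ x, ‖∑ i, c i * ψ (β x (ω i))‖ ^ 2 = N * ∑ w, ‖∑ i with ω i = w, c i‖ ^ 2 := by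
  apply Complex.ofReal_injective
  rw [mass_expand ψ univ β hβ, Complex.ofReal_mul, fiber_sq_eq, mul_sum]
  refine sum_congr rfl fun i _ => ?_
  rw [mul_sum]
  refine sum_congr rfl fun i' _ => ?_
  rw [h]
  simp only [sub_eq_zero]
  split_ifs <;> ring

lemma parseval_id {A W : Type} [Fintype A] [Fintype W] [AddCommGroup W] [DecidableEq W]
    (ψ : AddChar F ℂ) (β : A → W → F) (hβ : ∀ x m m', β x (m - m') = β x m - β x m') (N : ℝ)
    (h : ∀ m, ∑ x, ψ (β x m) = if m = 0 then (N : ℂ) else 0) (c : W → ℂ) :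
    ∑ x, ‖∑ i, c i * ψ (β x i)‖ ^ 2 = N * ∑ w, ‖c w‖ ^ 2 := by
  have := parseval ψ β hβ N h c id
  simp only [id] at this
  rw [this]
  congr 1
  refine sum_congr rfl fun w _ => ?_
  rw [filter_eq' univ w]
  simp

end parseval

/-- two Cauchy-Schwarz steps -/
lemma holder_one {ι : Type} (s : Finset ι) (a H : ι → ℝ) (ha : ∀ i, 0 ≤ a i) :
    (∑ i ∈ s, a i * H i) ^ 2 ≤ (∑ i ∈ s, a i) * ∑ i ∈ s, a i * H i ^ 2 := by
  refine sum_sq_le_sum_mul_sum_of_sq_le_mul s (fun i _ => ha i)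
    (fun i _ => mul_nonneg (ha i) (sq_nonneg _)) (fun i _ => le_of_eq (by ring))

lemma holder_four {ι : Type} (s : Finset ι) (a H : ι → ℝ) (ha : ∀ i, 0 ≤ a i) :
    (∑ i ∈ s, a i * H i) ^ 4
      ≤ (∑ i ∈ s, a i) ^ 2 * ((∑ i ∈ s, a i ^ 2) * ∑ i ∈ s, H i ^ 4) := by
  have h1 := holder_one s a H ha
  have h2 := sum_mul_sq_le_sq_mul_sq s a (fun i => H i ^ 2)
  have h0 : 0 ≤ ∑ i ∈ s, a i := sum_nonneg fun i _ => ha i
  have h3 : ∑ i ∈ s, (H i ^ 2) ^ 2 = ∑ i ∈ s, H i ^ 4 := sum_congr rfl fun i _ => by ring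
  rw [h3] at h2
  calc (∑ i ∈ s, a i * H i) ^ 4 = ((∑ i ∈ s, a i * H i) ^ 2) ^ 2 := by ring
    _ ≤ ((∑ i ∈ s, a i) * ∑ i ∈ s, a i * H i ^ 2) ^ 2 :=
        pow_le_pow_left₀ (sq_nonneg _) h1 2
    _ = (∑ i ∈ s, a i) ^ 2 * (∑ i ∈ s, a i * H i ^ 2) ^ 2 := by ring
    _ ≤ _ := mul_le_mul_of_nonneg_left h2 (sq_nonneg _)

/-- the reciprocal trichotomy -/
lemma recip_tri {F : Type} [Field F] {a b c d : F} (ha : a ≠ 0) (hb : b ≠ 0) (hc : c ≠ 0)
    (hd : d ≠ 0) (h1 : a + b = c + d) (h2 : a⁻¹ + b⁻¹ = c⁻¹ + d⁻¹) :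
    (c = a ∧ d = b) ∨ (c = b ∧ d = a) ∨ (b = -a ∧ d = -c) := by
  by_cases hs : a + b = 0
  · right; right
    exact ⟨by linear_combination hs, by linear_combination hs - h1⟩
  · have h3 : a * b = c * d := by
      have : (a + b) * (c * d) = (c + d) * (a * b) := by
        field_simp at h2
        linear_combination h2
      rw [← h1] at this
      exact (mul_left_cancel₀ hs this).symm
    have h4 : (c - a) * (c - b) = 0 := by linear_combination h3 - c * h1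
    rcases mul_eq_zero.1 h4 with h | h
    · left; exact ⟨by linear_combination h, by linear_combination -h - h1⟩
    · right; left; exact ⟨by linear_combination h, by linear_combination -h - h1⟩

end Pool.Agent.Lib.MP_c8b0a1_an
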