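import Pool.Agent.Lib.MP_c8b0a1_an.CountW

set_option autoImplicit false
set_option linter.unusedSectionVars false

namespace Pool.Agent.Lib.MP_c8b0a1_an

open Finset

variable {F : Type} [Field F] [Fintype F] [DecidableEq F]
variable {V : Type} [AddCommGroup V] [Module F V] [Fintype V] [DecidableEq V]

/-- trapezoid indicator -/
noncomputable def DD (B : V →ₗ[F] V →ₗ[F] F) (w : V → ℝ) (s t : F) (a b c d : V) : ℝ :=
  if s ≠ 0 ∧ t ≠ 0 ∧ s • (a - c) = t • (d - b) ∧ s * (B a a - B c c) = t * (B d d - B b b)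
    then w a * w b * (w c * w d) else 0

lemma DD_nonneg (B : V →ₗ[F] V →ₗ[F] F) (w : V → ℝ) (h0 : ∀ x, 0 ≤ w x) (s t : F) (a b c d : V) :
    0 ≤ DD B w s t a b c d := by
  unfold DD
  have := h0 a; have := h0 b; have := h0 c; have := h0 d
  positivity

lemma DD_inner {B : V →ₗ[F] V →ₗ[F] F} (hs : ∀ x y, B x y = B y x) (w : V → ℝ) (h0 : ∀ x, 0 ≤ w x)
    (h1 : ∀ x, w x ≤ 1) (t : F) (a b c : V) :
    ∑ s, ∑ d, DD B w s t a b c d ≤ w a * w b * w c
      + Fintype.card F * (w b * (if B (a - c) (a - c) = 0 then w a * w c else 0)) := by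
  have ha := h0 a; have hb := h0 b; have hc := h0 c
  have key : ∀ s d, DD B w s t a b c d ≤ if b + (s / t) • (a - c) = d then
      ((if t * (2 * B (c - b) (a - c) + B (a - c) (a - c)) / B (a - c) (a - c) = s
        then w a * w b * w c else 0)
      + w b * (if B (a - c) (a - c) = 0 then w a * w c else 0)) else 0 := by
    intro s d
    unfold DD
    have n1 : 0 ≤ (if t * (2 * B (c - b) (a - c) + B (a - c) (a - c)) / B (a - c) (a - c) = s
        then w a * w b * w c else 0) := by positivity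
    have n2 : 0 ≤ w b * (if B (a - c) (a - c) = 0 then w a * w c else 0) := by positivity
    split_ifs with h hd h3 h4 h4 hd h3 h4 h4
    all_goals first | positivity | skip
    all_goals obtain ⟨e1, e2, e3, e4⟩ := h
    all_goals have hw : w a * w b * (w c * w d) ≤ w a * w b * w c := by
                have : w c * w d ≤ w c := by nlinarith [h1 d]
                exact mul_le_mul_of_nonneg_left this (by positivity)
    · nlinarith [mul_nonneg hb (mul_nonneg ha hc)]
    · simpa using hw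
    · nlinarith
    · exfalso
      apply h3
      obtain ⟨v, rfl⟩ : ∃ v, a = c + v := ⟨a - c, by abel⟩
      subst hd
      simp only [add_sub_cancel_left] at *
      simp only [map_add, map_sub, map_smul, LinearMap.add_apply, LinearMap.sub_apply,
        LinearMap.smul_apply, smul_eq_mul, hs v c, hs v b] at *
      rw [div_eq_iff h4]
      field_simp at e4
      refine mul_left_cancel₀ e1 ?_
      linear_combination e4
    · exfalso
      apply hd
      rw [div_eq_inv_mul, mul_smul, e3, smul_smul, inv_mul_cancel₀ e2, one_smul]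
      abel
  refine (sum_le_sum fun s _ => sum_le_sum fun d _ => key s d).trans (le_of_eq ?_)
  simp only [sum_ite_eq, mem_univ, if_true, sum_add_distrib, sum_const, card_univ, nsmul_eq_mul]

/-- trapezoid count -/
noncomputable def Tr (B : V →ₗ[F] V →ₗ[F] F) (w : V → ℝ) : ℝ :=
  ∑ s, ∑ t, ∑ a, ∑ b, ∑ c, ∑ d, DD B w s t a b c d

lemma Tr_bound {B : V →ₗ[F] V →ₗ[F] F} (hs : ∀ x y, B x y = B y x) (w : V → ℝ) (h0 : ∀ x, 0 ≤ w x)
    (h1 : ∀ x, w x ≤ 1) :
    Tr B w ≤ Fintype.card F * ((∑ x, w x) ^ 3 + Fintype.card F * ((∑ x, w x) * Iso B w)) := by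
  have e : Tr B w = ∑ t, ∑ a, ∑ b, ∑ c, ∑ s, ∑ d, DD B w s t a b c d := by
    unfold Tr
    rw [sum_comm]
    refine sum_congr rfl fun t _ => ?_
    rw [sum_comm]
    refine sum_congr rfl fun a _ => ?_
    rw [sum_comm]
    refine sum_congr rfl fun b _ => ?_
    rw [sum_comm]
  rw [e]
  refine (sum_le_sum fun t _ => sum_le_sum fun a _ => sum_le_sum fun b _ => sum_le_sum fun c _ =>
    DD_inner hs w h0 h1 t a b c).trans (le_of_eq ?_)
  simp only [sum_add_distrib, ← mul_sum, ← sum_mul, sum_const, card_univ, nsmul_eq_mul, Iso]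
  ring

lemma wt_nonneg (w : V → ℝ) (h0 : ∀ x, 0 ≤ w x) (X : (F × F) × (V × V)) : 0 ≤ wt w X := by
  unfold wt
  have := h0 X.2.1; have := h0 X.2.2
  positivity

lemma AA_le_Tr (B : V →ₗ[F] V →ₗ[F] F) (w : V → ℝ) (h0 : ∀ x, 0 ≤ w x) :
    AA B w ≤ 3 * Tr B w := by
  unfold AA
  rw [En_eq]
  have key : ∀ (s1 s2 : F) (a b : V) (s3 s4 : F) (c d : V),
      (if (om ((s1, s2), (a, b)), (PP B ((s1, s2), (a, b)), ZZ ((s1, s2), (a, b))))
        = (om ((s3, s4), (c, d)), (PP B ((s3, s4), (c, d)), ZZ ((s3, s4), (c, d))))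
        then wt w ((s1, s2), (a, b)) * wt w ((s3, s4), (c, d)) else 0)
      ≤ (if s1 = s3 then if s2 = s4 then DD B w s1 s2 a b c d else 0 else 0)
        + (if s2 = s3 then if s1 = s4 then DD B w s1 s2 a b d c else 0 else 0)
        + (if s2 = -s1 then if s4 = -s3 then DD B w s1 s3 a d b c else 0 else 0) := by
    intro s1 s2 a b s3 s4 c d
    have n1 := DD_nonneg B w h0 s1 s2 a b c d
    have n2 := DD_nonneg B w h0 s1 s2 a b d c
    have n3 := DD_nonneg B w h0 s1 s3 a d b c
    have m1 : 0 ≤ (if s1 = s3 then if s2 = s4 then DD B w s1 s2 a b c d else 0 else 0) := by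
      positivity
    have m2 : 0 ≤ (if s2 = s3 then if s1 = s4 then DD B w s1 s2 a b d c else 0 else 0) := by
      positivity
    have m3 : 0 ≤ (if s2 = -s1 then if s4 = -s3 then DD B w s1 s3 a d b c else 0 else 0) := by
      positivity
    by_cases h : (om ((s1, s2), (a, b)), (PP B ((s1, s2), (a, b)), ZZ ((s1, s2), (a, b))))
        = (om ((s3, s4), (c, d)), (PP B ((s3, s4), (c, d)), ZZ ((s3, s4), (c, d))))
    swap
    · rw [if_neg h]; linarith
    rw [if_pos h]
    simp only [om, PP, ZZ, Prod.mk.injEq] at h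
    obtain ⟨⟨e1, e2⟩, e3, e4⟩ := h
    unfold wt
    simp only
    by_cases z1 : s1 ≠ 0 ∧ s2 ≠ 0
    swap
    · rw [if_neg z1, zero_mul]; linarith
    by_cases z2 : s3 ≠ 0 ∧ s4 ≠ 0
    swap
    · rw [if_neg z2, mul_zero]; linarith
    rw [if_pos z1, if_pos z2]
    rcases recip_tri z1.1 z1.2 z2.1 z2.2 e1 e4 with ⟨f1, f2⟩ | ⟨f1, f2⟩ | ⟨f1, f2⟩
    · subst f1 f2
      have : DD B w s3 s4 a b c d = w a * w b * (w c * w d) := by
        unfold DD
        refine if_pos ⟨z1.1, z1.2, ?_, by linear_combination e3⟩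
        rw [smul_sub, smul_sub, sub_eq_sub_iff_add_eq_add, e2, add_comm]
      rw [if_pos rfl, if_pos rfl, this]
      linarith
    · subst f1 f2
      have : DD B w s4 s3 a b d c = w a * w b * (w c * w d) := by
        unfold DD
        rw [if_pos ⟨z1.1, z1.2, by rw [smul_sub, smul_sub, sub_eq_sub_iff_add_eq_add, e2],
          by linear_combination e3⟩]
        ring
      rw [if_pos (rfl : s3 = s3), if_pos (rfl : s4 = s4), this]
      linarith
    · subst f1 f2
      have : DD B w s1 s3 a d b c = w a * w b * (w c * w d) := by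
        unfold DD
        rw [if_pos ⟨z1.1, z2.1,
          by rw [smul_sub, smul_sub, sub_eq_add_neg, sub_eq_add_neg, ← neg_smul, ← neg_smul, e2],
          by linear_combination e3⟩]
        ring
      rw [if_pos (rfl : -s1 = -s1), if_pos (rfl : -s3 = -s3), this]
      linarith
  simp only [Fintype.sum_prod_type]
  refine (sum_le_sum fun s1 _ => sum_le_sum fun s2 _ => sum_le_sum fun a _ => sum_le_sum fun b _ =>
    sum_le_sum fun s3 _ => sum_le_sum fun s4 _ => sum_le_sum fun c _ => sum_le_sum fun d _ =>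
    key s1 s2 a b s3 s4 c d).trans (le_of_eq ?_)
  simp only [sum_add_distrib, sum_ite_irrel, sum_const_zero, sum_ite_eq, sum_ite_eq', mem_univ,
    if_true]
  have e2 : ∑ s1, ∑ s2, ∑ a, ∑ b, ∑ c, ∑ d, DD B w s1 s2 a b d c = Tr B w :=
    sum_congr rfl fun _ _ => sum_congr rfl fun _ _ => sum_congr rfl fun _ _ =>
      sum_congr rfl fun _ _ => sum_comm
  have e3 : ∑ s1, ∑ a, ∑ b, ∑ s3, ∑ c, ∑ d, DD B w s1 s3 a d b c = Tr B w := by
    refine sum_congr rfl fun s1 _ => ?_
    rw [sum_congr rfl fun a _ => sum_comm, sum_comm]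
    refine sum_congr rfl fun s3 _ => sum_congr rfl fun a _ => ?_
    rw [sum_congr rfl fun b _ => sum_comm, sum_comm]
  rw [e2, e3]
  unfold Tr
  ring

end Pool.Agent.Lib.MP_c8b0a1_an
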