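import Pool.Agent.Lib.MP_c8b0a1_an.L4

set_option autoImplicit false
set_option linter.unusedSectionVars false

namespace Pool.Agent.Lib.MP_c8b0a1_an

open Finset

variable {F : Type} [Field F] [Fintype F] [DecidableEq F]
variable {V : Type} [AddCommGroup V] [Module F V] [Fintype V] [DecidableEq V]

lemma sum_psi_ne (ψ : AddChar F ℂ) (hψ : ψ ≠ 1) (a : F) :
    ∑ t, (if t ≠ 0 then ψ (t * a) else 0) = (if a = 0 then (Fintype.card F : ℂ) else 0) - 1 := by
  rw [← sum_psi ψ hψ a]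
  have : ∀ t : F, (if t ≠ 0 then ψ (t * a) else 0) = ψ (t * a) - if t = 0 then 1 else 0 := by
    intro t
    by_cases h : t = 0 <;> simp [h]
  simp [this]

theorem WW_bound (hF : ringChar F ≠ 2) {ψ : AddChar F ℂ} (hψ : ψ ≠ 1) {j : F}
    {B : V →ₗ[F] V →ₗ[F] F} {k : ℕ} (hG : Good ψ j B k) (w : V → ℝ) (h0 : ∀ x, 0 ≤ w x)
    (h1 : ∀ x, w x ≤ 1) (μ : ℝ) (hμ : ∀ r, r ≠ 0 → ∀ c, ∑ x with B r x = c, w x ≤ μ)
    (hn : ∑ x, w x ≤ Fintype.card F * μ) :
    (Fintype.card F : ℝ) ^ (2 * k + 2) * WW F w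
      ≤ (Fintype.card F : ℝ) ^ 4 * (∑ x, w x) ^ 4
        + (Fintype.card F : ℝ) ^ (2 * k + 2) * ((Fintype.card F : ℝ) ^ 3 * μ ^ 2 * ∑ x, w x) := by
  set q : ℝ := (Fintype.card F : ℝ) with hq
  set n := ∑ x, w x with hnn
  have hq2 : 2 ≤ q := two_le_card
  have hn0 : 0 ≤ n := sum_nonneg fun x _ => h0 x
  set a : F × V → ℝ := fun r => if r.1 ≠ 0 then w r.2 else 0 with ha
  have ha0 : ∀ r, 0 ≤ a r := fun r => by simp only [ha]; split_ifs; exacts [h0 _, le_rfl]
  set C : V × F → ℂ := fun p => ∑ r : F × V, (a r : ℂ) *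
    ψ (p.2 * (r.1, r.1 • r.2).1 - 2 * B p.1 (r.1, r.1 • r.2).2) with hC
  have hβ : ∀ (x : V × F) (m m' : F × V), x.2 * (m - m').1 - 2 * B x.1 (m - m').2
      = (x.2 * m.1 - 2 * B x.1 m.2) - (x.2 * m'.1 - 2 * B x.1 m'.2) := fun x m m' => by
    simp only [Prod.fst_sub, Prod.snd_sub, map_sub]; ring
  have e4 : ∑ p, ‖C p‖ ^ 4 = q ^ (2 * k + 2) * WW F w := by
    have e1 : ∀ p : V × F, ‖C p‖ ^ 4 = ‖∑ X : (F × F) × (V × V), (wt w X : ℂ) *
        ψ (p.2 * (om X).1 - 2 * B p.1 (om X).2)‖ ^ 2 := by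
      intro p
      rw [show 4 = 2 * 2 from rfl, pow_mul, ← norm_pow, hC, sq (∑ r : F × V, _), sum_mul_sum,
        ← Fintype.sum_prod_type']
      congr 2
      refine Fintype.sum_equiv (Equiv.prodProdProdComm F V F V) _ _ fun r => ?_
      obtain ⟨⟨t1, y1⟩, ⟨t2, y2⟩⟩ := r
      simp only [Equiv.prodProdProdComm_apply, wt, om, map_add, map_smul, smul_eq_mul, ha]
      rw [mul_mul_mul_comm, ← AddChar.map_add_eq_mul]
      congr 1
      · by_cases h1 : t1 = 0 <;> by_cases h2 : t2 = 0 <;> simp [h1, h2]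
      · congr 1; ring
    simp_rw [e1]
    rw [parseval ψ (fun (p : V × F) (m : F × V) => p.2 * m.1 - 2 * B p.1 m.2) hβ _
      (orth_prod hF hψ hG) (fun X : (F × F) × (V × V) => (wt w X : ℂ)) om]
    congr 1
    refine sum_congr rfl fun m _ => ?_
    rw [← Complex.ofReal_sum, Complex.norm_real, Real.norm_eq_abs, sq_abs]
  have e2 : ∑ p, ‖C p‖ ^ 2 ≤ q ^ (2 * k + 2) * (q * n) := by
    rw [hC, parseval ψ (fun (p : V × F) (m : F × V) => p.2 * m.1 - 2 * B p.1 m.2) hβ _
      (orth_prod hF hψ hG) (fun r : F × V => (a r : ℂ)) (fun r => (r.1, r.1 • r.2))]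
    refine mul_le_mul_of_nonneg_left ((fiber_sq_le _ _).trans ?_) (by positivity)
    rw [En_eq]
    have : ∀ r r' : F × V, (if (r.1, r.1 • r.2) = (r'.1, r'.1 • r'.2)
        then ‖(a r : ℂ)‖ * ‖(a r' : ℂ)‖ else 0) ≤ if r = r' then w r.2 else 0 := by
      rintro ⟨t, y⟩ ⟨t', y'⟩
      simp only [Complex.norm_real, Real.norm_of_nonneg (ha0 _)]
      have hy := h0 y
      by_cases h : (t, t • y) = (t', t' • y')
      · rw [if_pos h]
        obtain ⟨e1, e2⟩ := Prod.mk.inj h
        subst e1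
        by_cases ht : t = 0
        · simp only [ha, ht, ne_eq, not_true_eq_false, if_false, mul_zero]; positivity
        · have := smul_right_injective V ht e2
          subst this
          simp only [ha, ne_eq, ht, not_false_eq_true, if_true]
          nlinarith [h1 y]
      · rw [if_neg h]; positivity
    refine (sum_le_sum fun r _ => sum_le_sum fun r' _ => this r r').trans (le_of_eq ?_)
    simp only [sum_ite_eq, mem_univ, if_true]
    rw [Fintype.sum_prod_type]
    simp [hq, hnn]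
  have e3 : ∀ p : V × F, C p = ((q * (∑ y with p.2 - 2 * B p.1 y = 0, w y) - n : ℝ) : ℂ) := by
    intro p
    rw [hC]
    simp only
    rw [Fintype.sum_prod_type_right, sum_filter, hnn]
    push_cast
    rw [mul_sum, ← sum_sub_distrib]
    refine sum_congr rfl fun y _ => ?_
    have : ∀ t : F, (a (t, y) : ℂ) * ψ (p.2 * t - 2 * B p.1 (t • y))
        = w y * (if t ≠ 0 then ψ (t * (p.2 - 2 * B p.1 y)) else 0) := by
      intro t
      simp only [ha, map_smul, smul_eq_mul]
      split_ifs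
      · congr 2; ring
      · simp
    simp_rw [this]
    rw [← mul_sum, sum_psi_ne ψ hψ]
    split_ifs <;> simp [hq]
    ring
  have e5 : ∀ p : V × F, ‖C p‖ ^ 4 ≤ (if p = 0 then q ^ 4 * n ^ 4 else 0) + (q * μ) ^ 2 * ‖C p‖ ^ 2 := by
    intro p
    have hs0 : 0 ≤ ∑ y with p.2 - 2 * B p.1 y = 0, w y := sum_nonneg fun x _ => h0 x
    by_cases hp : p = 0
    · rw [if_pos hp]
      have hs1 : ∑ y with p.2 - 2 * B p.1 y = 0, w y ≤ n :=
        sum_le_sum_of_subset_of_nonneg (filter_subset _ _) fun x _ _ => h0 x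
      have : ‖C p‖ ≤ q * n := by
        rw [e3, Complex.norm_real, Real.norm_eq_abs, abs_le]
        constructor <;> nlinarith
      have := pow_le_pow_left₀ (norm_nonneg _) this 4
      rw [mul_pow] at this
      nlinarith [sq_nonneg (q * μ), sq_nonneg ‖C p‖]
    · rw [if_neg hp, zero_add]
      have hμ0 : 0 ≤ q * μ := hn0.trans hn
      have hs1 : q * ∑ y with p.2 - 2 * B p.1 y = 0, w y ≤ q * μ := by
        by_cases hp1 : p.1 = 0
        · have hp2 : p.2 ≠ 0 := fun h => hp (Prod.ext hp1 h)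
          simpa [hp1, hp2] using hμ0
        · refine mul_le_mul_of_nonneg_left ?_ (by linarith)
          refine le_trans (le_of_eq ?_) (hμ p.1 hp1 (p.2 / 2))
          refine sum_congr (filter_congr fun y _ => ?_) fun _ _ => rfl
          rw [eq_div_iff (two_ne hF), sub_eq_zero, eq_comm, mul_comm]
      have : ‖C p‖ ≤ q * μ := by
        rw [e3, Complex.norm_real, Real.norm_eq_abs, abs_le]
        constructor <;> nlinarith
      have := pow_le_pow_left₀ (norm_nonneg _) this 2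
      rw [show ‖C p‖ ^ 4 = ‖C p‖ ^ 2 * ‖C p‖ ^ 2 by ring]
      exact mul_le_mul_of_nonneg_right this (sq_nonneg _)
  rw [← e4]
  refine (sum_le_sum fun p _ => e5 p).trans ?_
  rw [sum_add_distrib, ← mul_sum]
  simp only [sum_ite_eq', mem_univ, if_true]
  have := mul_le_mul_of_nonneg_left e2 (sq_nonneg (q * μ))
  nlinarith

/-- weighted count of isotropic pairs -/
noncomputable def Iso (B : V →ₗ[F] V →ₗ[F] F) (w : V → ℝ) : ℝ :=
  ∑ x, ∑ y, if B (x - y) (x - y) = 0 then w x * w y else 0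

lemma sum_phi_sq (ψ : AddChar F ℂ) (hψ : ψ ≠ 1) {j : F} (hj : j ≠ 0) (t : F) :
    ∑ τ with τ ≠ 0, phi ψ j (τ * (τ * t)) = ((if t = 0 then (Fintype.card F : ℝ) - 1
      else -(#{s : F | s ^ 2 = j * t} : ℝ) : ℝ) : ℂ) := by
  have h1 : ∀ τ : F, τ ≠ 0 → phi ψ j (τ * (τ * t)) = ∑ s with s ^ 2 = j * t, ψ (τ * s) := by
    intro τ hτ
    unfold phi
    symm
    refine sum_equiv (Equiv.mulLeft₀ τ hτ) (fun s => ?_) (fun _ _ => rfl)
    simp only [mem_filter, mem_univ, true_and, Equiv.mulLeft₀_apply]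
    constructor
    · intro h; rw [mul_pow, h]; ring
    · intro h
      refine mul_left_cancel₀ (pow_ne_zero 2 hτ) ?_
      rw [← mul_pow, h]; ring
  rw [sum_congr rfl fun τ hτ => h1 τ (mem_filter.1 hτ).2, sum_comm]
  simp_rw [sum_filter (fun τ : F => τ ≠ 0), sum_psi_ne ψ hψ]
  by_cases ht : t = 0
  · rw [show (univ.filter fun s : F => s ^ 2 = j * t) = {0} by ext s; simp [ht]]
    simp [ht]
  · rw [if_neg ht, sum_congr rfl (g := fun _ => (-1 : ℂ))]
    · simp
    · intro s hs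
      have : s ≠ 0 := by
        rintro rfl
        have := (mem_filter.1 hs).2
        simp [hj, ht] at this
      simp [this]

theorem Iso_bound {ψ : AddChar F ℂ} (hψ : ψ ≠ 1) {j : F} (hj : j ≠ 0)
    {B : V →ₗ[F] V →ₗ[F] F} {k : ℕ} (hG : Good ψ j B k) (w : V → ℝ) (h0 : ∀ x, 0 ≤ w x)
    (h1 : ∀ x, w x ≤ 1) :
    Fintype.card F * Iso B w
      ≤ (Fintype.card F : ℝ) ^ (k + 1) * ∑ x, w x + 4 * (∑ x, w x) ^ 2 := by
  set q : ℝ := (Fintype.card F : ℝ) with hq
  set n := ∑ x, w x with hnn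
  have hq2 : 2 ≤ q := two_le_card
  have hn0 : 0 ≤ n := sum_nonneg fun x _ => h0 x
  set ρ : F → ℝ := fun t => if t = 0 then q - 1 else -(#{s : F | s ^ 2 = j * t} : ℝ) with hρ
  have e1 : ((∑ τ : F with τ ≠ 0, ∑ ξ with B ξ ξ = j, ‖∑ x, (w x : ℂ) * ψ (B ξ (τ • x))‖ ^ 2 : ℝ) : ℂ)
      = ((∑ x, ∑ y, w x * w y * ((q - 1) * (if x = y then q ^ (2 * k) else 0)
          - q ^ k * ρ (B (x - y) (x - y))) : ℝ) : ℂ) := by
    rw [Complex.ofReal_sum]
    rw [sum_congr rfl fun τ _ => mass_expand ψ _ (fun ξ m => B ξ m) (fun x m m' => map_sub _ _ _)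
      (fun x => (w x : ℂ)) (fun x => τ • x), sum_comm]
    push_cast
    refine sum_congr rfl fun x _ => ?_
    rw [sum_comm]
    refine sum_congr rfl fun y _ => ?_
    rw [← mul_sum, Complex.conj_ofReal]
    congr 1
    have : ∀ τ ∈ univ.filter (fun τ : F => τ ≠ 0), ∑ ξ with B ξ ξ = j, ψ (B ξ (τ • x - τ • y))
        = (if x = y then (q : ℂ) ^ (2 * k) else 0)
          - (q : ℂ) ^ k * phi ψ j (τ * (τ * B (x - y) (x - y))) := by
      intro τ hτ
      have hτ := (mem_filter.1 hτ).2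
      rw [hG.kf, ← smul_sub]
      generalize hv : x - y = v
      have : v = 0 ↔ x = y := by rw [← hv, sub_eq_zero]
      simp [hτ, this, hq]
    rw [sum_congr rfl this, sum_sub_distrib, ← mul_sum, sum_phi_sq ψ hψ hj, sum_const, nsmul_eq_mul]
    have := card_ne_zero_filter (F := F)
    have h2 : ((#{ρ : F | ρ ≠ 0} : ℕ) : ℂ) = (q : ℂ) - 1 := by
      rw [hq]; exact_mod_cast this
    rw [h2]
    congr 1
    split_ifs <;> simp
  have e2 := Complex.ofReal_injective e1
  have e3 : 0 ≤ ∑ x, ∑ y, w x * w y * ((q - 1) * (if x = y then q ^ (2 * k) else 0)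
          - q ^ k * ρ (B (x - y) (x - y))) := by
    rw [← e2]; positivity
  have e4 : ∀ x y, w x * w y * ((q - 1) * (if x = y then q ^ (2 * k) else 0)
          - q ^ k * ρ (B (x - y) (x - y))) ≤ q ^ k * (((q - 1) * q ^ k) * (if x = y then w x else 0)
        - (q - 1) * (if B (x - y) (x - y) = 0 then w x * w y else 0) + 2 * (w x * w y)) := by
    intro x y
    have hxy : 0 ≤ w x * w y := mul_nonneg (h0 x) (h0 y)
    have hqk : 0 < q ^ k := by positivity
    have a1 : w x * w y * ((q - 1) * (if x = y then q ^ (2 * k) else 0))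
        ≤ q ^ k * (((q - 1) * q ^ k) * (if x = y then w x else 0)) := by
      split_ifs with h
      · subst h
        have : w x * w x ≤ w x := by nlinarith [h0 x, h1 x]
        have h3 : 0 ≤ (q - 1) * q ^ (2 * k) := by have : 0 ≤ q - 1 := by linarith
                                                  positivity
        calc _ ≤ w x * ((q - 1) * q ^ (2 * k)) := mul_le_mul_of_nonneg_right this h3
          _ = _ := by ring
      · simp
    have a2 : (q - 1) * (if B (x - y) (x - y) = 0 then w x * w y else 0) - 2 * (w x * w y)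
        ≤ w x * w y * ρ (B (x - y) (x - y)) := by
      simp only [hρ]
      split_ifs
      · nlinarith
      · have : (#{s : F | s ^ 2 = j * B (x - y) (x - y)} : ℝ) ≤ 2 := by
          exact_mod_cast card_sqrt_le (j * B (x - y) (x - y))
        nlinarith
    nlinarith [mul_le_mul_of_nonneg_left a2 hqk.le]
  have e5 := e3.trans (sum_le_sum fun x _ => sum_le_sum fun y _ => e4 x y)
  simp only [← mul_sum, sum_add_distrib, sum_sub_distrib, sum_ite_eq, mem_univ, if_true,
    ← sum_mul] at e5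
  have e6 : 0 ≤ (q - 1) * q ^ k * n - (q - 1) * Iso B w + 2 * (n * n) :=
    nonneg_of_mul_nonneg_right (by simpa [Iso, hnn] using e5) (by positivity : 0 < q ^ k) |>.trans
      le_rfl
  have hI : 0 ≤ q ^ k * n := by positivity
  rw [pow_succ]
  by_contra hc
  push Not at hc
  nlinarith

end Pool.Agent.Lib.MP_c8b0a1_an
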