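import Pool.Agent.Lib.MP_c8b0a1_an.Descend

set_option autoImplicit false
set_option linter.unusedSectionVars false

namespace Pool.Agent.Lib.MP_c8b0a1_an

open Finset

variable {F : Type} [Field F] [Fintype F] [DecidableEq F]
variable {V : Type} [AddCommGroup V] [Module F V] [Fintype V] [DecidableEq V]

lemma card_quad_le (hF : ringChar F ≠ 2) (α β γ : F) :
    #{a : F | γ + 2 * a * β + a ^ 2 * α = 0 ∧ ¬ (α = 0 ∧ β + a * α = 0)} ≤ 2 := by
  have h2 := two_ne hF
  by_cases hα : α = 0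
  · refine le_trans (card_le_one.2 fun a ha b hb => ?_) one_le_two
    simp only [hα, mem_filter, mem_univ, true_and, mul_zero, add_zero] at ha hb
    refine mul_right_cancel₀ (mul_ne_zero h2 ha.2) ?_
    linear_combination ha.1 - hb.1
  · refine le_trans (card_le_card_of_injOn (fun a => α * a + β) (fun a ha => ?_) ?_)
      (card_sqrt_le (β ^ 2 - α * γ))
    · have := (mem_filter.1 (mem_coe.1 ha)).2.1
      refine mem_coe.2 (mem_filter.2 ⟨mem_univ _, ?_⟩)
      linear_combination α * this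
    · intro a _ b _ h
      exact mul_left_cancel₀ hα (add_right_cancel h)

lemma off_bound (hF : ringChar F ≠ 2) {ψ : AddChar F ℂ} {j : F} {B : V →ₗ[F] V →ₗ[F] F} {k : ℕ}
    (hG : Good ψ j B k) (r : V) (c : F) (g : V → ℂ) (hg : ∀ x, B r x ≠ c → g x = 0) :
    ∑ ξ with B ξ ξ = j, (if B r r = 0 ∧ B r ξ = 0 then 0 else ‖ft ψ B g ξ‖ ^ 2)
      ≤ 2 * ((Fintype.card F : ℝ) ^ (2 * k) * ∑ x, ‖g x‖ ^ 2) := by
  set q : ℝ := (Fintype.card F : ℝ) with hq
  have hq0 : 0 < q := card_pos'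
  have inv : ∀ ξ (a : F), ‖ft ψ B g (ξ + a • r)‖ = ‖ft ψ B g ξ‖ := by
    intro ξ a
    have : ft ψ B g (ξ + a • r) = ψ (a * c) * ft ψ B g ξ := by
      unfold ft
      rw [mul_sum]
      refine sum_congr rfl fun x _ => ?_
      by_cases h : B r x = c
      · simp only [map_add, map_smul, LinearMap.add_apply, LinearMap.smul_apply, smul_eq_mul, h,
          AddChar.map_add_eq_mul]
        ring
      · simp [hg x h]
    rw [this, norm_mul, norm_psi, one_mul]
  set H : V → ℝ := fun ξ => if B ξ ξ = j ∧ ¬ (B r r = 0 ∧ B r ξ = 0) then ‖ft ψ B g ξ‖ ^ 2 else 0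
    with hH
  have e1 : ∑ ξ with B ξ ξ = j, (if B r r = 0 ∧ B r ξ = 0 then 0 else ‖ft ψ B g ξ‖ ^ 2)
      = ∑ ξ, H ξ := by
    rw [sum_filter]
    refine sum_congr rfl fun ξ _ => ?_
    simp only [hH]
    by_cases h1 : B ξ ξ = j <;> by_cases h2 : (B r r = 0 ∧ B r ξ = 0) <;> simp [h1, h2]
  have e2 : q * ∑ ξ, H ξ = ∑ ξ, ∑ a : F, H (ξ + a • r) := by
    have : ∀ a : F, ∑ ξ, H (ξ + a • r) = ∑ ξ, H ξ :=
      fun a => Fintype.sum_equiv (Equiv.addRight (a • r)) _ _ (fun _ => rfl)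
    rw [sum_comm]
    simp [this, hq]
  have e3 : ∀ ξ, ∑ a : F, H (ξ + a • r) ≤ 2 * ‖ft ψ B g ξ‖ ^ 2 := by
    intro ξ
    simp only [hH, inv]
    rw [← sum_filter, sum_const, nsmul_eq_mul]
    refine mul_le_mul_of_nonneg_right ?_ (sq_nonneg _)
    have := card_quad_le hF (B r r) (B r ξ) (B ξ ξ - j)
    refine le_trans ?_ (show ((_ : ℕ) : ℝ) ≤ 2 by exact_mod_cast this)
    refine Nat.cast_le.2 (le_of_eq (congrArg card (filter_congr fun a _ => ?_)))
    simp only [map_add, map_smul, LinearMap.add_apply, LinearMap.smul_apply, smul_eq_mul,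
      hG.symm ξ r]
    refine and_congr_left fun _ => ⟨fun h => by linear_combination h, fun h => by linear_combination h⟩
  rw [e1]
  refine le_of_mul_le_mul_left ?_ hq0
  rw [e2]
  refine (sum_le_sum fun ξ _ => e3 ξ).trans (le_of_eq ?_)
  rw [← mul_sum, ft_parseval hG]
  ring

lemma sum_ite_le_one {α β : F} (hα : α ≠ 0) {z : ℝ} (hz : 0 ≤ z) :
    ∑ b : F, (if α + b * β = 0 then z else 0) ≤ z := by
  refine (sum_le_sum (g := fun b => if -α / β = b then z else 0) fun b _ => ?_).trans (by simp)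
  split_ifs with h1 h2
  · exact le_rfl
  · exfalso
    apply h2
    have hβ : β ≠ 0 := by rintro rfl; simp [hα] at h1
    rw [div_eq_iff hβ]
    linear_combination -h1
  · exact hz
  · exact le_rfl

lemma cross_kernel (hF : ringChar F ≠ 2) {ψ : AddChar F ℂ} (hψ : ψ ≠ 1) {j : F} (hj : j ≠ 0)
    {B : V →ₗ[F] V →ₗ[F] F} {k : ℕ} (hG : Good ψ j B k) {r : V} (hr : B r r = 0) (s : V) {m : V}
    (hm : B r m ≠ 0) :
    (Fintype.card F : ℝ) ^ 2 * ‖∑ ξ with (B ξ ξ = j ∧ B r ξ = 0 ∧ B s ξ = 0), ψ (B ξ m)‖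
      ≤ (Fintype.card F : ℝ) ^ (2 * k) * (∑ b : F, ∑ a : F, if m + b • s + a • r = 0 then 1 else 0)
        + 2 * (Fintype.card F : ℝ) ^ (k + 1) := by
  set q : ℝ := (Fintype.card F : ℝ) with hq
  have hq0 : 0 < q := card_pos'
  have e1 : (q : ℂ) ^ 2 * ∑ ξ with (B ξ ξ = j ∧ B r ξ = 0 ∧ B s ξ = 0), ψ (B ξ m)
      = ∑ b : F, ∑ a : F, ∑ ξ with B ξ ξ = j, ψ (B ξ (m + b • s + a • r)) := by
    rw [sum_congr rfl fun b _ => sum_comm, sum_comm, ← filter_filter, sum_filter, mul_sum]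
    refine sum_congr rfl fun ξ _ => ?_
    simp only [map_add, map_smul, smul_eq_mul, AddChar.map_add_eq_mul, ← mul_sum, ← sum_mul,
      sum_psi ψ hψ, hG.symm ξ r, hG.symm ξ s]
    by_cases h1 : B r ξ = 0 <;> by_cases h2 : B s ξ = 0 <;> simp [h1, h2, hq]
    ring
  have e2 : ∀ b : F, ‖∑ a : F, phi ψ j (B (m + b • s + a • r) (m + b • s + a • r))‖
      ≤ if B r m + b * B r s = 0 then 2 * q else 0 := by
    intro b
    split_ifs with h
    · refine (norm_sum_le _ _).trans ((sum_le_sum fun a _ => norm_phi_le _ _ _).trans ?_)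
      simp [hq, mul_comm]
    · have := sum_phi_affine ψ hψ hj (B (m + b • s) (m + b • s)) (mul_ne_zero (two_ne hF) h)
      rw [← norm_zero (E := ℂ), ← this]
      refine le_of_eq (congrArg _ (sum_congr rfl fun a _ => congrArg _ ?_))
      generalize hu : m + b • s = u
      have : B r m + b * B r s = B r u := by rw [← hu]; simp
      rw [this]
      simp [hr, hG.symm u r]
      ring
  have e3 := (sum_le_sum fun b (_ : b ∈ univ) => e2 b).trans (sum_ite_le_one hm (by positivity))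
  calc _ = ‖(q : ℂ) ^ 2 * ∑ ξ with (B ξ ξ = j ∧ B r ξ = 0 ∧ B s ξ = 0), ψ (B ξ m)‖ := by
        rw [norm_mul, norm_pow, Complex.norm_real, Real.norm_of_nonneg hq0.le]
    _ = ‖(∑ b : F, ∑ a : F, if m + b • s + a • r = 0 then (Fintype.card F : ℂ) ^ (2 * k) else 0)
        - (Fintype.card F : ℂ) ^ k *
          ∑ b : F, ∑ a : F, phi ψ j (B (m + b • s + a • r) (m + b • s + a • r))‖ := by
        rw [e1]
        simp only [hG.kf, sum_sub_distrib, mul_sum]
    _ ≤ _ := by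
        refine (norm_sub_le _ _).trans (add_le_add ?_ ?_)
        · rw [mul_sum]
          refine (norm_sum_le _ _).trans (sum_le_sum fun b _ => ?_)
          rw [mul_sum]
          refine (norm_sum_le _ _).trans (sum_le_sum fun a _ => ?_)
          split_ifs <;> simp [hq]
        · rw [norm_mul, norm_pow, Complex.norm_natCast, ← hq]
          calc _ ≤ q ^ k * (2 * q) := by
                gcongr
                exact (norm_sum_le _ _).trans e3
            _ = _ := by ring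

lemma cross_bound (hF : ringChar F ≠ 2) {ψ : AddChar F ℂ} (hψ : ψ ≠ 1) {j : F} (hj : j ≠ 0)
    {B : V →ₗ[F] V →ₗ[F] F} {k : ℕ} (hG : Good ψ j B k) {r : V} (hr : B r r = 0) (s : V) (c : F)
    (g h : V → ℂ) (h1 : ∀ x, ‖g x‖ ≤ 1) (hg : ∀ x, B r x ≠ c → g x = 0)
    (hh : ∀ y, B r y = c → h y = 0) :
    (Fintype.card F : ℝ) ^ 2 * ‖∑ ξ with (B ξ ξ = j ∧ B r ξ = 0 ∧ B s ξ = 0),
        ft ψ B g ξ * (starRingEnd ℂ) (ft ψ B h ξ)‖
      ≤ (Fintype.card F : ℝ) ^ (2 * k + 1) * ∑ y, ‖h y‖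
        + 2 * (Fintype.card F : ℝ) ^ (k + 1) * ((∑ x, ‖g x‖) * ∑ y, ‖h y‖) := by
  set q : ℝ := (Fintype.card F : ℝ) with hq
  have hq0 : 0 < q := card_pos'
  have e1 : ∑ ξ with (B ξ ξ = j ∧ B r ξ = 0 ∧ B s ξ = 0),
        ft ψ B g ξ * (starRingEnd ℂ) (ft ψ B h ξ) = ∑ y, ∑ x, g x * (starRingEnd ℂ) (h y) *
          ∑ ξ with (B ξ ξ = j ∧ B r ξ = 0 ∧ B s ξ = 0), ψ (B ξ (x - y)) := by
    unfold ft
    simp_rw [map_sum, sum_mul_sum, mul_sum]
    rw [sum_comm, sum_congr rfl fun x _ => sum_comm, sum_comm]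
    refine sum_congr rfl fun y _ => sum_congr rfl fun x _ => sum_congr rfl fun ξ _ => ?_
    rw [map_mul, map_sub, ← psi_mul_conj]
    ring
  have e2 : ∀ y x, q ^ 2 * ‖g x * (starRingEnd ℂ) (h y) *
          ∑ ξ with (B ξ ξ = j ∧ B r ξ = 0 ∧ B s ξ = 0), ψ (B ξ (x - y))‖
      ≤ ‖h y‖ * (q ^ (2 * k) * (∑ b : F, ∑ a : F, if y - b • s - a • r = x then ‖g x‖ else 0)
        + 2 * q ^ (k + 1) * ‖g x‖) := by
    intro y x
    by_cases hx : B r x = c
    swap
    · simp [hg x hx]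
    by_cases hy : B r y = c
    · simp [hh y hy]
    have hm : B r (x - y) ≠ 0 := by
      rw [map_sub, hx, sub_ne_zero]; exact Ne.symm hy
    have := cross_kernel hF hψ hj hG hr s hm
    rw [norm_mul, norm_mul, RCLike.norm_conj]
    have e : (∑ b : F, ∑ a : F, if y - b • s - a • r = x then ‖g x‖ else 0)
        = ‖g x‖ * ∑ b : F, ∑ a : F, if x - y + b • s + a • r = 0 then (1 : ℝ) else 0 := by
      simp only [mul_sum]
      refine sum_congr rfl fun b _ => sum_congr rfl fun a _ => ?_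
      have : y - b • s - a • r = x ↔ x - y + b • s + a • r = 0 := by
        rw [← sub_eq_zero, ← neg_eq_zero]
        exact Eq.congr_left (by abel)
      simp only [this]
      split_ifs <;> simp
    rw [e]
    have h2 := mul_le_mul_of_nonneg_left this (mul_nonneg (norm_nonneg (g x)) (norm_nonneg (h y)))
    refine le_trans (le_of_eq ?_) (h2.trans (le_of_eq ?_))
    · ring
    · ring
  have e3 : ∀ y, ‖h y‖ * ∑ x, (∑ b : F, ∑ a : F, if y - b • s - a • r = x then ‖g x‖ else 0)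
      ≤ ‖h y‖ * q := by
    intro y
    by_cases hy : B r y = c
    · simp [hh y hy]
    refine mul_le_mul_of_nonneg_left ?_ (norm_nonneg _)
    rw [sum_comm, sum_congr rfl fun b _ => sum_comm]
    simp only [sum_ite_eq, mem_univ, if_true]
    refine le_trans (sum_le_sum fun b _ => ?_)
      (sum_ite_le_one (β := -B r s) (sub_ne_zero.2 hy) hq0.le)
    split_ifs with hb
    · refine (sum_le_sum fun a _ => h1 _).trans (le_of_eq ?_)
      simp [hq]
    · refine le_of_eq (sum_eq_zero fun a _ => ?_)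
      rw [hg, norm_zero]
      intro h3
      apply hb
      simp only [map_sub, map_smul, smul_eq_mul, hr] at h3
      linear_combination h3
  rw [e1]
  calc _ ≤ ∑ y, ∑ x, q ^ 2 * ‖g x * (starRingEnd ℂ) (h y) *
          ∑ ξ with (B ξ ξ = j ∧ B r ξ = 0 ∧ B s ξ = 0), ψ (B ξ (x - y))‖ := by
        simp only [← mul_sum]
        gcongr
        exact (norm_sum_le _ _).trans (sum_le_sum fun y _ => norm_sum_le _ _)
    _ ≤ _ := sum_le_sum fun y _ => sum_le_sum fun x _ => e2 y x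
    _ = ∑ y, (q ^ (2 * k) * (‖h y‖ *
          ∑ x, (∑ b : F, ∑ a : F, if y - b • s - a • r = x then ‖g x‖ else 0))
          + 2 * q ^ (k + 1) * ((∑ x, ‖g x‖) * ‖h y‖)) := by
        refine sum_congr rfl fun y _ => ?_
        rw [← mul_sum, sum_add_distrib, ← mul_sum, ← mul_sum]
        ring
    _ ≤ ∑ y, (q ^ (2 * k) * (‖h y‖ * q) + 2 * q ^ (k + 1) * ((∑ x, ‖g x‖) * ‖h y‖)) := by
        exact sum_le_sum fun y _ => add_le_add (mul_le_mul_of_nonneg_left (e3 y) (by positivity))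
          le_rfl
    _ = _ := by
        rw [sum_add_distrib, ← mul_sum, ← mul_sum, ← mul_sum, ← sum_mul]
        ring

end Pool.Agent.Lib.MP_c8b0a1_an
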