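import Pool.Agent.Lib.MP_c8b0a1_an.Rem

set_option autoImplicit false
set_option linter.unusedSectionVars false

namespace Pool.Agent.Lib.MP_c8b0a1_an

open Finset

variable {F : Type} [Field F] [Fintype F] [DecidableEq F]
variable {V : Type} [AddCommGroup V] [Module F V] [Fintype V] [DecidableEq V]

/-- orthogonal complement of two vectors -/
def Perp (B : V →ₗ[F] V →ₗ[F] F) (r r' : V) : Submodule F V :=
  LinearMap.ker (B r) ⊓ LinearMap.ker (B r')

/-- restricted form -/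
def resB (B : V →ₗ[F] V →ₗ[F] F) (r r' : V) : Perp B r r' →ₗ[F] Perp B r r' →ₗ[F] F :=
  B.compl₁₂ (Perp B r r').subtype (Perp B r r').subtype

lemma resB_apply (B : V →ₗ[F] V →ₗ[F] F) (r r' : V) (x y : Perp B r r') :
    resB B r r' x y = B x y := rfl

lemma perp1 {B : V →ₗ[F] V →ₗ[F] F} {r r' : V} (x : Perp B r r') : B r x = 0 := x.2.1
lemma perp2 {B : V →ₗ[F] V →ₗ[F] F} {r r' : V} (x : Perp B r r') : B r' x = 0 := x.2.2

lemma sum_perp {B : V →ₗ[F] V →ₗ[F] F} (hs : ∀ x y, B x y = B y x) {r r' : V} (hr : B r r = 0)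
    (hr' : B r r' = 1) [Fintype (Perp B r r')] {M : Type} [AddCommMonoid M] (H : V → M) (c : F) :
    ∑ x with B r x = c, H x = ∑ x : Perp B r r', ∑ a : F, H (x + c • r' + a • r) := by
  rw [← Fintype.sum_prod_type' (fun (x : Perp B r r') (a : F) => H (x + c • r' + a • r))]
  symm
  refine sum_bij (fun p _ => (p.1 : V) + c • r' + p.2 • r) ?_ ?_ ?_ (fun _ _ => rfl)
  · intro p _
    simp [perp1 p.1, hr, hr']
  · intro p _ p' _ h
    have h2 : p.2 = p'.2 := by
      have := congrArg (B r') h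
      simpa [perp2 p.1, perp2 p'.1, hs r' r, hr'] using this
    rw [h2, add_left_inj, add_left_inj] at h
    exact Prod.ext (Subtype.ext h) h2
  · intro x hx
    have hx := (mem_filter.1 hx).2
    refine ⟨(⟨x - c • r' - (B r' x - c * B r' r') • r, ?_, ?_⟩, B r' x - c * B r' r'),
      mem_univ _, by simp only; abel⟩
    · simp [hx, hr, hr']
    · simp [hs r' r, hr']

lemma avg_perp {ψ : AddChar F ℂ} (hψ : ψ ≠ 1) {B : V →ₗ[F] V →ₗ[F] F} (hs : ∀ x y, B x y = B y x)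
    {r r' : V} (hr : B r r = 0) (hr' : B r r' = 1) [Fintype (Perp B r r')] (h : F → Prop)
    [DecidablePred h] (x : Perp B r r') :
    ∑ a : F, ∑ ξ with h (B ξ ξ), ψ (B ξ (x + a • r))
      = (Fintype.card F : ℂ) ^ 2 * ∑ ξ with h (resB B r r' ξ ξ), ψ (resB B r r' ξ x) := by
  rw [sum_comm]
  have e : ∀ ξ, ∑ a : F, ψ (B ξ (x + a • r))
      = if B r ξ = 0 then Fintype.card F * ψ (B ξ x) else 0 := by
    intro ξ
    simp only [map_add, map_smul, smul_eq_mul, AddChar.map_add_eq_mul]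
    rw [← mul_sum, sum_psi ψ hψ, hs ξ r]
    split_ifs <;> ring
  simp_rw [e]
  rw [← sum_filter, filter_comm, sum_filter, sum_perp hs hr hr', sum_filter, mul_sum]
  refine sum_congr rfl fun ξ _ => ?_
  have e1 : ∀ a : F, B (ξ + (0 : F) • r' + a • r) (ξ + (0 : F) • r' + a • r) = B ξ ξ := by
    intro a
    simp [hr, perp1 ξ, hs ξ r]
  have e2 : ∀ a : F, B (ξ + (0 : F) • r' + a • r) x = B ξ x := by
    intro a
    simp [perp1 x]
  simp_rw [e1, e2, resB_apply]
  split_ifs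
  · simp; ring
  · simp

lemma sum_ite_perp {B : V →ₗ[F] V →ₗ[F] F} (hs : ∀ x y, B x y = B y x)
    {r r' : V} (hr' : B r r' = 1) (x : Perp B r r') (z : ℂ) :
    ∑ a : F, (if (x : V) + a • r = 0 then z else 0) = if x = 0 then z else 0 := by
  have : ∀ a : F, ((x : V) + a • r = 0) ↔ (x = 0 ∧ a = 0) := by
    intro a
    constructor
    · intro h
      have h2 : a = 0 := by simpa [perp2 x, hs r' r, hr'] using congrArg (B r') h
      rw [h2, zero_smul, add_zero] at h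
      exact ⟨Subtype.ext h, h2⟩
    · rintro ⟨rfl, rfl⟩; simp
  simp_rw [this]
  by_cases h : x = 0 <;> simp [h]

theorem good_perp {ψ : AddChar F ℂ} (hψ : ψ ≠ 1) {j : F} {B : V →ₗ[F] V →ₗ[F] F} {m : ℕ}
    (hG : Good ψ j B (m + 1)) {r r' : V} (hr : B r r = 0) (hr' : B r r' = 1)
    [Fintype (Perp B r r')] : Good ψ j (resB B r r') m := by
  have hq : (Fintype.card F : ℂ) ^ 2 ≠ 0 := pow_ne_zero _ card_ne
  refine ⟨fun x y => hG.symm _ _, fun x => ?_, fun x => ?_⟩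
  · have := avg_perp hψ hG.symm hr hr' (fun _ => True) x
    simp only [filter_true, hG.orth] at this
    rw [sum_ite_perp hG.symm hr'] at this
    refine mul_left_cancel₀ hq ?_
    rw [← this]
    split_ifs
    · push_cast; ring
    · simp
  · have := avg_perp hψ hG.symm hr hr' (fun t => t = j) x
    simp only [hG.kf] at this
    have e1 : ∀ a : F, B (x + a • r) (x + a • r) = B x x := by
      intro a
      simp [hr, perp1 x, hG.symm x r]
    simp_rw [e1] at this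
    rw [sum_sub_distrib, sum_ite_perp hG.symm hr', sum_const, card_univ, nsmul_eq_mul] at this
    refine mul_left_cancel₀ hq ?_
    rw [← this, resB_apply]
    split_ifs <;> ring

lemma exists_dual {ψ : AddChar F ℂ} {j : F} {B : V →ₗ[F] V →ₗ[F] F} {k : ℕ}
    (hG : Good ψ j B k) {r : V} (hr : r ≠ 0) : ∃ r', B r r' = 1 := by
  by_contra hc
  have h0 : ∀ x, B x r = 0 := by
    intro x
    by_contra h
    exact hc ⟨(B x r)⁻¹ • x, by simp [hG.symm r x, h]⟩
  have := hG.orth r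
  simp [h0, hr] at this

/-- the inductive estimate -/
def Bd (ψ : AddChar F ℂ) (j : F) (B : V →ₗ[F] V →ₗ[F] F) (k : ℕ) (C : ℝ) : Prop :=
  ∀ g : V → ℂ, (∀ x, ‖g x‖ ≤ 1) → ∀ t : ℝ, 1 ≤ t → ∑ x, ‖g x‖ ≤ t ^ (5 * k + 6) →
    mass ψ j B g ≤ C * ((Fintype.card F : ℝ) ^ (2 * k) * t ^ 5 * ∑ x, ‖g x‖)

lemma on_diag {ψ : AddChar F ℂ} {j : F} {B : V →ₗ[F] V →ₗ[F] F} (hs : ∀ x y, B x y = B y x)
    {r r' : V} (hr : B r r = 0) (hr' : B r r' = 1) [Fintype (Perp B r r')] {m : ℕ} {C : ℝ}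
    (hC : 0 ≤ C) (IH : Bd ψ j (resB B r r') m C) (g : V → ℂ) (h1 : ∀ x, ‖g x‖ ≤ 1) (c : F)
    (hg : ∀ x, B r x ≠ c → g x = 0) {t : ℝ} (ht : 1 ≤ t)
    (hn : ∑ x, ‖g x‖ ≤ Fintype.card F * t ^ (5 * m + 6)) :
    ∑ ξ with B ξ ξ = j, (if B r ξ = 0 then ‖ft ψ B g ξ‖ ^ 2 else 0)
      ≤ C * ((Fintype.card F : ℝ) ^ (2 * (m + 1)) * t ^ 5 * ∑ x, ‖g x‖) := by
  set q : ℝ := (Fintype.card F : ℝ) with hq
  have hq0 : 0 < q := card_pos'
  set g' : Perp B r r' → ℂ := fun x => (q : ℂ)⁻¹ * ∑ a : F, g (x + c • r' + a • r) with hg'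
  have supp : ∀ {M : Type} [AddCommMonoid M] (H : V → M), (∀ x, g x = 0 → H x = 0) →
      ∑ x, H x = ∑ x : Perp B r r', ∑ a : F, H (x + c • r' + a • r) := by
    intro M _ H hH
    rw [← sum_perp hs hr hr', sum_filter]
    refine sum_congr rfl fun x _ => ?_
    split_ifs with h
    · rfl
    · exact hH x (hg x h)
  have n1 : ∀ x, ‖g' x‖ ≤ q⁻¹ * ∑ a : F, ‖g (x + c • r' + a • r)‖ := by
    intro x
    rw [hg']
    simp only
    rw [norm_mul, norm_inv, Complex.norm_real, Real.norm_of_nonneg hq0.le]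
    exact mul_le_mul_of_nonneg_left (norm_sum_le _ _) (by positivity)
  have n2 : ∀ x, ‖g' x‖ ≤ 1 := by
    intro x
    refine (n1 x).trans ?_
    rw [inv_mul_le_iff₀ hq0]
    refine (sum_le_sum fun a _ => h1 _).trans (le_of_eq ?_)
    simp [hq]
  have n3 : ∑ x, ‖g' x‖ ≤ q⁻¹ * ∑ x, ‖g x‖ := by
    rw [supp (fun x => ‖g x‖) (fun x h => by simp [h]), mul_sum]
    exact sum_le_sum fun x _ => n1 x
  have n4 := IH g' n2 t ht (n3.trans (by rw [inv_mul_le_iff₀ hq0]; exact hn))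
  have e1 : ∀ (ξ : Perp B r r') (b : F),
      ‖ft ψ B g (ξ + (0 : F) • r' + b • r)‖ = q * ‖ft ψ (resB B r r') g' ξ‖ := by
    intro ξ b
    have : ft ψ B g (ξ + (0 : F) • r' + b • r) = ψ (b * c) * (q * ft ψ (resB B r r') g' ξ) := by
      unfold ft
      rw [supp _ (fun x h => by simp [h]), mul_sum, mul_sum]
      refine sum_congr rfl fun x _ => ?_
      rw [hg']
      simp only
      rw [← mul_assoc (q : ℂ), ← mul_assoc (q : ℂ), mul_inv_cancel₀ (by exact_mod_cast hq0.ne'),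
        one_mul, sum_mul, mul_sum]
      refine sum_congr rfl fun a _ => ?_
      rw [mul_left_comm, ← AddChar.map_add_eq_mul, resB_apply]
      congr 2
      simp [hr, hr', perp1 x, hs ξ r, hs ξ r', perp1 ξ, perp2 ξ, add_comm]
    rw [this, norm_mul, norm_psi, one_mul, norm_mul, Complex.norm_real, Real.norm_of_nonneg hq0.le]
  have e2 : ∑ ξ with B ξ ξ = j, (if B r ξ = 0 then ‖ft ψ B g ξ‖ ^ 2 else 0)
      = q ^ 3 * mass ψ j (resB B r r') g' := by
    rw [← sum_filter, filter_comm, sum_filter, sum_perp hs hr hr', mass, sum_filter, mul_sum]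
    refine sum_congr rfl fun ξ _ => ?_
    have e1' : ∀ a : F, B (ξ + (0 : F) • r' + a • r) (ξ + (0 : F) • r' + a • r) = B ξ ξ := by
      intro a
      simp [hr, perp1 ξ, hs ξ r]
    simp_rw [e1', e1, resB_apply]
    split_ifs
    · simp [hq]; ring
    · simp
  rw [e2]
  calc q ^ 3 * mass ψ j (resB B r r') g' ≤ q ^ 3 * (C * (q ^ (2 * m) * t ^ 5 * (q⁻¹ * ∑ x, ‖g x‖))) := by
        gcongr
        exact n4.trans (by gcongr)
    _ = _ := by field_simp; ring

end Pool.Agent.Lib.MP_c8b0a1_an
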