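import Pool.Agent.Lib.MP_c8b0a1_an.L4

set_option autoImplicit false
set_option linter.unusedSectionVars false

namespace Pool.Agent.Lib.MP_c8b0a1_an

open Finset

variable {F : Type} [Field F] [Fintype F] [DecidableEq F]

/-- the dot product -/
def dotB (F : Type) [Field F] (d : ℕ) : (Fin d → F) →ₗ[F] (Fin d → F) →ₗ[F] F :=
  LinearMap.mk₂ F (fun x y => ∑ i, x i * y i)
    (fun _ _ _ => by simp [add_mul, sum_add_distrib])
    (fun _ _ _ => by simp [mul_sum, mul_assoc])
    (fun _ _ _ => by simp [mul_add, sum_add_distrib])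
    (fun _ _ _ => by simp [mul_sum, mul_left_comm])

lemma dotB_apply (d : ℕ) (x y : Fin d → F) : dotB F d x y = ∑ i, x i * y i := rfl

lemma psi_sum (ψ : AddChar F ℂ) {ι : Type} (s : Finset ι) (a : ι → F) :
    ψ (∑ i ∈ s, a i) = ∏ i ∈ s, ψ (a i) := by
  classical
  induction s using Finset.induction_on with
  | empty => simp
  | insert i s hi ih => rw [sum_insert hi, prod_insert hi, AddChar.map_add_eq_mul, ih]

lemma sum_pi_psi (ψ : AddChar F ℂ) {d : ℕ} (a : Fin d → F → F) :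
    ∑ ξ : Fin d → F, ψ (∑ i, a i (ξ i)) = ∏ i, ∑ t, ψ (a i t) := by
  rw [prod_univ_sum]
  simp [psi_sum]

lemma dot_orth (ψ : AddChar F ℂ) (hψ : ψ ≠ 1) {d : ℕ} (x : Fin d → F) :
    ∑ ξ : Fin d → F, ψ (∑ i, ξ i * x i) = if x = 0 then (Fintype.card F : ℂ) ^ d else 0 := by
  rw [sum_pi_psi ψ (fun i t => t * x i)]
  simp_rw [sum_psi ψ hψ]
  split_ifs with h
  · simp [h]
  · obtain ⟨i, hi⟩ := Function.ne_iff.1 h
    exact prod_eq_zero (mem_univ i) (if_neg hi)

theorem good_dot (hF : ringChar F ≠ 2) {ψ : AddChar F ℂ} (hψ : ψ ≠ 1) {j : F} (hj : j ≠ 0) (k : ℕ)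
    (hk : eta F (-1) ^ k * eta F j = -1) : Good ψ j (dotB F (2 * k + 1)) k := by
  have h4 := four_ne hF
  have hq := card_ne (F := F)
  refine ⟨fun x y => by simp [dotB_apply, mul_comm], fun x => ?_, fun x => ?_⟩
  · simp only [dotB_apply]
    rw [dot_orth ψ hψ]
    split_ifs <;> simp
  · have e1 : ∑ ξ with dotB F (2 * k + 1) ξ ξ = j, ψ (dotB F (2 * k + 1) ξ x)
        = (Fintype.card F : ℂ)⁻¹ * ∑ τ : F, ψ (-(τ * j)) * ∏ i, ∑ t, ψ (τ * t ^ 2 + t * x i) := by
      simp_rw [← sum_pi_psi ψ (fun i t => _ * t ^ 2 + t * x i), mul_sum]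
      rw [sum_comm, sum_filter]
      refine sum_congr rfl fun ξ _ => ?_
      have : ∀ τ : F, ψ (-(τ * j)) * ψ (∑ i, (τ * ξ i ^ 2 + ξ i * x i))
          = ψ (dotB F (2 * k + 1) ξ x) * ψ (τ * (dotB F (2 * k + 1) ξ ξ - j)) := by
        intro τ
        rw [← AddChar.map_add_eq_mul, ← AddChar.map_add_eq_mul]
        congr 1
        simp only [dotB_apply, sum_add_distrib, ← mul_sum, sq]
        ring
      simp_rw [this]
      rw [← mul_sum, ← mul_sum, sum_psi ψ hψ]
      simp only [sub_eq_zero]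
      split_ifs
      · field_simp
      · simp
    have e2 : ∀ τ : F, ψ (-(τ * j)) * ∏ i, ∑ t, ψ (τ * t ^ 2 + t * x i)
        = (if τ = 0 then (if x = 0 then (Fintype.card F : ℂ) ^ (2 * k + 1) else 0) else 0)
          - (Fintype.card F : ℂ) ^ k * (eta F (-j) * GG ψ) *
            (eta F (-(4 * τ)⁻¹) * ψ (dotB F (2 * k + 1) x x * (-(4 * τ)⁻¹)
              + j / 4 * (-(4 * τ)⁻¹)⁻¹)) := by
      intro τ
      by_cases hτ : τ = 0
      · subst hτ
        rw [← dot_orth ψ hψ x, sum_pi_psi ψ (fun i t => t * x i)]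
        simp
      · simp_rw [complete_sq hF ψ hψ hτ]
        rw [if_neg hτ, prod_mul_distrib, ← psi_sum, prod_const, card_univ, Fintype.card_fin,
          ← mul_assoc, ← AddChar.map_add_eq_mul]
        have a1 : -(τ * j) + ∑ i, -(x i ^ 2 / (4 * τ))
            = dotB F (2 * k + 1) x x * (-(4 * τ)⁻¹) + j / 4 * (-(4 * τ)⁻¹)⁻¹ := by
          rw [dotB_apply, sum_mul, add_comm]
          congr 1
          · exact sum_congr rfl fun i _ => by ring
          · field_simp
        have a2 : eta F (-(4 * τ)⁻¹) = eta F (-1) * eta F τ := by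
          rw [neg_eq_neg_one_mul, map_mul, eta_inv, map_mul, show (4 : F) = 2 * 2 by norm_num,
            map_mul, eta_sq (two_ne hF), one_mul]
        have a3 : eta F (-j) = eta F (-1) * eta F j := by rw [← map_mul, neg_one_mul]
        have a4 : (eta F τ * GG ψ) ^ (2 * k + 1)
            = eta F (-1) ^ k * (Fintype.card F : ℂ) ^ k * (eta F τ * GG ψ) := by
          rw [pow_succ, pow_mul, mul_pow, GG_sq hF ψ hψ, sq, eta_sq hτ, one_mul, mul_pow]
        have a5 := eta_sq (F := F) (a := -1) (by simp)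
        have a6 := eta_sq hj
        have a7 : eta F (-1) ^ k = - eta F j := by
          linear_combination eta F j * hk - eta F (-1) ^ k * a6
        rw [a1, a2, a3, a4, a7]
        generalize ψ _ = z
        linear_combination (Fintype.card F : ℂ) ^ k * eta F j * eta F τ * GG ψ * z * a5
    rw [e1, phi_expand hF ψ hψ hj]
    simp_rw [e2]
    rw [sum_sub_distrib, ← mul_sum, sum_ite_eq']
    have e3 : ∑ τ : F, eta F (-(4 * τ)⁻¹) * ψ (dotB F (2 * k + 1) x x * (-(4 * τ)⁻¹)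
              + j / 4 * (-(4 * τ)⁻¹)⁻¹)
        = ∑ τ : F, eta F τ * ψ (dotB F (2 * k + 1) x x * τ + j / 4 * τ⁻¹) :=
      Fintype.sum_equiv ((Equiv.mulLeft₀ (4 : F) h4).trans ((Equiv.inv F).trans (Equiv.neg F)))
        _ _ fun _ => rfl
    rw [e3]
    simp only [mem_univ, if_true]
    generalize ∑ τ : F, eta F τ * ψ (dotB F (2 * k + 1) x x * τ + j / 4 * τ⁻¹) = Y
    split_ifs
    · field_simp
      ring
    · ring

lemma admissible (hF : ringChar F ≠ 2) {d : ℕ} {j : F}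
    (h : (d % 4 = 1 ∧ quadraticChar F j = -1) ∨ (d % 4 = 3 ∧ quadraticChar F (-j) = -1)) :
    d = 2 * (d / 2) + 1 ∧ eta F (-1) ^ (d / 2) * eta F j = -1 := by
  have a5 := eta_sq (F := F) (a := -1) (by simp)
  have _ := hF
  rcases h with ⟨h1, h2⟩ | ⟨h1, h2⟩
  · refine ⟨by omega, ?_⟩
    rw [show d / 2 = 2 * (d / 4) by omega, pow_mul, sq, a5, eta_apply, h2]
    simp
  · refine ⟨by omega, ?_⟩
    rw [show d / 2 = 2 * (d / 4) + 1 by omega, pow_succ, pow_mul, sq, a5, one_pow, one_mul,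
      ← map_mul, neg_one_mul, eta_apply, h2]
    simp

end Pool.Agent.Lib.MP_c8b0a1_an
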