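import Pool.Agent.Lib.MP_c8b0a1_an.Induct
import Pool.Agent.Lib.MP_c8b0a1_an.Kernel

set_option autoImplicit false
set_option linter.unusedSectionVars false

namespace Pool.Agent.Lib.MP_c8b0a1_an

open Finset

variable {F : Type} [Field F] [Fintype F] [DecidableEq F]
variable {V : Type} [AddCommGroup V] [Module F V] [Fintype V] [DecidableEq V]

lemma geom_le {γ : ℝ} (h0 : 0 ≤ γ) (h1 : γ < 1) (M : ℕ) : ∑ m ∈ range M, γ ^ m ≤ (1 - γ)⁻¹ := by
  rw [← tsum_geometric_of_lt_one h0 h1]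
  exact (summable_geometric_of_lt_one h0 h1).sum_le_tsum _ fun _ _ => by positivity

lemma dyadic {ψ : AddChar F ℂ} {j : F} {B : V →ₗ[F] V →ₗ[F] F} {k : ℕ} {C : ℝ} (hC : 0 ≤ C)
    (hB : Bd ψ j B k C) {p a γ : ℝ} (hp : 0 < p) (ha : 1 ≤ a) (hap : a ^ (5 * k + 6) = 2 ^ p)
    (hγ0 : 0 < γ) (hγ1 : γ < 1) (haγ : a ^ (5 * k + 11) = 4 * γ ^ 2) (f : V → ℂ)
    (hf : ∑ x, ‖f x‖ ^ p ≤ 1) :
    mass ψ j B f ≤ 4 * C * (1 - γ)⁻¹ ^ 2 * (Fintype.card F : ℝ) ^ (2 * k) := by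
  set q : ℝ := (Fintype.card F : ℝ) with hq
  have hq0 : 0 < q := card_pos'
  have h1 : ∀ x, ‖f x‖ ≤ 1 := by
    intro x
    have := (single_le_sum (f := fun x => ‖f x‖ ^ p) (fun _ _ => by positivity) (mem_univ x)).trans hf
    by_contra hc
    exact absurd (Real.one_lt_rpow (lt_of_not_ge hc) hp) (not_lt.2 this)
  have hl : ∀ x, ∃ m : ℕ, f x ≠ 0 → (1 / 2 : ℝ) ^ (m + 1) < ‖f x‖ ∧ ‖f x‖ ≤ (1 / 2 : ℝ) ^ m := by
    intro x
    by_cases h : f x = 0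
    · exact ⟨0, fun h' => absurd h h'⟩
    · obtain ⟨m, hm⟩ := exists_nat_pow_near_of_lt_one (norm_pos_iff.2 h) (h1 x)
        (by norm_num : (0 : ℝ) < 1 / 2) (by norm_num)
      exact ⟨m, fun _ => hm⟩
  choose lv hlv using hl
  set M := univ.sup lv + 1 with hM
  set g : ℕ → V → ℂ := fun m x => if lv x = m then 2 ^ m * f x else 0 with hg
  have g1 : ∀ m x, ‖g m x‖ ≤ 1 ∧ ‖g m x‖ ≤ (2 ^ p) ^ (m + 1) * ‖f x‖ ^ p := by
    intro m x
    simp only [hg]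
    split_ifs with h
    · by_cases h0 : f x = 0
      · simp only [h0, mul_zero, norm_zero]; exact ⟨zero_le_one, by positivity⟩
      · obtain ⟨l1, l2⟩ := hlv x h0
        rw [h, one_div_pow] at l1 l2
        rw [div_lt_iff₀ (by positivity)] at l1
        rw [le_div_iff₀ (by positivity)] at l2
        have b1 : ‖(2 : ℂ) ^ m * f x‖ ≤ 1 := by
          rw [norm_mul, norm_pow, Complex.norm_two, mul_comm]; exact l2
        refine ⟨b1, b1.trans ?_⟩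
        rw [← Real.rpow_natCast, ← Real.rpow_mul (by norm_num), mul_comm p,
          Real.rpow_mul (by norm_num), Real.rpow_natCast,
          ← Real.mul_rpow (by positivity) (norm_nonneg _)]
        exact Real.one_le_rpow (by rw [mul_comm]; exact l1.le) hp.le
    · simp only [norm_zero]; exact ⟨zero_le_one, by positivity⟩
  have g2 : ∀ m, mass ψ j B (g m) ≤ C * (q ^ (2 * k) * (4 * γ ^ 2) ^ (m + 1)) := by
    intro m
    have b1 : ∑ x, ‖g m x‖ ≤ (a ^ (m + 1)) ^ (5 * k + 6) := by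
      refine (sum_le_sum fun x _ => (g1 m x).2).trans ?_
      rw [← mul_sum, ← pow_mul, mul_comm (m + 1), pow_mul, hap]
      exact mul_le_of_le_one_right (by positivity) hf
    refine (hB (g m) (fun x => (g1 m x).1) _ (one_le_pow₀ ha) b1).trans ?_
    rw [← hq, ← haγ, mul_assoc (q ^ (2 * k))]
    gcongr
    calc _ ≤ (a ^ (m + 1)) ^ 5 * (a ^ (m + 1)) ^ (5 * k + 6) := by gcongr
      _ = _ := by ring
  have g3 : ∀ ξ, ft ψ B f ξ = ∑ m ∈ range M, (1 / 2) ^ m * ft ψ B (g m) ξ := by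
    intro ξ
    unfold ft
    simp_rw [mul_sum]
    rw [sum_comm]
    refine sum_congr rfl fun x _ => ?_
    have hx : lv x ∈ range M := mem_range.2 (Nat.lt_succ_of_le (le_sup (f := lv) (mem_univ x)))
    simp only [hg, ite_mul, mul_ite, zero_mul, mul_zero, sum_ite_eq, hx, if_true]
    rw [← mul_assoc, ← mul_assoc, ← mul_pow]
    norm_num
  have g4 : ∀ ξ, ‖ft ψ B f ξ‖ ^ 2
      ≤ (1 - γ)⁻¹ * ∑ m ∈ range M, (4 * γ)⁻¹ ^ m * ‖ft ψ B (g m) ξ‖ ^ 2 := by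
    intro ξ
    rw [g3]
    refine (pow_le_pow_left₀ (norm_nonneg _) (norm_sum_le _ _) 2).trans ?_
    refine (sum_sq_le_sum_mul_sum_of_sq_le_mul (range M) (f := fun m => γ ^ m)
      (g := fun m => (4 * γ)⁻¹ ^ m * ‖ft ψ B (g m) ξ‖ ^ 2) (fun _ _ => by positivity)
      (fun _ _ => by positivity) (fun m _ => le_of_eq ?_)).trans ?_
    · have e : ‖(1 / 2 : ℂ)‖ ^ 2 = γ * (4 * γ)⁻¹ := by
        rw [norm_div, norm_one, Complex.norm_two]
        field_simp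
        norm_num
      rw [norm_mul, norm_pow, mul_pow (‖(1 / 2 : ℂ)‖ ^ m), ← pow_mul, mul_comm m 2, pow_mul, e,
        mul_pow, mul_assoc]
    · exact mul_le_mul_of_nonneg_right (geom_le hγ0.le hγ1 M) (by positivity)
  have hi : 0 < (1 - γ)⁻¹ := inv_pos.2 (by linarith)
  calc mass ψ j B f ≤ ∑ ξ with B ξ ξ = j,
        (1 - γ)⁻¹ * ∑ m ∈ range M, (4 * γ)⁻¹ ^ m * ‖ft ψ B (g m) ξ‖ ^ 2 :=
        sum_le_sum fun ξ _ => g4 ξ
    _ = (1 - γ)⁻¹ * ∑ m ∈ range M, (4 * γ)⁻¹ ^ m * mass ψ j B (g m) := by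
        rw [← mul_sum, sum_comm]
        simp only [mass, mul_sum]
    _ ≤ (1 - γ)⁻¹ * ∑ m ∈ range M, (4 * C * q ^ (2 * k)) * γ ^ m := by
        refine mul_le_mul_of_nonneg_left (sum_le_sum fun m _ => ?_) hi.le
        calc _ ≤ (4 * γ)⁻¹ ^ m * (C * (q ^ (2 * k) * (4 * γ ^ 2) ^ (m + 1))) := by
              gcongr; exact g2 m
          _ = (4 * C * q ^ (2 * k)) * γ ^ m * γ ^ 2 := by
              simp only [inv_pow, mul_pow, pow_succ, pow_zero, one_mul]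
              field_simp
          _ ≤ _ := mul_le_of_le_one_right (by positivity) (pow_le_one₀ hγ0.le hγ1.le)
    _ ≤ (1 - γ)⁻¹ * ((4 * C * q ^ (2 * k)) * (1 - γ)⁻¹) := by
        rw [← mul_sum]
        gcongr
        exact geom_le hγ0.le hγ1 M
    _ = _ := by ring

lemma mass_smul (ψ : AddChar F ℂ) (j : F) (B : V →ₗ[F] V →ₗ[F] F) (f : V → ℂ) (A : ℝ) :
    mass ψ j B (fun x => A * f x) = A ^ 2 * mass ψ j B f := by
  unfold mass ft
  rw [mul_sum]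
  refine sum_congr rfl fun ξ _ => ?_
  simp_rw [mul_assoc]
  rw [← mul_sum, norm_mul, mul_pow, Complex.norm_real, Real.norm_eq_abs, sq_abs]

lemma strong {ψ : AddChar F ℂ} {j : F} {B : V →ₗ[F] V →ₗ[F] F} {p D : ℝ} (hp : 0 < p)
    (h : ∀ f : V → ℂ, ∑ x, ‖f x‖ ^ p ≤ 1 → mass ψ j B f ≤ D) (f : V → ℂ) :
    mass ψ j B f ≤ D * ((∑ x, ‖f x‖ ^ p) ^ (1 / p)) ^ 2 := by
  have h0 : 0 ≤ ∑ x, ‖f x‖ ^ p := sum_nonneg fun _ _ => by positivity
  rcases h0.eq_or_lt with hz | hz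
  · have : ∀ x, f x = 0 := by
      intro x
      have := (sum_eq_zero_iff_of_nonneg (fun _ _ => by positivity)).1 hz.symm x (mem_univ _)
      rwa [Real.rpow_eq_zero (norm_nonneg _) hp.ne', norm_eq_zero] at this
    rw [← hz, Real.zero_rpow (by positivity)]
    simp [mass, ft, this]
  set A := (∑ x, ‖f x‖ ^ p) ^ (1 / p) with hA
  have hA0 : 0 < A := Real.rpow_pos_of_pos hz _
  have hAp : A ^ p = ∑ x, ‖f x‖ ^ p := by
    rw [hA, ← Real.rpow_mul hz.le, one_div_mul_cancel hp.ne', Real.rpow_one]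
  have h1 := h (fun x => (A⁻¹ : ℝ) * f x) (le_of_eq (by
    simp only [norm_mul, Complex.norm_real, Real.norm_of_nonneg (inv_pos.2 hA0).le]
    simp_rw [Real.mul_rpow (inv_pos.2 hA0).le (norm_nonneg _)]
    rw [← mul_sum, Real.inv_rpow hA0.le, hAp, inv_mul_cancel₀ hz.ne']))
  rw [mass_smul, inv_pow, inv_mul_le_iff₀ (by positivity)] at h1
  rwa [mul_comm]

lemma card_sphere {ψ : AddChar F ℂ} {j : F} {B : V →ₗ[F] V →ₗ[F] F} {k : ℕ} (hG : Good ψ j B k)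
    (hk : 1 ≤ k) : (Fintype.card F : ℝ) ^ (2 * k) ≤ 2 * (#{ξ | B ξ ξ = j} : ℝ) := by
  have := hG.kf 0
  simp only [map_zero, AddChar.map_zero_eq_one, sum_const, nsmul_eq_mul, mul_one, if_true,
    phi_zero] at this
  have h2 : (#{ξ | B ξ ξ = j} : ℝ) = (Fintype.card F : ℝ) ^ (2 * k) - (Fintype.card F : ℝ) ^ k := by
    exact_mod_cast this
  have h3 : (2 : ℝ) ≤ (Fintype.card F : ℝ) ^ k :=
    two_le_card.trans (le_self_pow₀ (one_le_two.trans two_le_card) (by omega))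
  rw [h2, two_mul k, pow_add]
  nlinarith

theorem main (d : ℕ) (hd : 3 ≤ d) (p : ℝ) (hp : 1 ≤ p) (hp2 : p < (10 * d + 14 : ℝ) / (5 * d + 17)) :
    ∃ C : ℝ, ∀ (F : Type) [Field F] [Fintype F] [DecidableEq F],
      ringChar F ≠ 2 → ∀ ψ : AddChar F ℂ, ψ ≠ 1 → ∀ j : F, j ≠ 0 →
      ((d % 4 = 1 ∧ quadraticChar F j = -1) ∨ (d % 4 = 3 ∧ quadraticChar F (-j) = -1)) →
      ∀ f : (Fin d → F) → ℂ,
        Real.sqrt ((1 / ((Finset.univ.filter (fun ξ : Fin d → F => ∑ i, ξ i ^ 2 = j)).card : ℝ)) *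
          ∑ ξ ∈ Finset.univ.filter (fun ξ : Fin d → F => ∑ i, ξ i ^ 2 = j),
            ‖∑ x : Fin d → F, f x * ψ (-(∑ i, x i * ξ i))‖ ^ 2)
        ≤ C * (∑ x : Fin d → F, ‖f x‖ ^ p) ^ (1 / p) := by
  by_cases hodd : d % 2 = 1
  swap
  · exact ⟨0, fun F _ _ _ _ _ _ _ _ h => by omega⟩
  obtain ⟨k, rfl⟩ : ∃ k, d = 2 * k + 1 := ⟨d / 2, by omega⟩
  obtain ⟨C, hC, hB⟩ := bd_all k
  have hp0 : 0 < p := by linarith
  have hk6 : (0 : ℝ) < 5 * k + 6 := by positivity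
  set a : ℝ := 2 ^ (p / (5 * k + 6)) with ha
  have ha1 : 1 ≤ a := Real.one_le_rpow (by norm_num) (by positivity)
  have hap : a ^ (5 * k + 6) = 2 ^ p := by
    rw [ha, ← Real.rpow_natCast, ← Real.rpow_mul (by norm_num)]
    congr 1; push_cast; field_simp
  have ha4 : a ^ (5 * k + 11) < 4 := by
    rw [ha, ← Real.rpow_natCast, ← Real.rpow_mul (by norm_num),
      show (4 : ℝ) = 2 ^ (2 : ℝ) by norm_num]
    refine Real.rpow_lt_rpow_of_exponent_lt (by norm_num) ?_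
    rw [lt_div_iff₀ (by positivity)] at hp2
    rw [div_mul_eq_mul_div, div_lt_iff₀ hk6]
    push_cast at hp2 ⊢
    linarith
  set γ : ℝ := Real.sqrt (a ^ (5 * k + 11)) / 2 with hγ
  have hγ0 : 0 < γ := by positivity
  have haγ : a ^ (5 * k + 11) = 4 * γ ^ 2 := by
    rw [hγ, div_pow, Real.sq_sqrt (by positivity)]; ring
  have hγ1 : γ < 1 := by nlinarith
  refine ⟨Real.sqrt (8 * C * (1 - γ)⁻¹ ^ 2), fun F _ _ _ hF ψ hψ j hj hadm f => ?_⟩
  have hψ' : ψ⁻¹ ≠ 1 := inv_ne_one.2 hψ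
  have h2 := (admissible hF hadm).2
  rw [show (2 * k + 1) / 2 = k by omega] at h2
  have hG := good_dot hF hψ' hj k h2
  have h3 := strong hp0 (dyadic hC (hB F hF _ hψ' j hj _ _ hG) hp0 ha1 hap hγ0 hγ1 haγ) f
  have h4 := card_sphere hG (by omega)
  have e1 : (univ.filter fun ξ : Fin (2 * k + 1) → F => dotB F (2 * k + 1) ξ ξ = j)
      = univ.filter fun ξ : Fin (2 * k + 1) → F => ∑ i, ξ i ^ 2 = j := by
    simp only [dotB_apply, sq]
  have e2 : mass ψ⁻¹ j (dotB F (2 * k + 1)) f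
      = ∑ ξ ∈ Finset.univ.filter (fun ξ : Fin (2 * k + 1) → F => ∑ i, ξ i ^ 2 = j),
            ‖∑ x : Fin (2 * k + 1) → F, f x * ψ (-(∑ i, x i * ξ i))‖ ^ 2 := by
    unfold mass ft
    rw [e1]
    simp only [AddChar.inv_apply, dotB_apply, mul_comm]
  rw [e1] at h4
  rw [← e2]
  have hA : 0 ≤ (∑ x, ‖f x‖ ^ p) ^ (1 / p) :=
    Real.rpow_nonneg (sum_nonneg fun _ _ => by positivity) _
  generalize (∑ x, ‖f x‖ ^ p) ^ (1 / p) = A at *
  have hq : (0 : ℝ) < (Fintype.card F : ℝ) ^ (2 * k) := pow_pos card_pos' _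
  generalize ((univ.filter fun ξ : Fin (2 * k + 1) → F => ∑ i, ξ i ^ 2 = j).card : ℝ) = S at *
  have hS : 0 < S := by linarith
  rw [← Real.sqrt_sq hA, ← Real.sqrt_mul (by positivity)]
  refine Real.sqrt_le_sqrt ?_
  rw [one_div, inv_mul_le_iff₀ hS]
  refine h3.trans ?_
  calc _ ≤ 4 * C * (1 - γ)⁻¹ ^ 2 * (2 * S) * A ^ 2 := by gcongr
    _ = _ := by ring

end Pool.Agent.Lib.MP_c8b0a1_an
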