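import Pool.Agent.Lib.MP_c8b0a1_an.Basic

set_option autoImplicit false
set_option linter.unusedSectionVars false

namespace Pool.Agent.Lib.MP_c8b0a1_an

open Finset

variable {F : Type} [Field F] [Fintype F] [DecidableEq F]

/-- complex quadratic character -/
noncomputable def eta (F : Type) [Field F] [Fintype F] [DecidableEq F] : MulChar F ℂ :=
  (quadraticChar F).ringHomComp (Int.castRingHom ℂ)

lemma eta_apply (a : F) : eta F a = ((quadraticChar F a : ℤ) : ℂ) := rfl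

lemma eta_sq {a : F} (ha : a ≠ 0) : eta F a * eta F a = 1 := by
  rw [eta_apply, ← Int.cast_mul, ← sq, quadraticChar_sq_one ha]; simp

@[simp] lemma eta_zero : eta F 0 = 0 := MulChar.map_zero _

lemma norm_eta {a : F} (ha : a ≠ 0) : ‖eta F a‖ = 1 := by
  have h := congrArg norm (eta_sq ha)
  rw [norm_mul, norm_one] at h
  nlinarith [norm_nonneg (eta F a)]

lemma eta_inv (a : F) : eta F a⁻¹ = eta F a := by
  by_cases ha : a = 0
  · simp [ha]
  · have h1 : eta F a⁻¹ * eta F a = 1 := by rw [← map_mul, inv_mul_cancel₀ ha, map_one]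
    have h2 := eta_sq ha
    calc eta F a⁻¹ = eta F a⁻¹ * (eta F a * eta F a) := by rw [h2, mul_one]
      _ = eta F a := by rw [← mul_assoc, h1, one_mul]

lemma eta_ne_one (hF : ringChar F ≠ 2) : eta F ≠ 1 :=
  (MulChar.ringHomComp_ne_one_iff (RingHom.injective_int _)).2 (quadraticChar_ne_one hF)

/-- the Gauss sum -/
noncomputable def GG (ψ : AddChar F ℂ) : ℂ := gaussSum (eta F) ψ

lemma GG_sq (hF : ringChar F ≠ 2) (ψ : AddChar F ℂ) (hψ : ψ ≠ 1) :
    GG ψ ^ 2 = eta F (-1) * Fintype.card F :=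
  gaussSum_sq (eta_ne_one hF) ((quadraticChar_isQuadratic F).comp _)
    (AddChar.IsPrimitive.of_ne_one hψ)

lemma norm_GG_sq (hF : ringChar F ≠ 2) (ψ : AddChar F ℂ) (hψ : ψ ≠ 1) :
    ‖GG ψ‖ ^ 2 = Fintype.card F := by
  rw [← norm_pow, GG_sq hF ψ hψ, norm_mul, norm_eta (by simp)]
  simp

lemma two_ne (hF : ringChar F ≠ 2) : (2 : F) ≠ 0 := Ring.two_ne_zero hF

lemma four_ne (hF : ringChar F ≠ 2) : (4 : F) ≠ 0 := by
  have := two_ne hF
  rw [show (4 : F) = 2 * 2 by norm_num]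
  exact mul_ne_zero this this

lemma quad_sum (hF : ringChar F ≠ 2) (ψ : AddChar F ℂ) (hψ : ψ ≠ 1) {a : F} (ha : a ≠ 0) :
    ∑ s : F, ψ (a * s ^ 2) = eta F a * GG ψ := by
  have h1 : ∑ s : F, ψ (a * s ^ 2) = ∑ t : F, (eta F t + 1) * ψ (a * t) := by
    rw [← sum_fiberwise univ (fun s : F => s ^ 2)]
    refine sum_congr rfl fun t _ => ?_
    rw [sum_congr rfl (g := fun _ => ψ (a * t)) (fun s hs => by rw [(mem_filter.1 hs).2]),
      sum_const, nsmul_eq_mul]
    congr 1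
    have := quadraticChar_card_sqrts hF t
    rw [Set.toFinset_ofPred] at this
    rw [eta_apply]
    exact_mod_cast this
  have h2 : ∑ t : F, ψ (a * t) = 0 := by
    have := sum_psi ψ hψ a
    rw [if_neg ha] at this
    simpa only [mul_comm] using this
  have h3 : ∑ t : F, eta F t * ψ (a * t) = eta F a * GG ψ := by
    have := gaussSum_mulShift (eta F) ψ (Units.mk0 a ha)
    simp only [Units.val_mk0] at this
    unfold GG
    rw [← this, ← mul_assoc, eta_sq ha, one_mul]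
    rfl
  rw [h1]
  simp only [add_mul, one_mul, sum_add_distrib, h2, h3, add_zero]

lemma complete_sq (hF : ringChar F ≠ 2) (ψ : AddChar F ℂ) (hψ : ψ ≠ 1) {a : F} (ha : a ≠ 0)
    (x : F) : ∑ t : F, ψ (a * t ^ 2 + t * x) = ψ (-(x ^ 2 / (4 * a))) * (eta F a * GG ψ) := by
  rw [← quad_sum hF ψ hψ ha, mul_sum]
  have h2 := two_ne hF
  have h4 := four_ne hF
  refine Fintype.sum_equiv (Equiv.addRight (x / (2 * a))) _ _ fun t => ?_
  rw [← AddChar.map_add_eq_mul]
  congr 1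
  simp only [Equiv.coe_addRight]
  field_simp
  ring

/-- the Salie type kernel -/
noncomputable def phi (ψ : AddChar F ℂ) (j t : F) : ℂ := ∑ s with s ^ 2 = j * t, ψ s

lemma card_sqrt_le (a : F) : #{s : F | s ^ 2 = a} ≤ 2 := by
  by_cases h : ∃ s : F, s ^ 2 = a
  · obtain ⟨s, hs⟩ := h
    refine le_trans (card_le_card (t := {s, -s}) fun t ht => ?_) card_le_two
    have := (mem_filter.1 ht).2
    rw [← hs] at this
    simpa using sq_eq_sq_iff_eq_or_eq_neg.1 this
  · rw [filter_eq_empty_iff.2 (fun s _ hs => h ⟨s, hs⟩)]; simp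

lemma norm_phi_le (ψ : AddChar F ℂ) (j t : F) : ‖phi ψ j t‖ ≤ 2 := by
  unfold phi
  refine (norm_sum_le _ _).trans ?_
  simp only [norm_psi, sum_const, nsmul_eq_mul, mul_one]
  exact_mod_cast card_sqrt_le (j * t)

lemma phi_zero (ψ : AddChar F ℂ) (j : F) : phi ψ j 0 = 1 := by
  unfold phi
  rw [show (univ.filter fun s : F => s ^ 2 = j * 0) = {0} by ext s; simp]
  simp

lemma card_pos' : (0 : ℝ) < Fintype.card F := by exact_mod_cast Fintype.card_pos

lemma card_ne : (Fintype.card F : ℂ) ≠ 0 := by exact_mod_cast Fintype.card_ne_zero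

lemma phi_expand (hF : ringChar F ≠ 2) (ψ : AddChar F ℂ) (hψ : ψ ≠ 1) {j : F} (hj : j ≠ 0)
    (z : F) : phi ψ j z = (Fintype.card F : ℂ)⁻¹ * (eta F (-j) * GG ψ) *
      ∑ τ : F, eta F τ * ψ (z * τ + j / 4 * τ⁻¹) := by
  have h4 := four_ne hF
  have h1 : phi ψ j z = (Fintype.card F : ℂ)⁻¹ * ∑ s : F, ∑ τ : F, ψ (τ * (z - s ^ 2 / j)) * ψ s := by
    unfold phi
    rw [sum_filter, mul_sum]
    refine sum_congr rfl fun s _ => ?_
    rw [← sum_mul, sum_psi ψ hψ]
    have : z - s ^ 2 / j = 0 ↔ s ^ 2 = j * z := by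
      rw [sub_eq_zero, eq_div_iff hj, eq_comm, mul_comm]
    simp only [this]
    split_ifs
    · rw [← mul_assoc, inv_mul_cancel₀ card_ne, one_mul]
    · simp
  rw [h1, sum_comm, mul_assoc, mul_sum _ _ (eta F (-j) * GG ψ)]
  congr 1
  refine sum_congr rfl fun τ _ => ?_
  by_cases hτ : τ = 0
  · subst hτ
    have := sum_psi ψ hψ 1
    simp only [mul_one, one_ne_zero, if_false] at this
    simp [this]
  · have ha : -(τ / j) ≠ 0 := by simp [hτ, hj]
    have := complete_sq hF ψ hψ ha 1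
    have e : ∀ s : F, ψ (τ * (z - s ^ 2 / j)) * ψ s = ψ (z * τ) * ψ (-(τ / j) * s ^ 2 + s * 1) := by
      intro s
      rw [← AddChar.map_add_eq_mul, ← AddChar.map_add_eq_mul]
      congr 1; ring
    simp_rw [e]
    rw [← mul_sum, this, AddChar.map_add_eq_mul]
    have e1 : -(1 ^ 2 / (4 * -(τ / j))) = j / 4 * τ⁻¹ := by field_simp
    have e2 : eta F (-(τ / j)) = eta F (-j) * eta F τ := by
      rw [← eta_inv (-j), ← map_mul]; congr 1; field_simp
    rw [e1, e2]; ring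

/-- averaging the kernel along a nonconstant affine map gives zero -/
lemma sum_phi_affine (ψ : AddChar F ℂ) (hψ : ψ ≠ 1) {j : F} (hj : j ≠ 0) (u : F) {v : F}
    (hv : v ≠ 0) : ∑ a : F, phi ψ j (u + a * v) = 0 := by
  have h1 : ∑ a : F, phi ψ j (u + a * v) = ∑ t : F, ∑ s with s ^ 2 = t, ψ s := by
    refine Fintype.sum_equiv
      ((Equiv.mulRight₀ v hv).trans ((Equiv.addLeft u).trans (Equiv.mulLeft₀ j hj))) _ _ fun a => ?_
    simp [phi]
  rw [h1, sum_fiberwise]
  simpa using sum_psi ψ hψ 1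

end Pool.Agent.Lib.MP_c8b0a1_an
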