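import Pool.Agent.Lib.MP_c8b0a1_an.Basic

set_option autoImplicit false

namespace Pool.Agent.Lib.MP_c8b0a1_an

open Finset

variable {F : Type} [Field F] [Fintype F] [DecidableEq F]

lemma orth_pair (ψ : AddChar F ℂ) (hψ : ψ ≠ 1) {b : F} (hb : b ≠ 0) (m : F × F) :
    ∑ p : F × F, ψ (p.1 * m.1 + p.2 * (b * m.2))
      = if m = 0 then (((Fintype.card F : ℝ) ^ 2 : ℝ) : ℂ) else 0 := by
  rw [Fintype.sum_prod_type]
  simp_rw [AddChar.map_add_eq_mul]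
  rw [← sum_mul_sum, sum_psi ψ hψ, sum_psi ψ hψ]
  obtain ⟨m1, m2⟩ := m
  by_cases h1 : m1 = 0 <;> by_cases h2 : m2 = 0 <;> simp [h1, h2, hb, sq]

lemma recip_energy (a : F → ℝ) (ha : ∀ x, 0 ≤ a x) (h0 : a 0 = 0) :
    En (fun r : F × F => (r.1 + r.2, r.1⁻¹ + r.2⁻¹)) (fun r => a r.1 * a r.2)
      ≤ 3 * (∑ x, a x ^ 2) ^ 2 := by
  rw [En_eq]
  have key : ∀ r r' : F × F,
      (if (r.1 + r.2, r.1⁻¹ + r.2⁻¹) = (r'.1 + r'.2, r'.1⁻¹ + r'.2⁻¹)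
        then a r.1 * a r.2 * (a r'.1 * a r'.2) else 0)
      ≤ (if r = r' then a r.1 ^ 2 * a r.2 ^ 2 else 0)
        + (if r.swap = r' then a r.1 ^ 2 * a r.2 ^ 2 else 0)
        + (if -r.1 = r.2 then a r.1 * a (-r.1) else 0)
          * (if -r'.1 = r'.2 then a r'.1 * a (-r'.1) else 0) := by
    intro r r'
    have n1 : 0 ≤ (if r = r' then a r.1 ^ 2 * a r.2 ^ 2 else 0) := by positivity
    have n2 : 0 ≤ (if r.swap = r' then a r.1 ^ 2 * a r.2 ^ 2 else 0) := by positivity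
    have n3 : 0 ≤ (if -r.1 = r.2 then a r.1 * a (-r.1) else 0)
          * (if -r'.1 = r'.2 then a r'.1 * a (-r'.1) else 0) := by
      have := ha r.1; have := ha (-r.1); have := ha r'.1; have := ha (-r'.1)
      positivity
    by_cases h : (r.1 + r.2, r.1⁻¹ + r.2⁻¹) = (r'.1 + r'.2, r'.1⁻¹ + r'.2⁻¹)
    · rw [if_pos h]
      obtain ⟨x, y⟩ := r
      obtain ⟨z, w⟩ := r'
      simp only at *
      by_cases hx : x = 0
      · have : a x * a y * (a z * a w) = 0 := by rw [hx, h0]; ring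
        rw [this]; linarith
      by_cases hy : y = 0
      · have : a x * a y * (a z * a w) = 0 := by rw [hy, h0]; ring
        rw [this]; linarith
      by_cases hz : z = 0
      · have : a x * a y * (a z * a w) = 0 := by rw [hz, h0]; ring
        rw [this]; linarith
      by_cases hw : w = 0
      · have : a x * a y * (a z * a w) = 0 := by rw [hw, h0]; ring
        rw [this]; linarith
      obtain ⟨h1, h2⟩ := Prod.mk.inj h
      rcases recip_tri hx hy hz hw h1 h2 with ⟨e1, e2⟩ | ⟨e1, e2⟩ | ⟨e1, e2⟩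
      · subst e1 e2
        rw [if_pos rfl] at *
        nlinarith
      · subst e1 e2
        rw [if_pos (show (w, z).swap = (z, w) from rfl)] at *
        nlinarith
      · subst e1 e2
        rw [if_pos (show -x = -x from rfl), if_pos (show -z = -z from rfl)] at *
        nlinarith
    · rw [if_neg h]; linarith
  refine le_trans (sum_le_sum fun r _ => sum_le_sum fun r' _ => key r r') ?_
  simp only [sum_add_distrib, sum_ite_eq, mem_univ, if_true]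
  rw [← sum_mul_sum]
  have e1 : ∑ r : F × F, a r.1 ^ 2 * a r.2 ^ 2 = (∑ x, a x ^ 2) ^ 2 := by
    rw [Fintype.sum_prod_type, sq (∑ x, a x ^ 2), sum_mul_sum]
  have e2 : ∑ r : F × F, (if -r.1 = r.2 then a r.1 * a (-r.1) else 0) = ∑ x, a x * a (-x) := by
    rw [Fintype.sum_prod_type]; simp
  have e3 : (∑ x, a x * a (-x)) ^ 2 ≤ (∑ x, a x ^ 2) ^ 2 := by
    have := sum_mul_sq_le_sq_mul_sq univ a (fun x => a (-x))
    have e : ∑ x, a (-x) ^ 2 = ∑ x, a x ^ 2 :=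
      Fintype.sum_equiv (Equiv.neg F) _ _ (fun _ => rfl)
    rw [e] at this
    nlinarith
  rw [e1, e2]
  nlinarith

lemma hyp_L4 (ψ : AddChar F ℂ) (hψ : ψ ≠ 1) {b : F} (hb : b ≠ 0) (h : F → ℂ) (h0 : h 0 = 0) :
    ∑ p : F × F, ‖∑ ρ, h ρ * ψ (p.1 * ρ + p.2 * (b * ρ⁻¹))‖ ^ 4
      ≤ 3 * (Fintype.card F : ℝ) ^ 2 * (∑ ρ, ‖h ρ‖ ^ 2) ^ 2 := by
  have e1 : ∀ p : F × F, ‖∑ ρ, h ρ * ψ (p.1 * ρ + p.2 * (b * ρ⁻¹))‖ ^ 4
      = ‖∑ r : F × F, (h r.1 * h r.2) * ψ (p.1 * (r.1 + r.2) + p.2 * (b * (r.1⁻¹ + r.2⁻¹)))‖ ^ 2 := by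
    intro p
    rw [show 4 = 2 * 2 from rfl, pow_mul, ← norm_pow, sq (∑ ρ, _), sum_mul_sum,
      Fintype.sum_prod_type]
    congr 2
    refine sum_congr rfl fun x _ => sum_congr rfl fun y _ => ?_
    simp only
    rw [show p.1 * (x + y) + p.2 * (b * (x⁻¹ + y⁻¹))
      = (p.1 * x + p.2 * (b * x⁻¹)) + (p.1 * y + p.2 * (b * y⁻¹)) by ring,
      AddChar.map_add_eq_mul ψ (p.1 * x + p.2 * (b * x⁻¹))]
    ring
  simp_rw [e1]
  have e2 := parseval ψ (fun (p m : F × F) => p.1 * m.1 + p.2 * (b * m.2))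
    (fun x m m' => by simp only [Prod.fst_sub, Prod.snd_sub]; ring) _ (orth_pair ψ hψ hb)
    (fun r : F × F => h r.1 * h r.2) (fun r : F × F => (r.1 + r.2, r.1⁻¹ + r.2⁻¹))
  simp only at e2
  rw [e2]
  have e3 := fiber_sq_le (fun r : F × F => (r.1 + r.2, r.1⁻¹ + r.2⁻¹))
    (fun r : F × F => h r.1 * h r.2)
  have e4 := recip_energy (fun x => ‖h x‖) (fun _ => norm_nonneg _) (by simp [h0])
  simp only [norm_mul] at e3
  have := e3.trans e4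
  have hq : (0 : ℝ) ≤ (Fintype.card F : ℝ) ^ 2 := by positivity
  nlinarith

/-- restriction to the hyperbola -/
lemma hyp_restr (ψ : AddChar F ℂ) (hψ : ψ ≠ 1) {b : F} (hb : b ≠ 0) (a : F × F → ℂ) :
    (∑ ρ with ρ ≠ 0, ‖∑ p : F × F, a p * ψ (p.1 * ρ + p.2 * (b * ρ⁻¹))‖ ^ 2) ^ 2
      ≤ 3 * (Fintype.card F : ℝ) ^ 2 * ((∑ p, ‖a p‖) ^ 2 * ∑ p, ‖a p‖ ^ 2) := by
  set g : F → ℂ := fun ρ => ∑ p : F × F, a p * ψ (p.1 * ρ + p.2 * (b * ρ⁻¹)) with hg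
  set h : F → ℂ := fun ρ => if ρ ≠ 0 then (starRingEnd ℂ) (g ρ) else 0 with hh
  set M : ℝ := ∑ ρ with ρ ≠ 0, ‖g ρ‖ ^ 2 with hM
  have hM0 : 0 ≤ M := sum_nonneg fun _ _ => sq_nonneg _
  have hM1 : ∑ ρ, ‖h ρ‖ ^ 2 = M := by
    rw [hM, sum_filter]
    refine sum_congr rfl fun ρ _ => ?_
    simp only [hh]
    split_ifs <;> simp
  have hM2 : (M : ℂ) = ∑ p, a p * ∑ ρ, h ρ * ψ (p.1 * ρ + p.2 * (b * ρ⁻¹)) := by
    rw [hM, Complex.ofReal_sum, sum_filter]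
    simp_rw [mul_sum]
    rw [sum_comm]
    refine sum_congr rfl fun ρ _ => ?_
    simp only [hh]
    split_ifs
    · rw [normsq_eq]
      conv_lhs => rw [hg]
      simp only
      rw [sum_mul]
      exact sum_congr rfl fun p _ => by ring
    · simp
  have hM3 : M ≤ ∑ p, ‖a p‖ * ‖∑ ρ, h ρ * ψ (p.1 * ρ + p.2 * (b * ρ⁻¹))‖ := by
    have : M = ‖(M : ℂ)‖ := by rw [Complex.norm_real, Real.norm_of_nonneg hM0]
    rw [this, hM2]
    refine (norm_sum_le _ _).trans (le_of_eq ?_)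
    simp only [norm_mul]
  have h4 := holder_four univ (fun p => ‖a p‖)
    (fun p : F × F => ‖∑ ρ, h ρ * ψ (p.1 * ρ + p.2 * (b * ρ⁻¹))‖) (fun _ => norm_nonneg _)
  have h5 := hyp_L4 ψ hψ hb h (by simp [hh])
  rw [hM1] at h5
  have h6 : M ^ 4 ≤ (∑ p, ‖a p‖) ^ 2 * ((∑ p, ‖a p‖ ^ 2) * (3 * (Fintype.card F : ℝ) ^ 2 * M ^ 2)) := by
    refine (pow_le_pow_left₀ hM0 hM3 4).trans (h4.trans ?_)
    gcongr
  rcases hM0.eq_or_lt with h0 | h0
  · rw [← h0]; simp only [ne_eq, OfNat.ofNat_ne_zero, not_false_eq_true, zero_pow]; positivity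
  · have h7 : 0 < M ^ 2 := by positivity
    refine le_of_mul_le_mul_right ?_ h7
    calc M ^ 2 * M ^ 2 = M ^ 4 := by ring
      _ ≤ _ := h6
      _ = _ := by ring

/-- indexed form -/
lemma hyp_indexed {ι : Type} (ψ : AddChar F ℂ) (hψ : ψ ≠ 1) {b : F} (hb : b ≠ 0) (I : Finset ι)
    (w : ι → ℂ) (P Z : ι → F) :
    (∑ ρ with ρ ≠ 0, ‖∑ i ∈ I, w i * ψ (P i * ρ + Z i * (b * ρ⁻¹))‖ ^ 2) ^ 2
      ≤ 3 * (Fintype.card F : ℝ) ^ 2 *
        ((∑ i ∈ I, ‖w i‖) ^ 2 * ∑ p : F × F, (∑ i ∈ I with (P i, Z i) = p, ‖w i‖) ^ 2) := by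
  have h := hyp_restr ψ hψ hb (fun p => ∑ i ∈ I with (P i, Z i) = p, w i)
  have e : ∀ ρ : F, ∑ p : F × F, (∑ i ∈ I with (P i, Z i) = p, w i) * ψ (p.1 * ρ + p.2 * (b * ρ⁻¹))
      = ∑ i ∈ I, w i * ψ (P i * ρ + Z i * (b * ρ⁻¹)) := by
    intro ρ
    rw [← sum_fiberwise I (fun i => (P i, Z i))]
    refine sum_congr rfl fun p _ => ?_
    rw [sum_mul]
    refine sum_congr rfl fun i hi => ?_
    rw [← (mem_filter.1 hi).2]
  simp only [e] at h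
  refine h.trans ?_
  have e1 : ∑ p : F × F, ‖∑ i ∈ I with (P i, Z i) = p, w i‖ ≤ ∑ i ∈ I, ‖w i‖ := by
    rw [← sum_fiberwise I (fun i => (P i, Z i))]
    exact sum_le_sum fun p _ => norm_sum_le _ _
  have e2 : ∑ p : F × F, ‖∑ i ∈ I with (P i, Z i) = p, w i‖ ^ 2
      ≤ ∑ p : F × F, (∑ i ∈ I with (P i, Z i) = p, ‖w i‖) ^ 2 :=
    sum_le_sum fun p _ => pow_le_pow_left₀ (norm_nonneg _) (norm_sum_le _ _) 2
  gcongr

end Pool.Agent.Lib.MP_c8b0a1_an
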