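import Pool.Agent.Lib.MP_c8b0a1_an.Cross

set_option autoImplicit false
set_option linter.unusedSectionVars false

namespace Pool.Agent.Lib.MP_c8b0a1_an

open Finset

variable {F : Type} [Field F] [Fintype F] [DecidableEq F]
variable {V : Type} [AddCommGroup V] [Module F V] [Fintype V] [DecidableEq V]

lemma greedy (B : V →ₗ[F] V →ₗ[F] F) (w : V → ℝ) (h0 : ∀ x, 0 ≤ w x) {μ : ℝ} (hμ : 0 < μ) :
    ∃ (R : ℕ) (r : ℕ → V) (c : ℕ → F), (∀ i < R, r i ≠ 0) ∧ R * μ ≤ ∑ x, w x ∧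
      ∀ s, s ≠ 0 → ∀ e, ∑ x with B s x = e, (if ∀ i < R, B (r i) x ≠ c i then w x else 0) ≤ μ := by
  by_contra hc
  push Not at hc
  have hle : ∀ (R : ℕ) (r : ℕ → V) (c : ℕ → F),
      ∑ x, (if ∀ i < R, B (r i) x ≠ c i then 0 else w x) ≤ ∑ x, w x :=
    fun R r c => sum_le_sum fun x _ => by split_ifs; exacts [h0 x, le_rfl]
  have key : ∀ R : ℕ, ∃ (r : ℕ → V) (c : ℕ → F), (∀ i < R, r i ≠ 0) ∧
      R * μ ≤ ∑ x, (if ∀ i < R, B (r i) x ≠ c i then 0 else w x) := by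
    intro R
    induction R with
    | zero => exact ⟨fun _ => 0, fun _ => 0, by simp, by simp⟩
    | succ R ih =>
      obtain ⟨r, c, h1, h2⟩ := ih
      obtain ⟨s, hs, e, h3⟩ := hc R r c h1 (h2.trans (hle R r c))
      refine ⟨Function.update r R s, Function.update c R e, fun i hi => ?_, ?_⟩
      · by_cases h : i = R
        · simp [h, hs]
        · rw [Function.update_of_ne h]; exact h1 i (by omega)
      · have e1 : ∀ x, (∀ i < R + 1, B (Function.update r R s i) x ≠ Function.update c R e i)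
            ↔ (∀ i < R, B (r i) x ≠ c i) ∧ B s x ≠ e := by
          intro x
          rw [Nat.forall_lt_succ_right]
          simp only [Function.update_self]
          refine and_congr_left fun _ => forall₂_congr fun i hi => ?_
          rw [Function.update_of_ne hi.ne, Function.update_of_ne hi.ne]
        simp_rw [e1]
        rw [sum_filter] at h3
        push_cast
        rw [add_mul, one_mul]
        refine (add_le_add h2 h3.le).trans ?_
        rw [← sum_add_distrib]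
        refine sum_le_sum fun x _ => ?_
        by_cases a1 : ∀ i < R, B (r i) x ≠ c i
        · by_cases a2 : B s x = e
          · rw [if_pos a1, if_pos a2, if_pos a1, if_neg (fun h => h.2 a2), zero_add]
          · rw [if_pos a1, if_neg a2, if_pos ⟨a1, a2⟩, zero_add]
        · rw [if_neg a1, if_neg a1, ite_self, add_zero, if_neg (fun h => a1 h.1)]
  obtain ⟨R, hR⟩ := exists_nat_gt ((∑ x, w x) / μ)
  obtain ⟨r, c, -, h2⟩ := key R
  rw [div_lt_iff₀ hμ] at hR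
  linarith [hle R r c]

lemma split_first (P : ℕ → Prop) [DecidablePred P] {M : Type} [AddCommMonoid M] (z : M) (R : ℕ) :
    (if ∀ i < R, ¬ P i then z else 0)
      + ∑ i ∈ range R, (if P i ∧ ∀ l < i, ¬ P l then z else 0) = z := by
  induction R with
  | zero => simp
  | succ R ih =>
    rw [sum_range_succ, add_comm (∑ i ∈ range R, _), ← add_assoc]
    conv_rhs => rw [← ih]
    congr 1
    simp only [Nat.forall_lt_succ_right]
    by_cases a1 : ∀ i < R, ¬ P i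
    · by_cases a2 : P R
      · rw [if_neg (fun h => h.2 a2), if_pos ⟨a2, a1⟩, if_pos a1, zero_add]
      · rw [if_pos ⟨a1, a2⟩, if_neg (fun h => a2 h.1), if_pos a1, add_zero]
    · rw [if_neg (fun h => a1 h.1), if_neg (fun h => a1 h.2), if_neg a1, add_zero]

lemma bd_zero {ψ : AddChar F ℂ} {j : F} {B : V →ₗ[F] V →ₗ[F] F} (hG : Good ψ j B 0) :
    Bd ψ j B 0 0 := by
  intro g _ t _ _
  have := hG.kf 0
  simp only [map_zero, AddChar.map_zero_eq_one, sum_const, nsmul_eq_mul, mul_one, if_true,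
    mul_zero, pow_zero, phi_zero, sub_self, Nat.cast_eq_zero, card_eq_zero] at this
  unfold mass
  rw [this]
  simp

lemma normsq_three (a b c : ℂ) : ‖a + b + c‖ ^ 2 ≤ 3 * (‖a‖ ^ 2 + ‖b‖ ^ 2 + ‖c‖ ^ 2) := by
  have h : ‖a + b + c‖ ≤ ‖a‖ + ‖b‖ + ‖c‖ := norm_add₃_le
  have := pow_le_pow_left₀ (norm_nonneg _) h 2
  nlinarith [sq_nonneg (‖a‖ - ‖b‖), sq_nonneg (‖a‖ - ‖c‖), sq_nonneg (‖b‖ - ‖c‖)]

lemma normsq_sum_le {A : Type} (S : Finset A) (R : ℕ) (u : ℕ → A → ℂ) :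
    ∑ ξ ∈ S, ‖∑ i ∈ range R, u i ξ‖ ^ 2
      ≤ ∑ i ∈ range R, ∑ l ∈ range R, ‖∑ ξ ∈ S, u i ξ * (starRingEnd ℂ) (u l ξ)‖ := by
  have e : ((∑ ξ ∈ S, ‖∑ i ∈ range R, u i ξ‖ ^ 2 : ℝ) : ℂ)
      = ∑ i ∈ range R, ∑ l ∈ range R, ∑ ξ ∈ S, u i ξ * (starRingEnd ℂ) (u l ξ) := by
    rw [Complex.ofReal_sum]
    simp_rw [normsq_eq, map_sum, sum_mul_sum]
    rw [sum_comm]
    exact sum_congr rfl fun i _ => sum_comm
  have h0 : 0 ≤ ∑ ξ ∈ S, ‖∑ i ∈ range R, u i ξ‖ ^ 2 := sum_nonneg fun _ _ => sq_nonneg _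
  rw [← Real.norm_of_nonneg h0, ← Complex.norm_real, e]
  exact (norm_sum_le _ _).trans (sum_le_sum fun i _ => norm_sum_le _ _)

lemma on_cross (hF : ringChar F ≠ 2) {ψ : AddChar F ℂ} (hψ : ψ ≠ 1) {j : F} (hj : j ≠ 0)
    {B : V →ₗ[F] V →ₗ[F] F} {k : ℕ} (hG : Good ψ j B k) (r s : V) (c : F)
    (g h : V → ℂ) (h1 : ∀ x, ‖g x‖ ≤ 1) (hg : ∀ x, B r x ≠ c → g x = 0)
    (hh : ∀ y, B r y = c → h y = 0) :
    (Fintype.card F : ℝ) ^ 2 * ‖∑ ξ with B ξ ξ = j,
        (if B r r = 0 ∧ B r ξ = 0 then ft ψ B g ξ else 0) *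
          (starRingEnd ℂ) (if B s s = 0 ∧ B s ξ = 0 then ft ψ B h ξ else 0)‖
      ≤ (Fintype.card F : ℝ) ^ (2 * k + 1) * ∑ y, ‖h y‖
        + 2 * (Fintype.card F : ℝ) ^ (k + 1) * ((∑ x, ‖g x‖) * ∑ y, ‖h y‖) := by
  by_cases hr : B r r = 0
  swap
  · simp only [hr, false_and, if_false, zero_mul, sum_const_zero, norm_zero, mul_zero]
    positivity
  by_cases hs : B s s = 0
  swap
  · simp only [hs, false_and, if_false, map_zero, sum_const_zero, norm_zero, mul_zero]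
    positivity
  refine le_trans (le_of_eq ?_) (cross_bound hF hψ hj hG hr s c g h h1 hg hh)
  congr 2
  rw [← filter_filter, sum_filter (fun ξ => B r ξ = 0 ∧ B s ξ = 0)]
  refine sum_congr rfl fun ξ _ => ?_
  by_cases a1 : B r ξ = 0 <;> by_cases a2 : B s ξ = 0 <;> simp [hr, hs, a1, a2]

theorem bd_step (hF : ringChar F ≠ 2) {ψ : AddChar F ℂ} (hψ : ψ ≠ 1) {j : F} (hj : j ≠ 0)
    {m : ℕ} {C : ℝ} (hC : 0 ≤ C)
    (IH : ∀ (U : Type) [AddCommGroup U] [Module F U] [Fintype U] [DecidableEq U]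
      (B : U →ₗ[F] U →ₗ[F] F), Good ψ j B m → Bd ψ j B m C)
    {B : V →ₗ[F] V →ₗ[F] F} (hG : Good ψ j B (m + 1)) : Bd ψ j B (m + 1) (3 * (C + 10)) := by
  intro f h1 t ht hn
  set q : ℝ := (Fintype.card F : ℝ) with hq
  set n := ∑ x, ‖f x‖ with hnn
  have hq2 : 2 ≤ q := two_le_card
  have hn0 : 0 ≤ n := sum_nonneg fun x _ => norm_nonneg _
  have ht5 : 1 ≤ t ^ 5 := one_le_pow₀ ht
  have hD : 0 ≤ q ^ (2 * (m + 1)) * t ^ 5 * n := by positivity
  by_cases hqt : q ≤ t ^ 5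
  · have := mass_triv hG f
    have h2 := sq_le_one_sum f h1
    calc _ ≤ _ := this
      _ ≤ q ^ (2 * (m + 1) + 1) * n := by gcongr
      _ = q ^ (2 * (m + 1)) * q * n := by ring
      _ ≤ q ^ (2 * (m + 1)) * t ^ 5 * n := by gcongr
      _ ≤ _ := le_mul_of_one_le_left hD (by linarith)
  replace hqt : t ^ 5 ≤ q := le_of_not_ge hqt
  rcases hn0.eq_or_lt with hz | hz
  · have := mass_triv hG f
    have h2 := sq_le_one_sum f h1
    rw [← hnn, ← hz] at h2
    calc _ ≤ _ := this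
      _ ≤ q ^ (2 * (m + 1) + 1) * 0 := by gcongr
      _ ≤ _ := by rw [mul_zero]; positivity
  have ht0 : 0 < t ^ 5 := by positivity
  set μ := n / t ^ 5 with hμ
  have hμn : μ * t ^ 5 = n := div_mul_cancel₀ _ ht0.ne'
  have hμ0 : 0 < μ := div_pos hz ht0
  have hμ1 : μ ≤ t ^ (5 * m + 6) := by
    rw [hμ, div_le_iff₀ ht0]
    exact hn.trans (le_of_eq (by ring))
  obtain ⟨R, r, c, hr0, hR, hH⟩ := greedy B (fun x => ‖f x‖) (fun _ => norm_nonneg _) hμ0
  have hR1 : (R : ℝ) ≤ t ^ 5 := by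
    rw [← hnn, ← hμn, mul_comm μ] at hR
    exact le_of_mul_le_mul_right hR hμ0
  set g : ℕ → V → ℂ := fun i x =>
    if B (r i) x = c i ∧ ∀ l < i, ¬ B (r l) x = c l then f x else 0 with hg
  set g0 : V → ℂ := fun x => if ∀ i < R, ¬ B (r i) x = c i then f x else 0 with hg0
  have g1 : ∀ i x, ‖g i x‖ ≤ 1 := fun i x => by
    simp only [hg]; split_ifs; exacts [h1 x, by simp]
  have g01 : ∀ x, ‖g0 x‖ ≤ 1 := fun x => by
    simp only [hg0]; split_ifs; exacts [h1 x, by simp]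
  have gs : ∀ i x, B (r i) x ≠ c i → g i x = 0 := fun i x h => by
    simp only [hg]; exact if_neg fun h' => h h'.1
  have gs' : ∀ i l, i < l → ∀ x, B (r i) x = c i → g l x = 0 := fun i l hil x h => by
    simp only [hg]; exact if_neg fun h' => h'.2 i hil h
  have hsum : ∑ x, ‖g0 x‖ + ∑ i ∈ range R, ∑ x, ‖g i x‖ = n := by
    rw [sum_comm, ← sum_add_distrib]
    refine sum_congr rfl fun x _ => ?_
    rw [← split_first (fun i => B (r i) x = c i) ‖f x‖ R]
    simp only [hg, hg0, apply_ite norm, norm_zero]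
  have s0 : 0 ≤ ∑ x, ‖g0 x‖ := sum_nonneg fun _ _ => norm_nonneg _
  have s1 : ∀ i, 0 ≤ ∑ x, ‖g i x‖ := fun i => sum_nonneg fun _ _ => norm_nonneg _
  have s2 : 0 ≤ ∑ i ∈ range R, ∑ x, ‖g i x‖ := sum_nonneg fun i _ => s1 i
  have s3 : ∑ i ∈ range R, ∑ x, ‖g i x‖ ≤ n := by linarith
  set on : ℕ → V → ℂ := fun i ξ =>
    if B (r i) (r i) = 0 ∧ B (r i) ξ = 0 then ft ψ B (g i) ξ else 0 with hon
  set off : ℕ → V → ℂ := fun i ξ =>
    if B (r i) (r i) = 0 ∧ B (r i) ξ = 0 then 0 else ft ψ B (g i) ξ with hoff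
  have hft : ∀ ξ, ft ψ B f ξ
      = ft ψ B g0 ξ + ∑ i ∈ range R, on i ξ + ∑ i ∈ range R, off i ξ := by
    intro ξ
    rw [add_assoc, ← sum_add_distrib,
      sum_congr rfl (g := fun i => ft ψ B (g i) ξ) (fun i _ => by
        simp only [hon, hoff]; split_ifs <;> simp)]
    unfold ft
    rw [sum_comm, ← sum_add_distrib]
    refine sum_congr rfl fun x _ => ?_
    rw [← sum_mul, ← add_mul, split_first (fun i => B (r i) x = c i) (f x) R]
  have b0 : mass ψ j B g0 ≤ 4 * (q ^ (2 * (m + 1)) * t ^ 5 * n) := by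
    have := rem_bound hF hψ hj hG g0 g01 ht hqt hμ1 (by linarith) (fun s hs e => by
      simpa only [hg0, apply_ite norm, norm_zero] using hH s hs e)
    rwa [hμn] at this
  have b1 : ∑ ξ with B ξ ξ = j, ‖∑ i ∈ range R, off i ξ‖ ^ 2
      ≤ 2 * (q ^ (2 * (m + 1)) * t ^ 5 * n) := by
    calc _ ≤ ∑ ξ with B ξ ξ = j, R * ∑ i ∈ range R, ‖off i ξ‖ ^ 2 := by
          refine sum_le_sum fun ξ _ => ?_
          refine (pow_le_pow_left₀ (norm_nonneg _) (norm_sum_le _ _) 2).trans ?_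
          simpa using sq_sum_le_card_mul_sum_sq (s := range R) (f := fun i => ‖off i ξ‖)
      _ = R * ∑ i ∈ range R, ∑ ξ with B ξ ξ = j, ‖off i ξ‖ ^ 2 := by rw [← mul_sum, sum_comm]
      _ ≤ t ^ 5 * ∑ i ∈ range R, 2 * (q ^ (2 * (m + 1)) * ∑ x, ‖g i x‖) := by
          gcongr with i
          have := off_bound hF hG (r i) (c i) (g i) (gs i)
          refine le_trans (le_of_eq ?_) (this.trans ?_)
          · refine sum_congr rfl fun ξ _ => ?_
            simp only [hoff]; split_ifs <;> simp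
          · have := sq_le_one_sum (g i) (g1 i)
            gcongr
      _ = 2 * (q ^ (2 * (m + 1)) * t ^ 5 * ∑ i ∈ range R, ∑ x, ‖g i x‖) := by
          rw [← mul_sum, ← mul_sum]; ring
      _ ≤ _ := by gcongr
  have b2 : ∀ i ∈ range R, ‖∑ ξ with B ξ ξ = j, on i ξ * (starRingEnd ℂ) (on i ξ)‖
      ≤ C * (q ^ (2 * (m + 1)) * t ^ 5 * ∑ x, ‖g i x‖) := by
    intro i hi
    by_cases hr : B (r i) (r i) = 0
    swap
    · simp only [hon, hr, false_and, if_false, zero_mul, sum_const_zero, norm_zero]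
      have := s1 i
      positivity
    obtain ⟨r', hr'⟩ := exists_dual hG (hr0 i (mem_range.1 hi))
    classical
    have := on_diag hG.symm hr hr' hC (IH _ _ (good_perp hψ hG hr hr')) (g i) (g1 i) (c i) (gs i) ht
      (by
        have := single_le_sum (f := fun i => ∑ x, ‖g i x‖) (fun i _ => s1 i) hi
        calc _ ≤ n := this.trans s3
          _ = t ^ 5 * μ := by rw [← hμn, mul_comm]
          _ ≤ _ := by gcongr)
    refine (norm_sum_le _ _).trans (le_trans (le_of_eq ?_) this)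
    refine sum_congr rfl fun ξ _ => ?_
    simp only [hon, hr, true_and]
    split_ifs
    · rw [norm_mul, RCLike.norm_conj, sq]
    · simp
  have b3 : ∀ i l, i ≠ l → q ^ 2 * ‖∑ ξ with B ξ ξ = j, on i ξ * (starRingEnd ℂ) (on l ξ)‖
      ≤ q ^ (2 * (m + 1) + 1) * (∑ x, ‖g i x‖ + ∑ x, ‖g l x‖)
        + 2 * q ^ (m + 1 + 1) * ((∑ x, ‖g i x‖) * ∑ x, ‖g l x‖) := by
    intro i l hil
    have := s1 i
    have := s1 l
    have hp : 0 ≤ q ^ (2 * (m + 1) + 1) := by positivity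
    rcases lt_or_gt_of_ne hil with h | h
    · have := on_cross hF hψ hj hG (r i) (r l) (c i) (g i) (g l) (g1 i) (gs i) (gs' i l h)
      refine this.trans ?_
      rw [← hq]
      nlinarith
    · have := on_cross hF hψ hj hG (r l) (r i) (c l) (g l) (g i) (g1 l) (gs l) (gs' l i h)
      rw [← RCLike.norm_conj, map_sum]
      simp only [map_mul, Complex.conj_conj, mul_comm ((starRingEnd ℂ) (on i _))]
      refine this.trans ?_
      rw [← hq]
      nlinarith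
  have b4 : ∑ ξ with B ξ ξ = j, ‖∑ i ∈ range R, on i ξ‖ ^ 2
      ≤ (C + 4) * (q ^ (2 * (m + 1)) * t ^ 5 * n) := by
    refine (normsq_sum_le _ R on).trans ?_
    have c1 : ∀ i ∈ range R, ∀ l ∈ range R,
        ‖∑ ξ with B ξ ξ = j, on i ξ * (starRingEnd ℂ) (on l ξ)‖
        ≤ (if i = l then C * (q ^ (2 * (m + 1)) * t ^ 5 * ∑ x, ‖g i x‖) else 0)
          + (q ^ (2 * m + 1) * (∑ x, ‖g i x‖ + ∑ x, ‖g l x‖)
            + 2 * q ^ m * ((∑ x, ‖g i x‖) * ∑ x, ‖g l x‖)) := by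
      intro i hi l _
      have := s1 i
      have := s1 l
      split_ifs with h
      · subst h
        exact (b2 i hi).trans (le_add_of_nonneg_right (by positivity))
      · rw [zero_add]
        refine le_of_mul_le_mul_left ((b3 i l h).trans (le_of_eq (by ring))) (by positivity)
    refine (sum_le_sum fun i hi => sum_le_sum fun l hl => c1 i hi l hl).trans ?_
    simp only [sum_add_distrib, sum_ite_eq, ← mul_sum, ← sum_mul, sum_const, card_range,
      nsmul_eq_mul]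
    rw [sum_congr rfl fun i hi => if_pos hi]
    simp only [← mul_sum]
    generalize ∑ i ∈ range R, ∑ x, ‖g i x‖ = N at *
    have d1 : C * (q ^ (2 * (m + 1)) * t ^ 5 * N) ≤ C * (q ^ (2 * (m + 1)) * t ^ 5 * n) := by gcongr
    have d2 : q ^ (2 * m + 1) * (R * N) ≤ q ^ (2 * (m + 1)) * t ^ 5 * n := by
      rw [mul_assoc]
      gcongr
      · linarith
      · omega
    have d3 : q ^ m * (N * N) ≤ q ^ (2 * (m + 1)) * t ^ 5 * n := by
      have : t ^ (5 * m + 6) ≤ q ^ (m + 2) :=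
        (pow_le_pow_right₀ ht (by omega : 5 * m + 6 ≤ 5 * (m + 2))).trans
          (by rw [pow_mul]; exact pow_le_pow_left₀ (by positivity) hqt _)
      calc q ^ m * (N * N) ≤ q ^ m * ((μ * t ^ 5) * n) := by rw [hμn]; gcongr
        _ ≤ q ^ m * ((q ^ (m + 2) * t ^ 5) * n) := by gcongr; exact hμ1.trans this
        _ = _ := by ring
    nlinarith
  calc mass ψ j B f ≤ ∑ ξ with B ξ ξ = j, 3 * (‖ft ψ B g0 ξ‖ ^ 2 + ‖∑ i ∈ range R, on i ξ‖ ^ 2
        + ‖∑ i ∈ range R, off i ξ‖ ^ 2) :=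
        sum_le_sum fun ξ _ => by rw [hft]; exact normsq_three _ _ _
    _ = 3 * (mass ψ j B g0 + ∑ ξ with B ξ ξ = j, ‖∑ i ∈ range R, on i ξ‖ ^ 2
        + ∑ ξ with B ξ ξ = j, ‖∑ i ∈ range R, off i ξ‖ ^ 2) := by
        rw [← mul_sum, sum_add_distrib, sum_add_distrib]; rfl
    _ ≤ _ := by linarith

theorem bd_all (k : ℕ) : ∃ C : ℝ, 0 ≤ C ∧ ∀ (F : Type) [Field F] [Fintype F] [DecidableEq F],
    ringChar F ≠ 2 → ∀ ψ : AddChar F ℂ, ψ ≠ 1 → ∀ j : F, j ≠ 0 →
    ∀ (U : Type) [AddCommGroup U] [Module F U] [Fintype U] [DecidableEq U]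
      (B : U →ₗ[F] U →ₗ[F] F), Good ψ j B k → Bd ψ j B k C := by
  induction k with
  | zero => exact ⟨0, le_rfl, fun F _ _ _ _ ψ _ j _ U _ _ _ _ B hG => bd_zero hG⟩
  | succ m ih =>
    obtain ⟨C, hC, h⟩ := ih
    exact ⟨3 * (C + 10), by positivity, fun F _ _ _ hF ψ hψ j hj U _ _ _ _ B hG =>
      bd_step hF hψ hj hC (h F hF ψ hψ j hj) hG⟩

end Pool.Agent.Lib.MP_c8b0a1_an
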