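import Pool.Agent.Lib.MP_c8b0a1_an.Hyper
import Pool.Agent.Lib.MP_c8b0a1_an.Gauss

set_option autoImplicit false
set_option linter.unusedSectionVars false

namespace Pool.Agent.Lib.MP_c8b0a1_an

open Finset

variable {F : Type} [Field F] [Fintype F] [DecidableEq F]
variable {V : Type} [AddCommGroup V] [Module F V] [Fintype V] [DecidableEq V]

/-- abstract quadratic space of dimension `2k+1` whose sphere has the admissible kernel -/
structure Good (ψ : AddChar F ℂ) (j : F) (B : V →ₗ[F] V →ₗ[F] F) (k : ℕ) : Prop where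
  symm : ∀ x y, B x y = B y x
  orth : ∀ x, ∑ ξ, ψ (B ξ x) = if x = 0 then (((Fintype.card F : ℝ) ^ (2 * k + 1) : ℝ) : ℂ) else 0
  kf : ∀ x, ∑ ξ with B ξ ξ = j, ψ (B ξ x)
    = (if x = 0 then (Fintype.card F : ℂ) ^ (2 * k) else 0)
      - (Fintype.card F : ℂ) ^ k * phi ψ j (B x x)

/-- Fourier transform -/
noncomputable def ft (ψ : AddChar F ℂ) (B : V →ₗ[F] V →ₗ[F] F) (g : V → ℂ) (ξ : V) : ℂ :=
  ∑ x, g x * ψ (B ξ x)

/-- Fourier mass on the sphere -/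
noncomputable def mass (ψ : AddChar F ℂ) (j : F) (B : V →ₗ[F] V →ₗ[F] F) (g : V → ℂ) : ℝ :=
  ∑ ξ with B ξ ξ = j, ‖ft ψ B g ξ‖ ^ 2

/-- the averaged kernel -/
noncomputable def TT (ψ : AddChar F ℂ) (j : F) (B : V →ₗ[F] V →ₗ[F] F) (g : V → ℂ) (x : V) (u : F) :
    ℂ := ∑ y, g y * phi ψ j (u - 2 * B x y + B y y)

/-- cone sum map -/
def om (X : (F × F) × (V × V)) : F × V := (X.1.1 + X.1.2, X.1.1 • X.2.1 + X.1.2 • X.2.2)

def PP (B : V →ₗ[F] V →ₗ[F] F) (X : (F × F) × (V × V)) : F :=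
  X.1.1 * B X.2.1 X.2.1 + X.1.2 * B X.2.2 X.2.2

def ZZ (X : (F × F) × (V × V)) : F := X.1.1⁻¹ + X.1.2⁻¹

noncomputable def wt (w : V → ℝ) (X : (F × F) × (V × V)) : ℝ :=
  if X.1.1 ≠ 0 ∧ X.1.2 ≠ 0 then w X.2.1 * w X.2.2 else 0

noncomputable def WW (F : Type) [Field F] [Fintype F] [DecidableEq F] [Module F V] (w : V → ℝ) : ℝ :=
  En (om (F := F) (V := V)) (wt w)

noncomputable def AA (B : V →ₗ[F] V →ₗ[F] F) (w : V → ℝ) : ℝ :=
  En (fun X : (F × F) × (V × V) => (om X, (PP B X, ZZ X))) (wt w)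

lemma fiber_equiv {ι W : Type} [Fintype ι] [Fintype W] [DecidableEq W] (ω : ι → W) (σ : ι ≃ ι)
    (e : W ≃ W) (h : ∀ i, ω (σ i) = e (ω i)) (v : ι → ℂ) :
    ∑ w, ‖∑ i with ω i = w, v (σ i)‖ ^ 2 = ∑ w, ‖∑ i with ω i = w, v i‖ ^ 2 := by
  refine Fintype.sum_equiv e _ _ fun w => ?_
  congr 2
  refine sum_equiv σ (fun i => ?_) (fun _ _ => rfl)
  simp [h]

lemma orth_prod (hF : ringChar F ≠ 2) {ψ : AddChar F ℂ} (hψ : ψ ≠ 1) {j : F}
    {B : V →ₗ[F] V →ₗ[F] F} {k : ℕ} (hG : Good ψ j B k) (m : F × V) :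
    ∑ p : V × F, ψ (p.2 * m.1 - 2 * B p.1 m.2)
      = if m = 0 then (((Fintype.card F : ℝ) ^ (2 * k + 2) : ℝ) : ℂ) else 0 := by
  rw [Fintype.sum_prod_type]
  have e : ∀ (x : V) (u : F), ψ (u * m.1 - 2 * B x m.2) = ψ (B x ((-2 : F) • m.2)) * ψ (u * m.1) := by
    intro x u
    rw [← AddChar.map_add_eq_mul]; congr 1
    simp only [map_smul, smul_eq_mul]; ring
  simp_rw [e]
  rw [← sum_mul_sum, sum_psi ψ hψ, hG.orth]
  obtain ⟨m1, m2⟩ := m
  have h2 := two_ne hF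
  by_cases h1 : m1 = 0 <;> by_cases h2 : m2 = 0 <;> simp [*, pow_succ]

/-- coefficient -/
noncomputable def cc (g : V → ℂ) (X : (F × F) × (V × V)) : ℂ :=
  eta F X.1.1 * eta F X.1.2 * (g X.2.1 * g X.2.2)

lemma norm_cc (g : V → ℂ) (X : (F × F) × (V × V)) : ‖cc g X‖ = wt (fun y => ‖g y‖) X := by
  unfold cc wt
  by_cases h1 : X.1.1 = 0
  · simp [h1]
  by_cases h2 : X.1.2 = 0
  · simp [h2]
  simp [h1, h2, norm_eta h1, norm_eta h2]

lemma TT_four (hF : ringChar F ≠ 2) {ψ : AddChar F ℂ} (hψ : ψ ≠ 1) {j : F} (hj : j ≠ 0)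
    {B : V →ₗ[F] V →ₗ[F] F} {k : ℕ} (hG : Good ψ j B k) (g : V → ℂ) :
    ∑ p : V × F, ‖TT ψ j B g p.1 p.2‖ ^ 4
      = (Fintype.card F : ℝ) ^ (2 * k) * ∑ w, ‖∑ X : (F × F) × (V × V) with om X = w,
          cc g X * ψ (PP B X + ZZ X * (j / 4))‖ ^ 2 := by
  set c : ℂ := (Fintype.card F : ℂ)⁻¹ * (eta F (-j) * GG ψ) with hc
  have hq := card_pos' (F := F)
  have hcn : ‖c‖ ^ 2 = (Fintype.card F : ℝ)⁻¹ := by
    rw [hc, norm_mul, norm_mul, norm_eta (by simpa using hj), one_mul, mul_pow, norm_GG_sq hF ψ hψ,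
      norm_inv, Complex.norm_natCast]
    field_simp
  have e0 : ∀ p : V × F, TT ψ j B g p.1 p.2 = c * ∑ r : F × V,
      eta F r.1 * g r.2 * ψ ((p.2 - 2 * B p.1 r.2 + B r.2 r.2) * r.1 + j / 4 * r.1⁻¹) := by
    intro p
    unfold TT
    simp_rw [phi_expand hF ψ hψ hj, ← hc]
    rw [Fintype.sum_prod_type_right, mul_sum]
    refine sum_congr rfl fun y _ => ?_
    simp only [mul_sum]
    exact sum_congr rfl fun τ _ => by ring
  have e1 : ∀ p : V × F, ‖TT ψ j B g p.1 p.2‖ ^ 4 = ((Fintype.card F : ℝ)⁻¹) ^ 2 *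
      ‖∑ X : (F × F) × (V × V), (cc g X * ψ (PP B X + ZZ X * (j / 4))) *
        ψ (p.2 * (om X).1 - 2 * B p.1 (om X).2)‖ ^ 2 := by
    intro p
    rw [e0, norm_mul, mul_pow, show 4 = 2 * 2 from rfl, pow_mul, pow_mul, hcn, ← norm_pow,
      sq (∑ r : F × V, _), sum_mul_sum, ← Fintype.sum_prod_type']
    congr 3
    refine Fintype.sum_equiv (Equiv.prodProdProdComm F V F V) _ _ fun r => ?_
    obtain ⟨⟨t1, y1⟩, ⟨t2, y2⟩⟩ := r
    simp only [Equiv.prodProdProdComm_apply, cc, PP, ZZ, om, map_add, map_smul, smul_eq_mul]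
    rw [mul_mul_mul_comm, ← AddChar.map_add_eq_mul, mul_assoc _ (ψ _) (ψ _),
      ← AddChar.map_add_eq_mul]
    congr 1
    · ring
    · congr 1; ring
  simp_rw [e1]
  rw [← mul_sum]
  have e2 := parseval ψ (fun (p : V × F) (m : F × V) => p.2 * m.1 - 2 * B p.1 m.2)
    (fun x m m' => by simp only [Prod.fst_sub, Prod.snd_sub, map_sub]; ring) _
    (orth_prod hF hψ hG) (fun X : (F × F) × (V × V) => cc g X * ψ (PP B X + ZZ X * (j / 4))) om
  rw [e2, ← mul_assoc]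
  congr 1
  field_simp
  ring

lemma L_scale {ψ : AddChar F ℂ} (j : F) (B : V →ₗ[F] V →ₗ[F] F) (g : V → ℂ) {ρ : F} (hρ : ρ ≠ 0) :
    ∑ w, ‖∑ X : (F × F) × (V × V) with om X = w,
          cc g X * ψ (PP B X * ρ + ZZ X * (j / 4 * ρ⁻¹))‖ ^ 2
      = ∑ w, ‖∑ X : (F × F) × (V × V) with om X = w,
          cc g X * ψ (PP B X + ZZ X * (j / 4))‖ ^ 2 := by
  let σ : (F × F) × (V × V) ≃ (F × F) × (V × V) :=
    ((Equiv.mulLeft₀ ρ hρ).prodCongr (Equiv.mulLeft₀ ρ hρ)).prodCongr (Equiv.refl _)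
  let e : F × V ≃ F × V := (Equiv.mulLeft₀ ρ hρ).prodCongr (MulAction.toPerm (Units.mk0 ρ hρ))
  rw [← fiber_equiv om σ e _ (fun X => cc g X * ψ (PP B X + ZZ X * (j / 4)))]
  · refine sum_congr rfl fun w _ => ?_
    congr 2
    refine sum_congr rfl fun X _ => ?_
    obtain ⟨⟨t1, t2⟩, ⟨y1, y2⟩⟩ := X
    simp only [σ, cc, PP, ZZ, Equiv.prodCongr_apply, Prod.map, Equiv.mulLeft₀_apply,
      Equiv.coe_refl, id, map_mul]
    congr 1
    · have := eta_sq hρ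
      linear_combination (-(eta F t1 * eta F t2 * (g y1 * g y2))) * this
    · congr 1
      simp only [mul_inv]
      ring
  · rintro ⟨⟨t1, t2⟩, ⟨y1, y2⟩⟩
    simp [σ, e, om, mul_add, Units.smul_def, mul_smul]

lemma card_ne_zero_filter : (#{ρ : F | ρ ≠ 0} : ℝ) = Fintype.card F - 1 := by
  rw [filter_ne' univ (0 : F), card_erase_of_mem (mem_univ _), card_univ,
    Nat.cast_sub Fintype.card_pos]
  simp

lemma two_le_card : (2 : ℝ) ≤ Fintype.card F := by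
  exact_mod_cast Fintype.one_lt_card

theorem TT_bound (hF : ringChar F ≠ 2) {ψ : AddChar F ℂ} (hψ : ψ ≠ 1) {j : F} (hj : j ≠ 0)
    {B : V →ₗ[F] V →ₗ[F] F} {k : ℕ} (hG : Good ψ j B k) (g : V → ℂ) :
    (∑ p : V × F, ‖TT ψ j B g p.1 p.2‖ ^ 4) ^ 2
      ≤ 12 * (Fintype.card F : ℝ) ^ (4 * k) * (WW F (fun y => ‖g y‖) * AA B (fun y => ‖g y‖)) := by
  rw [TT_four hF hψ hj hG]
  set L := ∑ w, ‖∑ X : (F × F) × (V × V) with om X = w,
          cc g X * ψ (PP B X + ZZ X * (j / 4))‖ ^ 2 with hL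
  set q : ℝ := (Fintype.card F : ℝ) with hq
  have hq2 : 2 ≤ q := two_le_card
  have hb : j / 4 ≠ 0 := div_ne_zero hj (four_ne hF)
  have h1 : (q - 1) * L = ∑ w, ∑ ρ : F with ρ ≠ 0, ‖∑ X : (F × F) × (V × V) with om X = w,
          cc g X * ψ (PP B X * ρ + ZZ X * (j / 4 * ρ⁻¹))‖ ^ 2 := by
    rw [sum_comm, sum_congr rfl (g := fun _ => L)
      (fun ρ hρ => L_scale j B g (mem_filter.1 hρ).2), sum_const, nsmul_eq_mul, card_ne_zero_filter]
  have h2 := sum_sq_le_sum_mul_sum_of_sq_le_mul (univ : Finset (F × V))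
    (r := fun w => ∑ ρ : F with ρ ≠ 0, ‖∑ X : (F × F) × (V × V) with om X = w,
          cc g X * ψ (PP B X * ρ + ZZ X * (j / 4 * ρ⁻¹))‖ ^ 2)
    (f := fun w => 3 * q ^ 2 * (∑ X : (F × F) × (V × V) with om X = w, ‖cc g X‖) ^ 2)
    (g := fun w => ∑ p : F × F, (∑ X ∈ (univ.filter fun X : (F × F) × (V × V) => om X = w)
      with (PP B X, ZZ X) = p, ‖cc g X‖) ^ 2)
    (fun _ _ => by positivity) (fun _ _ => by positivity)
    (fun w _ => by
      have := hyp_indexed ψ hψ hb (univ.filter fun X : (F × F) × (V × V) => om X = w) (cc g)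
        (PP B) ZZ
      rw [mul_assoc (3 * q ^ 2)]
      exact this)
  rw [← h1, ← mul_sum] at h2
  have h3 : ∑ w, (∑ X : (F × F) × (V × V) with om X = w, ‖cc g X‖) ^ 2
      = WW F (fun y => ‖g y‖) := by
    simp only [norm_cc]; rfl
  have h4 : ∑ w, ∑ p : F × F, (∑ X ∈ (univ.filter fun X : (F × F) × (V × V) => om X = w)
      with (PP B X, ZZ X) = p, ‖cc g X‖) ^ 2 = AA B (fun y => ‖g y‖) := by
    unfold AA En
    conv_rhs => rw [Fintype.sum_prod_type]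
    refine sum_congr rfl fun w _ => sum_congr rfl fun p _ => ?_
    simp only [norm_cc, filter_filter, Prod.mk.injEq]
  rw [h3, h4] at h2
  have hW : 0 ≤ WW F (fun y => ‖g y‖) * AA B (fun y => ‖g y‖) :=
    mul_nonneg (En_nonneg _ _) (En_nonneg _ _)
  have h5 : L ^ 2 ≤ 12 * (WW F (fun y => ‖g y‖) * AA B (fun y => ‖g y‖)) := by
    have h6 : q ^ 2 * L ^ 2 ≤ 4 * ((q - 1) * L) ^ 2 := by
      rw [mul_pow, ← mul_assoc]
      exact mul_le_mul_of_nonneg_right (by nlinarith) (sq_nonneg _)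
    have h7 : 0 < q ^ 2 := by positivity
    refine le_of_mul_le_mul_left ?_ h7
    nlinarith
  calc (q ^ (2 * k) * L) ^ 2 = q ^ (4 * k) * L ^ 2 := by ring
    _ ≤ q ^ (4 * k) * (12 * (WW F (fun y => ‖g y‖) * AA B (fun y => ‖g y‖))) := by gcongr
    _ = _ := by ring

end Pool.Agent.Lib.MP_c8b0a1_an
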