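import Pool.Agent.Lib.MP_c8b0a1_an.RKern

set_option autoImplicit false
set_option linter.unusedSectionVars false

namespace Pool.Agent.Lib.MP_c8b0a1_an

open Finset

variable {F : Type} [Field F] [Fintype F] [DecidableEq F]
variable {V : Type} [AddCommGroup V] [Module F V] [Fintype V] [DecidableEq V]

lemma conc_beta {ψ : AddChar F ℂ} {B : V →ₗ[F] V →ₗ[F] F} (hs : ∀ x y, B x y = B y x)
    (hF : ringChar F ≠ 2) {γ : ℂ} {l : F} (hl : l ≠ 0)
    (hγ : ∀ z : V, ∑ y, ψ (l * B y y + B z y) = eta F l * γ * ψ (-(B z z / (4 * l))))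
    {t : F} (f : V → ℂ) (hf : ∀ ξ, B ξ ξ ≠ t → f ξ = 0) :
    ‖∑ y, ψ (l * B y y) * ((‖ft ψ B f y‖ ^ 2 : ℝ) : ℂ)‖ ^ 2
      ≤ ‖γ‖ ^ 2 * ((∑ ξ, ‖f ξ‖ ^ 2) *
        ∑ y, if (2 * l) ^ 2 * B y y = t then ‖ft ψ B f y‖ ^ 2 else 0) := by
  have h2 := two_ne hF
  have h4 := four_ne hF
  have h2l : 2 * l ≠ 0 := mul_ne_zero h2 hl
  have e1 : ∑ y, ψ (l * B y y) * ((‖ft ψ B f y‖ ^ 2 : ℝ) : ℂ)
      = ∑ ξ', (starRingEnd ℂ) (f ξ') * ∑ ξ, f ξ * ∑ y, ψ (l * B y y + B (ξ - ξ') y) := by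
    simp_rw [normsq_eq]
    unfold ft
    simp only [map_sum, map_mul, mul_sum, sum_mul]
    rw [sum_comm]
    refine sum_congr rfl fun ξ' _ => ?_
    rw [sum_comm]
    refine sum_congr rfl fun ξ _ => sum_congr rfl fun y _ => ?_
    rw [conj_psi, show l * B y y + B (ξ - ξ') y = l * B y y + (B y ξ + -B y ξ') by
      simp only [map_sub, LinearMap.sub_apply, hs ξ y, hs ξ' y]; ring,
      AddChar.map_add_eq_mul, AddChar.map_add_eq_mul]
    ring
  have e2 : ∀ ξ', ‖(starRingEnd ℂ) (f ξ') * ∑ ξ, f ξ * ∑ y, ψ (l * B y y + B (ξ - ξ') y)‖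
      = ‖γ‖ * (‖f ξ'‖ * if B ξ' ξ' = t then ‖ft ψ B f ((2 * l)⁻¹ • ξ')‖ else 0) := by
    intro ξ'
    by_cases h : B ξ' ξ' = t
    · have : ∑ ξ, f ξ * ∑ y, ψ (l * B y y + B (ξ - ξ') y)
          = eta F l * γ * ψ (-(t / (2 * l))) * ft ψ B f ((2 * l)⁻¹ • ξ') := by
        unfold ft
        rw [mul_sum]
        refine sum_congr rfl fun ξ _ => ?_
        by_cases h' : B ξ ξ = t
        · rw [hγ, show -(B (ξ - ξ') (ξ - ξ') / (4 * l)) = -(t / (2 * l)) + B ((2 * l)⁻¹ • ξ') ξ by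
            simp only [map_sub, LinearMap.sub_apply, map_smul, LinearMap.smul_apply, smul_eq_mul,
              h, h', hs ξ ξ']
            field_simp
            ring, AddChar.map_add_eq_mul]
          ring
        · simp [hf ξ h']
      rw [this, if_pos h]
      simp only [norm_mul, RCLike.norm_conj, norm_psi, norm_eta hl]
      ring
    · simp [hf ξ' h]
  have e3 : ∑ ξ', (if B ξ' ξ' = t then ‖ft ψ B f ((2 * l)⁻¹ • ξ')‖ else 0) ^ 2
      = ∑ y, if (2 * l) ^ 2 * B y y = t then ‖ft ψ B f y‖ ^ 2 else 0 := by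
    symm
    refine Fintype.sum_equiv (MulAction.toPerm (Units.mk0 (2 * l) h2l)) _ _ fun y => ?_
    have a1 : (MulAction.toPerm (Units.mk0 (2 * l) h2l)) y = (2 * l) • y := rfl
    rw [a1, smul_smul, inv_mul_cancel₀ h2l, one_smul]
    have a2 : B ((2 * l) • y) ((2 * l) • y) = (2 * l) ^ 2 * B y y := by
      simp only [map_smul, LinearMap.smul_apply, smul_eq_mul]; ring
    rw [a2]
    split_ifs <;> simp
  rw [e1, ← e3]
  have e4 := (norm_sum_le univ _).trans (le_of_eq (sum_congr rfl fun ξ' _ => e2 ξ'))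
  rw [← mul_sum] at e4
  refine (pow_le_pow_left₀ (norm_nonneg _) e4 2).trans ?_
  rw [mul_pow]
  exact mul_le_mul_of_nonneg_left (sum_mul_sq_le_sq_mul_sq _ _ _) (sq_nonneg _)

lemma conc_two (hF : ringChar F ≠ 2) {t : F} (ht : t ≠ 0) (a : F) {z : ℝ} (hz : 0 ≤ z) :
    ∑ l : F, (if (2 * l) ^ 2 * a = t then z else 0) ≤ 2 * z := by
  rw [← sum_filter, sum_const, nsmul_eq_mul]
  refine mul_le_mul_of_nonneg_right ?_ hz
  have h2 := two_ne hF
  have : #{l : F | (2 * l) ^ 2 * a = t} ≤ 2 := by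
    refine le_trans (card_le_card_of_injOn (fun l => 2 * l) (fun l hl => ?_) ?_)
      (card_sqrt_le (t / a))
    · have h := (mem_filter.1 (mem_coe.1 hl)).2
      refine mem_coe.2 (mem_filter.2 ⟨mem_univ _, ?_⟩)
      have ha : a ≠ 0 := by rintro rfl; exact ht (by simpa using h.symm)
      rw [eq_div_iff ha]; exact h
    · intro a _ b _ h
      exact mul_left_cancel₀ h2 h
  exact_mod_cast this

lemma conc_dual (hF : ringChar F ≠ 2) {ψ : AddChar F ℂ} (hψ : ψ ≠ 1) {j : F}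
    {B : V →ₗ[F] V →ₗ[F] F} (hG : Good ψ j B 1) {t : F} (ht : t ≠ 0) (U : Finset F)
    (f : V → ℂ) (hf : ∀ ξ, B ξ ξ ≠ t → f ξ = 0) :
    (∑ y, if B y y ∈ U then ‖ft ψ B f y‖ ^ 2 else 0) ^ 2
      ≤ 9 * (Fintype.card F : ℝ) ^ 5 * #U * (∑ ξ, ‖f ξ‖ ^ 2) ^ 2 := by
  obtain ⟨γ, hγ1, hγ2⟩ := gauss3 hF hψ hG
  have hP := ft_parseval hG f
  set q : ℝ := (Fintype.card F : ℝ) with hq
  have hq0 : 0 < q := card_pos'
  set m := ∑ ξ, ‖f ξ‖ ^ 2 with hm
  have hm0 : 0 ≤ m := sum_nonneg fun _ _ => sq_nonneg _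
  set X := ∑ y, if B y y ∈ U then ‖ft ψ B f y‖ ^ 2 else 0 with hX
  have hX0 : 0 ≤ X := sum_nonneg fun _ _ => by positivity
  set β : F → ℂ := fun l => ∑ y, ψ (l * B y y) * ((‖ft ψ B f y‖ ^ 2 : ℝ) : ℂ) with hβ
  set Uh : F → ℂ := fun l => ∑ u : F, (if u ∈ U then (1 : ℂ) else 0) * ψ (l * -u) with hUh
  have hM : (#U : ℝ) ≤ q := by rw [hq]; exact_mod_cast card_le_univ U
  have hM0 : (0 : ℝ) ≤ #U := Nat.cast_nonneg _
  have e1 : ((q * X : ℝ) : ℂ) = ∑ l, β l * Uh l := by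
    simp only [hβ, hUh, sum_mul, mul_sum, hX, Complex.ofReal_sum]
    rw [sum_comm]
    have : ∀ u : F, ∑ l : F, ∑ y, ψ (l * B y y) * ((‖ft ψ B f y‖ ^ 2 : ℝ) : ℂ) *
        ((if u ∈ U then (1 : ℂ) else 0) * ψ (l * -u))
        = ∑ y, if B y y = u then
          (((q * if B y y ∈ U then ‖ft ψ B f y‖ ^ 2 else 0 : ℝ)) : ℂ) else 0 := by
      intro u
      rw [sum_comm]
      refine sum_congr rfl fun y _ => ?_
      have a : ∀ l : F, ψ (l * B y y) * ((‖ft ψ B f y‖ ^ 2 : ℝ) : ℂ) *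
          ((if u ∈ U then (1 : ℂ) else 0) * ψ (l * -u))
          = (((‖ft ψ B f y‖ ^ 2 : ℝ) : ℂ) * (if u ∈ U then (1 : ℂ) else 0)) * ψ (l * (B y y - u)) := by
        intro l
        rw [show l * (B y y - u) = l * B y y + l * -u by ring, AddChar.map_add_eq_mul]
        ring
      simp_rw [a]
      rw [← mul_sum, sum_psi ψ hψ]
      simp only [sub_eq_zero]
      by_cases h : B y y = u
      · subst h
        by_cases h' : B y y ∈ U <;> simp [h', hq, mul_comm]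
      · simp [h]
    simp_rw [this]
    rw [sum_comm]
    simp
  have e2 : ∑ l, ‖Uh l‖ ^ 2 = q * #U := by
    rw [hUh, parseval_id ψ (fun l u : F => l * -u) (fun _ _ _ => by ring) q
      (fun u => by rw [sum_psi ψ hψ]; simp [hq])]
    congr 1
    have : ∀ u : F, ‖(if u ∈ U then (1 : ℂ) else 0)‖ ^ 2 = if u ∈ U then (1 : ℝ) else 0 := by
      intro u; split_ifs <;> simp
    simp [this]
  have e3 : ∑ l with l ≠ 0, ‖β l‖ ^ 2 ≤ 2 * q ^ 6 * m ^ 2 := by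
    refine (sum_le_sum fun l hl => conc_beta hG.symm hF (mem_filter.1 hl).2
      (hγ2 l (mem_filter.1 hl).2) f hf).trans ?_
    rw [← mul_sum, ← mul_sum, hγ1, ← hm]
    have a1 : ∑ l with l ≠ 0, ∑ y, (if (2 * l) ^ 2 * B y y = t then ‖ft ψ B f y‖ ^ 2 else 0)
        ≤ 2 * (q ^ 3 * m) := by
      refine (sum_le_sum_of_subset_of_nonneg (filter_subset _ univ)
        fun _ _ _ => sum_nonneg fun _ _ => by positivity).trans ?_
      rw [sum_comm]
      refine (sum_le_sum fun y _ => conc_two hF ht _ (sq_nonneg _)).trans (le_of_eq ?_)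
      rw [← mul_sum, hP]
    calc q ^ 3 * (m * _) ≤ q ^ 3 * (m * (2 * (q ^ 3 * m))) := by gcongr
      _ = _ := by ring
  have e4 : ‖β 0 * Uh 0‖ = q ^ 3 * m * #U := by
    have a1 : β 0 = ((q ^ 3 * m : ℝ) : ℂ) := by
      simp only [hβ, zero_mul, AddChar.map_zero_eq_one, one_mul]
      rw [← Complex.ofReal_sum, hP]
    have a2 : Uh 0 = ((#U : ℝ) : ℂ) := by simp [hUh]
    rw [a1, a2, ← Complex.ofReal_mul, Complex.norm_real, Real.norm_of_nonneg (by positivity)]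
  set Y := ∑ l with l ≠ 0, ‖β l‖ * ‖Uh l‖ with hY
  have e5 : Y ^ 2 ≤ 2 * q ^ 6 * m ^ 2 * (q * #U) := by
    refine (sum_mul_sq_le_sq_mul_sq _ _ _).trans (mul_le_mul e3 ?_
      (sum_nonneg fun _ _ => sq_nonneg _) (by positivity))
    rw [← e2]
    exact sum_le_sum_of_subset_of_nonneg (filter_subset _ univ) fun _ _ _ => sq_nonneg _
  have e6 : q * X ≤ q ^ 3 * m * #U + Y := by
    have a1 : q * X = ‖((q * X : ℝ) : ℂ)‖ := by
      rw [Complex.norm_real, Real.norm_of_nonneg (by positivity)]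
    rw [a1, e1, ← e4]
    refine (norm_sum_le _ _).trans (le_of_eq ?_)
    rw [← add_sum_erase _ _ (mem_univ (0 : F)), hY, filter_ne' univ (0 : F)]
    simp only [norm_mul]
  have e7 : (q * X) ^ 2 ≤ 2 * (q ^ 3 * m * #U) ^ 2 + 2 * Y ^ 2 := by
    refine (pow_le_pow_left₀ (by positivity) e6 2).trans ?_
    nlinarith [sq_nonneg (q ^ 3 * m * #U - Y)]
  have e8 : (q ^ 3 * m * #U) ^ 2 ≤ q ^ 7 * #U * m ^ 2 := by
    calc (q ^ 3 * m * #U) ^ 2 = q ^ 6 * #U * m ^ 2 * #U := by ring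
      _ ≤ q ^ 6 * #U * m ^ 2 * q := by gcongr
      _ = _ := by ring
  refine le_of_mul_le_mul_left ?_ (by positivity : 0 < q ^ 2)
  have e9 : 0 ≤ q ^ 7 * #U * m ^ 2 := by positivity
  calc q ^ 2 * X ^ 2 = (q * X) ^ 2 := by ring
    _ ≤ 2 * (q ^ 7 * #U * m ^ 2) + 2 * (2 * q ^ 6 * m ^ 2 * (q * #U)) := by linarith
    _ = 6 * (q ^ 7 * #U * m ^ 2) := by ring
    _ ≤ 9 * (q ^ 7 * #U * m ^ 2) := by linarith
    _ = _ := by ring

theorem lemmaC (hF : ringChar F ≠ 2) {ψ : AddChar F ℂ} (hψ : ψ ≠ 1) {j : F}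
    {B : V →ₗ[F] V →ₗ[F] F} (hG : Good ψ j B 1) {t : F} (ht : t ≠ 0) (x : V) (U : Finset F)
    (g : V → ℂ) (hg : ∀ y, B (y - x) (y - x) ∉ U → g y = 0) :
    mass ψ t B g ^ 2 ≤ 9 * (Fintype.card F : ℝ) ^ 5 * #U * (∑ y, ‖g y‖ ^ 2) ^ 2 := by
  set f : V → ℂ := fun ξ => if B ξ ξ = t then (starRingEnd ℂ) (ft ψ B g ξ) * ψ (B ξ x) else 0
    with hf
  have hD := conc_dual hF hψ hG ht U f (fun ξ h => by simp [hf, h])
  have e1 : ∑ ξ, ‖f ξ‖ ^ 2 = mass ψ t B g := by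
    unfold mass
    rw [sum_filter]
    refine sum_congr rfl fun ξ _ => ?_
    simp only [hf]
    split_ifs
    · rw [norm_mul, norm_psi, mul_one, RCLike.norm_conj]
    · simp
  have e2 : (mass ψ t B g : ℂ) = ∑ y, g y * ft ψ B f (y - x) := by
    have : ∑ y, g y * ft ψ B f (y - x) = ∑ ξ, f ξ * ψ (-B ξ x) * ft ψ B g ξ := by
      conv_lhs => unfold ft
      conv_rhs => unfold ft
      simp only [mul_sum]
      rw [sum_comm]
      refine sum_congr rfl fun ξ _ => sum_congr rfl fun y _ => ?_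
      rw [show B (y - x) ξ = -B ξ x + B ξ y by
        simp only [map_sub, LinearMap.sub_apply, hG.symm y ξ, hG.symm x ξ]; ring,
        AddChar.map_add_eq_mul]
      ring
    rw [this]
    unfold mass
    rw [sum_filter, Complex.ofReal_sum]
    refine sum_congr rfl fun ξ _ => ?_
    simp only [hf]
    split_ifs
    · rw [normsq_eq, mul_assoc _ (ψ _) (ψ _), ← AddChar.map_add_eq_mul]
      simp [mul_comm]
    · simp
  rw [e1] at hD
  have hm0 := mass_nonneg ψ t B g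
  have e3 : mass ψ t B g
      ≤ ∑ y, ‖g y‖ * if B (y - x) (y - x) ∈ U then ‖ft ψ B f (y - x)‖ else 0 := by
    have a1 : mass ψ t B g = ‖(mass ψ t B g : ℂ)‖ := by
      rw [Complex.norm_real, Real.norm_of_nonneg hm0]
    rw [a1, e2]
    refine (norm_sum_le _ _).trans (le_of_eq (sum_congr rfl fun y _ => ?_))
    split_ifs with h
    · rw [norm_mul]
    · simp [hg y h]
  have e4 : ∑ y, (if B (y - x) (y - x) ∈ U then ‖ft ψ B f (y - x)‖ else 0) ^ 2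
      = ∑ y, if B y y ∈ U then ‖ft ψ B f y‖ ^ 2 else 0 := by
    refine Fintype.sum_equiv (Equiv.subRight x) _ _ fun y => ?_
    simp only [Equiv.subRight_apply]
    split_ifs <;> simp
  have e5 := (pow_le_pow_left₀ hm0 e3 2).trans (sum_mul_sq_le_sq_mul_sq _ _ _)
  rw [e4] at e5
  generalize (∑ y, if B y y ∈ U then ‖ft ψ B f y‖ ^ 2 else 0) = X at *
  have hg0 : 0 ≤ ∑ y, ‖g y‖ ^ 2 := sum_nonneg fun _ _ => sq_nonneg _
  generalize ∑ y, ‖g y‖ ^ 2 = G at *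
  generalize mass ψ t B g = m at *
  rcases hm0.eq_or_lt with h | h
  · rw [← h]; simp only [ne_eq, OfNat.ofNat_ne_zero, not_false_eq_true, zero_pow]; positivity
  · refine le_of_mul_le_mul_right ?_ (by positivity : 0 < m ^ 2)
    calc m ^ 2 * m ^ 2 = (m ^ 2) ^ 2 := by ring
      _ ≤ (G * X) ^ 2 := pow_le_pow_left₀ (sq_nonneg _) e5 2
      _ = G ^ 2 * X ^ 2 := by ring
      _ ≤ G ^ 2 * (9 * (Fintype.card F : ℝ) ^ 5 * #U * m ^ 2) := by gcongr
      _ = _ := by ring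

lemma conc_nu_le (hF : ringChar F ≠ 2) {ψ : AddChar F ℂ} (hψ : ψ ≠ 1) {j : F}
    {B : V →ₗ[F] V →ₗ[F] F} (hG : Good ψ j B 1) (w : V → ℝ) (h1 : ∀ x, w x ≤ 1) (x : V) (u : F) :
    nu B w x u ≤ 2 * (Fintype.card F : ℝ) ^ 2 := by
  refine le_trans ?_ (card_sph3 hF hψ hG u)
  unfold nu
  refine (sum_le_sum fun y _ => h1 y).trans (le_of_eq ?_)
  rw [sum_const, nsmul_eq_mul, mul_one]
  congr 1
  exact card_equiv (Equiv.subRight x) (fun y => by simp only [mem_filter, mem_univ, true_and,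
    Equiv.subRight_apply])

theorem piece_sphere (hF : ringChar F ≠ 2) {ψ : AddChar F ℂ} (hψ : ψ ≠ 1) {j : F}
    {B : V →ₗ[F] V →ₗ[F] F} (hG : Good ψ j B 1) {t : F} (ht : t ≠ 0) {ω z : ℝ} (hω0 : 0 < ω)
    (hω : ω ^ 6 = Fintype.card F) (hz : 0 < z) (h : V → ℂ) (h1 : ∀ x, ‖h x‖ ≤ 1)
    (hn : ∑ x, ‖h x‖ ≤ z ^ 2) (x : V) (hx : 2 * (ω ^ 10 * z ^ 2) < NN B (fun y => ‖h y‖) x) :
    ∃ A : Finset V, 0 < ∑ y ∈ A, ‖h y‖ ∧
      z * mass ψ t B (fun y => if y ∈ A then h y else 0) ≤ 5 * ω ^ 11 * (∑ y ∈ A, ‖h y‖) ^ 2 := by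
  classical
  set ν := nu B (fun y => ‖h y‖) x with hν
  have hν0 : ∀ u, 0 ≤ ν u := fun u => sum_nonneg fun _ _ => norm_nonneg _
  have hν1 : ∀ u, ν u ≤ 2 * ω ^ 12 := fun u => by
    have := conc_nu_le hF hψ hG (fun y => ‖h y‖) h1 x u
    rw [← hω] at this
    exact this.trans (le_of_eq (by ring))
  set U : Finset F := univ.filter fun u => ω ^ 10 ≤ ν u with hU
  set A : Finset V := univ.filter fun y => B (y - x) (y - x) ∈ U with hA
  have e1 : ∑ y ∈ A, ‖h y‖ = ∑ u ∈ U, ν u := by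
    rw [← sum_fiberwise_of_maps_to (s := A) (t := U) (g := fun y => B (y - x) (y - x))
      (fun y hy => (mem_filter.1 hy).2)]
    refine sum_congr rfl fun u hu => ?_
    rw [hν, nu, hA, filter_filter]
    refine sum_congr (filter_congr fun y _ => ⟨fun h => h.2, fun h => ⟨h ▸ hu, h⟩⟩) fun _ _ => rfl
  have e2 : ∑ u, ν u ≤ z ^ 2 := by
    refine le_trans (le_of_eq ?_) hn
    exact sum_fiberwise univ (fun y => B (y - x) (y - x)) (fun y => ‖h y‖)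
  have e3 : NN B (fun y => ‖h y‖) x ≤ ω ^ 10 * z ^ 2 + 2 * ω ^ 12 * ∑ u ∈ U, ν u := by
    have a1 : ∀ u, ν u ^ 2 ≤ ω ^ 10 * ν u + 2 * ω ^ 12 * if ω ^ 10 ≤ ν u then ν u else 0 := by
      intro u
      have b0 := hν0 u
      have b1 := hν1 u
      have b2 : 0 ≤ ω ^ 10 * ν u := by positivity
      split_ifs with hc
      · nlinarith
      · nlinarith [le_of_not_ge hc]
    refine (sum_le_sum fun u _ => a1 u).trans ?_
    rw [sum_add_distrib, ← mul_sum, ← mul_sum, ← sum_filter]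
    gcongr
  have e4 : (#U : ℝ) * ω ^ 10 ≤ ∑ u ∈ U, ν u := by
    rw [← nsmul_eq_mul, ← sum_const]
    exact sum_le_sum fun u hu => (mem_filter.1 hu).2
  have hC := lemmaC hF hψ hG ht x U (fun y => if y ∈ A then h y else 0)
    (fun y hy => if_neg fun hc : y ∈ A => hy (by rw [hA] at hc; exact (mem_filter.1 hc).2))
  have e5 : ∑ y, ‖(if y ∈ A then h y else 0)‖ ^ 2 ≤ ∑ y ∈ A, ‖h y‖ := by
    refine (sq_le_one_sum _ fun y => by split_ifs; exacts [h1 y, by simp]).trans (le_of_eq ?_)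
    simp only [apply_ite (fun z : ℂ => ‖z‖), norm_zero]
    rw [← sum_filter, filter_mem_eq_inter, univ_inter]
  rw [← e1] at e3 e4
  refine ⟨A, ?_⟩
  have hm0 := mass_nonneg ψ t B (fun y => if y ∈ A then h y else 0)
  have hG0 : 0 ≤ ∑ y, ‖(if y ∈ A then h y else 0)‖ ^ 2 := sum_nonneg fun _ _ => sq_nonneg _
  rw [← hω] at hC
  generalize ∑ y, ‖(if y ∈ A then h y else 0)‖ ^ 2 = G at *
  generalize mass ψ t B (fun y => if y ∈ A then h y else 0) = m at *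
  generalize ∑ y ∈ A, ‖h y‖ = N at *
  have hM0 : (0 : ℝ) ≤ #U := Nat.cast_nonneg _
  generalize (#U : ℝ) = M at *
  have e6 : z ^ 2 ≤ 2 * ω ^ 2 * N := by
    refine le_of_mul_le_mul_left ?_ (by positivity : 0 < ω ^ 10)
    nlinarith
  have hN : 0 < N := by
    by_contra hc
    have : 2 * ω ^ 2 * N ≤ 0 := mul_nonpos_of_nonneg_of_nonpos (by positivity) (le_of_not_gt hc)
    nlinarith [sq_pos_of_pos hz]
  refine ⟨hN, le_of_pow_le_pow_left₀ (n := 2) (by norm_num) (by positivity) ?_⟩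
  calc (z * m) ^ 2 = z ^ 2 * m ^ 2 := by ring
    _ ≤ (2 * ω ^ 2 * N) * (9 * (ω ^ 6) ^ 5 * M * G ^ 2) := by gcongr
    _ = 18 * ω ^ 22 * N * (M * ω ^ 10) * G ^ 2 := by ring
    _ ≤ 25 * ω ^ 22 * N * N * N ^ 2 := by gcongr; norm_num
    _ = _ := by ring

end Pool.Agent.Lib.MP_c8b0a1_an
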