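import Pool.Agent.Lib.MP_c8b0a1_an.RDefs

set_option autoImplicit false
set_option linter.unusedSectionVars false

namespace Pool.Agent.Lib.MP_c8b0a1_an

open Finset

variable {F : Type} [Field F] [Fintype F] [DecidableEq F]
variable {V : Type} [AddCommGroup V] [Module F V] [Fintype V] [DecidableEq V]

lemma cone_four {A ι W : Type} [Fintype A] [Fintype ι] [Fintype W] [AddCommGroup W] [DecidableEq W]
    (ψ : AddChar F ℂ) (β : A → W → F) (hβ : ∀ x m m', β x (m - m') = β x m - β x m') (N : ℝ)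
    (h : ∀ m, ∑ x, ψ (β x m) = if m = 0 then (N : ℂ) else 0) (c : ι → ℂ) (ω : ι → W) :
    ∑ x, ‖∑ i, c i * ψ (β x (ω i))‖ ^ 4
      = N * ∑ w, ‖∑ X : ι × ι with ω X.1 + ω X.2 = w, c X.1 * c X.2‖ ^ 2 := by
  rw [← parseval ψ β hβ N h (fun X : ι × ι => c X.1 * c X.2) (fun X => ω X.1 + ω X.2)]
  refine sum_congr rfl fun x _ => ?_
  rw [show 4 = 2 * 2 from rfl, pow_mul, ← norm_pow, sq (∑ i, _), sum_mul_sum,
    ← Fintype.sum_prod_type']
  congr 2
  refine sum_congr rfl fun X _ => ?_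
  have := hβ x (ω X.1 + ω X.2) (ω X.2)
  rw [add_sub_cancel_right] at this
  rw [mul_mul_mul_comm, ← AddChar.map_add_eq_mul]
  congr 2
  linear_combination this

lemma cone_major {A ι W : Type} [Fintype A] [Fintype ι] [Fintype W] [AddCommGroup W]
    [DecidableEq W] (ψ : AddChar F ℂ) (β : A → W → F)
    (hβ : ∀ x m m', β x (m - m') = β x m - β x m') {N : ℝ} (hN : 0 ≤ N)
    (h : ∀ m, ∑ x, ψ (β x m) = if m = 0 then (N : ℂ) else 0) (c : ι → ℂ) (a : ι → ℝ)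
    (ha : ∀ i, ‖c i‖ = a i) (ω : ι → W) :
    ∑ x, ‖∑ i, c i * ψ (β x (ω i))‖ ^ 4 ≤ ∑ x, ‖∑ i, (a i : ℂ) * ψ (β x (ω i))‖ ^ 4 := by
  rw [cone_four ψ β hβ N h, cone_four ψ β hβ N h]
  refine mul_le_mul_of_nonneg_left (sum_le_sum fun w _ => ?_) hN
  refine pow_le_pow_left₀ (norm_nonneg _) ((norm_sum_le _ _).trans ?_) 2
  simp only [norm_mul, ha, ← Complex.ofReal_mul]
  rw [← Complex.ofReal_sum, Complex.norm_real]
  exact le_abs_self _

lemma cone_gauss (hF : ringChar F ≠ 2) (ψ : AddChar F ℂ) (a : F) :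
    ∑ s : F, eta F s * ψ (s * a) = eta F a * GG ψ := by
  by_cases ha : a = 0
  · subst ha
    simp [MulChar.sum_eq_zero_of_ne_one (eta_ne_one hF)]
  · have := gaussSum_mulShift (eta F) ψ (Units.mk0 a ha)
    simp only [Units.val_mk0] at this
    unfold GG
    rw [← this, ← mul_assoc, eta_sq ha, one_mul]
    exact sum_congr rfl fun s _ => by rw [AddChar.mulShift_apply, mul_comm a s]

lemma cone_T (hF : ringChar F ≠ 2) {ψ : AddChar F ℂ} (hψ : ψ ≠ 1) (w : V → ℝ) (θ : V → F) :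
    ‖∑ i : F × V, (eta F i.1 * w i.2) * ψ (i.1 * θ i.2)‖ ^ 4
      = (Fintype.card F : ℝ) ^ 2 * (∑ y, w y * chi (θ y)) ^ 4 := by
  have : ∑ i : F × V, (eta F i.1 * w i.2) * ψ (i.1 * θ i.2)
      = GG ψ * ((∑ y, w y * chi (θ y) : ℝ) : ℂ) := by
    rw [Fintype.sum_prod_type_right, Complex.ofReal_sum, mul_sum]
    refine sum_congr rfl fun y _ => ?_
    rw [Complex.ofReal_mul, chi_eta]
    have e : ∀ s : F, eta F s * (w y : ℂ) * ψ (s * θ y) = w y * (eta F s * ψ (s * θ y)) :=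
      fun s => by ring
    simp only [e]
    rw [← mul_sum, cone_gauss hF]
    ring
  rw [this, norm_mul, mul_pow, ← norm_GG_sq hF ψ hψ, Complex.norm_real, Real.norm_eq_abs,
    Even.pow_abs (by decide)]
  ring

lemma cone_C {ψ : AddChar F ℂ} (hψ : ψ ≠ 1) (w : V → ℝ) (θ : V → F) :
    ‖∑ i : F × V, (((if i.1 ≠ 0 then w i.2 else 0 : ℝ)) : ℂ) * ψ (i.1 * θ i.2)‖ ^ 4
      = (Fintype.card F * (∑ y with θ y = 0, w y) - ∑ y, w y) ^ 4 := by
  have : ∑ i : F × V, (((if i.1 ≠ 0 then w i.2 else 0 : ℝ)) : ℂ) * ψ (i.1 * θ i.2)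
      = ((Fintype.card F * (∑ y with θ y = 0, w y) - ∑ y, w y : ℝ) : ℂ) := by
    rw [Fintype.sum_prod_type_right, sum_filter]
    push_cast
    rw [mul_sum, ← sum_sub_distrib]
    refine sum_congr rfl fun y _ => ?_
    have : ∀ s : F, (((if s ≠ 0 then w y else 0 : ℝ)) : ℂ) * ψ (s * θ y)
        = w y * (if s ≠ 0 then ψ (s * θ y) else 0) := by
      intro s
      split_ifs <;> simp
    simp only [this]
    rw [← mul_sum, sum_psi_ne ψ hψ]
    split_ifs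
    · ring
    · simp
  rw [this, Complex.norm_real, Real.norm_eq_abs, Even.pow_abs (by decide)]

lemma cone_reidx {B : V →ₗ[F] V →ₗ[F] F} (hs : ∀ x y, B x y = B y x) {l : F} (hl : l ≠ 0)
    (H : (V → F) → ℝ) :
    ∑ p : V × F, H (fun y => p.2 - 2 * B p.1 y + l * B y y)
      = ∑ p : V × F, H (fun y => l * (B (y - p.1) (y - p.1) - p.2)) := by
  symm
  refine Fintype.sum_bijective (fun p : V × F => (l • p.1, l * (B p.1 p.1 - p.2)))
    (Finite.injective_iff_bijective.1 ?_) _ _ fun p => ?_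
  · rintro ⟨x, t⟩ ⟨x', t'⟩ h
    obtain ⟨e1, e2⟩ := Prod.mk.inj h
    have e3 : x = x' := smul_right_injective V hl e1
    subst e3
    have := mul_left_cancel₀ hl e2
    exact Prod.ext rfl (by linear_combination -this)
  · congr 1
    funext y
    simp only [map_sub, LinearMap.sub_apply, map_smul, LinearMap.smul_apply, smul_eq_mul, hs y p.1]
    ring

lemma cone_WW (hF : ringChar F ≠ 2) {ψ : AddChar F ℂ} (hψ : ψ ≠ 1) {j : F}
    {B : V →ₗ[F] V →ₗ[F] F} (hG : Good ψ j B 1) (w : V → ℝ) :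
    ∑ p : V × F, (Fintype.card F * (∑ y with p.2 - 2 * B p.1 y = 0, w y) - ∑ y, w y) ^ 4
      = (Fintype.card F : ℝ) ^ (2 * 1 + 2) * WW F w := by
  have e := cone_four ψ (fun (p : V × F) (m : F × V) => p.2 * m.1 - 2 * B p.1 m.2)
    (fun x m m' => by simp only [Prod.fst_sub, Prod.snd_sub, map_sub]; ring) _
    (orth_prod hF hψ hG) (fun i : F × V => (((if i.1 ≠ 0 then w i.2 else 0 : ℝ)) : ℂ))
    (fun i => (i.1, i.1 • i.2))
  have e1 : ∀ (p : V × F) (i : F × V), p.2 * i.1 - 2 * B p.1 (i.1 • i.2)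
      = i.1 * (p.2 - 2 * B p.1 i.2) := fun p i => by
    simp only [map_smul, smul_eq_mul]; ring
  simp only [e1] at e
  rw [← sum_congr rfl fun (p : V × F) _ => cone_C hψ w (fun y => p.2 - 2 * B p.1 y), e]
  congr 1
  refine sum_congr rfl fun m _ => ?_
  simp only [← Complex.ofReal_mul]
  rw [← Complex.ofReal_sum, Complex.norm_real, Real.norm_eq_abs, sq_abs]
  congr 1
  refine sum_equiv (Equiv.prodProdProdComm F V F V) (fun X => ?_) (fun X _ => ?_)
  · obtain ⟨⟨t1, y1⟩, ⟨t2, y2⟩⟩ := X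
    simp [om]
  · obtain ⟨⟨t1, y1⟩, ⟨t2, y2⟩⟩ := X
    simp only [Equiv.prodProdProdComm_apply, wt]
    by_cases h1 : t1 = 0 <;> by_cases h2 : t2 = 0 <;> simp [h1, h2]

lemma cone_chi_mul (a b : F) : chi (a * b) = chi a * chi b := by
  unfold chi
  rw [map_mul, Int.cast_mul]

lemma cone_chi_sq (a : F) : chi a ^ 2 = if a ≠ 0 then 1 else 0 := by
  unfold chi
  split_ifs with h
  · exact_mod_cast quadraticChar_sq_one h
  · simp [not_not.1 h]

lemma cone_main (hF : ringChar F ≠ 2) {ψ : AddChar F ℂ} (hψ : ψ ≠ 1) {j : F}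
    {B : V →ₗ[F] V →ₗ[F] F} (hG : Good ψ j B 1) (w : V → ℝ) (h0 : ∀ x, 0 ≤ w x) :
    (Fintype.card F : ℝ) ^ 2 * ((Fintype.card F - 1) * ∑ x, Dc B w x ^ 4)
      ≤ (Fintype.card F : ℝ) ^ (2 * 1 + 2) * WW F w
        + (Fintype.card F - 1) * ∑ x, ∑ t, (Fintype.card F * nu B w x t - ∑ y, w y) ^ 4 := by
  have hq0 : (0 : ℝ) < Fintype.card F := card_pos'
  have e := cone_major ψ
    (fun (p : (V × F) × F) (m : (F × V) × F) => p.1.2 * m.1.1 - 2 * B p.1.1 m.1.2 + p.2 * m.2)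
    (fun x m m' => by simp only [Prod.fst_sub, Prod.snd_sub, map_sub]; ring)
    (N := (Fintype.card F : ℝ) ^ (2 * 1 + 2) * Fintype.card F) (by positivity)
    (fun m => by
      rw [Fintype.sum_prod_type]
      simp only [AddChar.map_add_eq_mul]
      rw [← sum_mul_sum, orth_prod hF hψ hG, sum_psi ψ hψ]
      obtain ⟨m1, m2⟩ := m
      by_cases h1 : m1 = 0 <;> by_cases h2 : m2 = 0 <;> simp [h1, h2])
    (fun i : F × V => eta F i.1 * w i.2) (fun i => if i.1 ≠ 0 then w i.2 else 0)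
    (fun i => by
      by_cases h : i.1 = 0
      · simp [h]
      · simp [h, norm_eta h, h0])
    (fun i => ((i.1, i.1 • i.2), i.1 * B i.2 i.2))
  have e1 : ∀ (p : (V × F) × F) (i : F × V),
      p.1.2 * i.1 - 2 * B p.1.1 (i.1 • i.2) + p.2 * (i.1 * B i.2 i.2)
      = i.1 * (p.1.2 - 2 * B p.1.1 i.2 + p.2 * B i.2 i.2) := fun p i => by
    simp only [map_smul, smul_eq_mul]; ring
  simp only [e1] at e
  rw [sum_congr rfl fun (p : (V × F) × F) _ =>
      cone_T hF hψ w (fun y => p.1.2 - 2 * B p.1.1 y + p.2 * B y y),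
    sum_congr rfl fun (p : (V × F) × F) _ =>
      cone_C hψ w (fun y => p.1.2 - 2 * B p.1.1 y + p.2 * B y y), ← mul_sum,
    Fintype.sum_prod_type_right, Fintype.sum_prod_type_right] at e
  refine le_trans (mul_le_mul_of_nonneg_left ?_ (by positivity)) (e.trans (le_of_eq ?_))
  · rw [← card_ne_zero_filter, ← nsmul_eq_mul, ← sum_const]
    refine le_trans (sum_le_sum fun l hl => ?_) (sum_le_sum_of_subset_of_nonneg
      (filter_subset (fun l : F => l ≠ 0) univ) fun _ _ _ => sum_nonneg fun _ _ => by positivity)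
    have hl0 := (mem_filter.1 hl).2
    rw [cone_reidx hG.symm hl0 (fun θ => (∑ y, w y * chi (θ y)) ^ 4), Fintype.sum_prod_type]
    refine sum_le_sum fun x _ => le_trans (le_of_eq ?_) (single_le_sum
      (f := fun t => (∑ y, w y * chi (l * (B (y - x) (y - x) - t))) ^ 4)
      (fun _ _ => by positivity) (mem_univ (0 : F)))
    have a1 : ∑ y, w y * chi (l * (B (y - x) (y - x) - 0)) = chi l * Dc B w x := by
      rw [Dc, mul_sum]
      exact sum_congr rfl fun y _ => by rw [sub_zero, cone_chi_mul]; ring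
    have a2 := cone_chi_sq l
    rw [if_pos hl0] at a2
    simp only [a1]
    rw [mul_pow, show chi l ^ 4 = (chi l ^ 2) ^ 2 by ring, a2]
    ring
  · rw [← add_sum_erase _ _ (mem_univ (0 : F)), ← cone_WW hF hψ hG, ← card_ne_zero_filter,
      ← nsmul_eq_mul, ← sum_const, filter_ne' univ (0 : F)]
    congr 1
    · simp only [zero_mul, add_zero]
    · refine sum_congr rfl fun l hl => ?_
      have hl0 := (mem_erase.1 hl).1
      rw [cone_reidx hG.symm hl0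
        (fun θ => (Fintype.card F * (∑ y with θ y = 0, w y) - ∑ y, w y) ^ 4), Fintype.sum_prod_type]
      refine sum_congr rfl fun x _ => sum_congr rfl fun t _ => ?_
      simp only [mul_eq_zero, hl0, false_or, sub_eq_zero, nu]

lemma cone_pt (hF : ringChar F ≠ 2) (B : V →ₗ[F] V →ₗ[F] F) (w : V → ℝ) (x : V) :
    0 ≤ Var B w x - Dc B w x ^ 2 / (Fintype.card F - 1) ∧
    ∑ t, (Fintype.card F * nu B w x t - ∑ y, w y) ^ 4 ≤ (Fintype.card F : ℝ) ^ 4 *
      (8 * (Var B w x - Dc B w x ^ 2 / (Fintype.card F - 1)) ^ 2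
        + 8 * (Dc B w x ^ 4 / (Fintype.card F - 1) ^ 3)) := by
  have hc2 : ∑ t : F, chi t ^ 2 = Fintype.card F - 1 := by
    simp only [cone_chi_sq]
    rw [← sum_filter, sum_const, nsmul_eq_mul, mul_one, card_ne_zero_filter]
  have hc4 : ∑ t : F, chi t ^ 4 = Fintype.card F - 1 := by
    rw [← hc2]
    refine sum_congr rfl fun t _ => ?_
    rw [show chi t ^ 4 = (chi t ^ 2) ^ 2 by ring, cone_chi_sq]
    split_ifs <;> simp
  have hc1 : ∑ t : F, chi t = 0 := by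
    unfold chi
    exact_mod_cast quadraticChar_sum_zero hF
  have hn : ∑ t, nu B w x t = ∑ y, w y := sum_fiberwise univ (fun y => B (y - x) (y - x)) w
  have hD : ∑ t, nu B w x t * chi t = Dc B w x := by
    rw [Dc, ← sum_fiberwise univ (fun y => B (y - x) (y - x))]
    refine sum_congr rfl fun t _ => ?_
    rw [nu, sum_mul]
    exact sum_congr rfl fun y hy => by rw [(mem_filter.1 hy).2]
  have hq2 : (2 : ℝ) ≤ Fintype.card F := two_le_card
  have hc0 : ∑ _t : F, (1 : ℝ) = Fintype.card F := by simp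
  unfold Var NN
  generalize nu B w x = ν at *
  generalize ∑ y, w y = n at *
  generalize Dc B w x = D at *
  generalize (Fintype.card F : ℝ) = q at *
  have hQ : q - 1 ≠ 0 := by linarith
  have hq : q ≠ 0 := by linarith
  have e1 : ∑ t, (ν t - n / q - D / (q - 1) * chi t) ^ 2
      = ∑ t, ν t ^ 2 - n ^ 2 / q - D ^ 2 / (q - 1) := by
    have : ∀ t, (ν t - n / q - D / (q - 1) * chi t) ^ 2
        = ν t ^ 2 + (n / q) ^ 2 * 1 + (D / (q - 1)) ^ 2 * chi t ^ 2 - 2 * (n / q) * ν t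
          - 2 * (D / (q - 1)) * (ν t * chi t) + 2 * (n / q) * (D / (q - 1)) * chi t :=
      fun t => by ring
    simp only [this, sum_add_distrib, sum_sub_distrib, ← mul_sum, hc2, hc1, hn, hD, hc0]
    field_simp
    ring
  rw [← e1]
  refine ⟨sum_nonneg fun _ _ => sq_nonneg _, ?_⟩
  have e2 : ∀ t, (q * ν t - n) ^ 4 ≤ q ^ 4 * (8 * ((ν t - n / q - D / (q - 1) * chi t) ^ 2) ^ 2
      + 8 * ((D / (q - 1)) ^ 4 * chi t ^ 4)) := by
    intro t
    have a1 : q * ν t - n = q * ((ν t - n / q - D / (q - 1) * chi t) + D / (q - 1) * chi t) := by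
      field_simp; ring
    rw [a1, mul_pow, ← mul_pow (D / (q - 1))]
    generalize ν t - n / q - D / (q - 1) * chi t = a
    generalize D / (q - 1) * chi t = b
    refine mul_le_mul_of_nonneg_left ?_ (by positivity)
    nlinarith [sq_nonneg (a - b), sq_nonneg (a + b), sq_nonneg (a ^ 2 - b ^ 2),
      mul_nonneg (sq_nonneg (a - b)) (sq_nonneg (a + b)), sq_nonneg ((a - b) ^ 2)]
  refine (sum_le_sum fun t _ => e2 t).trans ?_
  rw [← mul_sum, sum_add_distrib, ← mul_sum, ← mul_sum, ← mul_sum, hc4]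
  refine mul_le_mul_of_nonneg_left (add_le_add ?_ (le_of_eq ?_)) (by positivity)
  · exact mul_le_mul_of_nonneg_left (sum_sq_le_sq_sum_of_nonneg fun _ _ => sq_nonneg _) (by norm_num)
  · field_simp

theorem cone_bound (hF : ringChar F ≠ 2) {ψ : AddChar F ℂ} (hψ : ψ ≠ 1) {j : F}
    {B : V →ₗ[F] V →ₗ[F] F} (hG : Good ψ j B 1) (hq : 32 ≤ Fintype.card F) (w : V → ℝ)
    (h0 : ∀ x, 0 ≤ w x) (h1 : ∀ x, w x ≤ 1) {μ : ℝ}
    (hH : ∀ r, r ≠ 0 → ∀ c, ∑ x with B r x = c, w x ≤ μ) (hn : ∑ x, w x ≤ Fintype.card F * μ)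
    (u : V → ℝ) (hu : ∀ x, Var B w x - Dc B w x ^ 2 / (Fintype.card F - 1) ≤ u x) :
    Fintype.card F * ∑ x, Var B w x ^ 2 ≤ 66 * (Fintype.card F * ∑ x, u x ^ 2)
      + 16 * (∑ x, w x) ^ 4 + 16 * ((Fintype.card F : ℝ) ^ 3 * μ ^ 2 * ∑ x, w x) := by
  have hM := cone_main hF hψ hG w h0
  have hW := WW_bound hF hψ hG w h0 h1 μ hH hn
  have hq' : (32 : ℝ) ≤ Fintype.card F := by exact_mod_cast hq
  have hV : ∀ x, (Var B w x - Dc B w x ^ 2 / (Fintype.card F - 1)) ^ 2 ≤ u x ^ 2 := fun x =>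
    pow_le_pow_left₀ (cone_pt hF B w x).1 (hu x) 2
  have e1 : ∑ x, ∑ t, (Fintype.card F * nu B w x t - ∑ y, w y) ^ 4
      ≤ (Fintype.card F : ℝ) ^ 4 * (8 * ∑ x, u x ^ 2
        + 8 * ((∑ x, Dc B w x ^ 4) / (Fintype.card F - 1) ^ 3)) := by
    rw [sum_div, mul_sum, mul_sum, ← sum_add_distrib, mul_sum]
    refine sum_le_sum fun x _ => (cone_pt hF B w x).2.trans ?_
    have := hV x
    gcongr
  have e2 : ∑ x, Var B w x ^ 2
      ≤ 2 * ∑ x, u x ^ 2 + 2 * ((∑ x, Dc B w x ^ 4) / (Fintype.card F - 1) ^ 2) := by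
    rw [sum_div, mul_sum, mul_sum, ← sum_add_distrib]
    refine sum_le_sum fun x _ => ?_
    have a1 := hV x
    rw [show Dc B w x ^ 4 / ((Fintype.card F : ℝ) - 1) ^ 2
      = (Dc B w x ^ 2 / (Fintype.card F - 1)) ^ 2 by rw [div_pow]; ring]
    generalize Dc B w x ^ 2 / ((Fintype.card F : ℝ) - 1) = b at *
    nlinarith [sq_nonneg (Var B w x - 2 * b)]
  have hS : 0 ≤ ∑ x, Dc B w x ^ 4 := sum_nonneg fun _ _ => by positivity
  have hU : 0 ≤ ∑ x, u x ^ 2 := sum_nonneg fun _ _ => sq_nonneg _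
  have hn0 : 0 ≤ ∑ x, w x := sum_nonneg fun x _ => h0 x
  generalize ∑ x, ∑ t, (Fintype.card F * nu B w x t - ∑ y, w y) ^ 4 = R at *
  generalize ∑ x, Dc B w x ^ 4 = S at *
  generalize ∑ x, u x ^ 2 = U at *
  generalize ∑ x, Var B w x ^ 2 = Z at *
  generalize ∑ x, w x = n at *
  generalize (Fintype.card F : ℝ) ^ (2 * 1 + 2) * WW F w = W at *
  generalize (Fintype.card F : ℝ) = q at *
  obtain ⟨Q, rfl⟩ : ∃ Q, q = Q + 1 := ⟨q - 1, by ring⟩
  simp only [add_sub_cancel_right] at *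
  have hQ : 31 ≤ Q := by linarith
  have hQ0 : 0 < Q := by linarith
  obtain ⟨s, rfl⟩ : ∃ s, S = s * Q ^ 3 := ⟨S / Q ^ 3, by field_simp⟩
  have hs : 0 ≤ s := nonneg_of_mul_nonneg_left hS (by positivity)
  rw [mul_div_cancel_right₀ _ (by positivity)] at e1
  rw [show s * Q ^ 3 / Q ^ 2 = s * Q by field_simp] at e2
  set E := n ^ 4 + (Q + 1) ^ 3 * μ ^ 2 * n with hE
  have hE0 : 0 ≤ E := by positivity
  have a1 : (Q + 1) ^ 2 * (Q * (s * Q ^ 3)) ≤ (Q + 1) ^ 4 * E + Q * ((Q + 1) ^ 4 * (8 * U + 8 * s)) := by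
    have := mul_le_mul_of_nonneg_left e1 hQ0.le
    have b : (Q + 1) ^ 4 * n ^ 4 + (Q + 1) ^ (2 * 1 + 2) * ((Q + 1) ^ 3 * μ ^ 2 * n)
      = (Q + 1) ^ 4 * E := by rw [hE]; ring
    linarith
  have a2 : Q ^ 4 * s ≤ (Q + 1) ^ 2 * E + 8 * Q * (Q + 1) ^ 2 * U + 8 * Q * (Q + 1) ^ 2 * s := by
    refine le_of_mul_le_mul_left ?_ (by positivity : 0 < (Q + 1) ^ 2)
    calc _ = (Q + 1) ^ 2 * (Q * (s * Q ^ 3)) := by ring
      _ ≤ _ := a1
      _ = _ := by ring
  have b1 : 16 * (Q + 1) ^ 2 ≤ Q ^ 3 := by nlinarith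
  have b2 : (Q + 1) ^ 2 ≤ 2 * Q ^ 2 := by nlinarith
  have b3 : (Q + 1) ^ 3 ≤ 4 * Q ^ 3 := by nlinarith
  have a3 : Q ^ 4 * s ≤ 2 * (Q + 1) ^ 2 * E + 16 * Q * (Q + 1) ^ 2 * U := by
    have : Q * s * (16 * (Q + 1) ^ 2) ≤ Q * s * Q ^ 3 := by gcongr
    nlinarith
  have a4 : (Q + 1) * (s * Q) ≤ 8 * E + 32 * ((Q + 1) * U) := by
    refine le_of_mul_le_mul_left ?_ (by positivity : 0 < Q ^ 3)
    calc Q ^ 3 * ((Q + 1) * (s * Q)) = (Q + 1) * (Q ^ 4 * s) := by ring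
      _ ≤ (Q + 1) * (2 * (Q + 1) ^ 2 * E + 16 * Q * (Q + 1) ^ 2 * U) := by gcongr
      _ = 2 * E * (Q + 1) ^ 3 + 16 * Q * ((Q + 1) * U) * (Q + 1) ^ 2 := by ring
      _ ≤ 2 * E * (4 * Q ^ 3) + 16 * Q * ((Q + 1) * U) * (2 * Q ^ 2) := by gcongr
      _ = _ := by ring
  have a5 := mul_le_mul_of_nonneg_left e2 (by positivity : 0 ≤ Q + 1)
  rw [hE] at a4
  linarith

end Pool.Agent.Lib.MP_c8b0a1_an
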