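import Pool.Agent.Lib.MP_c8b0a1_an.Final

set_option autoImplicit false
set_option linter.unusedSectionVars false

namespace Pool.Agent.Lib.MP_c8b0a1_an

open Finset

variable {F : Type} [Field F] [Fintype F] [DecidableEq F]
variable {V : Type} [AddCommGroup V] [Module F V] [Fintype V] [DecidableEq V]

/-- the frequency lies on the plane orthogonal to a nonzero isotropic vector -/
def cut (B : V →ₗ[F] V →ₗ[F] F) (r ξ : V) : Prop := r ≠ 0 ∧ B r r = 0 ∧ B r ξ = 0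

instance (B : V →ₗ[F] V →ₗ[F] F) (r ξ : V) : Decidable (cut B r ξ) :=
  inferInstanceAs (Decidable (r ≠ 0 ∧ B r r = 0 ∧ B r ξ = 0))

lemma not_cut_zero (B : V →ₗ[F] V →ₗ[F] F) (ξ : V) : ¬ cut B 0 ξ := fun h => h.1 rfl

/-- Fourier transform with cuts -/
noncomputable def ftc (ψ : AddChar F ℂ) (B : V →ₗ[F] V →ₗ[F] F) (ρ : V → V) (h : V → ℂ) (ξ : V) :
    ℂ := ∑ x, if cut B (ρ x) ξ then 0 else h x * ψ (B ξ x)

/-- Fourier mass with cuts -/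
noncomputable def massc (ψ : AddChar F ℂ) (t : F) (B : V →ₗ[F] V →ₗ[F] F) (ρ : V → V)
    (h : V → ℂ) : ℝ := ∑ ξ with B ξ ξ = t, ‖ftc ψ B ρ h ξ‖ ^ 2

/-- the bootstrapped statement, all nonzero radii, modulo cuts -/
def HH (ψ : AddChar F ℂ) (B : V →ₗ[F] V →ₗ[F] F) (ω K : ℝ) : Prop :=
  ∀ t : F, t ≠ 0 → ∀ h : V → ℂ, (∀ x, ‖h x‖ ≤ 1) → ∀ z : ℝ, 0 ≤ z → ∑ x, ‖h x‖ ≤ z ^ 2 →
    ∃ ρ : V → V, massc ψ t B ρ h ≤ K * (ω ^ 12 * z ^ 2 + ω ^ 11 * z ^ 3)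

/-- weight of a sphere -/
noncomputable def nu (B : V →ₗ[F] V →ₗ[F] F) (w : V → ℝ) (x : V) (t : F) : ℝ :=
  ∑ y with B (y - x) (y - x) = t, w y

noncomputable def NN (B : V →ₗ[F] V →ₗ[F] F) (w : V → ℝ) (x : V) : ℝ := ∑ t, nu B w x t ^ 2

noncomputable def Var (B : V →ₗ[F] V →ₗ[F] F) (w : V → ℝ) (x : V) : ℝ :=
  NN B w x - (∑ y, w y) ^ 2 / Fintype.card F

/-- real quadratic character -/
noncomputable def chi (t : F) : ℝ := ((quadraticChar F t : ℤ) : ℝ)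

lemma chi_eta (t : F) : ((chi t : ℝ) : ℂ) = eta F t := by simp [chi, eta_apply]

noncomputable def Dc (B : V →ₗ[F] V →ₗ[F] F) (w : V → ℝ) (x : V) : ℝ :=
  ∑ y, w y * chi (B (y - x) (y - x))

/-- projection of the weight to one frequency sphere -/
noncomputable def Pt (ψ : AddChar F ℂ) (B : V →ₗ[F] V →ₗ[F] F) (w : V → ℝ) (x : V) (t : F) : ℂ :=
  ((Fintype.card F : ℂ) ^ 3)⁻¹ *
    ∑ ξ with B ξ ξ = t, ft ψ B (fun y => (w y : ℂ)) ξ * ψ (-(B ξ x))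

noncomputable def F1 (ψ : AddChar F ℂ) (B : V →ₗ[F] V →ₗ[F] F) (w : V → ℝ) (x : V) : ℝ :=
  ∑ t with t ≠ 0, ‖Pt ψ B w x t‖ ^ 2

/-- the inductive estimate with exponent b / a -/
def Bd2 (a b : ℕ) (ψ : AddChar F ℂ) (j : F) (B : V →ₗ[F] V →ₗ[F] F) (k : ℕ) (C : ℝ) : Prop :=
  ∀ g : V → ℂ, (∀ x, ‖g x‖ ≤ 1) → ∀ t : ℝ, 1 ≤ t → ∑ x, ‖g x‖ ≤ t ^ (a * (k + 1) + b) →
    mass ψ j B g ≤ C * ((Fintype.card F : ℝ) ^ (2 * k) * t ^ a * ∑ x, ‖g x‖)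

end Pool.Agent.Lib.MP_c8b0a1_an
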