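import Pool.Agent.Lib.MP_c8b0a1_an.RKern

set_option autoImplicit false
set_option linter.unusedSectionVars false

namespace Pool.Agent.Lib.MP_c8b0a1_an

open Finset

variable {F : Type} [Field F] [Fintype F] [DecidableEq F]
variable {V : Type} [AddCommGroup V] [Module F V] [Fintype V] [DecidableEq V]

lemma var_split {M : Type} [AddCommMonoid M] (f : F → M) :
    ∑ s, f s = f 0 + ∑ s with s ≠ 0, f s := by
  rw [filter_ne' univ (0 : F), add_sum_erase univ f (mem_univ 0)]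

lemma var_orth {ψ : AddChar F ℂ} (hψ : ψ ≠ 1) (m : F) :
    ∑ s, ψ (s * m) = if m = 0 then (((Fintype.card F : ℝ)) : ℂ) else 0 := by
  rw [sum_psi ψ hψ]; simp

/-- Parseval along a function with values in the field, zero frequency removed -/
lemma var_fib {ψ : AddChar F ℂ} (hψ : ψ ≠ 1) (w : V → ℝ) (φ : V → F) :
    ∑ s with s ≠ 0, ‖∑ y, (w y : ℂ) * ψ (s * φ y)‖ ^ 2
      = Fintype.card F * ∑ c, (∑ y with φ y = c, w y) ^ 2 - (∑ y, w y) ^ 2 := by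
  have h := parseval ψ (fun s m : F => s * m) (fun _ _ _ => mul_sub _ _ _) _ (var_orth hψ)
    (fun y => (w y : ℂ)) φ
  rw [var_split] at h
  simp only [zero_mul, AddChar.map_zero_eq_one, mul_one, ← Complex.ofReal_sum, Complex.norm_real,
    Real.norm_eq_abs, sq_abs] at h
  linarith

lemma var_W {ψ : AddChar F ℂ} (hψ : ψ ≠ 1) (B : V →ₗ[F] V →ₗ[F] F) (w : V → ℝ) (x : V) :
    ∑ s with s ≠ 0, ‖∑ y, (w y : ℂ) * ψ (s * B (y - x) (y - x))‖ ^ 2
      = Fintype.card F * Var B w x := by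
  rw [var_fib hψ w fun y => B (y - x) (y - x)]
  unfold Var NN nu
  have := (card_pos' (F := F)).ne'
  field_simp

lemma var_reindex (hF : ringChar F ≠ 2) {M : Type} [AddCommMonoid M] (f : F → M) :
    ∑ u with u ≠ 0, f (-(4 * u)⁻¹) = ∑ s with s ≠ 0, f s := by
  have h4 := four_ne hF
  refine sum_nbij' (fun u => -(4 * u)⁻¹) (fun u => -(4 * u)⁻¹) ?_ ?_ ?_ ?_ fun _ _ => rfl
  · intro u hu
    have : u ≠ 0 := (mem_filter.1 hu).2
    simp [h4, this]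
  · intro u hu
    have : u ≠ 0 := (mem_filter.1 hu).2
    simp [h4, this]
  · intro u hu
    have : u ≠ 0 := (mem_filter.1 hu).2
    field_simp
  · intro u hu
    have : u ≠ 0 := (mem_filter.1 hu).2
    field_simp

lemma var_gauss (ψ : AddChar F ℂ) (a : F) :
    ∑ s with s ≠ 0, eta F s * ψ (s * a) = if a = 0 then ∑ s, eta F s else eta F a * GG ψ := by
  have h0 : ∑ s with s ≠ 0, eta F s * ψ (s * a) = ∑ s, eta F s * ψ (s * a) := by
    rw [var_split fun s => eta F s * ψ (s * a)]; simp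
  rw [h0]
  split_ifs with ha
  · simp [ha]
  · have := gaussSum_mulShift (eta F) ψ (Units.mk0 a ha)
    simp only [Units.val_mk0] at this
    unfold GG
    rw [← this, ← mul_assoc, eta_sq ha, one_mul]
    exact sum_congr rfl fun s _ => by rw [mul_comm s a]; rfl

lemma var_D (hF : ringChar F ≠ 2) (ψ : AddChar F ℂ) (B : V →ₗ[F] V →ₗ[F] F) (w : V → ℝ)
    (x : V) : ∑ s with s ≠ 0, eta F s * ∑ y, (w y : ℂ) * ψ (s * B (y - x) (y - x))
      = GG ψ * (Dc B w x : ℂ) := by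
  unfold Dc
  simp_rw [mul_sum]
  rw [sum_comm, Complex.ofReal_sum, mul_sum]
  refine sum_congr rfl fun y _ => ?_
  have h : ∑ s with s ≠ 0, eta F s * ((w y : ℂ) * ψ (s * B (y - x) (y - x)))
      = w y * ∑ s with s ≠ 0, eta F s * ψ (s * B (y - x) (y - x)) := by
    rw [mul_sum]; exact sum_congr rfl fun s _ => by ring
  rw [h, var_gauss, MulChar.sum_eq_zero_of_ne_one (eta_ne_one hF), Complex.ofReal_mul, chi_eta]
  split_ifs with h0
  · rw [h0, eta_zero]; ring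
  · ring

lemma var_proj {ι : Type} (S : Finset ι) (a : ι → ℂ) (c : ℂ) {N : ℝ} (hN : (#S : ℝ) = N)
    (h0 : 0 < N) :
    ∑ i ∈ S, ‖a i‖ ^ 2 - ‖∑ i ∈ S, a i‖ ^ 2 / N ≤ ∑ i ∈ S, ‖a i - c‖ ^ 2 := by
  have h1 : ∀ z : ℂ, ‖z‖ ^ 2 = z.re ^ 2 + z.im ^ 2 := fun z => by
    rw [Complex.sq_norm, Complex.normSq_apply]; ring
  have h2 : ∑ i ∈ S, ‖a i - c‖ ^ 2 = ∑ i ∈ S, ‖a i‖ ^ 2
      - 2 * (c.re * (∑ i ∈ S, a i).re + c.im * (∑ i ∈ S, a i).im) + N * (c.re ^ 2 + c.im ^ 2) := by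
    rw [Complex.re_sum, Complex.im_sum, mul_sum, mul_sum, ← sum_add_distrib, mul_sum,
      ← sum_sub_distrib, ← hN, ← nsmul_eq_mul, ← sum_const, ← sum_add_distrib]
    refine sum_congr rfl fun i _ => ?_
    rw [h1, h1, Complex.sub_re, Complex.sub_im]; ring
  rw [h2, h1 (∑ i ∈ S, a i)]
  generalize (∑ i ∈ S, a i).re = p
  generalize (∑ i ∈ S, a i).im = r
  have h3 : 2 * (c.re * p + c.im * r) - N * (c.re ^ 2 + c.im ^ 2) ≤ (p ^ 2 + r ^ 2) / N := by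
    rw [le_div_iff₀ h0]
    nlinarith [sq_nonneg (N * c.re - p), sq_nonneg (N * c.im - r)]
  linarith

lemma var_G {ψ : AddChar F ℂ} {B : V →ₗ[F] V →ₗ[F] F} (hs : ∀ x y, B x y = B y x)
    (w : V → ℝ) (x : V) (u : F) :
    ∑ t, Pt ψ B w x t * ψ (u * t) = ((Fintype.card F : ℂ) ^ 3)⁻¹ *
      ∑ y, (w y : ℂ) * ∑ ξ, ψ (u * B ξ ξ + B (y - x) ξ) := by
  have h1 : ∀ t, Pt ψ B w x t * ψ (u * t) = ((Fintype.card F : ℂ) ^ 3)⁻¹ *
      ∑ ξ with B ξ ξ = t, ∑ y, (w y : ℂ) * ψ (u * B ξ ξ + B (y - x) ξ) := by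
    intro t
    unfold Pt ft
    rw [mul_assoc, sum_mul]
    congr 1
    refine sum_congr rfl fun ξ hξ => ?_
    rw [sum_mul, sum_mul]
    refine sum_congr rfl fun y _ => ?_
    rw [mul_assoc, mul_assoc, ← AddChar.map_add_eq_mul, ← AddChar.map_add_eq_mul,
      (mem_filter.1 hξ).2, hs (y - x) ξ, map_sub]
    congr 2; ring
  simp_rw [h1]
  rw [← mul_sum, sum_fiberwise univ (fun ξ => B ξ ξ), sum_comm]
  simp_rw [mul_sum]

lemma var_G0 {ψ : AddChar F ℂ} {j : F} {B : V →ₗ[F] V →ₗ[F] F} (hG : Good ψ j B 1)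
    (w : V → ℝ) (x : V) : ∑ t, Pt ψ B w x t * ψ (0 * t) = w x := by
  rw [var_G hG.symm]
  simp only [zero_mul, zero_add, hG.symm (_ - x), hG.orth, sub_eq_zero, mul_ite, mul_zero,
    sum_ite_eq', mem_univ, if_true]
  have := card_ne (F := F)
  push_cast
  field_simp

lemma var_Gu {ψ : AddChar F ℂ} {B : V →ₗ[F] V →ₗ[F] F} (hs : ∀ x y, B x y = B y x) {γ : ℂ}
    (h2 : ∀ l : F, l ≠ 0 → ∀ z : V,
      ∑ y, ψ (l * B y y + B z y) = eta F l * γ * ψ (-(B z z / (4 * l))))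
    (w : V → ℝ) (x : V) {u : F} (hu : u ≠ 0) :
    ∑ t, Pt ψ B w x t * ψ (u * t) = ((Fintype.card F : ℂ) ^ 3)⁻¹ * γ *
      (eta F u * ∑ y, (w y : ℂ) * ψ (-(4 * u)⁻¹ * B (y - x) (y - x))) := by
  rw [var_G hs, mul_assoc, mul_sum, mul_sum, mul_sum, mul_sum]
  refine sum_congr rfl fun y _ => ?_
  rw [h2 u hu, show -(B (y - x) (y - x) / (4 * u)) = -(4 * u)⁻¹ * B (y - x) (y - x) by ring]
  ring

lemma var_norm {γ : ℂ} (h1 : ‖γ‖ ^ 2 = (Fintype.card F : ℝ) ^ 3) (z : ℂ) :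
    (Fintype.card F : ℝ) ^ 3 * ‖((Fintype.card F : ℂ) ^ 3)⁻¹ * γ * z‖ ^ 2 = ‖z‖ ^ 2 := by
  rw [norm_mul, norm_mul, mul_pow, mul_pow, h1, norm_inv, norm_pow, Complex.norm_natCast]
  have := (card_pos' (F := F)).ne'
  field_simp

lemma var_a (hF : ringChar F ≠ 2) {ψ : AddChar F ℂ} (hψ : ψ ≠ 1) (B : V →ₗ[F] V →ₗ[F] F)
    (w : V → ℝ) (x : V) :
    ∑ u with u ≠ 0, ‖eta F u * ∑ y, (w y : ℂ) * ψ (-(4 * u)⁻¹ * B (y - x) (y - x))‖ ^ 2
      = Fintype.card F * Var B w x := by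
  rw [← var_W hψ, ← var_reindex hF fun s => ‖∑ y, (w y : ℂ) * ψ (s * B (y - x) (y - x))‖ ^ 2]
  refine sum_congr rfl fun u hu => ?_
  rw [norm_mul, norm_eta (mem_filter.1 hu).2, one_mul]

lemma var_b (hF : ringChar F ≠ 2) {ψ : AddChar F ℂ} (hψ : ψ ≠ 1) (B : V →ₗ[F] V →ₗ[F] F)
    (w : V → ℝ) (x : V) :
    ‖∑ u with u ≠ 0, eta F u * ∑ y, (w y : ℂ) * ψ (-(4 * u)⁻¹ * B (y - x) (y - x))‖ ^ 2
      = Fintype.card F * Dc B w x ^ 2 := by
  have h4 : eta F 4 = 1 := by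
    rw [show (4 : F) = 2 * 2 by norm_num, map_mul, eta_sq (two_ne hF)]
  have h1 : ∑ u with u ≠ 0, eta F u * ∑ y, (w y : ℂ) * ψ (-(4 * u)⁻¹ * B (y - x) (y - x))
      = eta F (-1) * (GG ψ * (Dc B w x : ℂ)) := by
    rw [← var_D hF, ← var_reindex hF
      fun s => eta F s * ∑ y, (w y : ℂ) * ψ (s * B (y - x) (y - x)), mul_sum]
    refine sum_congr rfl fun u _ => ?_
    rw [← mul_assoc, ← map_mul, neg_mul_neg, one_mul, eta_inv, map_mul, h4, one_mul]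
  rw [h1, norm_mul, norm_mul, norm_eta (by simp), one_mul, mul_pow, norm_GG_sq hF ψ hψ,
    Complex.norm_real, Real.norm_eq_abs, sq_abs]

theorem V1_le (hF : ringChar F ≠ 2) {ψ : AddChar F ℂ} (hψ : ψ ≠ 1) {j : F}
    {B : V →ₗ[F] V →ₗ[F] F} (hG : Good ψ j B 1) (w : V → ℝ) (x : V) :
    Var B w x - Dc B w x ^ 2 / (Fintype.card F - 1) ≤ (Fintype.card F : ℝ) ^ 3 * F1 ψ B w x := by
  obtain ⟨γ, h1, h2⟩ := gauss3 hF hψ hG
  have hq := card_pos' (F := F)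
  have hq2 := two_le_card (F := F)
  have hqc := card_ne (F := F)
  have hγ : γ ≠ 0 := by
    rintro rfl
    rw [norm_zero] at h1
    have : (0 : ℝ) < (Fintype.card F : ℝ) ^ 3 := by positivity
    nlinarith
  have hN : (#{u : F | u ≠ 0} : ℝ) = Fintype.card F - 1 := by
    rw [filter_ne' univ (0 : F), card_erase_of_mem (mem_univ _), card_univ,
      Nat.cast_sub Fintype.card_pos, Nat.cast_one]
  have h3 := var_proj {u : F | u ≠ 0}
    (fun u => eta F u * ∑ y, (w y : ℂ) * ψ (-(4 * u)⁻¹ * B (y - x) (y - x)))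
    ((Fintype.card F : ℂ) ^ 3 * γ⁻¹ * Pt ψ B w x 0) hN (by linarith)
  rw [var_a hF hψ, var_b hF hψ] at h3
  have h4 := parseval_id ψ (fun s m : F => s * m) (fun _ _ _ => mul_sub _ _ _) _ (var_orth hψ)
    fun t => if t ≠ 0 then Pt ψ B w x t else 0
  have h5 : ∑ t, ‖if t ≠ 0 then Pt ψ B w x t else 0‖ ^ 2 = F1 ψ B w x := by
    unfold F1
    rw [sum_filter]
    refine sum_congr rfl fun t _ => ?_
    split_ifs <;> simp
  rw [h5, var_split] at h4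
  have h6 : ∀ u ∈ ({u : F | u ≠ 0} : Finset F),
      ‖eta F u * ∑ y, (w y : ℂ) * ψ (-(4 * u)⁻¹ * B (y - x) (y - x))
        - (Fintype.card F : ℂ) ^ 3 * γ⁻¹ * Pt ψ B w x 0‖ ^ 2 = (Fintype.card F : ℝ) ^ 3 *
      ‖∑ t, (if t ≠ 0 then Pt ψ B w x t else 0) * ψ (u * t)‖ ^ 2 := by
    intro u hu
    have h7 := var_Gu hG.symm h2 w x (mem_filter.1 hu).2
    rw [var_split] at h7
    rw [← var_norm h1]
    congr 3
    simp only [ite_mul, zero_mul]
    rw [← sum_filter, mul_sub, ← h7]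
    simp only [mul_zero, AddChar.map_zero_eq_one, mul_one]
    field_simp
    ring
  rw [sum_congr rfl h6, ← mul_sum] at h3
  have h8 : ∑ u with u ≠ 0, ‖∑ t, (if t ≠ 0 then Pt ψ B w x t else 0) * ψ (u * t)‖ ^ 2
      ≤ Fintype.card F * F1 ψ B w x := by
    rw [← h4]; exact le_add_of_nonneg_left (sq_nonneg _)
  have h9 := h3.trans (mul_le_mul_of_nonneg_left h8 (by positivity))
  refine le_of_mul_le_mul_left ?_ hq
  rw [mul_div_assoc] at h9
  linarith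

theorem F1_le (hF : ringChar F ≠ 2) {ψ : AddChar F ℂ} (hψ : ψ ≠ 1) {j : F}
    {B : V →ₗ[F] V →ₗ[F] F} (hG : Good ψ j B 1) (w : V → ℝ) (h0 : ∀ x, 0 ≤ w x)
    (h1 : ∀ x, w x ≤ 1) (x : V) :
    (Fintype.card F : ℝ) ^ 3 * F1 ψ B w x ≤ NN B w x + (Fintype.card F : ℝ) ^ 2 := by
  obtain ⟨γ, hγ, h2⟩ := gauss3 hF hψ hG
  have hq := card_pos' (F := F)
  have h4 := parseval_id ψ (fun s m : F => s * m) (fun _ _ _ => mul_sub _ _ _) _ (var_orth hψ)
    fun t => Pt ψ B w x t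
  rw [var_split, var_G0 hG, Complex.norm_real, Real.norm_eq_abs, sq_abs] at h4
  have h5 : (Fintype.card F : ℝ) ^ 3 * ∑ u with u ≠ 0, ‖∑ t, Pt ψ B w x t * ψ (u * t)‖ ^ 2
      = Fintype.card F * Var B w x := by
    rw [← var_a hF hψ, mul_sum]
    refine sum_congr rfl fun u hu => ?_
    rw [var_Gu hG.symm h2 w x (mem_filter.1 hu).2, var_norm hγ]
  have h6 : F1 ψ B w x ≤ ∑ t, ‖Pt ψ B w x t‖ ^ 2 :=
    sum_le_sum_of_subset_of_nonneg (filter_subset _ _) fun _ _ _ => sq_nonneg _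
  have h7 : Var B w x ≤ NN B w x := sub_le_self _ (by positivity)
  have h8 : w x ^ 2 ≤ 1 := pow_le_one₀ (h0 x) (h1 x)
  refine le_of_mul_le_mul_left ?_ hq
  calc (Fintype.card F : ℝ) * ((Fintype.card F : ℝ) ^ 3 * F1 ψ B w x)
      ≤ Fintype.card F * ((Fintype.card F : ℝ) ^ 3 * ∑ t, ‖Pt ψ B w x t‖ ^ 2) := by gcongr
    _ = (Fintype.card F : ℝ) ^ 3 * w x ^ 2 + Fintype.card F * Var B w x := by
        rw [← h5, ← mul_add, h4]; ring
    _ ≤ (Fintype.card F : ℝ) ^ 3 * 1 + Fintype.card F * NN B w x := by gcongr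
    _ = _ := by ring

theorem sum_F1_le {ψ : AddChar F ℂ} {j : F}
    {B : V →ₗ[F] V →ₗ[F] F} (hG : Good ψ j B 1) (w : V → ℝ) (h0 : ∀ x, 0 ≤ w x)
    (h1 : ∀ x, w x ≤ 1) : ∑ x, F1 ψ B w x ≤ ∑ x, w x := by
  have hq := card_pos' (F := F)
  have h2 : ∀ t, ∑ x, ‖Pt ψ B w x t‖ ^ 2 = ((Fintype.card F : ℝ) ^ 3)⁻¹ *
      ∑ ξ with B ξ ξ = t, ‖ft ψ B (fun y => (w y : ℂ)) ξ‖ ^ 2 := by
    intro t
    have h3 := parseval_id ψ (fun x ξ : V => -(B ξ x))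
      (fun _ _ _ => by simp only [map_sub, LinearMap.sub_apply]; ring)
      ((Fintype.card F : ℝ) ^ (2 * 1 + 1))
      (fun m => by
        have := hG.orth (-m)
        simp only [map_neg, neg_eq_zero] at this
        simpa only [hG.symm m] using this)
      fun ξ => if B ξ ξ = t then ft ψ B (fun y => (w y : ℂ)) ξ else 0
    have h4 : ∑ ξ, ‖if B ξ ξ = t then ft ψ B (fun y => (w y : ℂ)) ξ else 0‖ ^ 2
        = ∑ ξ with B ξ ξ = t, ‖ft ψ B (fun y => (w y : ℂ)) ξ‖ ^ 2 := by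
      rw [sum_filter]
      refine sum_congr rfl fun ξ _ => ?_
      split_ifs <;> simp
    simp only [ite_mul, zero_mul, ← sum_filter] at h3
    rw [h4] at h3
    unfold Pt
    simp only [norm_mul, mul_pow, norm_inv, norm_pow, Complex.norm_natCast]
    rw [← mul_sum, h3]
    field_simp
  calc ∑ x, F1 ψ B w x ≤ ∑ x, ∑ t, ‖Pt ψ B w x t‖ ^ 2 := sum_le_sum fun x _ =>
        sum_le_sum_of_subset_of_nonneg (filter_subset _ _) fun _ _ _ => sq_nonneg _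
    _ = ∑ x, w x ^ 2 := by
        rw [sum_comm]
        simp_rw [h2]
        rw [← mul_sum, sum_fiberwise univ (fun ξ => B ξ ξ), ft_parseval hG]
        simp only [Complex.norm_real, Real.norm_eq_abs, sq_abs]
        field_simp
    _ ≤ ∑ x, w x := sum_le_sum fun x _ => by nlinarith [h0 x, h1 x]

end Pool.Agent.Lib.MP_c8b0a1_an
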