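import Pool.Agent.Lib.MP_c8b0a1_an.RPair
import Pool.Agent.Lib.MP_c8b0a1_an.RVar

set_option autoImplicit false
set_option linter.unusedSectionVars false

namespace Pool.Agent.Lib.MP_c8b0a1_an

open Finset

variable {F : Type} [Field F] [Fintype F] [DecidableEq F]
variable {V : Type} [AddCommGroup V] [Module F V] [Fintype V] [DecidableEq V]

lemma dual_level {a lo hi b : ℝ} {J : ℕ} (hb : 1 ≤ b) (h1 : lo < a) (h2 : a ≤ hi)
    (hJ : hi ≤ lo * b ^ J) : ∃ i < J, a ≤ hi / b ^ i ∧ hi / b ^ i ≤ b * a := by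
  have hb0 : 0 < b := by linarith
  have hex : ∃ i : ℕ, hi < a * b ^ i := ⟨J, hJ.trans_lt (by gcongr)⟩
  classical
  have s1 := Nat.find_spec hex
  have s2 : Nat.find hex ≤ J := Nat.find_min' hex (hJ.trans_lt (by gcongr))
  have s3 : Nat.find hex ≠ 0 := by
    intro h
    rw [h, pow_zero, mul_one] at s1
    linarith
  obtain ⟨i, hi'⟩ := Nat.exists_eq_succ_of_ne_zero s3
  have s4 := Nat.find_min hex (m := i) (by omega)
  refine ⟨i, by omega, ?_, ?_⟩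
  · rw [le_div_iff₀ (by positivity)]; exact not_lt.1 s4
  · rw [div_le_iff₀ (by positivity)]
    rw [hi', pow_succ] at s1
    linarith

lemma dual_core {X T : Type} [Fintype X] [Fintype T] [DecidableEq X] (p : X → T → ℝ)
    (hp : ∀ x t, 0 ≤ p x t) (mt : T → ℝ) (hm : ∀ t, 0 ≤ mt t) {M α β f lo hi b y : ℝ} {J : ℕ}
    (hM : ∑ t, mt t ≤ M) (hα : 0 ≤ α) (hβ : 0 ≤ β) (hb : 1 ≤ b) (hhi0 : 0 ≤ hi)
    (hJ : hi ≤ lo * b ^ J) (hf0 : 0 ≤ f) (hf : ∀ x, ∑ t, p x t ^ 2 ≤ f)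
    (hlo : ∀ x t, p x t ≠ 0 → lo < p x t ^ 3) (hhi : f ^ 3 ≤ hi ^ 2)
    (hpair : ∀ t (A : Finset X) (z : ℝ), 0 ≤ z → z ^ 2 = #A → (∀ x ∈ A, p x t ≠ 0) →
      (∑ x ∈ A, p x t) ^ 2 ≤ mt t * (α * z ^ 2 + β * z ^ 3))
    (hy0 : 0 ≤ y) (hy : y ^ 2 = ∑ x, (∑ t, p x t ^ 2) ^ 2) :
    y ^ 4 ≤ (J * b) ^ 2 * (M * (α * f * y ^ 2 + β * y ^ 3)) := by
  set G : X → ℝ := fun x => ∑ t, p x t ^ 2 with hG
  have G0 : ∀ x, 0 ≤ G x := fun x => sum_nonneg fun _ _ => sq_nonneg _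
  have G1 : ∀ x t, p x t ^ 2 ≤ G x := fun x t =>
    single_le_sum (f := fun t => p x t ^ 2) (fun _ _ => sq_nonneg _) (mem_univ t)
  have hl : ∀ x t, ∃ i, p x t ≠ 0 → i < J ∧ p x t * G x ≤ hi / b ^ i ∧
      hi / b ^ i ≤ b * (p x t * G x) := by
    intro x t
    by_cases h : p x t = 0
    · exact ⟨0, fun h' => absurd h h'⟩
    · have a1 : lo < p x t * G x := (hlo x t h).trans_le (by
        rw [pow_succ']; exact mul_le_mul_of_nonneg_left (G1 x t) (hp x t))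
      have a2 : p x t * G x ≤ hi := by
        refine le_of_pow_le_pow_left₀ (n := 2) (by norm_num) hhi0 ?_
        calc (p x t * G x) ^ 2 = p x t ^ 2 * G x ^ 2 := by ring
          _ ≤ f * f ^ 2 := by
              have := G0 x
              gcongr
              · exact (G1 x t).trans (hf x)
              · exact hf x
          _ = f ^ 3 := by ring
          _ ≤ _ := hhi
      obtain ⟨i, h1, h2⟩ := dual_level hb a1 a2 hJ
      exact ⟨i, fun _ => ⟨h1, h2⟩⟩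
  choose lv hlv using hl
  set A : ℕ → T → Finset X := fun i t => univ.filter fun x => p x t ≠ 0 ∧ lv x t = i with hA
  set u : T → ℝ := fun t => ∑ x, p x t ^ 2 * G x with hu
  have u0 : ∀ t, 0 ≤ u t := fun t => sum_nonneg fun x _ => mul_nonneg (sq_nonneg _) (G0 x)
  have u1 : ∑ t, u t = y ^ 2 := by
    rw [hy, sum_comm]
    exact sum_congr rfl fun x _ => by rw [← sum_mul, sq (∑ t, p x t ^ 2)]
  have hb0 : 0 < b := by linarith
  have e1 : y ^ 2 ≤ ∑ i ∈ range J, hi / b ^ i * ∑ t, ∑ x ∈ A i t, p x t := by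
    rw [← u1]
    simp only [mul_sum]
    rw [sum_comm (s := range J)]
    refine sum_le_sum fun t _ => ?_
    simp only [hA, hu, sum_filter]
    rw [sum_comm (s := range J)]
    refine sum_le_sum fun x _ => ?_
    by_cases h : p x t = 0
    · simp [h]
    · obtain ⟨h1, h2, -⟩ := hlv x t h
      simp only [ne_eq, h, not_false_eq_true, true_and, sum_ite_eq, mem_range, h1, if_true]
      calc p x t ^ 2 * G x = (p x t * G x) * p x t := by ring
        _ ≤ _ := mul_le_mul_of_nonneg_right h2 (hp x t)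
  have e2 : ∀ i ∈ range J, (hi / b ^ i * ∑ t, ∑ x ∈ A i t, p x t) ^ 2
      ≤ b ^ 2 * (M * (α * f * y ^ 2 + β * y ^ 3)) := by
    intro i _
    set l := hi / b ^ i with hl
    have l0 : 0 ≤ l := by positivity
    set z : T → ℝ := fun t => Real.sqrt #(A i t) with hz
    have z0 : ∀ t, 0 ≤ z t := fun t => Real.sqrt_nonneg _
    have z1 : ∀ t, z t ^ 2 = #(A i t) := fun t => Real.sq_sqrt (Nat.cast_nonneg _)
    have m1 : ∀ t, ∀ x ∈ A i t, l ≤ b * (p x t * G x) := by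
      intro t x hx
      obtain ⟨h1, h2⟩ := (mem_filter.1 hx).2
      rw [hl, ← h2]
      exact (hlv x t h1).2.2
    have m2 : ∀ t, ∑ x ∈ A i t, p x t ^ 2 * G x ≤ u t := fun t =>
      sum_le_sum_of_subset_of_nonneg (subset_univ _) fun x _ _ => mul_nonneg (sq_nonneg _) (G0 x)
    have c1 : ∀ t, l ^ 2 * z t ^ 2 ≤ b ^ 2 * (f * u t) := by
      intro t
      calc l ^ 2 * z t ^ 2 = ∑ x ∈ A i t, l ^ 2 := by rw [z1, sum_const, nsmul_eq_mul, mul_comm]
        _ ≤ ∑ x ∈ A i t, b ^ 2 * (f * (p x t ^ 2 * G x)) := by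
            refine sum_le_sum fun x hx => (pow_le_pow_left₀ l0 (m1 t x hx) 2).trans ?_
            calc (b * (p x t * G x)) ^ 2 = b ^ 2 * (G x * (p x t ^ 2 * G x)) := by ring
              _ ≤ _ := by have := G0 x; gcongr; exact hf x
        _ = b ^ 2 * (f * ∑ x ∈ A i t, p x t ^ 2 * G x) := by rw [← mul_sum, ← mul_sum]
        _ ≤ _ := by gcongr; exact m2 t
    have c2 : ∀ t, l ^ 2 * z t ^ 3 ≤ b ^ 2 * (y * u t) := by
      intro t
      rcases (z0 t).eq_or_lt with h | h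
      · rw [← h]; have := u0 t; simp only [ne_eq, OfNat.ofNat_ne_zero, not_false_eq_true, zero_pow,
          mul_zero]; positivity
      have d1 : l * z t ^ 2 ≤ b * ∑ x ∈ A i t, p x t * G x := by
        rw [z1, mul_sum, mul_comm, ← nsmul_eq_mul, ← sum_const]
        exact sum_le_sum (m1 t)
      have d2 : (∑ x ∈ A i t, p x t * G x) ^ 2
          ≤ (∑ x ∈ A i t, p x t ^ 2 * G x) * ∑ x ∈ A i t, G x :=
        sum_sq_le_sum_mul_sum_of_sq_le_mul _ (fun x _ => mul_nonneg (sq_nonneg _) (G0 x))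
          (fun x _ => G0 x) (fun x _ => le_of_eq (by ring))
      have d3 : ∑ x ∈ A i t, G x ≤ z t * y := by
        refine le_of_pow_le_pow_left₀ (n := 2) (by norm_num) (by positivity) ?_
        rw [mul_pow, z1, hy]
        refine sq_sum_le_card_mul_sum_sq.trans (mul_le_mul_of_nonneg_left ?_ (Nat.cast_nonneg _))
        exact sum_le_sum_of_subset_of_nonneg (subset_univ _) fun x _ _ => sq_nonneg _
      refine le_of_mul_le_mul_left ?_ h
      calc z t * (l ^ 2 * z t ^ 3) = (l * z t ^ 2) ^ 2 := by ring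
        _ ≤ (b * ∑ x ∈ A i t, p x t * G x) ^ 2 := pow_le_pow_left₀ (by positivity) d1 2
        _ = b ^ 2 * (∑ x ∈ A i t, p x t * G x) ^ 2 := by ring
        _ ≤ b ^ 2 * (u t * (z t * y)) := by
            refine mul_le_mul_of_nonneg_left (d2.trans ?_) (by positivity)
            exact mul_le_mul (m2 t) d3 (sum_nonneg fun x _ => G0 x) (u0 t)
        _ = _ := by ring
    have c3 := sum_sq_le_sum_mul_sum_of_sq_le_mul (univ : Finset T)
      (r := fun t => ∑ x ∈ A i t, p x t) (f := mt) (g := fun t => α * z t ^ 2 + β * z t ^ 3)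
      (fun t _ => hm t) (fun t _ => by have := z0 t; positivity)
      (fun t _ => hpair t _ _ (z0 t) (z1 t) fun x hx => (mem_filter.1 hx).2.1)
    have c4 : l ^ 2 * ∑ t, (α * z t ^ 2 + β * z t ^ 3) ≤ b ^ 2 * (α * f * y ^ 2 + β * y ^ 3) := by
      calc _ = ∑ t, (α * (l ^ 2 * z t ^ 2) + β * (l ^ 2 * z t ^ 3)) := by
            rw [mul_sum]; exact sum_congr rfl fun t _ => by ring
        _ ≤ ∑ t, (α * (b ^ 2 * (f * u t)) + β * (b ^ 2 * (y * u t))) :=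
            sum_le_sum fun t _ => add_le_add (mul_le_mul_of_nonneg_left (c1 t) hα)
              (mul_le_mul_of_nonneg_left (c2 t) hβ)
        _ = _ := by
            simp only [sum_add_distrib, ← mul_sum, u1]; ring
    have c5 : 0 ≤ ∑ t, (α * z t ^ 2 + β * z t ^ 3) :=
      sum_nonneg fun t _ => by have := z0 t; positivity
    have M0 : 0 ≤ M := (sum_nonneg fun t _ => hm t).trans hM
    calc _ = l ^ 2 * (∑ t, ∑ x ∈ A i t, p x t) ^ 2 := by ring
      _ ≤ l ^ 2 * (M * ∑ t, (α * z t ^ 2 + β * z t ^ 3)) :=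
          mul_le_mul_of_nonneg_left (c3.trans (mul_le_mul_of_nonneg_right hM c5)) (sq_nonneg _)
      _ = M * (l ^ 2 * ∑ t, (α * z t ^ 2 + β * z t ^ 3)) := by ring
      _ ≤ M * (b ^ 2 * (α * f * y ^ 2 + β * y ^ 3)) := mul_le_mul_of_nonneg_left c4 M0
      _ = _ := by ring
  calc y ^ 4 = (y ^ 2) ^ 2 := by ring
    _ ≤ _ := pow_le_pow_left₀ (sq_nonneg _) e1 2
    _ ≤ #(range J) * ∑ i ∈ range J, (hi / b ^ i * ∑ t, ∑ x ∈ A i t, p x t) ^ 2 :=
        sq_sum_le_card_mul_sum_sq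
    _ ≤ #(range J) * ∑ i ∈ range J, b ^ 2 * (M * (α * f * y ^ 2 + β * y ^ 3)) :=
        mul_le_mul_of_nonneg_left (sum_le_sum e2) (Nat.cast_nonneg _)
    _ = _ := by rw [sum_const, card_range, nsmul_eq_mul]; ring

theorem dual_bound (hF : ringChar F ≠ 2) {ψ : AddChar F ℂ} (hψ : ψ ≠ 1) {j : F}
    {B : V →ₗ[F] V →ₗ[F] F} (hG : Good ψ j B 1) (hq : 32 ≤ Fintype.card F) {ω z K b : ℝ}
    (hω0 : 0 < ω) (hω : ω ^ 6 = Fintype.card F) (hz1 : ω ^ 5 ≤ z) (hz2 : z ≤ ω ^ 7) (hK1 : 1 ≤ K)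
    (hK : HH ψ B ω K) (hb : 1 ≤ b) {J : ℕ} (hJ : (Fintype.card F : ℝ) ^ 6 ≤ b ^ J) (w : V → ℝ)
    (h0 : ∀ x, 0 ≤ w x) (h1 : ∀ x, w x ≤ 1) (hn : ∑ x, w x ≤ z ^ 2)
    (hH : ∀ r, r ≠ 0 → ∀ c, ∑ x with B r x = c, w x ≤ ω * z)
    (hN : ∀ x, NN B w x ≤ 2 * (ω ^ 10 * z ^ 2)) :
    ∑ x, ((Fintype.card F : ℝ) ^ 3 * F1 ψ B w x) ^ 2
      ≤ 160 * ((J * b) ^ 4 * K ^ 2 * (ω ^ 22 * z ^ 4)) := by
  set q : ℝ := (Fintype.card F : ℝ) with hqq
  have hq32 : (32 : ℝ) ≤ q := by rw [hqq]; exact_mod_cast hq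
  have hq0 : 0 < q := by linarith
  have hω1 : 1 ≤ ω := by
    by_contra hc
    have := pow_le_one₀ (n := 6) hω0.le (le_of_not_ge hc)
    linarith
  have hz0 : 0 < z := lt_of_lt_of_le (by positivity) hz1
  have hJ1 : (1 : ℝ) ≤ J := by
    rcases Nat.eq_zero_or_pos J with h | h
    · rw [h, pow_zero] at hJ
      have : 1 < q ^ 6 := one_lt_pow₀ (by linarith) (by norm_num)
      linarith
    · exact_mod_cast h
  have hqz : q ≤ ω * z := by
    rw [← hω]; calc ω ^ 6 = ω * ω ^ 5 := by ring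
      _ ≤ _ := by gcongr
  set p : V → F → ℝ := fun x t => if t ≠ 0 ∧ 4 * (ω * z) < q ^ 2 * ‖Pt ψ B w x t‖
    then q ^ 3 * ‖Pt ψ B w x t‖ else 0 with hp
  set s : V → ℝ := fun x => ∑ t, if t ≠ 0 ∧ ¬ 4 * (ω * z) < q ^ 2 * ‖Pt ψ B w x t‖
    then q ^ 3 * ‖Pt ψ B w x t‖ ^ 2 else 0 with hs
  have p0 : ∀ x t, 0 ≤ p x t := fun x t => by simp only [hp]; positivity
  have s0 : ∀ x, 0 ≤ s x := fun x => sum_nonneg fun t _ => by positivity
  have e1 : ∀ x, q ^ 3 * (q ^ 3 * F1 ψ B w x) = q ^ 3 * s x + ∑ t, p x t ^ 2 := by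
    intro x
    simp only [F1, hs, hp, sum_filter, mul_sum]
    rw [← sum_add_distrib]
    refine sum_congr rfl fun t _ => ?_
    by_cases a1 : t ≠ 0
    · by_cases a2 : 4 * (ω * z) < q ^ 2 * ‖Pt ψ B w x t‖
      · rw [if_pos a1, if_neg (fun h => h.2 a2), if_pos ⟨a1, a2⟩]; ring
      · rw [if_pos a1, if_pos ⟨a1, a2⟩, if_neg (fun h => a2 h.2)]; ring
    · rw [if_neg a1, if_neg (fun h => a1 h.1), if_neg (fun h => a1 h.1)]; ring
  have G0 : ∀ x, 0 ≤ ∑ t, p x t ^ 2 := fun x => sum_nonneg fun _ _ => sq_nonneg _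
  have s1 : ∀ x, s x ≤ q ^ 3 * F1 ψ B w x := fun x =>
    le_of_mul_le_mul_left (by rw [e1]; linarith [G0 x]) (by positivity : 0 < q ^ 3)
  have s2 : ∀ x, s x ≤ 16 * (ω * z) ^ 2 := by
    intro x
    refine le_of_mul_le_mul_left ?_ hq0
    calc q * s x = ∑ t, q * (if t ≠ 0 ∧ ¬ 4 * (ω * z) < q ^ 2 * ‖Pt ψ B w x t‖
          then q ^ 3 * ‖Pt ψ B w x t‖ ^ 2 else 0) := by rw [hs, mul_sum]
      _ ≤ ∑ t : F, 16 * (ω * z) ^ 2 := by
          refine sum_le_sum fun t _ => ?_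
          split_ifs with h
          · calc _ = (q ^ 2 * ‖Pt ψ B w x t‖) ^ 2 := by ring
              _ ≤ (4 * (ω * z)) ^ 2 := pow_le_pow_left₀ (by positivity) (not_lt.1 h.2) 2
              _ = _ := by ring
          · rw [mul_zero]; positivity
      _ = _ := by rw [sum_const, card_univ, nsmul_eq_mul]
  have s3 : ∑ x, s x ^ 2 ≤ 16 * (ω * z) ^ 2 * (q ^ 3 * z ^ 2) := by
    calc ∑ x, s x ^ 2 ≤ ∑ x, 16 * (ω * z) ^ 2 * (q ^ 3 * F1 ψ B w x) :=
          sum_le_sum fun x _ => by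
            rw [sq]; exact mul_le_mul (s2 x) (s1 x) (s0 x) (by positivity)
      _ = 16 * (ω * z) ^ 2 * (q ^ 3 * ∑ x, F1 ψ B w x) := by rw [← mul_sum, ← mul_sum]
      _ ≤ _ := by gcongr; exact (sum_F1_le hG w h0 h1).trans hn
  have hf : ∀ x, ∑ t, p x t ^ 2 ≤ 3 * (ω ^ 28 * z ^ 2) := by
    intro x
    have a1 := F1_le hF hψ hG w h0 h1 x
    have a2 : q ^ 2 ≤ ω ^ 10 * z ^ 2 := by
      calc q ^ 2 ≤ (ω * z) ^ 2 := by gcongr
        _ = ω ^ 2 * z ^ 2 := by ring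
        _ ≤ _ := by gcongr; norm_num
    calc _ ≤ q ^ 3 * (q ^ 3 * F1 ψ B w x) := by
          rw [e1]; have := s0 x; exact le_add_of_nonneg_left (by positivity)
      _ ≤ q ^ 3 * (3 * (ω ^ 10 * z ^ 2)) :=
          mul_le_mul_of_nonneg_left (by rw [← hqq] at a1; linarith [hN x]) (by positivity)
      _ = _ := by rw [← hω]; ring
  have hM : ∑ t, mass ψ t B (fun y => (w y : ℂ)) ≤ q ^ 3 * z ^ 2 := by
    unfold mass
    rw [sum_fiberwise, ft_parseval hG]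
    refine mul_le_mul_of_nonneg_left (le_trans (sum_le_sum fun x _ => ?_) hn) (by positivity)
    rw [Complex.norm_real, Real.norm_of_nonneg (h0 x)]
    nlinarith [h0 x, h1 x]
  obtain ⟨y, hy0, hy⟩ : ∃ y : ℝ, 0 ≤ y ∧ y ^ 2 = ∑ x, (∑ t, p x t ^ 2) ^ 2 :=
    ⟨_, Real.sqrt_nonneg _, Real.sq_sqrt (sum_nonneg fun _ _ => sq_nonneg _)⟩
  have core := dual_core p p0 (fun t => mass ψ t B (fun y => (w y : ℂ)))
    (fun t => mass_nonneg _ _ _ _) (α := 4 * K * ω ^ 12) (β := 4 * K * ω ^ 11) (lo := q ^ 6)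
    (hi := q ^ 12) (J := J) hM (by positivity) (by positivity) hb (by positivity)
    (by calc q ^ 12 = q ^ 6 * q ^ 6 := by ring
      _ ≤ _ := by gcongr) (by positivity) hf
    (fun x t h => by
      simp only [hp] at h ⊢
      split_ifs at h ⊢ with h'
      · have : q ^ 2 < q ^ 3 * ‖Pt ψ B w x t‖ := by nlinarith [h'.2]
        calc q ^ 6 = (q ^ 2) ^ 3 := by ring
          _ < _ := by gcongr
      · exact absurd rfl h)
    (by
      calc (3 * (ω ^ 28 * z ^ 2)) ^ 3 ≤ (3 * (ω ^ 28 * (ω ^ 7) ^ 2)) ^ 3 := by gcongr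
        _ = 27 * q ^ 21 := by rw [← hω]; ring
        _ ≤ q ^ 3 * q ^ 21 := by
            gcongr
            calc (27 : ℝ) = 3 ^ 3 := by norm_num
              _ ≤ _ := by gcongr; linarith
        _ = _ := by ring)
    (fun t A z' hz' hA hA' => by
      rcases A.eq_empty_or_nonempty with rfl | ⟨x0, hx0⟩
      · have := mass_nonneg ψ t B (fun y => (w y : ℂ))
        simp only [sum_empty, ne_eq, OfNat.ofNat_ne_zero, not_false_eq_true, zero_pow]
        positivity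
      have big : ∀ x ∈ A, t ≠ 0 ∧ 4 * (ω * z) < q ^ 2 * ‖Pt ψ B w x t‖ := fun x hx => by
        by_contra hc
        exact hA' x hx (by simp only [hp]; exact if_neg hc)
      have a1 := pairing hF hψ hG hK w h0 (by positivity) hH (big x0 hx0).1 A hz' hA.ge
      have a2 : ∑ x ∈ A, p x t = q ^ 3 * ∑ x ∈ A, ‖Pt ψ B w x t‖ := by
        rw [mul_sum]
        exact sum_congr rfl fun x hx => by simp only [hp]; exact if_pos (big x hx)
      have a3 : #A * (4 * (ω * z)) ≤ q ^ 2 * ∑ x ∈ A, ‖Pt ψ B w x t‖ := by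
        rw [mul_sum, ← nsmul_eq_mul, ← sum_const]
        exact sum_le_sum fun x hx => (big x hx).2.le
      have a4 := mul_le_mul_of_nonneg_left a3 hq0.le
      rw [← hqq] at a1
      rw [a2]
      have a5 : 0 ≤ mass ψ t B (fun y => (w y : ℂ)) * (K * (ω ^ 12 * z' ^ 2 + ω ^ 11 * z' ^ 3)) :=
        mul_nonneg (mass_nonneg _ _ _ _) (by positivity)
      calc _ ≤ (2 * Real.sqrt (mass ψ t B (fun y => (w y : ℂ))
            * (K * (ω ^ 12 * z' ^ 2 + ω ^ 11 * z' ^ 3)))) ^ 2 :=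
            pow_le_pow_left₀ (by positivity) (by nlinarith) 2
        _ = _ := by rw [mul_pow, Real.sq_sqrt a5]; ring)
    hy0 hy
  set E := 4 * ((J * b) ^ 2 * K) with hE
  have hJb : 1 ≤ (J * b) ^ 2 * K :=
    one_le_mul_of_one_le_of_one_le (one_le_pow₀ (one_le_mul_of_one_le_of_one_le hJ1 hb)) hK1
  set N := ω ^ 29 * z ^ 2 with hN'
  have hN0 : 0 < N := by positivity
  have c1 : y ^ 4 ≤ E * (3 * N ^ 2 * y ^ 2 + N * y ^ 3) :=
    core.trans (le_of_eq (by rw [hE, hN', ← hω]; ring))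
  have c2 : y ≤ 2 * E * N := by
    by_contra hc
    have hc := lt_of_not_ge hc
    have hE4 : 4 ≤ E := by linarith
    have hy1 : 8 * N < y := by nlinarith
    have hy2 : 0 < y := by linarith
    have d1 : E * N * y ^ 3 * 2 < y ^ 4 := by
      calc _ = (2 * E * N) * y ^ 3 := by ring
        _ < y * y ^ 3 := by gcongr
        _ = _ := by ring
    have d2 : E * (3 * N ^ 2 * y ^ 2) ≤ E * N * y ^ 3 := by
      calc _ = E * N * y ^ 2 * (3 * N) := by ring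
        _ ≤ E * N * y ^ 2 * y := by gcongr; linarith
        _ = _ := by ring
    nlinarith
  have c3 : y ^ 2 ≤ 64 * (q ^ 6 * ((J * b) ^ 4 * K ^ 2 * (ω ^ 22 * z ^ 4))) :=
    (pow_le_pow_left₀ hy0 c2 2).trans (le_of_eq (by rw [hE, hN', ← hω]; ring))
  have c4 : 16 * (ω * z) ^ 2 * (q ^ 3 * z ^ 2) ≤ 16 * ((J * b) ^ 4 * K ^ 2 * (ω ^ 22 * z ^ 4)) := by
    calc _ = 16 * (1 * (ω ^ 20 * z ^ 4)) := by rw [← hω]; ring
      _ ≤ 16 * (((J * b) ^ 2 * K) ^ 2 * (ω ^ 22 * z ^ 4)) := by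
          gcongr
          · exact one_le_pow₀ hJb
          · norm_num
      _ = _ := by ring
  refine le_of_mul_le_mul_left ?_ (by positivity : 0 < q ^ 6)
  calc q ^ 6 * ∑ x, (q ^ 3 * F1 ψ B w x) ^ 2 = ∑ x, (q ^ 3 * s x + ∑ t, p x t ^ 2) ^ 2 := by
        rw [mul_sum]
        exact sum_congr rfl fun x _ => by rw [← e1]; ring
    _ ≤ ∑ x, (2 * (q ^ 6 * s x ^ 2) + 2 * (∑ t, p x t ^ 2) ^ 2) :=
        sum_le_sum fun x _ => by nlinarith [sq_nonneg (q ^ 3 * s x - ∑ t, p x t ^ 2)]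
    _ = 2 * (q ^ 6 * ∑ x, s x ^ 2) + 2 * y ^ 2 := by
        rw [sum_add_distrib, ← mul_sum, ← mul_sum, ← mul_sum, hy]
    _ ≤ 2 * (q ^ 6 * (16 * ((J * b) ^ 4 * K ^ 2 * (ω ^ 22 * z ^ 4))))
        + 2 * (64 * (q ^ 6 * ((J * b) ^ 4 * K ^ 2 * (ω ^ 22 * z ^ 4)))) := by
        gcongr
        exact s3.trans c4
    _ = _ := by ring

end Pool.Agent.Lib.MP_c8b0a1_an
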