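import Pool.Agent.Lib.MP_c8b0a1_an.RKern

set_option autoImplicit false
set_option linter.unusedSectionVars false

namespace Pool.Agent.Lib.MP_c8b0a1_an

open Finset

variable {F : Type} [Field F] [Fintype F] [DecidableEq F]
variable {V : Type} [AddCommGroup V] [Module F V] [Fintype V] [DecidableEq V]

theorem off_bound3 (hF : ringChar F ≠ 2) {ψ : AddChar F ℂ} {j : F} {B : V →ₗ[F] V →ₗ[F] F}
    (hG : Good ψ j B 1) (t : F) {r : V} (hr : r ≠ 0) (c : F) (g : V → ℂ)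
    (hg : ∀ x, B r x ≠ c → g x = 0) :
    ∑ ξ with B ξ ξ = t, (if cut B r ξ then 0 else ‖ft ψ B g ξ‖ ^ 2)
      ≤ 2 * ((Fintype.card F : ℝ) ^ 2 * ∑ x, ‖g x‖ ^ 2) := by
  simp only [cut, ne_eq, hr, not_false_eq_true, true_and]
  set q : ℝ := (Fintype.card F : ℝ) with hq
  have hq0 : 0 < q := card_pos'
  have inv : ∀ ξ (a : F), ‖ft ψ B g (ξ + a • r)‖ = ‖ft ψ B g ξ‖ := by
    intro ξ a
    have : ft ψ B g (ξ + a • r) = ψ (a * c) * ft ψ B g ξ := by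
      unfold ft
      rw [mul_sum]
      refine sum_congr rfl fun x _ => ?_
      by_cases h : B r x = c
      · simp only [map_add, map_smul, LinearMap.add_apply, LinearMap.smul_apply, smul_eq_mul, h,
          AddChar.map_add_eq_mul]
        ring
      · simp [hg x h]
    rw [this, norm_mul, norm_psi, one_mul]
  set H : V → ℝ := fun ξ => if B ξ ξ = t ∧ ¬ (B r r = 0 ∧ B r ξ = 0) then ‖ft ψ B g ξ‖ ^ 2 else 0
    with hH
  have e1 : ∑ ξ with B ξ ξ = t, (if B r r = 0 ∧ B r ξ = 0 then 0 else ‖ft ψ B g ξ‖ ^ 2)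
      = ∑ ξ, H ξ := by
    rw [sum_filter]
    refine sum_congr rfl fun ξ _ => ?_
    simp only [hH]
    by_cases h1 : B ξ ξ = t <;> by_cases h2 : (B r r = 0 ∧ B r ξ = 0) <;> simp [h1, h2]
  have e2 : q * ∑ ξ, H ξ = ∑ ξ, ∑ a : F, H (ξ + a • r) := by
    have : ∀ a : F, ∑ ξ, H (ξ + a • r) = ∑ ξ, H ξ :=
      fun a => Fintype.sum_equiv (Equiv.addRight (a • r)) _ _ (fun _ => rfl)
    rw [sum_comm]
    simp [this, hq]
  have e3 : ∀ ξ, ∑ a : F, H (ξ + a • r) ≤ 2 * ‖ft ψ B g ξ‖ ^ 2 := by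
    intro ξ
    simp only [hH, inv]
    rw [← sum_filter, sum_const, nsmul_eq_mul]
    refine mul_le_mul_of_nonneg_right ?_ (sq_nonneg _)
    have := card_quad_le hF (B r r) (B r ξ) (B ξ ξ - t)
    refine le_trans ?_ (show ((_ : ℕ) : ℝ) ≤ 2 by exact_mod_cast this)
    refine Nat.cast_le.2 (le_of_eq (congrArg card (filter_congr fun a _ => ?_)))
    simp only [map_add, map_smul, LinearMap.add_apply, LinearMap.smul_apply, smul_eq_mul,
      hG.symm ξ r]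
    refine and_congr_left fun _ => ⟨fun h => by linear_combination h, fun h => by linear_combination h⟩
  rw [e1]
  refine le_of_mul_le_mul_left ?_ hq0
  rw [e2]
  refine (sum_le_sum fun ξ _ => e3 ξ).trans (le_of_eq ?_)
  rw [← mul_sum, ft_parseval hG]
  ring

lemma rem_four (hF : ringChar F ≠ 2) {ψ : AddChar F ℂ} (hψ : ψ ≠ 1) {j₀ j : F} (hj : j ≠ 0)
    {B : V →ₗ[F] V →ₗ[F] F} {k : ℕ} (hG : Good ψ j₀ B k) (g : V → ℂ) :
    ∑ p : V × F, ‖TT ψ j B g p.1 p.2‖ ^ 4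
      = (Fintype.card F : ℝ) ^ (2 * k) * ∑ w, ‖∑ X : (F × F) × (V × V) with om X = w,
          cc g X * ψ (PP B X + ZZ X * (j / 4))‖ ^ 2 := by
  set c : ℂ := (Fintype.card F : ℂ)⁻¹ * (eta F (-j) * GG ψ) with hc
  have hq := card_pos' (F := F)
  have hcn : ‖c‖ ^ 2 = (Fintype.card F : ℝ)⁻¹ := by
    rw [hc, norm_mul, norm_mul, norm_eta (by simpa using hj), one_mul, mul_pow, norm_GG_sq hF ψ hψ,
      norm_inv, Complex.norm_natCast]
    field_simp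
  have e0 : ∀ p : V × F, TT ψ j B g p.1 p.2 = c * ∑ r : F × V,
      eta F r.1 * g r.2 * ψ ((p.2 - 2 * B p.1 r.2 + B r.2 r.2) * r.1 + j / 4 * r.1⁻¹) := by
    intro p
    unfold TT
    simp_rw [phi_expand hF ψ hψ hj, ← hc]
    rw [Fintype.sum_prod_type_right, mul_sum]
    refine sum_congr rfl fun y _ => ?_
    simp only [mul_sum]
    exact sum_congr rfl fun τ _ => by ring
  have e1 : ∀ p : V × F, ‖TT ψ j B g p.1 p.2‖ ^ 4 = ((Fintype.card F : ℝ)⁻¹) ^ 2 *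
      ‖∑ X : (F × F) × (V × V), (cc g X * ψ (PP B X + ZZ X * (j / 4))) *
        ψ (p.2 * (om X).1 - 2 * B p.1 (om X).2)‖ ^ 2 := by
    intro p
    rw [e0, norm_mul, mul_pow, show 4 = 2 * 2 from rfl, pow_mul, pow_mul, hcn, ← norm_pow,
      sq (∑ r : F × V, _), sum_mul_sum, ← Fintype.sum_prod_type']
    congr 3
    refine Fintype.sum_equiv (Equiv.prodProdProdComm F V F V) _ _ fun r => ?_
    obtain ⟨⟨t1, y1⟩, ⟨t2, y2⟩⟩ := r
    simp only [Equiv.prodProdProdComm_apply, cc, PP, ZZ, om, map_add, map_smul, smul_eq_mul]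
    rw [mul_mul_mul_comm, ← AddChar.map_add_eq_mul, mul_assoc _ (ψ _) (ψ _),
      ← AddChar.map_add_eq_mul]
    congr 1
    · ring
    · congr 1; ring
  simp_rw [e1]
  rw [← mul_sum]
  have e2 := parseval ψ (fun (p : V × F) (m : F × V) => p.2 * m.1 - 2 * B p.1 m.2)
    (fun x m m' => by simp only [Prod.fst_sub, Prod.snd_sub, map_sub]; ring) _
    (orth_prod hF hψ hG) (fun X : (F × F) × (V × V) => cc g X * ψ (PP B X + ZZ X * (j / 4))) om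
  rw [e2, ← mul_assoc]
  congr 1
  field_simp
  ring

lemma rem_TT (hF : ringChar F ≠ 2) {ψ : AddChar F ℂ} (hψ : ψ ≠ 1) {j₀ j : F} (hj : j ≠ 0)
    {B : V →ₗ[F] V →ₗ[F] F} {k : ℕ} (hG : Good ψ j₀ B k) (g : V → ℂ) :
    (∑ p : V × F, ‖TT ψ j B g p.1 p.2‖ ^ 4) ^ 2
      ≤ 12 * (Fintype.card F : ℝ) ^ (4 * k) * (WW F (fun y => ‖g y‖) * AA B (fun y => ‖g y‖)) := by
  rw [rem_four hF hψ hj hG]
  set L := ∑ w, ‖∑ X : (F × F) × (V × V) with om X = w,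
          cc g X * ψ (PP B X + ZZ X * (j / 4))‖ ^ 2 with hL
  set q : ℝ := (Fintype.card F : ℝ) with hq
  have hq2 : 2 ≤ q := two_le_card
  have hb : j / 4 ≠ 0 := div_ne_zero hj (four_ne hF)
  have h1 : (q - 1) * L = ∑ w, ∑ ρ : F with ρ ≠ 0, ‖∑ X : (F × F) × (V × V) with om X = w,
          cc g X * ψ (PP B X * ρ + ZZ X * (j / 4 * ρ⁻¹))‖ ^ 2 := by
    rw [sum_comm, sum_congr rfl (g := fun _ => L)
      (fun ρ hρ => L_scale j B g (mem_filter.1 hρ).2), sum_const, nsmul_eq_mul, card_ne_zero_filter]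
  have h2 := sum_sq_le_sum_mul_sum_of_sq_le_mul (univ : Finset (F × V))
    (r := fun w => ∑ ρ : F with ρ ≠ 0, ‖∑ X : (F × F) × (V × V) with om X = w,
          cc g X * ψ (PP B X * ρ + ZZ X * (j / 4 * ρ⁻¹))‖ ^ 2)
    (f := fun w => 3 * q ^ 2 * (∑ X : (F × F) × (V × V) with om X = w, ‖cc g X‖) ^ 2)
    (g := fun w => ∑ p : F × F, (∑ X ∈ (univ.filter fun X : (F × F) × (V × V) => om X = w)
      with (PP B X, ZZ X) = p, ‖cc g X‖) ^ 2)
    (fun _ _ => by positivity) (fun _ _ => by positivity)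
    (fun w _ => by
      have := hyp_indexed ψ hψ hb (univ.filter fun X : (F × F) × (V × V) => om X = w) (cc g)
        (PP B) ZZ
      rw [mul_assoc (3 * q ^ 2)]
      exact this)
  rw [← h1, ← mul_sum] at h2
  have h3 : ∑ w, (∑ X : (F × F) × (V × V) with om X = w, ‖cc g X‖) ^ 2
      = WW F (fun y => ‖g y‖) := by
    simp only [norm_cc]; rfl
  have h4 : ∑ w, ∑ p : F × F, (∑ X ∈ (univ.filter fun X : (F × F) × (V × V) => om X = w)
      with (PP B X, ZZ X) = p, ‖cc g X‖) ^ 2 = AA B (fun y => ‖g y‖) := by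
    unfold AA En
    conv_rhs => rw [Fintype.sum_prod_type]
    refine sum_congr rfl fun w _ => sum_congr rfl fun p _ => ?_
    simp only [norm_cc, filter_filter, Prod.mk.injEq]
  rw [h3, h4] at h2
  have hW : 0 ≤ WW F (fun y => ‖g y‖) * AA B (fun y => ‖g y‖) :=
    mul_nonneg (En_nonneg _ _) (En_nonneg _ _)
  have h5 : L ^ 2 ≤ 12 * (WW F (fun y => ‖g y‖) * AA B (fun y => ‖g y‖)) := by
    have h6 : q ^ 2 * L ^ 2 ≤ 4 * ((q - 1) * L) ^ 2 := by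
      rw [mul_pow, ← mul_assoc]
      exact mul_le_mul_of_nonneg_right (by nlinarith) (sq_nonneg _)
    have h7 : 0 < q ^ 2 := by positivity
    refine le_of_mul_le_mul_left ?_ h7
    nlinarith
  calc (q ^ (2 * k) * L) ^ 2 = q ^ (4 * k) * L ^ 2 := by ring
    _ ≤ q ^ (4 * k) * (12 * (WW F (fun y => ‖g y‖) * AA B (fun y => ‖g y‖))) := by gcongr
    _ = _ := by ring

theorem TT_bound3 (hF : ringChar F ≠ 2) {ψ : AddChar F ℂ} (hψ : ψ ≠ 1) {j : F}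
    {B : V →ₗ[F] V →ₗ[F] F} (hG : Good ψ j B 1) {t : F} (ht : t ≠ 0) (g : V → ℂ) :
    (∑ p : V × F, ‖TT ψ t B g p.1 p.2‖ ^ 4) ^ 2
      ≤ 12 * (Fintype.card F : ℝ) ^ 4 * (WW F (fun y => ‖g y‖) * AA B (fun y => ‖g y‖)) := by
  exact rem_TT hF hψ ht hG g

theorem rem3 (hF : ringChar F ≠ 2) {ψ : AddChar F ℂ} (hψ : ψ ≠ 1) {j : F}
    {B : V →ₗ[F] V →ₗ[F] F} (hG : Good ψ j B 1) {t : F} (ht : t ≠ 0) {ω z A : ℝ} (hω0 : 0 < ω)
    (hω : ω ^ 6 = Fintype.card F) (hz1 : ω ^ 5 ≤ z) (hz2 : z ≤ ω ^ 7) (hA : 0 ≤ A) (g : V → ℂ)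
    (h1 : ∀ x, ‖g x‖ ≤ 1) (hn : ∑ x, ‖g x‖ ≤ z ^ 2)
    (hH : ∀ r, r ≠ 0 → ∀ c, ∑ x with B r x = c, ‖g x‖ ≤ ω * z)
    (hT : Tr B (fun x => ‖g x‖) ≤ A ^ 8 * (ω ^ 16 * z ^ 4)) :
    mass ψ t B g ≤ ω ^ 12 * z ^ 2 + 2 * A * (ω ^ 11 * z ^ 3) := by
  set q : ℝ := (Fintype.card F : ℝ) with hqq
  set n := ∑ x, ‖g x‖ with hnn
  have hn0 : 0 ≤ n := sum_nonneg fun x _ => norm_nonneg _
  have hz0 : 0 < z := lt_of_lt_of_le (by positivity) hz1
  have hm := mass_le3 hF hψ hG ht g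
  have hs : ∑ x, ‖g x‖ ^ 2 ≤ z ^ 2 := (sq_le_one_sum g h1).trans hn
  set Y := ‖∑ y, (starRingEnd ℂ) (g y) * ∑ x, g x * phi ψ t (B (x - y) (x - y))‖ with hY
  have hY0 : 0 ≤ Y := norm_nonneg _
  have hW := WW_bound hF hψ hG (fun x => ‖g x‖) (fun _ => norm_nonneg _) h1 (ω * z) hH
    (hn.trans (by
      rw [← hqq, ← hω]
      calc z ^ 2 = z * z := by ring
        _ ≤ ω ^ 7 * z := by gcongr
        _ = _ := by ring))
  have hA' := AA_le_Tr B (fun x => ‖g x‖) (fun _ => norm_nonneg _)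
  have hL := TT_bound3 hF hψ hG ht g
  have h4 := kern_four (ψ := ψ) (j := t) hG.symm g h1
  rw [← hqq, ← hnn] at hW
  rw [← hnn, ← hY] at h4
  rw [← hqq] at hL hm
  have hW0 : 0 ≤ WW F (fun y => ‖g y‖) := En_nonneg _ _
  have hA0 : 0 ≤ AA B (fun y => ‖g y‖) := En_nonneg _ _
  have hS0 : 0 ≤ ∑ p : V × F, ‖TT ψ t B g p.1 p.2‖ ^ 4 := sum_nonneg fun _ _ => by positivity
  generalize WW F (fun y => ‖g y‖) = W at *
  generalize AA B (fun y => ‖g y‖) = E at *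
  generalize ∑ p : V × F, ‖TT ψ t B g p.1 p.2‖ ^ 4 = S at *
  generalize Tr B (fun x => ‖g x‖) = T at *
  clear_value Y n q
  subst hω
  have hW1 : W ≤ 2 * z ^ 8 := by
    refine le_of_mul_le_mul_left ?_ (by positivity : 0 < (ω ^ 6) ^ 4)
    have b1 : ω ^ 20 ≤ z ^ 4 := by
      calc ω ^ 20 = (ω ^ 5) ^ 4 := by ring
        _ ≤ z ^ 4 := by gcongr
    calc (ω ^ 6) ^ 4 * W ≤ _ := hW
      _ ≤ (ω ^ 6) ^ 4 * (z ^ 2) ^ 4
          + (ω ^ 6) ^ (2 * 1 + 2) * ((ω ^ 6) ^ 3 * (ω * z) ^ 2 * z ^ 2) := by gcongr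
      _ = (ω ^ 6) ^ 4 * (z ^ 8 + ω ^ 20 * z ^ 4) := by ring
      _ ≤ (ω ^ 6) ^ 4 * (z ^ 8 + z ^ 4 * z ^ 4) := by gcongr
      _ = _ := by ring
  have hE1 : E ≤ 3 * (A ^ 8 * (ω ^ 16 * z ^ 4)) := by linarith
  have hY1 : Y ≤ 2 * A * (ω ^ 5 * z ^ 3) := by
    refine le_of_pow_le_pow_left₀ (n := 8) (by norm_num) (by positivity) ?_
    calc Y ^ 8 = (Y ^ 4) ^ 2 := by ring
      _ ≤ ((z ^ 2) ^ 3 * S) ^ 2 := by
          gcongr
          exact h4.trans (by gcongr)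
      _ = z ^ 12 * S ^ 2 := by ring
      _ ≤ z ^ 12 * (12 * (ω ^ 6) ^ 4 * (2 * z ^ 8 * (3 * (A ^ 8 * (ω ^ 16 * z ^ 4))))) := by
          gcongr
          exact hL.trans (by gcongr)
      _ = 72 * (A * (ω ^ 5 * z ^ 3)) ^ 8 := by ring
      _ ≤ 2 ^ 8 * (A * (ω ^ 5 * z ^ 3)) ^ 8 := by gcongr; norm_num
      _ = _ := by ring
  calc _ ≤ _ := hm
    _ ≤ (ω ^ 6) ^ 2 * z ^ 2 + ω ^ 6 * (2 * A * (ω ^ 5 * z ^ 3)) := by gcongr
    _ = _ := by ring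

end Pool.Agent.Lib.MP_c8b0a1_an
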