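import Pool.Agent.Lib.MP_c8b0a1_an.RVar

set_option autoImplicit false
set_option linter.unusedSectionVars false

namespace Pool.Agent.Lib.MP_c8b0a1_an

open Finset

variable {F : Type} [Field F] [Fintype F] [DecidableEq F]
variable {V : Type} [AddCommGroup V] [Module F V] [Fintype V] [DecidableEq V]

/-- mass on a punctured line of frequencies of the lifted weight -/
noncomputable def trA (ψ : AddChar F ℂ) (B : V →ₗ[F] V →ₗ[F] F) (w : V → ℝ) (l : F) (r : V) : ℝ :=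
  ∑ s with s ≠ 0, ‖∑ y, (w y : ℂ) * ψ (s * (B r y + l * B y y))‖ ^ 2

lemma tr_nonneg (ψ : AddChar F ℂ) (B : V →ₗ[F] V →ₗ[F] F) (w : V → ℝ) (l : F) (r : V) :
    0 ≤ trA ψ B w l r := sum_nonneg fun _ _ => sq_nonneg _

lemma tr_En (B : V →ₗ[F] V →ₗ[F] F) (w : V → ℝ) :
    En (fun i : F × V × V => ((i.1 • (i.2.1 - i.2.2), i.1 * (B i.2.1 i.2.1 - B i.2.2 i.2.2)) : V × F))
      (fun i => if i.1 ≠ 0 then w i.2.1 * w i.2.2 else 0) = Tr B w := by
  have h1 : Tr B w = ∑ p : F × F × V × V × V × V,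
      DD B w p.1 p.2.1 p.2.2.1 p.2.2.2.1 p.2.2.2.2.1 p.2.2.2.2.2 := by
    simp only [Tr, Fintype.sum_prod_type]
  rw [h1, En_eq, ← Fintype.sum_prod_type']
  symm
  refine Fintype.sum_equiv ⟨fun p => ((p.1, p.2.2.1, p.2.2.2.2.1), (p.2.1, p.2.2.2.2.2, p.2.2.2.1)),
    fun q => (q.1.1, q.2.1, q.1.2.1, q.2.2.2, q.1.2.2, q.2.2.1), fun _ => rfl, fun _ => rfl⟩ _ _ ?_
  rintro ⟨s, t, a, b, c, d⟩
  simp only [DD, Equiv.coe_fn_mk, Prod.mk.injEq]
  by_cases hs : s = 0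
  · simp [hs]
  by_cases ht : t = 0
  · simp [ht]
  simp only [ne_eq, hs, ht, not_false_eq_true, true_and, if_true]
  split_ifs
  · ring
  · rfl

lemma tr_expand (ψ : AddChar F ℂ) (B : V →ₗ[F] V →ₗ[F] F) (w : V → ℝ) (l : F) (r : V) :
    ∑ i : F × V × V, ((if i.1 ≠ 0 then w i.2.1 * w i.2.2 else 0 : ℝ) : ℂ) *
      ψ (B r (i.1 • (i.2.1 - i.2.2)) + l * (i.1 * (B i.2.1 i.2.1 - B i.2.2 i.2.2)))
      = (trA ψ B w l r : ℂ) := by
  unfold trA
  rw [Complex.ofReal_sum, Fintype.sum_prod_type, sum_filter]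
  refine sum_congr rfl fun s _ => ?_
  by_cases hs : s = 0
  · simp [hs]
  simp only [ne_eq, hs, not_false_eq_true, if_true]
  rw [normsq_eq, map_sum, sum_mul_sum, Fintype.sum_prod_type]
  refine sum_congr rfl fun a _ => sum_congr rfl fun c _ => ?_
  rw [map_mul (starRingEnd ℂ), Complex.conj_ofReal, mul_mul_mul_comm, psi_mul_conj, Complex.ofReal_mul]
  congr 2
  simp only [map_smul, map_sub, smul_eq_mul]
  ring

lemma tr_parseval {ψ : AddChar F ℂ} (hψ : ψ ≠ 1) {j : F} {B : V →ₗ[F] V →ₗ[F] F}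
    (hG : Good ψ j B 1) (w : V → ℝ) :
    ∑ l, ∑ r, trA ψ B w l r ^ 2 = (Fintype.card F : ℝ) ^ 4 * Tr B w := by
  have h := parseval ψ (fun (θ : F × V) (m : V × F) => B θ.2 m.1 + θ.1 * m.2)
    (fun _ _ _ => by simp only [Prod.fst_sub, Prod.snd_sub, map_sub]; ring)
    ((Fintype.card F : ℝ) ^ 4)
    (fun m => by
      simp only [Fintype.sum_prod_type, AddChar.map_add_eq_mul]
      rw [sum_comm, ← sum_mul_sum, hG.orth, sum_psi ψ hψ]
      obtain ⟨m1, m2⟩ := m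
      by_cases h1 : m1 = 0 <;> by_cases h2 : m2 = 0 <;> simp [h1, h2]
      ring)
    (fun i : F × V × V => ((if i.1 ≠ 0 then w i.2.1 * w i.2.2 else 0 : ℝ) : ℂ))
    (fun i : F × V × V => ((i.1 • (i.2.1 - i.2.2), i.1 * (B i.2.1 i.2.1 - B i.2.2 i.2.2)) : V × F))
  simp only [tr_expand] at h
  simp only [← Complex.ofReal_sum, Complex.norm_real, Real.norm_eq_abs, sq_abs] at h
  rw [Fintype.sum_prod_type] at h
  rw [h, ← tr_En]
  rfl

lemma tr_zero (ψ : AddChar F ℂ) (B : V →ₗ[F] V →ₗ[F] F) (w : V → ℝ) :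
    trA ψ B w 0 0 ≤ Fintype.card F * (∑ x, w x) ^ 2 := by
  unfold trA
  simp only [map_zero, LinearMap.zero_apply, zero_mul, add_zero, mul_zero,
    AddChar.map_zero_eq_one, mul_one, ← Complex.ofReal_sum, Complex.norm_real, Real.norm_eq_abs,
    sq_abs, sum_const, nsmul_eq_mul]
  gcongr
  exact_mod_cast card_le_univ _

lemma tr_plane {ψ : AddChar F ℂ} (hψ : ψ ≠ 1) (B : V →ₗ[F] V →ₗ[F] F) (w : V → ℝ)
    (h0 : ∀ x, 0 ≤ w x) {μ : ℝ} {r : V} (hH : ∀ c, ∑ x with B r x = c, w x ≤ μ) :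
    trA ψ B w 0 r ≤ Fintype.card F * (μ * ∑ x, w x) := by
  unfold trA
  simp only [zero_mul, add_zero]
  rw [var_fib hψ w fun y => B r y]
  refine (sub_le_self _ (sq_nonneg _)).trans (mul_le_mul_of_nonneg_left ?_ card_pos'.le)
  rw [← sum_fiberwise univ (fun y => B r y) w, mul_sum]
  refine sum_le_sum fun c _ => ?_
  rw [sq]
  exact mul_le_mul_of_nonneg_right (hH c) (sum_nonneg fun _ _ => h0 _)

lemma tr_sum {ψ : AddChar F ℂ} {j : F} {B : V →ₗ[F] V →ₗ[F] F} (hG : Good ψ j B 1) (w : V → ℝ)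
    (h0 : ∀ x, 0 ≤ w x) (h1 : ∀ x, w x ≤ 1) :
    ∑ r, trA ψ B w 0 r ≤ (Fintype.card F : ℝ) ^ 4 * ∑ x, w x := by
  have hq := card_pos' (F := F)
  unfold trA
  rw [sum_comm]
  have h2 : ∀ s ∈ ({s : F | s ≠ 0} : Finset F),
      ∑ r, ‖∑ y, (w y : ℂ) * ψ (s * (B r y + 0 * B y y))‖ ^ 2
        ≤ (Fintype.card F : ℝ) ^ 3 * ∑ x, w x := by
    intro s hs
    have h3 : ∑ r, ‖∑ y, (w y : ℂ) * ψ (s * (B r y + 0 * B y y))‖ ^ 2
        = ∑ r, ‖ft ψ B (fun y => (w y : ℂ)) r‖ ^ 2 := by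
      refine Fintype.sum_bijective (fun r : V => s • r)
        (MulAction.bijective (Units.mk0 s (mem_filter.1 hs).2)) _ _ fun r => ?_
      simp [ft]
    rw [h3, ft_parseval hG]
    simp only [Complex.norm_real, Real.norm_eq_abs, sq_abs]
    exact mul_le_mul_of_nonneg_left (sum_le_sum fun x _ => by nlinarith [h0 x, h1 x])
      (by positivity)
  refine (sum_le_card_nsmul _ _ _ h2).trans ?_
  rw [nsmul_eq_mul, show (Fintype.card F : ℝ) ^ 4 * ∑ x, w x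
    = Fintype.card F * ((Fintype.card F : ℝ) ^ 3 * ∑ x, w x) by ring]
  refine mul_le_mul_of_nonneg_right ?_ (mul_nonneg (by positivity) (sum_nonneg fun _ _ => h0 _))
  exact_mod_cast card_le_univ _

lemma tr_sphere {ψ : AddChar F ℂ} (hψ : ψ ≠ 1) {B : V →ₗ[F] V →ₗ[F] F}
    (hs : ∀ x y, B x y = B y x) (w : V → ℝ) {l : F} (hl : l ≠ 0) (x : V) :
    trA ψ B w l ((-2 * l) • x) = Fintype.card F * Var B w x := by
  rw [← var_W hψ]
  unfold trA
  refine sum_nbij' (fun s => s * l) (fun s => s * l⁻¹) ?_ ?_ ?_ ?_ fun s _ => ?_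
  · intro u hu
    have : u ≠ 0 := (mem_filter.1 hu).2
    simp [hl, this]
  · intro u hu
    have : u ≠ 0 := (mem_filter.1 hu).2
    simp [hl, this]
  · intro u _
    field_simp
  · intro u _
    field_simp
  · have h : ∑ y, (w y : ℂ) * ψ (s * (B ((-2 * l) • x) y + l * B y y))
        = (∑ y, (w y : ℂ) * ψ (s * l * B (y - x) (y - x))) * ψ (-(s * l * B x x)) := by
      rw [sum_mul]
      refine sum_congr rfl fun y _ => ?_
      rw [mul_assoc (w y : ℂ), ← AddChar.map_add_eq_mul]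
      congr 2
      simp only [map_smul, map_sub, LinearMap.smul_apply, LinearMap.sub_apply, smul_eq_mul, hs y x]
      ring
    rw [h, norm_mul, norm_psi, mul_one]

theorem Tr_fourier (hF : ringChar F ≠ 2) {ψ : AddChar F ℂ} (hψ : ψ ≠ 1) {j : F}
    {B : V →ₗ[F] V →ₗ[F] F} (hG : Good ψ j B 1) (w : V → ℝ) (h0 : ∀ x, 0 ≤ w x)
    (h1 : ∀ x, w x ≤ 1) {μ : ℝ} (hH : ∀ r, r ≠ 0 → ∀ c, ∑ x with B r x = c, w x ≤ μ) :
    (Fintype.card F : ℝ) ^ 2 * Tr B w ≤ (∑ x, w x) ^ 4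
      + (Fintype.card F : ℝ) ^ 3 * μ * (∑ x, w x) ^ 2 + Fintype.card F * ∑ x, Var B w x ^ 2 := by
  have hq := card_pos' (F := F)
  have hn : 0 ≤ ∑ x, w x := sum_nonneg fun _ _ => h0 _
  have hμ : 0 ≤ μ := by
    have : Nontrivial V := by
      rw [← Fintype.one_lt_card_iff_nontrivial, kern_card hG]
      exact one_lt_pow₀ Fintype.one_lt_card (by norm_num)
    obtain ⟨r, hr⟩ := exists_ne (0 : V)
    exact (sum_nonneg fun _ _ => h0 _).trans (hH r hr 0)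
  have e1 : ∑ r, trA ψ B w 0 r ^ 2 ≤ (Fintype.card F * (∑ x, w x) ^ 2) ^ 2
      + Fintype.card F * (μ * ∑ x, w x) * ((Fintype.card F : ℝ) ^ 4 * ∑ x, w x) := by
    rw [← add_sum_erase univ _ (mem_univ (0 : V))]
    refine add_le_add (pow_le_pow_left₀ (tr_nonneg ..) (tr_zero ψ B w) 2) ?_
    calc ∑ r ∈ univ.erase 0, trA ψ B w 0 r ^ 2
        ≤ ∑ r ∈ univ.erase 0, Fintype.card F * (μ * ∑ x, w x) * trA ψ B w 0 r := by
          refine sum_le_sum fun r hr => ?_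
          rw [sq]
          exact mul_le_mul_of_nonneg_right (tr_plane hψ B w h0 (hH r (ne_of_mem_erase hr)))
            (tr_nonneg ..)
      _ ≤ ∑ r, Fintype.card F * (μ * ∑ x, w x) * trA ψ B w 0 r :=
          sum_le_sum_of_subset_of_nonneg (subset_univ _) fun _ _ _ =>
            mul_nonneg (by positivity) (tr_nonneg ..)
      _ ≤ _ := by
          rw [← mul_sum]
          exact mul_le_mul_of_nonneg_left (tr_sum hG w h0 h1) (by positivity)
  have e2 : ∀ l ∈ ({l : F | l ≠ 0} : Finset F), ∑ r, trA ψ B w l r ^ 2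
      ≤ (Fintype.card F : ℝ) ^ 2 * ∑ x, Var B w x ^ 2 := by
    intro l hl
    have hl : l ≠ 0 := (mem_filter.1 hl).2
    have h2 : -2 * l ≠ 0 := mul_ne_zero (neg_ne_zero.2 (two_ne hF)) hl
    rw [mul_sum]
    refine le_of_eq (Fintype.sum_bijective (fun x : V => (-2 * l) • x)
      (MulAction.bijective (Units.mk0 _ h2)) _ _ fun x => ?_).symm
    rw [tr_sphere hψ hG.symm w hl, mul_pow]
  have e3 := sum_le_card_nsmul _ _ _ e2
  have e4 : (#{l : F | l ≠ 0} : ℝ) ≤ Fintype.card F := by exact_mod_cast card_le_univ _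
  have e5 := tr_parseval hψ hG w
  rw [var_split] at e5
  rw [nsmul_eq_mul] at e3
  have e6 := e3.trans (mul_le_mul_of_nonneg_right e4
    (mul_nonneg (by positivity) (sum_nonneg fun _ _ => sq_nonneg _)))
  refine le_of_mul_le_mul_left ?_ (pow_pos hq 2)
  nlinarith

end Pool.Agent.Lib.MP_c8b0a1_an
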