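import Pool.Agent.Lib.MP_c8b0a1_an.RDual
import Pool.Agent.Lib.MP_c8b0a1_an.RRem
import Pool.Agent.Lib.MP_c8b0a1_an.RConc
import Pool.Agent.Lib.MP_c8b0a1_an.RTr
import Pool.Agent.Lib.MP_c8b0a1_an.RCone

set_option autoImplicit false
set_option linter.unusedSectionVars false

namespace Pool.Agent.Lib.MP_c8b0a1_an

open Finset

variable {F : Type} [Field F] [Fintype F] [DecidableEq F]
variable {V : Type} [AddCommGroup V] [Module F V] [Fintype V] [DecidableEq V]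

lemma step_add {A : Type} (S : Finset A) (u v : A → ℂ) {z κ a b : ℝ} (hz : 0 ≤ z) (hκ : 0 ≤ κ)
    (ha : 0 ≤ a) (hb : 0 ≤ b) (h1 : z * ∑ ξ ∈ S, ‖u ξ‖ ^ 2 ≤ κ * a ^ 2)
    (h2 : z * ∑ ξ ∈ S, ‖v ξ‖ ^ 2 ≤ κ * b ^ 2) :
    z * ∑ ξ ∈ S, ‖u ξ + v ξ‖ ^ 2 ≤ κ * (a + b) ^ 2 := by
  have e1 : ∑ ξ ∈ S, ‖u ξ + v ξ‖ ^ 2
      ≤ ∑ ξ ∈ S, ‖u ξ‖ ^ 2 + 2 * ∑ ξ ∈ S, ‖u ξ‖ * ‖v ξ‖ + ∑ ξ ∈ S, ‖v ξ‖ ^ 2 := by
    rw [mul_sum, ← sum_add_distrib, ← sum_add_distrib]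
    exact sum_le_sum fun ξ _ =>
      (pow_le_pow_left₀ (norm_nonneg _) (norm_add_le _ _) 2).trans (le_of_eq (by ring))
  have e2 : z * ∑ ξ ∈ S, ‖u ξ‖ * ‖v ξ‖ ≤ κ * a * b := by
    refine le_of_pow_le_pow_left₀ (n := 2) (by norm_num) (by positivity) ?_
    calc _ = z ^ 2 * (∑ ξ ∈ S, ‖u ξ‖ * ‖v ξ‖) ^ 2 := by ring
      _ ≤ z ^ 2 * ((∑ ξ ∈ S, ‖u ξ‖ ^ 2) * ∑ ξ ∈ S, ‖v ξ‖ ^ 2) :=
          mul_le_mul_of_nonneg_left (sum_mul_sq_le_sq_mul_sq _ _ _) (sq_nonneg _)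
      _ = (z * ∑ ξ ∈ S, ‖u ξ‖ ^ 2) * (z * ∑ ξ ∈ S, ‖v ξ‖ ^ 2) := by ring
      _ ≤ (κ * a ^ 2) * (κ * b ^ 2) := mul_le_mul h1 h2 (by positivity) (by positivity)
      _ = _ := by ring
  nlinarith [mul_le_mul_of_nonneg_left e1 hz]

lemma step_piece (hF : ringChar F ≠ 2) {ψ : AddChar F ℂ} (hψ : ψ ≠ 1) {j : F}
    {B : V →ₗ[F] V →ₗ[F] F} (hG : Good ψ j B 1) {t : F} (ht : t ≠ 0) {ω z : ℝ} (hω0 : 0 < ω)
    (hω : ω ^ 6 = Fintype.card F) (hz : 0 < z) (h : V → ℂ) (h1 : ∀ x, ‖h x‖ ≤ 1)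
    (hn : ∑ x, ‖h x‖ ≤ z ^ 2)
    (hbad : ¬ ((∀ r, r ≠ 0 → ∀ c, ∑ x with B r x = c, ‖h x‖ ≤ ω * z) ∧
      ∀ x, NN B (fun y => ‖h y‖) x ≤ 2 * (ω ^ 10 * z ^ 2))) :
    ∃ (A : Finset V) (r : V), 0 < ∑ y ∈ A, ‖h y‖ ∧
      z * ∑ ξ with B ξ ξ = t, ‖if cut B r ξ then 0 else ft ψ B (fun y => if y ∈ A then h y else 0) ξ‖ ^ 2
        ≤ 5 * ω ^ 11 * (∑ y ∈ A, ‖h y‖) ^ 2 := by
  rw [not_and_or] at hbad
  rcases hbad with hbad | hbad
  · push Not at hbad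
    obtain ⟨r, hr, c, hc⟩ := hbad
    have hp : 0 < ω * z := by positivity
    refine ⟨univ.filter fun x => B r x = c, r, hp.trans hc, ?_⟩
    have a1 := off_bound3 (ψ := ψ) hF hG t hr c
      (fun y => if y ∈ univ.filter (fun x => B r x = c) then h y else 0) (fun x hx => by simp [hx])
    have a2 : ∑ x, ‖if x ∈ univ.filter (fun x => B r x = c) then h x else 0‖ ^ 2
        ≤ ∑ x with B r x = c, ‖h x‖ := by
      rw [sum_filter]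
      refine sum_le_sum fun x _ => ?_
      by_cases hx : B r x = c
      · simp only [mem_filter, mem_univ, hx, and_self, if_true]
        nlinarith [h1 x, norm_nonneg (h x)]
      · simp [hx]
    simp only [apply_ite (fun s : ℂ => ‖s‖ ^ 2), norm_zero, ne_eq, OfNat.ofNat_ne_zero,
      not_false_eq_true, zero_pow] at a1 a2 ⊢
    rw [← hω] at a1
    generalize ∑ x with B r x = c, ‖h x‖ = n at *
    calc _ ≤ z * (2 * ((ω ^ 6) ^ 2 * n)) := by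
          refine mul_le_mul_of_nonneg_left (a1.trans ?_) hz.le
          gcongr
      _ = 2 * ω ^ 11 * ((ω * z) * n) := by ring
      _ ≤ 5 * ω ^ 11 * (n * n) := by
          have : 0 ≤ n := by linarith
          gcongr
          norm_num
      _ = _ := by ring
  · push Not at hbad
    obtain ⟨x, hx⟩ := hbad
    obtain ⟨A, a1, a2⟩ := piece_sphere hF hψ hG ht hω0 hω hz h h1 hn x hx
    refine ⟨A, 0, a1, ?_⟩
    simp only [not_cut_zero, if_false]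
    exact a2

lemma step_greedy (hF : ringChar F ≠ 2) {ψ : AddChar F ℂ} (hψ : ψ ≠ 1) {j : F}
    {B : V →ₗ[F] V →ₗ[F] F} (hG : Good ψ j B 1) {t : F} (ht : t ≠ 0) {ω z : ℝ} (hω0 : 0 < ω)
    (hω : ω ^ 6 = Fintype.card F) (hz : 0 < z) (N : ℕ) : ∀ h : V → ℂ, #{x | h x ≠ 0} = N →
    (∀ x, ‖h x‖ ≤ 1) → ∑ x, ‖h x‖ ≤ z ^ 2 → ∃ (ρ : V → V) (g : V → ℂ),
      (∀ x, g x = h x ∨ g x = 0) ∧ (∀ x, ρ x ≠ 0 → g x = 0) ∧
      (∀ r, r ≠ 0 → ∀ c, ∑ x with B r x = c, ‖g x‖ ≤ ω * z) ∧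
      (∀ x, NN B (fun y => ‖g y‖) x ≤ 2 * (ω ^ 10 * z ^ 2)) ∧
      z * massc ψ t B ρ (fun x => h x - g x) ≤ 5 * ω ^ 11 * (∑ x, ‖h x - g x‖) ^ 2 := by
  induction N using Nat.strong_induction_on with
  | _ N ih =>
  intro h hN h1 hn
  by_cases hgood : (∀ r, r ≠ 0 → ∀ c, ∑ x with B r x = c, ‖h x‖ ≤ ω * z) ∧
      ∀ x, NN B (fun y => ‖h y‖) x ≤ 2 * (ω ^ 10 * z ^ 2)
  · exact ⟨fun _ => 0, h, fun _ => Or.inl rfl, fun _ h => absurd rfl h, hgood.1, hgood.2,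
      by simp [massc, ftc]⟩
  obtain ⟨A, r, a1, a2⟩ := step_piece hF hψ hG ht hω0 hω hz h h1 hn hgood
  set h' : V → ℂ := fun x => if x ∈ A then 0 else h x with hh'
  have b1 : ∀ x, ‖h' x‖ ≤ ‖h x‖ := fun x => by
    simp only [hh']; split_ifs <;> simp
  have b2 : #{x | h' x ≠ 0} < N := by
    rw [← hN]
    obtain ⟨x, hx, hx'⟩ := exists_ne_zero_of_sum_ne_zero a1.ne'
    refine card_lt_card ⟨fun y hy => ?_, fun hc => ?_⟩
    · simp only [mem_filter, mem_univ, true_and, hh'] at hy ⊢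
      intro h0; apply hy; simp [h0]
    · have := hc (mem_filter.2 ⟨mem_univ x, by simpa using hx'⟩)
      simp [hh', hx] at this
  obtain ⟨ρ, g, c1, c2, c3, c4, c5⟩ := ih _ b2 h' rfl (fun x => (b1 x).trans (h1 x))
    ((sum_le_sum fun x _ => b1 x).trans hn)
  have d1 : ∀ x ∈ A, g x = 0 := fun x hx => by
    rcases c1 x with e | e
    · rw [e]; simp [hh', hx]
    · exact e
  refine ⟨fun x => if x ∈ A then r else ρ x, g, fun x => ?_, fun x hx => ?_, c3, c4, ?_⟩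
  · by_cases hx : x ∈ A
    · exact Or.inr (d1 x hx)
    · simpa [hh', hx] using c1 x
  · by_cases hx' : x ∈ A
    · exact d1 x hx'
    · exact c2 x (by simpa [hx'] using hx)
  have d2 : ∑ x, ‖h x - g x‖ = ∑ y ∈ A, ‖h y‖ + ∑ x, ‖h' x - g x‖ := by
    rw [← sum_ite_mem_eq A, ← sum_add_distrib]
    refine sum_congr rfl fun x _ => ?_
    by_cases hx : x ∈ A
    · simp [hh', hx, d1 x hx]
    · simp [hh', hx]
  have d3 : ∀ ξ, ftc ψ B (fun x => if x ∈ A then r else ρ x) (fun x => h x - g x) ξ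
      = (if cut B r ξ then 0 else ft ψ B (fun y => if y ∈ A then h y else 0) ξ)
        + ftc ψ B ρ (fun x => h' x - g x) ξ := by
    intro ξ
    have : (if cut B r ξ then 0 else ft ψ B (fun y => if y ∈ A then h y else 0) ξ)
        = ∑ x, if cut B r ξ then 0 else (if x ∈ A then h x else 0) * ψ (B ξ x) := by
      split_ifs <;> simp [ft]
    rw [this, ftc, ftc, ← sum_add_distrib]
    refine sum_congr rfl fun x _ => ?_
    by_cases hx : x ∈ A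
    · simp [hh', hx, d1 x hx]
    · simp [hh', hx]
  rw [d2, massc]
  simp_rw [d3]
  exact step_add _ _ _ hz.le (by positivity) a1.le (sum_nonneg fun _ _ => norm_nonneg _) a2 c5

lemma massc_zero (ψ : AddChar F ℂ) (t : F) (B : V →ₗ[F] V →ₗ[F] F) (h : V → ℂ) :
    massc ψ t B (fun _ => 0) h = mass ψ t B h := by
  simp [massc, ftc, mass, ft, not_cut_zero]

lemma step_triv {ψ : AddChar F ℂ} {j : F} {B : V →ₗ[F] V →ₗ[F] F} (hG : Good ψ j B 1) (t : F)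
    (g : V → ℂ) (h1 : ∀ x, ‖g x‖ ≤ 1) : mass ψ t B g ≤ (Fintype.card F : ℝ) ^ 3 * ∑ x, ‖g x‖ := by
  refine le_trans ?_ (mul_le_mul_of_nonneg_left (sq_le_one_sum g h1) (by positivity))
  rw [← ft_parseval hG]
  exact sum_le_sum_of_subset_of_nonneg (filter_subset _ _) fun _ _ _ => sq_nonneg _

lemma step_small (hF : ringChar F ≠ 2) {ψ : AddChar F ℂ} (hψ : ψ ≠ 1) {j : F}
    {B : V →ₗ[F] V →ₗ[F] F} (hG : Good ψ j B 1) {t : F} (ht : t ≠ 0) (g : V → ℂ)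
    (h1 : ∀ x, ‖g x‖ ≤ 1) : mass ψ t B g ≤ (Fintype.card F : ℝ) ^ 2 * ∑ x, ‖g x‖
      + Fintype.card F * (2 * (∑ x, ‖g x‖) ^ 2) := by
  refine (mass_le3 hF hψ hG ht g).trans (add_le_add ?_ ?_)
  · exact mul_le_mul_of_nonneg_left (sq_le_one_sum g h1) (by positivity)
  · exact mul_le_mul_of_nonneg_left (kern_triv _ _ _ _) (by positivity)

lemma step_Tr (hF : ringChar F ≠ 2) {ψ : AddChar F ℂ} (hψ : ψ ≠ 1) {j : F}
    {B : V →ₗ[F] V →ₗ[F] F} (hG : Good ψ j B 1) (hq : 32 ≤ Fintype.card F) {ω z κ b : ℝ}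
    (hω0 : 0 < ω) (hω : ω ^ 6 = Fintype.card F) (hz1 : ω ^ 5 ≤ z) (hz2 : z ≤ ω ^ 7) (hκ : 1 ≤ κ)
    (hK : HH ψ B ω (κ ^ 4)) (hb : 1 ≤ b) {J : ℕ} (hJ1 : (1 : ℝ) ≤ J)
    (hJ : (Fintype.card F : ℝ) ^ 6 ≤ b ^ J) (w : V → ℝ)
    (h0 : ∀ x, 0 ≤ w x) (h1 : ∀ x, w x ≤ 1) (hn : ∑ x, w x ≤ z ^ 2)
    (hH : ∀ r, r ≠ 0 → ∀ c, ∑ x with B r x = c, w x ≤ ω * z)
    (hN : ∀ x, NN B w x ≤ 2 * (ω ^ 10 * z ^ 2)) :
    Tr B w ≤ (4 * (J * b * κ)) ^ 8 * (ω ^ 16 * z ^ 4) := by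
  have hz0 : 0 < z := lt_of_lt_of_le (by positivity) hz1
  have hω1 : 1 ≤ ω := by
    by_contra hc
    have := pow_le_one₀ (n := 6) hω0.le (le_of_not_ge hc)
    linarith [two_le_card (F := F)]
  have a1 := Tr_fourier hF hψ hG w h0 h1 hH
  have a2 := cone_bound hF hψ hG hq w h0 h1 hH (hn.trans (by
    rw [← hω]
    calc z ^ 2 = z * z := sq z
      _ ≤ ω ^ 7 * z := by gcongr
      _ = _ := by ring)) _ (V1_le hF hψ hG w)
  have a3 := dual_bound hF hψ hG hq hω0 hω hz1 hz2 (one_le_pow₀ hκ) hK hb hJ w h0 h1 hn hH hN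
  have hn0 : 0 ≤ ∑ x, w x := sum_nonneg fun x _ => h0 x
  rw [← hω] at a1 a2 a3
  generalize ∑ x, w x = n at *
  generalize ∑ x, ((ω ^ 6) ^ 3 * F1 ψ B w x) ^ 2 = L at *
  set D := ω ^ 28 * z ^ 4 with hD
  have hJb : 1 ≤ J * b := one_le_mul_of_one_le_of_one_le hJ1 hb
  set E := (J * b * κ) ^ 8 with hE
  have hE1 : 1 ≤ E := one_le_pow₀ (one_le_mul_of_one_le_of_one_le hJb hκ)
  have hD0 : 0 ≤ D := by positivity
  have b1 : n ^ 4 ≤ D := by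
    calc n ^ 4 ≤ (z ^ 2) ^ 4 := by gcongr
      _ = z ^ 4 * z ^ 4 := by ring
      _ ≤ (ω ^ 7) ^ 4 * z ^ 4 := by gcongr
      _ = _ := by ring
  have b2 : (ω ^ 6) ^ 3 * (ω * z) * n ^ 2 ≤ D := by
    calc _ ≤ (ω ^ 6) ^ 3 * (ω * ω ^ 7) * (z ^ 2) ^ 2 := by gcongr
      _ = ω ^ 26 * z ^ 4 := by ring
      _ ≤ _ := by rw [hD]; gcongr; norm_num
  have b3 : (ω ^ 6) ^ 3 * (ω * z) ^ 2 * n ≤ D := by
    calc _ ≤ (ω ^ 6) ^ 3 * (ω * z) ^ 2 * z ^ 2 := by gcongr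
      _ = ω ^ 20 * z ^ 4 := by ring
      _ ≤ _ := by rw [hD]; gcongr; norm_num
  have b4 : ω ^ 6 * L ≤ 160 * (E * D) := by
    calc _ ≤ ω ^ 6 * (160 * ((J * b) ^ 8 * (κ ^ 4) ^ 2 * (ω ^ 22 * z ^ 4))) := by
          refine mul_le_mul_of_nonneg_left (a3.trans ?_) (by positivity)
          gcongr
          norm_num
      _ = _ := by rw [hE, hD]; ring
  have b5 : D ≤ E * D := le_mul_of_one_le_left hD0 hE1
  refine le_of_mul_le_mul_left ?_ (by positivity : 0 < (ω ^ 6) ^ 2)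
  calc _ ≤ 4 ^ 8 * (E * D) := by nlinarith
    _ = _ := by rw [hE, hD]; ring

theorem HH_step (hF : ringChar F ≠ 2) {ψ : AddChar F ℂ} (hψ : ψ ≠ 1) {j : F}
    {B : V →ₗ[F] V →ₗ[F] F} (hG : Good ψ j B 1) {ω κ b : ℝ} (hω0 : 0 < ω)
    (hω : ω ^ 6 = Fintype.card F) (hκ : 1 ≤ κ) (hK : HH ψ B ω (κ ^ 4)) (hb : 1 ≤ b) {J : ℕ}
    (hJ : (Fintype.card F : ℝ) ^ 6 ≤ b ^ J) : HH ψ B ω (32 * (J * b * κ)) := by
  intro t ht h h1 z hz hn
  have hq2 := two_le_card (F := F)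
  have hJ1 : (1 : ℝ) ≤ J := by
    rcases Nat.eq_zero_or_pos J with h | h
    · rw [h, pow_zero] at hJ
      have : 1 < (Fintype.card F : ℝ) ^ 6 := one_lt_pow₀ (by linarith) (by norm_num)
      linarith
    · exact_mod_cast h
  have hE : 1 ≤ J * b * κ :=
    one_le_mul_of_one_le_of_one_le (one_le_mul_of_one_le_of_one_le hJ1 hb) hκ
  have p1 : 0 ≤ ω ^ 12 * z ^ 2 := by positivity
  have p2 : 0 ≤ ω ^ 11 * z ^ 3 := by positivity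
  have hn0 : 0 ≤ ∑ x, ‖h x‖ := sum_nonneg fun _ _ => norm_nonneg _
  have triv : mass ψ t B h ≤ 32 * (ω ^ 12 * z ^ 2 + ω ^ 11 * z ^ 3) →
      ∃ ρ : V → V, massc ψ t B ρ h ≤ 32 * (J * b * κ) * (ω ^ 12 * z ^ 2 + ω ^ 11 * z ^ 3) :=
    fun hm => ⟨fun _ => 0, by rw [massc_zero]; nlinarith⟩
  have t1 := (step_triv hG t h h1).trans (mul_le_mul_of_nonneg_left hn (by positivity))
  by_cases hq : Fintype.card F < 32
  · refine triv (t1.trans ?_)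
    have : (Fintype.card F : ℝ) ≤ 32 := by exact_mod_cast hq.le
    calc _ = Fintype.card F * ((Fintype.card F : ℝ) ^ 2 * z ^ 2) := by ring
      _ ≤ 32 * ((Fintype.card F : ℝ) ^ 2 * z ^ 2) := by gcongr
      _ = 32 * (ω ^ 12 * z ^ 2) := by rw [← hω]; ring
      _ ≤ _ := by linarith
  by_cases hz2 : ω ^ 7 ≤ z
  · refine triv (t1.trans ?_)
    calc _ = ω ^ 11 * (z ^ 2 * ω ^ 7) := by rw [← hω]; ring
      _ ≤ ω ^ 11 * (z ^ 2 * z) := by gcongr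
      _ ≤ _ := by nlinarith
  by_cases hz1 : z ≤ ω ^ 5
  · refine triv ((step_small hF hψ hG ht h h1).trans ?_)
    rw [← hω]
    calc _ ≤ (ω ^ 6) ^ 2 * z ^ 2 + ω ^ 6 * (2 * (z ^ 2) ^ 2) := by gcongr
      _ = ω ^ 12 * z ^ 2 + 2 * (ω ^ 6 * z ^ 3 * z) := by ring
      _ ≤ ω ^ 12 * z ^ 2 + 2 * (ω ^ 6 * z ^ 3 * ω ^ 5) := by gcongr
      _ ≤ _ := by nlinarith
  replace hz1 := le_of_not_ge hz1
  replace hz2 := le_of_not_ge hz2
  have hz0 : 0 < z := lt_of_lt_of_le (by positivity) hz1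
  obtain ⟨ρ, g, c1, c2, c3, c4, c5⟩ := step_greedy hF hψ hG ht hω0 hω hz0 _ h rfl h1 hn
  have g1 : ∀ x, ‖g x‖ ≤ ‖h x‖ := fun x => by rcases c1 x with e | e <;> simp [e]
  have g2 : ∀ x, ‖h x - g x‖ ≤ ‖h x‖ := fun x => by rcases c1 x with e | e <;> simp [e]
  have g3 : ∑ x, ‖g x‖ ≤ z ^ 2 := (sum_le_sum fun x _ => g1 x).trans hn
  have g4 : ∀ x, ‖g x‖ ≤ 1 := fun x => (g1 x).trans (h1 x)
  have a1 := rem3 hF hψ hG ht hω0 hω hz1 hz2 (by positivity) g g4 g3 c3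
    (step_Tr hF hψ hG (not_lt.1 hq) hω0 hω hz1 hz2 hκ hK hb hJ1 hJ _ (fun _ => norm_nonneg _) g4
      g3 c3 c4)
  have a2 : massc ψ t B ρ (fun x => h x - g x) ≤ 5 * (ω ^ 11 * z ^ 3) := by
    refine le_of_mul_le_mul_left (c5.trans ?_) hz0
    calc _ ≤ 5 * ω ^ 11 * (z ^ 2) ^ 2 := by
          gcongr
          exact (sum_le_sum fun x _ => g2 x).trans hn
      _ = _ := by ring
  have a3 : ∀ ξ, ftc ψ B ρ h ξ = ft ψ B g ξ + ftc ψ B ρ (fun x => h x - g x) ξ := by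
    intro ξ
    rw [ftc, ftc, ft, ← sum_add_distrib]
    refine sum_congr rfl fun x _ => ?_
    split_ifs with hc
    · simp [c2 x hc.1]
    · ring
  have a4 : massc ψ t B ρ h ≤ 2 * (mass ψ t B g + massc ψ t B ρ (fun x => h x - g x)) := by
    rw [massc, massc, mass, ← sum_add_distrib, mul_sum]
    refine sum_le_sum fun ξ _ => ?_
    rw [a3]
    refine (pow_le_pow_left₀ (norm_nonneg _) (norm_add_le _ _) 2).trans ?_
    nlinarith [sq_nonneg (‖ft ψ B g ξ‖ - ‖ftc ψ B ρ (fun x => h x - g x) ξ‖)]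
  exact ⟨ρ, by nlinarith⟩

lemma HH_mono {ψ : AddChar F ℂ} {B : V →ₗ[F] V →ₗ[F] F} {ω K K' : ℝ} (hω0 : 0 < ω) (hK : K ≤ K')
    (h : HH ψ B ω K) : HH ψ B ω K' := by
  intro t ht g h1 z hz hn
  obtain ⟨ρ, hρ⟩ := h t ht g h1 z hz hn
  exact ⟨ρ, hρ.trans (mul_le_mul_of_nonneg_right hK (by positivity))⟩

lemma HH_iter (i : ℕ) : ∃ C : ℝ, 1 ≤ C ∧
    ∀ (F : Type) [Field F] [Fintype F] [DecidableEq F],
    ringChar F ≠ 2 → ∀ ψ : AddChar F ℂ, ψ ≠ 1 → ∀ j : F,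
    ∀ (U : Type) [AddCommGroup U] [Module F U] [Fintype U] [DecidableEq U]
      (B : U →ₗ[F] U →ₗ[F] F), Good ψ j B 1 → ∀ ω : ℝ, 0 < ω → ω ^ 6 = Fintype.card F →
      ∀ b : ℝ, 1 ≤ b → (Fintype.card F : ℝ) ≤ b ^ 2 ^ i → HH ψ B ω (C * b) := by
  induction i with
  | zero =>
    refine ⟨1, le_rfl, fun F _ _ _ hF ψ hψ j U _ _ _ _ B hG ω hω0 hω b hb hq => ?_⟩
    intro t ht h h1 z hz hn
    refine ⟨fun _ => 0, ?_⟩
    rw [massc_zero]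
    refine ((step_triv hG t h h1).trans (mul_le_mul_of_nonneg_left hn (by positivity))).trans ?_
    rw [pow_zero, pow_one] at hq
    calc _ = Fintype.card F * (ω ^ 12 * z ^ 2) := by rw [← hω]; ring
      _ ≤ b * (ω ^ 12 * z ^ 2 + ω ^ 11 * z ^ 3) := by
          gcongr
          exact le_add_of_nonneg_right (by positivity)
      _ = _ := by ring
  | succ i ih =>
    obtain ⟨C, hC, ih⟩ := ih
    have hJ : (1 : ℝ) ≤ ((2 ^ (i + 2) * 6 : ℕ) : ℝ) := by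
      exact_mod_cast Nat.one_le_iff_ne_zero.2 (by positivity)
    refine ⟨32 * (((2 ^ (i + 2) * 6 : ℕ) : ℝ) * C), by nlinarith,
      fun F _ _ _ hF ψ hψ j U _ _ _ _ B hG ω hω0 hω b hb hq => ?_⟩
    obtain ⟨c, hc1, rfl⟩ : ∃ c : ℝ, 1 ≤ c ∧ b = c ^ 2 :=
      ⟨Real.sqrt b, Real.one_le_sqrt.2 hb, (Real.sq_sqrt (by linarith)).symm⟩
    have a1 := ih F hF ψ hψ j U B hG ω hω0 hω (c ^ 4) (one_le_pow₀ hc1)
      (hq.trans (le_of_eq (by rw [← pow_mul, ← pow_mul]; congr 1; ring)))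
    have a2 : HH ψ B ω ((C * c) ^ 4) := HH_mono hω0 (by
      rw [mul_pow]
      exact mul_le_mul_of_nonneg_right (le_self_pow₀ hC (by norm_num)) (by positivity)) a1
    have a3 := HH_step hF hψ hG hω0 hω (one_le_mul_of_one_le_of_one_le hC hc1) a2 hc1
      (J := 2 ^ (i + 2) * 6) (by
        rw [pow_mul]
        refine pow_le_pow_left₀ (by positivity) (hq.trans (le_of_eq ?_)) 6
        rw [← pow_mul]; congr 1; ring)
    exact HH_mono hω0 (le_of_eq (by ring)) a3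

theorem bd2_one (a b : ℕ) (hab : 3 * b < a) : ∃ C : ℝ, 0 ≤ C ∧
    ∀ (F : Type) [Field F] [Fintype F] [DecidableEq F],
    ringChar F ≠ 2 → ∀ ψ : AddChar F ℂ, ψ ≠ 1 → ∀ j : F, j ≠ 0 →
    ∀ (U : Type) [AddCommGroup U] [Module F U] [Fintype U] [DecidableEq U]
      (B : U →ₗ[F] U →ₗ[F] F), Good ψ j B 1 → Bd2 a b ψ j B 1 C := by
  obtain ⟨C, hC, hI⟩ := HH_iter (6 * a)
  refine ⟨2 * C + 3, by linarith, fun F _ _ _ hF ψ hψ j hj U _ _ _ _ B hG g h1 t ht hn => ?_⟩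
  set q : ℝ := (Fintype.card F : ℝ) with hq
  set n := ∑ x, ‖g x‖ with hnn
  have hq2 : 2 ≤ q := two_le_card
  have hn0 : 0 ≤ n := sum_nonneg fun x _ => norm_nonneg _
  have hT : 1 ≤ t ^ a := one_le_pow₀ ht
  have hD : 0 ≤ q ^ 2 * t ^ a * n := by positivity
  rw [mul_one]
  by_cases c1 : q ≤ t ^ a
  · refine (step_triv hG j g h1).trans ?_
    calc _ = q ^ 2 * q * n := by ring
      _ ≤ q ^ 2 * t ^ a * n := by gcongr
      _ ≤ _ := by nlinarith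
  by_cases c2 : n ≤ q * t ^ a
  · refine (step_small hF hψ hG hj g h1).trans ?_
    calc _ = q ^ 2 * 1 * n + 2 * (q * n * n) := by ring
      _ ≤ q ^ 2 * t ^ a * n + 2 * (q * (q * t ^ a) * n) := by gcongr
      _ ≤ _ := by nlinarith
  replace c1 := le_of_not_ge c1
  replace c2 := le_of_not_ge c2
  have ha : 6 * a ≠ 0 := by omega
  obtain ⟨c, hc1, hc⟩ : ∃ c : ℝ, 1 ≤ c ∧ c ^ (6 * a) = q :=
    ⟨q ^ (((6 * a : ℕ) : ℝ)⁻¹), Real.one_le_rpow (by linarith) (by positivity),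
      Real.rpow_inv_natCast_pow (by linarith) ha⟩
  have hω : (c ^ a) ^ 6 = q := by rw [← pow_mul, mul_comm, hc]
  have hω1 : 1 ≤ c ^ a := one_le_pow₀ hc1
  obtain ⟨z, hz, hzn⟩ : ∃ z : ℝ, 0 ≤ z ∧ z ^ 2 = n := ⟨_, Real.sqrt_nonneg _, Real.sq_sqrt hn0⟩
  obtain ⟨ρ, hρ⟩ := hI F hF ψ hψ j U B hG (c ^ a) (by positivity) hω c hc1
    (by rw [← hq, ← hc]; exact pow_le_pow_right₀ hc1 Nat.lt_two_pow_self.le) j hj g h1 z hz hzn.ge
  have e1 : massc ψ j B ρ g = mass ψ j B g := by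
    refine sum_congr rfl fun ξ hξ => ?_
    simp only [ftc, ft, no_cut hψ hG _ ξ (mem_filter.1 hξ).2, if_false]
  have a1 : t ≤ c ^ 6 := by
    refine le_of_pow_le_pow_left₀ (n := a) (by omega) (by positivity) ?_
    rw [← pow_mul, hc]; exact c1
  have a2 : c * z ≤ c ^ a * t ^ a := by
    refine le_of_pow_le_pow_left₀ (n := 2) (by norm_num) (by positivity) ?_
    calc (c * z) ^ 2 = c ^ 2 * n := by rw [mul_pow, hzn]
      _ ≤ c ^ 2 * t ^ (a * (1 + 1) + b) := by gcongr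
      _ = c ^ 2 * t ^ b * (t ^ a) ^ 2 := by ring
      _ ≤ c ^ 2 * (c ^ 6) ^ b * (t ^ a) ^ 2 := by gcongr
      _ = c ^ (2 + 6 * b) * (t ^ a) ^ 2 := by ring
      _ ≤ c ^ (a * 2) * (t ^ a) ^ 2 := by gcongr; omega
      _ = _ := by ring
  have a3 : c ^ a ≤ z := by
    refine le_of_pow_le_pow_left₀ (n := 2) (by norm_num) hz ?_
    calc (c ^ a) ^ 2 ≤ (c ^ a) ^ 6 := pow_le_pow_right₀ hω1 (by norm_num)
      _ = q * 1 := by rw [hω, mul_one]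
      _ ≤ q * t ^ a := by gcongr
      _ ≤ _ := by rw [hzn]; exact c2
  rw [← e1]
  refine hρ.trans ?_
  rw [← hω, ← hzn]
  generalize c ^ a = ω at *
  calc _ = C * (ω ^ 11 * z ^ 2 * (c * ω) + ω ^ 11 * z ^ 2 * (c * z)) := by ring
    _ ≤ C * (ω ^ 11 * z ^ 2 * (ω * t ^ a) + ω ^ 11 * z ^ 2 * (ω * t ^ a)) := by
        have a4 : c * ω ≤ ω * t ^ a := le_trans (by gcongr) a2
        gcongr C * (ω ^ 11 * z ^ 2 * ?_ + ω ^ 11 * z ^ 2 * ?_)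
    _ = 2 * C * ((ω ^ 6) ^ 2 * t ^ a * z ^ 2) := by ring
    _ ≤ _ := by gcongr; linarith

end Pool.Agent.Lib.MP_c8b0a1_an
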