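import Pool.Agent.Lib.MP_c8b0a1_an.RPort
import Pool.Agent.Lib.MP_c8b0a1_an.RStep

set_option autoImplicit false
set_option linter.unusedSectionVars false

namespace Pool.Agent.Lib.MP_c8b0a1_an

open Finset

variable {F : Type} [Field F] [Fintype F] [DecidableEq F]
variable {V : Type} [AddCommGroup V] [Module F V] [Fintype V] [DecidableEq V]

theorem bd2_all (a b : ℕ) (hab : 3 * b < a) (k : ℕ) : ∃ C : ℝ, 0 ≤ C ∧
    ∀ (F : Type) [Field F] [Fintype F] [DecidableEq F],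
    ringChar F ≠ 2 → ∀ ψ : AddChar F ℂ, ψ ≠ 1 → ∀ j : F, j ≠ 0 →
    ∀ (U : Type) [AddCommGroup U] [Module F U] [Fintype U] [DecidableEq U]
      (B : U →ₗ[F] U →ₗ[F] F), Good ψ j B (k + 1) → Bd2 a b ψ j B (k + 1) C := by
  induction k with
  | zero => exact bd2_one a b hab
  | succ m ih =>
    obtain ⟨C, hC, h⟩ := ih
    exact ⟨3 * (C + 10), by positivity, fun F _ _ _ hF ψ hψ j hj U _ _ _ _ B hG =>
      bd2_step hF hψ hj hab (by omega) hC (h F hF ψ hψ j hj) hG⟩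

lemma dyadic2 {ψ : AddChar F ℂ} {j : F} {B : V →ₗ[F] V →ₗ[F] F} {a0 b0 k : ℕ} {C : ℝ} (hC : 0 ≤ C)
    (hB : Bd2 a0 b0 ψ j B k C) {p a γ : ℝ} (hp : 0 < p) (ha : 1 ≤ a) (hap : a ^ (a0 * (k + 1) + b0) = 2 ^ p)
    (hγ0 : 0 < γ) (hγ1 : γ < 1) (haγ : a ^ (a0 * (k + 2) + b0) = 4 * γ ^ 2) (f : V → ℂ)
    (hf : ∑ x, ‖f x‖ ^ p ≤ 1) :
    mass ψ j B f ≤ 4 * C * (1 - γ)⁻¹ ^ 2 * (Fintype.card F : ℝ) ^ (2 * k) := by
  set q : ℝ := (Fintype.card F : ℝ) with hq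
  have hq0 : 0 < q := card_pos'
  have h1 : ∀ x, ‖f x‖ ≤ 1 := by
    intro x
    have := (single_le_sum (f := fun x => ‖f x‖ ^ p) (fun _ _ => by positivity) (mem_univ x)).trans hf
    by_contra hc
    exact absurd (Real.one_lt_rpow (lt_of_not_ge hc) hp) (not_lt.2 this)
  have hl : ∀ x, ∃ m : ℕ, f x ≠ 0 → (1 / 2 : ℝ) ^ (m + 1) < ‖f x‖ ∧ ‖f x‖ ≤ (1 / 2 : ℝ) ^ m := by
    intro x
    by_cases h : f x = 0
    · exact ⟨0, fun h' => absurd h h'⟩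
    · obtain ⟨m, hm⟩ := exists_nat_pow_near_of_lt_one (norm_pos_iff.2 h) (h1 x)
        (by norm_num : (0 : ℝ) < 1 / 2) (by norm_num)
      exact ⟨m, fun _ => hm⟩
  choose lv hlv using hl
  set M := univ.sup lv + 1 with hM
  set g : ℕ → V → ℂ := fun m x => if lv x = m then 2 ^ m * f x else 0 with hg
  have g1 : ∀ m x, ‖g m x‖ ≤ 1 ∧ ‖g m x‖ ≤ (2 ^ p) ^ (m + 1) * ‖f x‖ ^ p := by
    intro m x
    simp only [hg]
    split_ifs with h
    · by_cases h0 : f x = 0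
      · simp only [h0, mul_zero, norm_zero]; exact ⟨zero_le_one, by positivity⟩
      · obtain ⟨l1, l2⟩ := hlv x h0
        rw [h, one_div_pow] at l1 l2
        rw [div_lt_iff₀ (by positivity)] at l1
        rw [le_div_iff₀ (by positivity)] at l2
        have b1 : ‖(2 : ℂ) ^ m * f x‖ ≤ 1 := by
          rw [norm_mul, norm_pow, Complex.norm_two, mul_comm]; exact l2
        refine ⟨b1, b1.trans ?_⟩
        rw [← Real.rpow_natCast, ← Real.rpow_mul (by norm_num), mul_comm p,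
          Real.rpow_mul (by norm_num), Real.rpow_natCast,
          ← Real.mul_rpow (by positivity) (norm_nonneg _)]
        exact Real.one_le_rpow (by rw [mul_comm]; exact l1.le) hp.le
    · simp only [norm_zero]; exact ⟨zero_le_one, by positivity⟩
  have g2 : ∀ m, mass ψ j B (g m) ≤ C * (q ^ (2 * k) * (4 * γ ^ 2) ^ (m + 1)) := by
    intro m
    have b1 : ∑ x, ‖g m x‖ ≤ (a ^ (m + 1)) ^ (a0 * (k + 1) + b0) := by
      refine (sum_le_sum fun x _ => (g1 m x).2).trans ?_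
      rw [← mul_sum, ← pow_mul, mul_comm (m + 1), pow_mul, hap]
      exact mul_le_of_le_one_right (by positivity) hf
    refine (hB (g m) (fun x => (g1 m x).1) _ (one_le_pow₀ ha) b1).trans ?_
    rw [← hq, ← haγ, mul_assoc (q ^ (2 * k))]
    gcongr
    calc _ ≤ (a ^ (m + 1)) ^ a0 * (a ^ (m + 1)) ^ (a0 * (k + 1) + b0) := by gcongr
      _ = _ := by ring
  have g3 : ∀ ξ, ft ψ B f ξ = ∑ m ∈ range M, (1 / 2) ^ m * ft ψ B (g m) ξ := by
    intro ξ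
    unfold ft
    simp_rw [mul_sum]
    rw [sum_comm]
    refine sum_congr rfl fun x _ => ?_
    have hx : lv x ∈ range M := mem_range.2 (Nat.lt_succ_of_le (le_sup (f := lv) (mem_univ x)))
    simp only [hg, ite_mul, mul_ite, zero_mul, mul_zero, sum_ite_eq, hx, if_true]
    rw [← mul_assoc, ← mul_assoc, ← mul_pow]
    norm_num
  have g4 : ∀ ξ, ‖ft ψ B f ξ‖ ^ 2
      ≤ (1 - γ)⁻¹ * ∑ m ∈ range M, (4 * γ)⁻¹ ^ m * ‖ft ψ B (g m) ξ‖ ^ 2 := by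
    intro ξ
    rw [g3]
    refine (pow_le_pow_left₀ (norm_nonneg _) (norm_sum_le _ _) 2).trans ?_
    refine (sum_sq_le_sum_mul_sum_of_sq_le_mul (range M) (f := fun m => γ ^ m)
      (g := fun m => (4 * γ)⁻¹ ^ m * ‖ft ψ B (g m) ξ‖ ^ 2) (fun _ _ => by positivity)
      (fun _ _ => by positivity) (fun m _ => le_of_eq ?_)).trans ?_
    · have e : ‖(1 / 2 : ℂ)‖ ^ 2 = γ * (4 * γ)⁻¹ := by
        rw [norm_div, norm_one, Complex.norm_two]
        field_simp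
        norm_num
      rw [norm_mul, norm_pow, mul_pow (‖(1 / 2 : ℂ)‖ ^ m), ← pow_mul, mul_comm m 2, pow_mul, e,
        mul_pow, mul_assoc]
    · exact mul_le_mul_of_nonneg_right (geom_le hγ0.le hγ1 M) (by positivity)
  have hi : 0 < (1 - γ)⁻¹ := inv_pos.2 (by linarith)
  calc mass ψ j B f ≤ ∑ ξ with B ξ ξ = j,
        (1 - γ)⁻¹ * ∑ m ∈ range M, (4 * γ)⁻¹ ^ m * ‖ft ψ B (g m) ξ‖ ^ 2 :=
        sum_le_sum fun ξ _ => g4 ξ
    _ = (1 - γ)⁻¹ * ∑ m ∈ range M, (4 * γ)⁻¹ ^ m * mass ψ j B (g m) := by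
        rw [← mul_sum, sum_comm]
        simp only [mass, mul_sum]
    _ ≤ (1 - γ)⁻¹ * ∑ m ∈ range M, (4 * C * q ^ (2 * k)) * γ ^ m := by
        refine mul_le_mul_of_nonneg_left (sum_le_sum fun m _ => ?_) hi.le
        calc _ ≤ (4 * γ)⁻¹ ^ m * (C * (q ^ (2 * k) * (4 * γ ^ 2) ^ (m + 1))) := by
              gcongr; exact g2 m
          _ = (4 * C * q ^ (2 * k)) * γ ^ m * γ ^ 2 := by
              simp only [inv_pow, mul_pow, pow_succ, pow_zero, one_mul]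
              field_simp
          _ ≤ _ := mul_le_of_le_one_right (by positivity) (pow_le_one₀ hγ0.le hγ1.le)
    _ ≤ (1 - γ)⁻¹ * ((4 * C * q ^ (2 * k)) * (1 - γ)⁻¹) := by
        rw [← mul_sum]
        gcongr
        exact geom_le hγ0.le hγ1 M
    _ = _ := by ring

theorem main2 (d : ℕ) (hd : 3 ≤ d) (p : ℝ) (hp : 1 ≤ p) (hp2 : p < (6 * d + 10 : ℝ) / (3 * d + 11)) :
    ∃ C : ℝ, ∀ (F : Type) [Field F] [Fintype F] [DecidableEq F],
      ringChar F ≠ 2 → ∀ ψ : AddChar F ℂ, ψ ≠ 1 → ∀ j : F, j ≠ 0 →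
      ((d % 4 = 1 ∧ quadraticChar F j = -1) ∨ (d % 4 = 3 ∧ quadraticChar F (-j) = -1)) →
      ∀ f : (Fin d → F) → ℂ,
        Real.sqrt ((1 / ((Finset.univ.filter (fun ξ : Fin d → F => ∑ i, ξ i ^ 2 = j)).card : ℝ)) *
          ∑ ξ ∈ Finset.univ.filter (fun ξ : Fin d → F => ∑ i, ξ i ^ 2 = j),
            ‖∑ x : Fin d → F, f x * ψ (-(∑ i, x i * ξ i))‖ ^ 2)
        ≤ C * (∑ x : Fin d → F, ‖f x‖ ^ p) ^ (1 / p) := by
  by_cases hodd : d % 2 = 1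
  swap
  · exact ⟨0, fun F _ _ _ _ _ _ _ _ h => by omega⟩
  obtain ⟨k, rfl⟩ : ∃ k, d = 2 * k + 1 := ⟨d / 2, by omega⟩
  obtain ⟨b0, hb0⟩ : ∃ b0 : ℕ, p * (((3 * b0 + 1) * (k + 2) + b0 : ℕ) : ℝ)
      < 2 * (((3 * b0 + 1) * (k + 1) + b0 : ℕ) : ℝ) := by
    rw [lt_div_iff₀ (by positivity)] at hp2
    push_cast at hp2 ⊢
    have h1 : 0 < 6 * (k : ℝ) + 8 - p * (3 * k + 7) := by linarith
    obtain ⟨b0, hb0⟩ := exists_nat_gt (p * (k + 2) / (6 * (k : ℝ) + 8 - p * (3 * k + 7)))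
    rw [div_lt_iff₀ h1] at hb0
    exact ⟨b0, by nlinarith [Nat.cast_nonneg (α := ℝ) k]⟩
  obtain ⟨C, hC, hB⟩ := bd2_all (3 * b0 + 1) b0 (by omega) (k - 1)
  rw [show k - 1 + 1 = k by omega] at hB
  generalize 3 * b0 + 1 = a0 at *
  have hp0 : 0 < p := by linarith
  have hk6 : (0 : ℝ) < ((a0 * (k + 1) + b0 : ℕ) : ℝ) := by
    have : (0 : ℝ) ≤ p * ((a0 * (k + 2) + b0 : ℕ) : ℝ) := by positivity
    linarith
  set a : ℝ := 2 ^ (p / ((a0 * (k + 1) + b0 : ℕ) : ℝ)) with ha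
  have ha1 : 1 ≤ a := Real.one_le_rpow (by norm_num) (by positivity)
  have hap : a ^ (a0 * (k + 1) + b0) = 2 ^ p := by
    rw [ha, ← Real.rpow_natCast, ← Real.rpow_mul (by norm_num)]
    congr 1; field_simp
  have ha4 : a ^ (a0 * (k + 2) + b0) < 4 := by
    rw [ha, ← Real.rpow_natCast, ← Real.rpow_mul (by norm_num),
      show (4 : ℝ) = 2 ^ (2 : ℝ) by norm_num]
    refine Real.rpow_lt_rpow_of_exponent_lt (by norm_num) ?_
    rw [div_mul_eq_mul_div, div_lt_iff₀ hk6]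
    exact hb0
  set γ : ℝ := Real.sqrt (a ^ (a0 * (k + 2) + b0)) / 2 with hγ
  have hγ0 : 0 < γ := by positivity
  have haγ : a ^ (a0 * (k + 2) + b0) = 4 * γ ^ 2 := by
    rw [hγ, div_pow, Real.sq_sqrt (by positivity)]; ring
  have hγ1 : γ < 1 := by nlinarith
  refine ⟨Real.sqrt (8 * C * (1 - γ)⁻¹ ^ 2), fun F _ _ _ hF ψ hψ j hj hadm f => ?_⟩
  have hψ' : ψ⁻¹ ≠ 1 := inv_ne_one.2 hψ
  have h2 := (admissible hF hadm).2
  rw [show (2 * k + 1) / 2 = k by omega] at h2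
  have hG := good_dot hF hψ' hj k h2
  have h3 := strong hp0 (dyadic2 hC (hB F hF _ hψ' j hj _ _ hG) hp0 ha1 hap hγ0 hγ1 haγ) f
  have h4 := card_sphere hG (by omega)
  have e1 : (univ.filter fun ξ : Fin (2 * k + 1) → F => dotB F (2 * k + 1) ξ ξ = j)
      = univ.filter fun ξ : Fin (2 * k + 1) → F => ∑ i, ξ i ^ 2 = j := by
    simp only [dotB_apply, sq]
  have e2 : mass ψ⁻¹ j (dotB F (2 * k + 1)) f
      = ∑ ξ ∈ Finset.univ.filter (fun ξ : Fin (2 * k + 1) → F => ∑ i, ξ i ^ 2 = j),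
            ‖∑ x : Fin (2 * k + 1) → F, f x * ψ (-(∑ i, x i * ξ i))‖ ^ 2 := by
    unfold mass ft
    rw [e1]
    simp only [AddChar.inv_apply, dotB_apply, mul_comm]
  rw [e1] at h4
  rw [← e2]
  have hA : 0 ≤ (∑ x, ‖f x‖ ^ p) ^ (1 / p) :=
    Real.rpow_nonneg (sum_nonneg fun _ _ => by positivity) _
  generalize (∑ x, ‖f x‖ ^ p) ^ (1 / p) = A at *
  have hq : (0 : ℝ) < (Fintype.card F : ℝ) ^ (2 * k) := pow_pos card_pos' _
  generalize ((univ.filter fun ξ : Fin (2 * k + 1) → F => ∑ i, ξ i ^ 2 = j).card : ℝ) = S at *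
  have hS : 0 < S := by linarith
  rw [← Real.sqrt_sq hA, ← Real.sqrt_mul (by positivity)]
  refine Real.sqrt_le_sqrt ?_
  rw [one_div, inv_mul_le_iff₀ hS]
  refine h3.trans ?_
  calc _ ≤ 4 * C * (1 - γ)⁻¹ ^ 2 * (2 * S) * A ^ 2 := by gcongr
    _ = _ := by ring


end Pool.Agent.Lib.MP_c8b0a1_an
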