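import Pool.Agent.Lib.MP_c8b0a1_an.RDefs

set_option autoImplicit false
set_option linter.unusedSectionVars false

namespace Pool.Agent.Lib.MP_c8b0a1_an

open Finset

variable {F : Type} [Field F] [Fintype F] [DecidableEq F]
variable {V : Type} [AddCommGroup V] [Module F V] [Fintype V] [DecidableEq V]

lemma kern_card {ψ : AddChar F ℂ} {j : F} {B : V →ₗ[F] V →ₗ[F] F} (hG : Good ψ j B 1) :
    Fintype.card V = Fintype.card F ^ 3 := by
  have := hG.orth 0
  simp only [map_zero, AddChar.map_zero_eq_one, sum_const, card_univ, nsmul_eq_mul, mul_one,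
    if_true] at this
  exact_mod_cast this

lemma kern_gamma (hF : ringChar F ≠ 2) {ψ : AddChar F ℂ} (hψ : ψ ≠ 1) {j : F}
    {B : V →ₗ[F] V →ₗ[F] F} (hG : Good ψ j B 1) :
    ∃ γ : ℂ, ‖γ‖ ^ 2 = (Fintype.card F : ℝ) ^ 3 ∧ ∀ l : F, l ≠ 0 →
      ∑ y, ψ (l * B y y) = eta F l * γ := by
  have h3 : Module.finrank F V = 3 := by
    have h1 := Module.card_eq_pow_finrank (K := F) (V := V)
    rw [kern_card hG] at h1
    exact (Nat.pow_right_injective Fintype.one_lt_card h1).symm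
  let _ : Invertible (2 : F) := invertibleOfNonzero (two_ne hF)
  obtain ⟨v, hv⟩ := LinearMap.BilinForm.exists_orthogonal_basis (K := F) (V := V) (B := B)
    ⟨fun x y => hG.symm x y⟩
  rw [LinearMap.isOrthoᵢ_def] at hv
  have hB : ∀ (c : Fin (Module.finrank F V) → F) i,
      B (v i) (v.equivFun.symm c) = c i * B (v i) (v i) := by
    intro c i
    rw [Module.Basis.equivFun_symm_apply, map_sum, sum_eq_single i]
    · simp
    · intro b _ hb; rw [map_smul, hv i b (Ne.symm hb), smul_zero]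
    · simp
  have ha : ∀ i, B (v i) (v i) ≠ 0 := by
    intro i h
    obtain ⟨r, hr⟩ := exists_dual hG (v.ne_zero i)
    obtain ⟨c, rfl⟩ := v.equivFun.symm.surjective r
    rw [hB, h, mul_zero] at hr
    exact zero_ne_one hr
  have hQ : ∀ c : Fin (Module.finrank F V) → F,
      B (v.equivFun.symm c) (v.equivFun.symm c) = ∑ i, B (v i) (v i) * c i ^ 2 := by
    intro c
    nth_rewrite 1 [Module.Basis.equivFun_symm_apply]
    rw [map_sum, LinearMap.sum_apply]
    refine sum_congr rfl fun i _ => ?_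
    rw [map_smul, LinearMap.smul_apply, hB, smul_eq_mul]; ring
  refine ⟨(∏ i, eta F (B (v i) (v i))) * GG ψ ^ 3, ?_, fun l hl => ?_⟩
  · rw [norm_mul, norm_prod, prod_congr rfl fun i _ => norm_eta (ha i), prod_const_one, one_mul,
      norm_pow, ← pow_mul, mul_comm, pow_mul, norm_GG_sq hF ψ hψ]
  · rw [← Fintype.sum_equiv v.equivFun.symm.toEquiv
      (fun c => ψ (∑ i, l * B (v i) (v i) * c i ^ 2)) _ (fun c => by
        congr 1
        change _ = l * B (v.equivFun.symm c) (v.equivFun.symm c)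
        rw [hQ, mul_sum]; exact sum_congr rfl fun i _ => by ring),
      sum_pi_psi ψ (fun i t => l * B (v i) (v i) * t ^ 2),
      prod_congr rfl fun i _ => quad_sum hF ψ hψ (mul_ne_zero hl (ha i))]
    simp only [map_mul, prod_mul_distrib, prod_const, card_univ, Fintype.card_fin, h3]
    have := eta_sq hl
    linear_combination (eta F l * (∏ i, eta F (B (v i) (v i))) * GG ψ ^ 3) * this

lemma kern_sum {ψ : AddChar F ℂ} (hψ : ψ ≠ 1) {B : V →ₗ[F] V →ₗ[F] F}
    (hs : ∀ x y, B x y = B y x) (t : F) (x : V) :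
    (Fintype.card F : ℂ) * ∑ ξ with B ξ ξ = t, ψ (B ξ x)
      = ∑ l : F, ψ (-(l * t)) * ∑ y, ψ (l * B y y + B x y) := by
  simp_rw [mul_sum]
  rw [sum_comm, sum_filter]
  refine sum_congr rfl fun ξ _ => ?_
  have : ∀ l : F, ψ (-(l * t)) * ψ (l * B ξ ξ + B x ξ) = ψ (B ξ x) * ψ (l * (B ξ ξ - t)) := by
    intro l
    rw [← AddChar.map_add_eq_mul, ← AddChar.map_add_eq_mul, hs x ξ]
    congr 1; ring
  simp_rw [this]
  rw [← mul_sum, sum_psi ψ hψ]
  simp only [sub_eq_zero]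
  split_ifs
  · ring
  · simp

lemma kern_cut {ψ : AddChar F ℂ} (hψ : ψ ≠ 1) {B : V →ₗ[F] V →ₗ[F] F}
    (hs : ∀ x y, B x y = B y x) {t : F} {c : ℂ}
    (hk : ∀ x : V, ∑ ξ with B ξ ξ = t, ψ (B ξ x)
      = (if x = 0 then (Fintype.card F : ℂ) ^ 2 else 0) + c * phi ψ t (B x x))
    {r : V} (hr : r ≠ 0) (hq : B r r = 0) :
    (#{ξ : V | B ξ ξ = t ∧ B r ξ = 0} : ℂ) = Fintype.card F + c := by
  refine mul_left_cancel₀ (card_ne (F := F)) ?_
  have h1 : ∑ a : F, ∑ ξ with B ξ ξ = t, ψ (B ξ (a • r))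
      = Fintype.card F * (#{ξ : V | B ξ ξ = t ∧ B r ξ = 0} : ℂ) := by
    rw [sum_comm]
    simp only [map_smul, smul_eq_mul, sum_psi ψ hψ]
    rw [← sum_filter, filter_filter, sum_const, nsmul_eq_mul, mul_comm]
    simp only [hs r]
  rw [← h1, sum_congr rfl fun a _ => hk (a • r)]
  simp only [map_smul, LinearMap.smul_apply, hq, smul_zero, phi_zero, smul_eq_zero, hr,
    or_false, sum_add_distrib, sum_ite_eq', mem_univ, if_true, sum_const, card_univ, nsmul_eq_mul]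
  ring

theorem gauss3 (hF : ringChar F ≠ 2) {ψ : AddChar F ℂ} (hψ : ψ ≠ 1) {j : F}
    {B : V →ₗ[F] V →ₗ[F] F} (hG : Good ψ j B 1) :
    ∃ γ : ℂ, ‖γ‖ ^ 2 = (Fintype.card F : ℝ) ^ 3 ∧ ∀ l : F, l ≠ 0 → ∀ z : V,
      ∑ y, ψ (l * B y y + B z y) = eta F l * γ * ψ (-(B z z / (4 * l))) := by
  obtain ⟨γ, h1, h2⟩ := kern_gamma hF hψ hG
  refine ⟨γ, h1, fun l hl z => ?_⟩
  have h4 := four_ne hF
  have h5 := two_ne hF
  rw [← h2 l hl, sum_mul]
  refine Fintype.sum_equiv (Equiv.addRight ((2 * l)⁻¹ • z)) _ _ fun y => ?_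
  rw [← AddChar.map_add_eq_mul]
  congr 1
  simp only [Equiv.coe_addRight, map_add, map_smul, LinearMap.add_apply, LinearMap.smul_apply,
    smul_eq_mul, hG.symm y z]
  field_simp
  ring

theorem kf3 (hF : ringChar F ≠ 2) {ψ : AddChar F ℂ} (hψ : ψ ≠ 1) {j : F}
    {B : V →ₗ[F] V →ₗ[F] F} (hG : Good ψ j B 1) {t : F} (ht : t ≠ 0) :
    ∃ c : ℂ, ‖c‖ = Fintype.card F ∧ ∀ x : V, ∑ ξ with B ξ ξ = t, ψ (B ξ x)
      = (if x = 0 then (Fintype.card F : ℂ) ^ 2 else 0) + c * phi ψ t (B x x) := by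
  obtain ⟨γ, h1, h2⟩ := gauss3 hF hψ hG
  have h4 := four_ne hF
  have hq := card_ne (F := F)
  have hq0 := card_pos' (F := F)
  have hg := norm_GG_sq hF ψ hψ
  have hg0 : GG ψ ≠ 0 := by
    intro h; rw [h] at hg; simp only [norm_zero] at hg; nlinarith
  refine ⟨γ * eta F t / GG ψ, ?_, fun x => ?_⟩
  · refine (sq_eq_sq₀ (norm_nonneg _) hq0.le).1 ?_
    rw [norm_div, norm_mul, norm_eta ht, mul_one, div_pow, h1, hg]
    field_simp
  · refine mul_left_cancel₀ hq ?_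
    rw [kern_sum hψ hG.symm, phi_expand hF ψ hψ ht]
    have e2 : ∀ l : F, ψ (-(l * t)) * ∑ y, ψ (l * B y y + B x y)
        = (if l = 0 then (if x = 0 then (Fintype.card F : ℂ) ^ 3 else 0) else 0)
          + γ * eta F (-1) * (eta F (-(4 * l)⁻¹) * ψ (B x x * (-(4 * l)⁻¹)
              + t / 4 * (-(4 * l)⁻¹)⁻¹)) := by
      intro l
      by_cases hl : l = 0
      · subst hl
        have := hG.orth x
        simp only [hG.symm _ x] at this
        simp only [zero_mul, neg_zero, AddChar.map_zero_eq_one, zero_add, one_mul, this, if_true,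
          mul_zero, inv_zero, eta_zero, add_zero]
        split_ifs <;> simp
      · have a2 : eta F (-(4 * l)⁻¹) = eta F (-1) * eta F l := by
          rw [neg_eq_neg_one_mul, map_mul, eta_inv, map_mul, show (4 : F) = 2 * 2 by norm_num,
            map_mul, eta_sq (two_ne hF), one_mul]
        have a1 : B x x * (-(4 * l)⁻¹) + t / 4 * (-(4 * l)⁻¹)⁻¹
            = -(l * t) + -(B x x / (4 * l)) := by field_simp; ring
        have a5 := eta_sq (F := F) (a := -1) (by simp)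
        rw [h2 l hl, if_neg hl, a1, a2, AddChar.map_add_eq_mul]
        linear_combination (-(γ * eta F l * ψ (-(l * t)) * ψ (-(B x x / (4 * l))))) * a5
    simp_rw [e2]
    rw [sum_add_distrib, ← mul_sum, sum_ite_eq']
    have e3 : ∑ τ : F, eta F (-(4 * τ)⁻¹) * ψ (B x x * (-(4 * τ)⁻¹) + t / 4 * (-(4 * τ)⁻¹)⁻¹)
        = ∑ τ : F, eta F τ * ψ (B x x * τ + t / 4 * τ⁻¹) :=
      Fintype.sum_equiv ((Equiv.mulLeft₀ (4 : F) h4).trans ((Equiv.inv F).trans (Equiv.neg F)))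
        _ _ fun _ => rfl
    rw [e3]
    simp only [mem_univ, if_true]
    generalize ∑ τ : F, eta F τ * ψ (B x x * τ + t / 4 * τ⁻¹) = Y
    have a3 : eta F (-t) = eta F (-1) * eta F t := by rw [← map_mul, neg_one_mul]
    have a6 := eta_sq ht
    have a7 : (Fintype.card F : ℂ) * (γ * eta F t / GG ψ *
        ((Fintype.card F : ℂ)⁻¹ * (eta F (-t) * GG ψ) * Y)) = γ * eta F (-1) * Y := by
      rw [a3]; field_simp
      linear_combination (γ * eta F (-1) * Y) * a6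
    rw [mul_add, a7]
    split_ifs
    · ring
    · ring

theorem card_sph3 (hF : ringChar F ≠ 2) {ψ : AddChar F ℂ} (hψ : ψ ≠ 1) {j : F}
    {B : V →ₗ[F] V →ₗ[F] F} (hG : Good ψ j B 1) (t : F) :
    (#{ξ : V | B ξ ξ = t} : ℝ) ≤ 2 * (Fintype.card F : ℝ) ^ 2 := by
  obtain ⟨γ, h1, h2⟩ := kern_gamma hF hψ hG
  have hq2 : (2 : ℝ) ≤ Fintype.card F := two_le_card
  have h3 := kern_sum hψ hG.symm t 0
  simp only [map_zero, AddChar.map_zero_eq_one, sum_const, nsmul_eq_mul, mul_one,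
    LinearMap.zero_apply, add_zero] at h3
  have hγ : ‖γ‖ ≤ (Fintype.card F : ℝ) ^ 2 := by
    refine le_of_pow_le_pow_left₀ two_ne_zero (by positivity) ?_
    rw [h1, ← pow_mul]
    exact pow_le_pow_right₀ (by linarith) (by norm_num)
  have h4 : ∀ l : F, ‖ψ (-(l * t)) * ∑ y, ψ (l * B y y)‖
      ≤ (if l = 0 then (Fintype.card F : ℝ) ^ 3 else 0) + (Fintype.card F : ℝ) ^ 2 := by
    intro l
    rw [norm_mul, norm_psi, one_mul]
    split_ifs with hl
    · subst hl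
      simp only [zero_mul, AddChar.map_zero_eq_one, sum_const, card_univ, nsmul_eq_mul, mul_one,
        kern_card hG, Complex.norm_natCast]
      push_cast
      exact le_add_of_nonneg_right (by positivity)
    · rw [h2 l hl, norm_mul, norm_eta hl, one_mul, zero_add]; exact hγ
  have h5 := (norm_sum_le _ _).trans (sum_le_sum (s := univ) fun l _ => h4 l)
  rw [← h3, norm_mul, Complex.norm_natCast, Complex.norm_natCast, sum_add_distrib, sum_ite_eq',
    if_pos (mem_univ _), sum_const, card_univ, nsmul_eq_mul] at h5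
  refine le_of_mul_le_mul_left (h5.trans (le_of_eq (by ring))) card_pos'

theorem card_cut3 (hF : ringChar F ≠ 2) {ψ : AddChar F ℂ} (hψ : ψ ≠ 1) {j : F}
    {B : V →ₗ[F] V →ₗ[F] F} (hG : Good ψ j B 1) {t : F} (ht : t ≠ 0) (r : V) :
    (#{ξ : V | B ξ ξ = t ∧ cut B r ξ} : ℝ) ≤ 2 * (Fintype.card F : ℝ) := by
  by_cases hr : r ≠ 0 ∧ B r r = 0
  · obtain ⟨c, hc, hk⟩ := kf3 hF hψ hG ht
    have h1 := congrArg norm (kern_cut hψ hG.symm hk hr.1 hr.2)
    rw [Complex.norm_natCast] at h1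
    have h2 := norm_add_le (Fintype.card F : ℂ) c
    rw [← h1, hc, Complex.norm_natCast] at h2
    have : (univ.filter fun ξ : V => B ξ ξ = t ∧ cut B r ξ)
        = univ.filter fun ξ : V => B ξ ξ = t ∧ B r ξ = 0 :=
      filter_congr fun ξ _ => by simp [cut, hr.1, hr.2]
    rw [this]; linarith
  · rw [filter_eq_empty_iff.2 fun ξ _ h => hr ⟨h.2.1, h.2.2.1⟩]
    simp

theorem no_cut {ψ : AddChar F ℂ} (hψ : ψ ≠ 1) {j : F}
    {B : V →ₗ[F] V →ₗ[F] F} (hG : Good ψ j B 1) (r ξ : V) (hξ : B ξ ξ = j) : ¬ cut B r ξ := by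
  rintro ⟨h1, h2, h3⟩
  have := kern_cut hψ hG.symm (t := j) (c := -(Fintype.card F : ℂ))
    (fun x => by rw [hG.kf]; ring) h1 h2
  rw [add_neg_cancel, Nat.cast_eq_zero, card_eq_zero, filter_eq_empty_iff] at this
  exact this (mem_univ ξ) ⟨hξ, h3⟩

theorem mass_le3 (hF : ringChar F ≠ 2) {ψ : AddChar F ℂ} (hψ : ψ ≠ 1) {j : F}
    {B : V →ₗ[F] V →ₗ[F] F} (hG : Good ψ j B 1) {t : F} (ht : t ≠ 0) (g : V → ℂ) :
    mass ψ t B g ≤ (Fintype.card F : ℝ) ^ 2 * ∑ x, ‖g x‖ ^ 2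
      + (Fintype.card F : ℝ) *
        ‖∑ y, (starRingEnd ℂ) (g y) * ∑ x, g x * phi ψ t (B (x - y) (x - y))‖ := by
  obtain ⟨c, hc, hk⟩ := kf3 hF hψ hG ht
  have e : (mass ψ t B g : ℂ) = (((Fintype.card F : ℝ) ^ 2 * ∑ x, ‖g x‖ ^ 2 : ℝ) : ℂ)
      + c * ∑ y, (starRingEnd ℂ) (g y) * ∑ x, g x * phi ψ t (B (x - y) (x - y)) := by
    unfold mass ft
    rw [mass_expand ψ _ (fun ξ m => B ξ m) (fun x m m' => map_sub _ _ _) g (fun x => x)]
    simp_rw [hk, mul_add, sum_add_distrib, sub_eq_zero]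
    congr 1
    · rw [Complex.ofReal_mul, Complex.ofReal_sum, mul_sum]
      refine sum_congr rfl fun x _ => ?_
      rw [normsq_eq]
      simp [mul_comm]
    · rw [sum_comm, mul_sum]
      refine sum_congr rfl fun y _ => ?_
      simp only [mul_sum]
      exact sum_congr rfl fun x _ => by ring
  have h1 : mass ψ t B g = ‖(mass ψ t B g : ℂ)‖ := by
    rw [Complex.norm_real, Real.norm_of_nonneg (mass_nonneg _ _ _ _)]
  rw [h1, e]
  refine (norm_add_le _ _).trans (le_of_eq ?_)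
  rw [Complex.norm_real, Real.norm_of_nonneg (by positivity), norm_mul, hc]

end Pool.Agent.Lib.MP_c8b0a1_an
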