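import Pool.Agent.Lib.MP_c8b0a1_an.RKern

set_option autoImplicit false
set_option linter.unusedSectionVars false

namespace Pool.Agent.Lib.MP_c8b0a1_an

open Finset

variable {F : Type} [Field F] [Fintype F] [DecidableEq F]
variable {V : Type} [AddCommGroup V] [Module F V] [Fintype V] [DecidableEq V]

lemma pair_cut (hF : ringChar F ≠ 2) {ψ : AddChar F ℂ} (hψ : ψ ≠ 1) {j : F}
    {B : V →ₗ[F] V →ₗ[F] F} (hG : Good ψ j B 1) (w : V → ℝ)
    (h0 : ∀ x, 0 ≤ w x) {μ : ℝ} (hμ : 0 ≤ μ) (hH : ∀ r, r ≠ 0 → ∀ c, ∑ x with B r x = c, w x ≤ μ)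
    {t : F} (ht : t ≠ 0) (r x : V) :
    ‖∑ ξ with (B ξ ξ = t ∧ cut B r ξ), ft ψ B (fun y => (w y : ℂ)) ξ * ψ (-(B ξ x))‖
      ≤ 2 * Fintype.card F * μ := by
  set q : ℝ := (Fintype.card F : ℝ) with hq
  have hq0 : 0 < q := card_pos'
  by_cases hr : r ≠ 0 ∧ B r r = 0
  swap
  · rw [filter_eq_empty_iff.2 (fun ξ _ h => hr ⟨h.2.1, h.2.2.1⟩)]
    simp only [sum_empty, norm_zero]; positivity
  set S := univ.filter (fun ξ : V => B ξ ξ = t ∧ cut B r ξ) with hS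
  set G : V → ℂ := fun ξ => ft ψ B (fun y => (w y : ℂ)) ξ * ψ (-(B ξ x)) with hGd
  have e1 : ∀ a : F, ∑ ξ ∈ S, G (ξ + a • r) = ∑ ξ ∈ S, G ξ := by
    intro a
    refine sum_equiv (Equiv.addRight (a • r)) (fun ξ => ?_) (fun _ _ => rfl)
    simp only [hS, mem_filter, mem_univ, true_and, Equiv.coe_addRight, cut, map_add, map_smul,
      LinearMap.add_apply, LinearMap.smul_apply, smul_eq_mul, hr.2, hG.symm ξ r, mul_zero, add_zero]
    constructor
    · rintro ⟨h1, h2, h4⟩; exact ⟨by rw [h4, h1]; ring, h2, h4⟩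
    · rintro ⟨h1, h2, h4⟩; exact ⟨by rw [h4] at h1; linear_combination h1, h2, h4⟩
  have e2 : ∀ ξ, ‖∑ a : F, G (ξ + a • r)‖ ≤ q * μ := by
    intro ξ
    have : ∑ a : F, G (ξ + a • r)
        = q * ∑ y with B r y = B r x, (w y : ℂ) * ψ (B ξ y - B ξ x) := by
      simp only [hGd, ft, sum_mul]
      rw [sum_comm, sum_filter, mul_sum]
      refine sum_congr rfl fun y _ => ?_
      have : ∀ a : F, (w y : ℂ) * ψ (B (ξ + a • r) y) * ψ (-(B (ξ + a • r) x))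
          = (w y : ℂ) * ψ (B ξ y - B ξ x) * ψ (a * (B r y - B r x)) := by
        intro a
        rw [mul_assoc, mul_assoc, ← AddChar.map_add_eq_mul, ← AddChar.map_add_eq_mul]
        congr 2
        simp only [map_add, map_smul, LinearMap.add_apply, LinearMap.smul_apply, smul_eq_mul]
        ring
      simp_rw [this]
      rw [← mul_sum, sum_psi ψ hψ]
      simp only [sub_eq_zero, hq]
      split_ifs
      · push_cast; ring
      · simp
    rw [this, norm_mul, Complex.norm_real, Real.norm_of_nonneg hq0.le]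
    refine mul_le_mul_of_nonneg_left ((norm_sum_le _ _).trans (le_trans (le_of_eq ?_)
      (hH r hr.1 (B r x)))) hq0.le
    refine sum_congr rfl fun y _ => ?_
    rw [norm_mul, norm_psi, mul_one, Complex.norm_real, Real.norm_of_nonneg (h0 y)]
  have e3 : (q : ℂ) * ∑ ξ ∈ S, G ξ = ∑ ξ ∈ S, ∑ a : F, G (ξ + a • r) := by
    rw [sum_comm]
    simp [e1, hq]
  have e4 := card_cut3 hF hψ hG ht r
  refine le_of_mul_le_mul_left ?_ hq0
  calc q * ‖∑ ξ ∈ S, G ξ‖ = ‖(q : ℂ) * ∑ ξ ∈ S, G ξ‖ := by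
        rw [norm_mul, Complex.norm_real, Real.norm_of_nonneg hq0.le]
    _ ≤ ∑ ξ ∈ S, q * μ := by rw [e3]; exact (norm_sum_le _ _).trans (sum_le_sum fun ξ _ => e2 ξ)
    _ = #S * (q * μ) := by rw [sum_const, nsmul_eq_mul]
    _ ≤ (2 * q) * (q * μ) := mul_le_mul_of_nonneg_right e4 (by positivity)
    _ = _ := by ring

theorem pairing (hF : ringChar F ≠ 2) {ψ : AddChar F ℂ} (hψ : ψ ≠ 1) {j : F}
    {B : V →ₗ[F] V →ₗ[F] F} (hG : Good ψ j B 1) {ω K : ℝ} (hK : HH ψ B ω K) (w : V → ℝ)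
    (h0 : ∀ x, 0 ≤ w x) {μ : ℝ} (hμ : 0 ≤ μ) (hH : ∀ r, r ≠ 0 → ∀ c, ∑ x with B r x = c, w x ≤ μ)
    {t : F} (ht : t ≠ 0) (A : Finset V) {z : ℝ} (hz : 0 ≤ z) (hA : (#A : ℝ) ≤ z ^ 2) :
    (Fintype.card F : ℝ) ^ 3 * ∑ x ∈ A, ‖Pt ψ B w x t‖
      ≤ Real.sqrt (mass ψ t B (fun y => (w y : ℂ)) * (K * (ω ^ 12 * z ^ 2 + ω ^ 11 * z ^ 3)))
        + 2 * Fintype.card F * μ * #A := by
  set q : ℝ := (Fintype.card F : ℝ) with hq
  have hq0 : 0 < q := card_pos'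
  set P : V → ℂ := fun x => Pt ψ B w x t with hP
  set h : V → ℂ := fun x => if x ∈ A then P x / ‖P x‖ else 0 with hh
  have h1 : ∀ x, ‖h x‖ ≤ if x ∈ A then 1 else 0 := by
    intro x
    simp only [hh]
    split_ifs
    · rw [norm_div, Complex.norm_real, norm_norm]; exact div_self_le_one _
    · simp
  have h2 : ∑ x, ‖h x‖ ≤ #A := (sum_le_sum fun x _ => h1 x).trans (by simp)
  obtain ⟨ρ, hρ⟩ := hK t ht h (fun x => (h1 x).trans (by split_ifs <;> simp)) z hz (h2.trans hA)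
  set W : V → ℂ := ft ψ B (fun y => (w y : ℂ)) with hW
  have e1 : ((q ^ 3 * ∑ x ∈ A, ‖P x‖ : ℝ) : ℂ)
      = ∑ ξ with B ξ ξ = t, W ξ * (starRingEnd ℂ) (ftc ψ B ρ h ξ)
        + ∑ x, (starRingEnd ℂ) (h x) * ∑ ξ with (B ξ ξ = t ∧ cut B (ρ x) ξ), W ξ * ψ (-(B ξ x)) := by
    have a1 : ((q ^ 3 * ∑ x ∈ A, ‖P x‖ : ℝ) : ℂ)
        = ∑ x, (starRingEnd ℂ) (h x) * ∑ ξ with B ξ ξ = t, W ξ * ψ (-(B ξ x)) := by
      have : ∀ x, ∑ ξ with B ξ ξ = t, W ξ * ψ (-(B ξ x)) = (q : ℂ) ^ 3 * P x := by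
        intro x
        simp only [hP, Pt, hq, hW]
        rw [← mul_assoc]
        push_cast
        rw [mul_inv_cancel₀ (pow_ne_zero 3 card_ne), one_mul]
      simp_rw [this]
      push_cast
      rw [mul_sum, ← sum_subset (subset_univ A) (fun x _ hx => by simp [hh, hx])]
      refine sum_congr rfl fun x hx => ?_
      simp only [hh, hx, if_true, map_div₀, Complex.conj_ofReal]
      by_cases hp : P x = 0
      · simp [hp]
      · have : ((‖P x‖ : ℝ) : ℂ) ≠ 0 := by simpa using hp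
        have h3 := normsq_eq (P x)
        push_cast at h3
        field_simp
        linear_combination (q : ℂ) ^ 3 * h3
    rw [a1]
    simp only [ftc, map_sum, mul_sum]
    rw [sum_comm (s := univ.filter fun ξ => B ξ ξ = t), ← sum_add_distrib]
    refine sum_congr rfl fun x _ => ?_
    rw [← filter_filter, sum_filter (fun ξ => cut B (ρ x) ξ), ← sum_add_distrib]
    refine sum_congr rfl fun ξ _ => ?_
    split_ifs
    · simp
    · rw [map_mul, conj_psi]; ring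
  have e2 : ‖∑ ξ with B ξ ξ = t, W ξ * (starRingEnd ℂ) (ftc ψ B ρ h ξ)‖
      ≤ Real.sqrt (mass ψ t B (fun y => (w y : ℂ)) * (K * (ω ^ 12 * z ^ 2 + ω ^ 11 * z ^ 3))) := by
    refine (norm_sum_le _ _).trans (Real.le_sqrt_of_sq_le ?_)
    simp only [norm_mul, RCLike.norm_conj]
    exact (sum_mul_sq_le_sq_mul_sq _ _ _).trans
      (mul_le_mul_of_nonneg_left hρ (mass_nonneg _ _ _ _))
  have e3 : ‖∑ x, (starRingEnd ℂ) (h x) *
      ∑ ξ with (B ξ ξ = t ∧ cut B (ρ x) ξ), W ξ * ψ (-(B ξ x))‖ ≤ 2 * q * μ * #A := by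
    refine (norm_sum_le _ _).trans ?_
    calc _ ≤ ∑ x, ‖h x‖ * (2 * q * μ) := sum_le_sum fun x _ => by
          rw [norm_mul, RCLike.norm_conj]
          exact mul_le_mul_of_nonneg_left (pair_cut hF hψ hG w h0 hμ hH ht _ _) (norm_nonneg _)
      _ = (∑ x, ‖h x‖) * (2 * q * μ) := by rw [sum_mul]
      _ ≤ #A * (2 * q * μ) := mul_le_mul_of_nonneg_right h2 (by positivity)
      _ = _ := by ring
  have e4 : q ^ 3 * ∑ x ∈ A, ‖P x‖ = ‖((q ^ 3 * ∑ x ∈ A, ‖P x‖ : ℝ) : ℂ)‖ := by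
    rw [Complex.norm_real, Real.norm_of_nonneg (by positivity)]
  rw [e4, e1]
  exact (norm_add_le _ _).trans (add_le_add e2 e3)

end Pool.Agent.Lib.MP_c8b0a1_an
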