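import Pool.Agent.Lib.MP_c8b0a1_an.RDefs

set_option autoImplicit false
set_option linter.unusedSectionVars false

namespace Pool.Agent.Lib.MP_c8b0a1_an

open Finset

variable {F : Type} [Field F] [Fintype F] [DecidableEq F]
variable {V : Type} [AddCommGroup V] [Module F V] [Fintype V] [DecidableEq V]

lemma port_numeric (m : ℕ) (hm : 1 ≤ m) {q T U μ : ℝ} (ht : 1 ≤ T) (hU : 1 ≤ U) (hUT : U ^ 3 ≤ T)
    (hq : T ≤ q) (hμ0 : 0 ≤ μ) (hμ : μ ≤ T ^ (m + 1) * U) :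
    ((μ * T) ^ 4 + q ^ (2 * m + 3) * μ ^ 2 * (μ * T)) *
      (q * (5 * (μ * T) ^ 3 + q ^ (m + 2) * (μ * T) ^ 2))
      ≤ 12 * (q ^ (6 * m + 4) * T ^ 8 * (μ * T) ^ 2) := by
  obtain ⟨k, rfl⟩ : ∃ k, m = k + 1 := ⟨m - 1, by omega⟩
  have ht0 : 0 < T := by linarith
  have hq0 : 0 < q := by linarith
  have hQ : ∀ a b : ℕ, b ≤ a → T ^ b ≤ q ^ a := fun a b h =>
    (pow_le_pow_right₀ ht h).trans (pow_le_pow_left₀ ht0.le hq a)
  have hM : ∀ a e : ℕ, a ≤ 3 * e → μ ^ a ≤ T ^ ((k + 2) * a + e) := fun a e h => by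
    calc μ ^ a ≤ (T ^ (k + 1 + 1) * U) ^ a := pow_le_pow_left₀ hμ0 hμ a
      _ = T ^ ((k + 2) * a) * U ^ a := by ring
      _ ≤ T ^ ((k + 2) * a) * (U ^ 3) ^ e := by
          rw [← pow_mul]; gcongr
      _ ≤ T ^ ((k + 2) * a) * T ^ e := by gcongr
      _ = _ := by ring
  have a1 : q * (μ * T) ^ 5 ≤ q ^ (6 * (k + 1) + 4) * T ^ 8 := by
    calc q * (μ * T) ^ 5 = q * μ ^ 5 * T ^ 5 := by ring
      _ ≤ q * T ^ ((k + 2) * 5 + 2) * T ^ 5 := by gcongr; exact hM 5 2 (by norm_num)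
      _ = q * T ^ (5 * k + 9) * T ^ 8 := by ring
      _ ≤ q * q ^ (6 * k + 9) * T ^ 8 := by gcongr; exact hQ _ _ (by omega)
      _ = _ := by ring
  have a2 : q ^ (k + 1 + 3) * (μ * T) ^ 4 ≤ q ^ (6 * (k + 1) + 4) * T ^ 8 := by
    calc q ^ (k + 1 + 3) * (μ * T) ^ 4 = q ^ (k + 4) * μ ^ 4 * T ^ 4 := by ring
      _ ≤ q ^ (k + 4) * T ^ ((k + 2) * 4 + 2) * T ^ 4 := by gcongr; exact hM 4 2 (by norm_num)
      _ = q ^ (k + 4) * T ^ (4 * k + 6) * T ^ 8 := by ring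
      _ ≤ q ^ (k + 4) * q ^ (5 * k + 6) * T ^ 8 := by gcongr; exact hQ _ _ (by omega)
      _ = _ := by ring
  have a3 : q ^ (2 * (k + 1) + 4) * μ ^ 2 * (μ * T) ^ 2 ≤ q ^ (6 * (k + 1) + 4) * T ^ 8 := by
    calc q ^ (2 * (k + 1) + 4) * μ ^ 2 * (μ * T) ^ 2 = q ^ (2 * k + 6) * μ ^ 4 * T ^ 2 := by ring
      _ ≤ q ^ (2 * k + 6) * T ^ ((k + 2) * 4 + 2) * T ^ 2 := by
          gcongr; exact hM 4 2 (by norm_num)
      _ = q ^ (2 * k + 6) * T ^ (4 * k + 4) * T ^ 8 := by ring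
      _ ≤ q ^ (2 * k + 6) * q ^ (4 * k + 4) * T ^ 8 := by gcongr
      _ = _ := by ring
  have a4 : q ^ (3 * (k + 1) + 6) * μ ^ 2 * (μ * T) ≤ q ^ (6 * (k + 1) + 4) * T ^ 8 := by
    calc q ^ (3 * (k + 1) + 6) * μ ^ 2 * (μ * T) = q ^ (3 * k + 9) * μ ^ 3 * T := by ring
      _ ≤ q ^ (3 * k + 9) * T ^ ((k + 2) * 3 + 1) * T := by gcongr; exact hM 3 1 (by norm_num)
      _ = q ^ (3 * k + 9) * T ^ (3 * k) * T ^ 8 := by ring
      _ ≤ q ^ (3 * k + 9) * q ^ (3 * k + 1) * T ^ 8 := by gcongr; exact hQ _ _ (by omega)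
      _ = _ := by ring
  have hN : 0 ≤ (μ * T) ^ 2 := by positivity
  calc _ = (5 * (q * (μ * T) ^ 5) + q ^ (k + 1 + 3) * (μ * T) ^ 4
        + 5 * (q ^ (2 * (k + 1) + 4) * μ ^ 2 * (μ * T) ^ 2)
        + q ^ (3 * (k + 1) + 6) * μ ^ 2 * (μ * T)) * (μ * T) ^ 2 := by ring
    _ ≤ (12 * (q ^ (6 * (k + 1) + 4) * T ^ 8)) * (μ * T) ^ 2 :=
        mul_le_mul_of_nonneg_right (by linarith) hN
    _ = _ := by ring

theorem port_rem (hF : ringChar F ≠ 2) {ψ : AddChar F ℂ} (hψ : ψ ≠ 1) {j : F} (hj : j ≠ 0)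
    {B : V →ₗ[F] V →ₗ[F] F} {m : ℕ} (hm1 : 1 ≤ m) (hG : Good ψ j B (m + 1)) (g : V → ℂ) (h1 : ∀ x, ‖g x‖ ≤ 1)
    {T U μ : ℝ} (ht5 : 1 ≤ T) (hU : 1 ≤ U) (hUT : U ^ 3 ≤ T) (hq : T ≤ Fintype.card F)
    (hμ : μ ≤ T ^ (m + 1) * U)
    (hn : ∑ x, ‖g x‖ ≤ μ * T)
    (hH : ∀ r, r ≠ 0 → ∀ c, ∑ x with B r x = c, ‖g x‖ ≤ μ) :
    mass ψ j B g ≤ 4 * ((Fintype.card F : ℝ) ^ (2 * (m + 1)) * T * (μ * T)) := by
  set q : ℝ := (Fintype.card F : ℝ) with hqq
  set n := ∑ x, ‖g x‖ with hnn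
  have hq2 : 2 ≤ q := two_le_card
  have hn0 : 0 ≤ n := sum_nonneg fun x _ => norm_nonneg _
  have hμ0 : 0 ≤ μ := nonneg_of_mul_nonneg_left (hn0.trans hn) (by positivity)
  set N := μ * T with hN
  have hN0 : 0 ≤ N := by positivity
  have hm := mass_le hG g
  have hs := sq_le_one_sum g h1
  set Y := ‖∑ y, (starRingEnd ℂ) (g y) * ∑ x, g x * phi ψ j (B (x - y) (x - y))‖ with hY
  have hY0 : 0 ≤ Y := norm_nonneg _
  suffices hY1 : Y ≤ 3 * (q ^ (m + 1) * T * N) by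
    have b1 : q ^ (2 * (m + 1)) * ∑ x, ‖g x‖ ^ 2 ≤ q ^ (2 * (m + 1)) * T * N := by
      rw [mul_assoc]
      exact mul_le_mul_of_nonneg_left (by nlinarith) (by positivity)
    have b2 : q ^ (m + 1) * Y ≤ 3 * (q ^ (2 * (m + 1)) * T * N) :=
      (mul_le_mul_of_nonneg_left hY1 (by positivity)).trans (le_of_eq (by ring))
    linarith
  by_cases hl : μ ≤ q ^ (m + 1)
  · have := kern_triv ψ j B g
    have b1 : n ^ 2 ≤ q ^ (m + 1) * T * N := by
      calc n ^ 2 ≤ N ^ 2 := by gcongr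
        _ = μ * T * N := by rw [hN]; ring
        _ ≤ _ := by gcongr
    have : 0 ≤ q ^ (m + 1) * T * N := by positivity
    linarith
  have hnum := port_numeric m hm1 ht5 hU hUT hq hμ0 hμ
  rw [← hN] at hnum
  have hW := WW_bound hF hψ hG (fun x => ‖g x‖) (fun _ => norm_nonneg _) h1 μ hH
    (hn.trans (by rw [hN, mul_comm]; exact mul_le_mul_of_nonneg_right hq hμ0))
  have hI := Iso_bound hψ hj hG (fun x => ‖g x‖) (fun _ => norm_nonneg _) h1
  have hT := Tr_bound hG.symm (fun x => ‖g x‖) (fun _ => norm_nonneg _) h1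
  have hA := AA_le_Tr B (fun x => ‖g x‖) (fun _ => norm_nonneg _)
  have hL := TT_bound hF hψ hj hG g
  have h4 := kern_four (ψ := ψ) (j := j) hG.symm g h1
  rw [← hqq, ← hnn] at hW hI hT
  rw [← hnn, ← hY] at h4
  rw [← hqq] at hL
  have hW0 : 0 ≤ WW F (fun y => ‖g y‖) := En_nonneg _ _
  have hA0 : 0 ≤ AA B (fun y => ‖g y‖) := En_nonneg _ _
  have hS0 : 0 ≤ ∑ p : V × F, ‖TT ψ j B g p.1 p.2‖ ^ 4 := sum_nonneg fun _ _ => by positivity
  generalize WW F (fun y => ‖g y‖) = W at *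
  generalize AA B (fun y => ‖g y‖) = A at *
  generalize ∑ p : V × F, ‖TT ψ j B g p.1 p.2‖ ^ 4 = S at *
  generalize Iso B (fun x => ‖g x‖) = I at *
  generalize Tr B (fun x => ‖g x‖) = T0 at *
  clear_value Y N n q
  have hW1 : q ^ (2 * m) * W ≤ N ^ 4 + q ^ (2 * m + 3) * μ ^ 2 * N := by
    refine le_of_mul_le_mul_left ?_ (by positivity : 0 < q ^ 4)
    calc q ^ 4 * (q ^ (2 * m) * W) = q ^ (2 * (m + 1) + 2) * W := by ring
      _ ≤ _ := hW
      _ ≤ q ^ 4 * N ^ 4 + q ^ (2 * (m + 1) + 2) * (q ^ 3 * μ ^ 2 * N) := by gcongr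
      _ = _ := by ring
  have hA1 : A ≤ 3 * (q * (5 * N ^ 3 + q ^ (m + 2) * N ^ 2)) := by
    refine hA.trans (mul_le_mul_of_nonneg_left (hT.trans ?_) (by norm_num))
    refine mul_le_mul_of_nonneg_left ?_ (by positivity)
    calc n ^ 3 + q * (n * I) = n ^ 3 + n * (q * I) := by ring
      _ ≤ n ^ 3 + n * (q ^ (m + 1 + 1) * n + 4 * n ^ 2) := by gcongr
      _ ≤ N ^ 3 + N * (q ^ (m + 1 + 1) * N + 4 * N ^ 2) := by gcongr
      _ = _ := by ring
  have hWA : W * A ≤ 36 * (q ^ (4 * m + 4) * T ^ 8 * N ^ 2) := by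
    refine le_of_mul_le_mul_left ?_ (by positivity : 0 < q ^ (2 * m))
    calc q ^ (2 * m) * (W * A) = (q ^ (2 * m) * W) * A := by ring
      _ ≤ (N ^ 4 + q ^ (2 * m + 3) * μ ^ 2 * N) * (3 * (q * (5 * N ^ 3 + q ^ (m + 2) * N ^ 2))) := by
          gcongr
      _ = 3 * ((N ^ 4 + q ^ (2 * m + 3) * μ ^ 2 * N) * (q * (5 * N ^ 3 + q ^ (m + 2) * N ^ 2))) := by
          ring
      _ ≤ 3 * (12 * (q ^ (6 * m + 4) * T ^ 8 * N ^ 2)) := by gcongr
      _ = _ := by ring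
  refine le_of_pow_le_pow_left₀ (n := 8) (by norm_num) (by positivity) ?_
  calc Y ^ 8 = (Y ^ 4) ^ 2 := by ring
    _ ≤ (N ^ 3 * S) ^ 2 := by
        gcongr
        exact h4.trans (by gcongr)
    _ = N ^ 6 * S ^ 2 := by ring
    _ ≤ N ^ 6 * (12 * q ^ (4 * (m + 1)) * (36 * (q ^ (4 * m + 4) * T ^ 8 * N ^ 2))) := by
        gcongr
        exact hL.trans (by gcongr)
    _ = 432 * (q ^ (m + 1) * T * N) ^ 8 := by ring
    _ ≤ 3 ^ 8 * (q ^ (m + 1) * T * N) ^ 8 := by gcongr; norm_num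
    _ = _ := by ring

lemma port_diag {ψ : AddChar F ℂ} {j : F} {B : V →ₗ[F] V →ₗ[F] F} (hs : ∀ x y, B x y = B y x)
    {r r' : V} (hr : B r r = 0) (hr' : B r r' = 1) [Fintype (Perp B r r')] {a0 b0 m : ℕ} {C : ℝ}
    (hC : 0 ≤ C) (IH : Bd2 a0 b0 ψ j (resB B r r') m C) (g : V → ℂ) (h1 : ∀ x, ‖g x‖ ≤ 1) (c : F)
    (hg : ∀ x, B r x ≠ c → g x = 0) {t : ℝ} (ht : 1 ≤ t)
    (hn : ∑ x, ‖g x‖ ≤ Fintype.card F * t ^ (a0 * (m + 1) + b0)) :
    ∑ ξ with B ξ ξ = j, (if B r ξ = 0 then ‖ft ψ B g ξ‖ ^ 2 else 0)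
      ≤ C * ((Fintype.card F : ℝ) ^ (2 * (m + 1)) * t ^ a0 * ∑ x, ‖g x‖) := by
  set q : ℝ := (Fintype.card F : ℝ) with hq
  have hq0 : 0 < q := card_pos'
  set g' : Perp B r r' → ℂ := fun x => (q : ℂ)⁻¹ * ∑ a : F, g (x + c • r' + a • r) with hg'
  have supp : ∀ {M : Type} [AddCommMonoid M] (H : V → M), (∀ x, g x = 0 → H x = 0) →
      ∑ x, H x = ∑ x : Perp B r r', ∑ a : F, H (x + c • r' + a • r) := by
    intro M _ H hH
    rw [← sum_perp hs hr hr', sum_filter]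
    refine sum_congr rfl fun x _ => ?_
    split_ifs with h
    · rfl
    · exact hH x (hg x h)
  have n1 : ∀ x, ‖g' x‖ ≤ q⁻¹ * ∑ a : F, ‖g (x + c • r' + a • r)‖ := by
    intro x
    rw [hg']
    simp only
    rw [norm_mul, norm_inv, Complex.norm_real, Real.norm_of_nonneg hq0.le]
    exact mul_le_mul_of_nonneg_left (norm_sum_le _ _) (by positivity)
  have n2 : ∀ x, ‖g' x‖ ≤ 1 := by
    intro x
    refine (n1 x).trans ?_
    rw [inv_mul_le_iff₀ hq0]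
    refine (sum_le_sum fun a _ => h1 _).trans (le_of_eq ?_)
    simp [hq]
  have n3 : ∑ x, ‖g' x‖ ≤ q⁻¹ * ∑ x, ‖g x‖ := by
    rw [supp (fun x => ‖g x‖) (fun x h => by simp [h]), mul_sum]
    exact sum_le_sum fun x _ => n1 x
  have n4 := IH g' n2 t ht (n3.trans (by rw [inv_mul_le_iff₀ hq0]; exact hn))
  have e1 : ∀ (ξ : Perp B r r') (b : F),
      ‖ft ψ B g (ξ + (0 : F) • r' + b • r)‖ = q * ‖ft ψ (resB B r r') g' ξ‖ := by
    intro ξ b
    have : ft ψ B g (ξ + (0 : F) • r' + b • r) = ψ (b * c) * (q * ft ψ (resB B r r') g' ξ) := by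
      unfold ft
      rw [supp _ (fun x h => by simp [h]), mul_sum, mul_sum]
      refine sum_congr rfl fun x _ => ?_
      rw [hg']
      simp only
      rw [← mul_assoc (q : ℂ), ← mul_assoc (q : ℂ), mul_inv_cancel₀ (by exact_mod_cast hq0.ne'),
        one_mul, sum_mul, mul_sum]
      refine sum_congr rfl fun a _ => ?_
      rw [mul_left_comm, ← AddChar.map_add_eq_mul, resB_apply]
      congr 2
      simp [hr, hr', perp1 x, hs ξ r, hs ξ r', perp1 ξ, perp2 ξ, add_comm]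
    rw [this, norm_mul, norm_psi, one_mul, norm_mul, Complex.norm_real, Real.norm_of_nonneg hq0.le]
  have e2 : ∑ ξ with B ξ ξ = j, (if B r ξ = 0 then ‖ft ψ B g ξ‖ ^ 2 else 0)
      = q ^ 3 * mass ψ j (resB B r r') g' := by
    rw [← sum_filter, filter_comm, sum_filter, sum_perp hs hr hr', mass, sum_filter, mul_sum]
    refine sum_congr rfl fun ξ _ => ?_
    have e1' : ∀ a : F, B (ξ + (0 : F) • r' + a • r) (ξ + (0 : F) • r' + a • r) = B ξ ξ := by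
      intro a
      simp [hr, perp1 ξ, hs ξ r]
    simp_rw [e1', e1, resB_apply]
    split_ifs
    · simp [hq]; ring
    · simp
  rw [e2]
  calc q ^ 3 * mass ψ j (resB B r r') g' ≤ q ^ 3 * (C * (q ^ (2 * m) * t ^ a0 * (q⁻¹ * ∑ x, ‖g x‖))) := by
        gcongr
        exact n4.trans (by gcongr)
    _ = _ := by field_simp; ring

theorem bd2_step (hF : ringChar F ≠ 2) {ψ : AddChar F ℂ} (hψ : ψ ≠ 1) {j : F} (hj : j ≠ 0)
    {a b m : ℕ} (hab : 3 * b < a) (hm : 1 ≤ m) {C : ℝ} (hC : 0 ≤ C)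
    (IH : ∀ (U : Type) [AddCommGroup U] [Module F U] [Fintype U] [DecidableEq U]
      (B : U →ₗ[F] U →ₗ[F] F), Good ψ j B m → Bd2 a b ψ j B m C)
    {B : V →ₗ[F] V →ₗ[F] F} (hG : Good ψ j B (m + 1)) :
    Bd2 a b ψ j B (m + 1) (3 * (C + 10)) := by
  intro f h1 t ht hn
  set q : ℝ := (Fintype.card F : ℝ) with hq
  set n := ∑ x, ‖f x‖ with hnn
  have hq2 : 2 ≤ q := two_le_card
  have hn0 : 0 ≤ n := sum_nonneg fun x _ => norm_nonneg _
  have ht5 : 1 ≤ t ^ a := one_le_pow₀ ht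
  have hUT : (t ^ b) ^ 3 ≤ t ^ a := by
    rw [← pow_mul]; exact pow_le_pow_right₀ ht (by omega)
  have hD : 0 ≤ q ^ (2 * (m + 1)) * t ^ a * n := by positivity
  by_cases hqt : q ≤ t ^ a
  · have := mass_triv hG f
    have h2 := sq_le_one_sum f h1
    calc _ ≤ _ := this
      _ ≤ q ^ (2 * (m + 1) + 1) * n := by gcongr
      _ = q ^ (2 * (m + 1)) * q * n := by ring
      _ ≤ q ^ (2 * (m + 1)) * t ^ a * n := by gcongr
      _ ≤ _ := le_mul_of_one_le_left hD (by linarith)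
  replace hqt : t ^ a ≤ q := le_of_not_ge hqt
  rcases hn0.eq_or_lt with hz | hz
  · have := mass_triv hG f
    have h2 := sq_le_one_sum f h1
    rw [← hnn, ← hz] at h2
    calc _ ≤ _ := this
      _ ≤ q ^ (2 * (m + 1) + 1) * 0 := by gcongr
      _ ≤ _ := by rw [mul_zero]; positivity
  have ht0 : 0 < t ^ a := by positivity
  set μ := n / t ^ a with hμ
  have hμn : μ * t ^ a = n := div_mul_cancel₀ _ ht0.ne'
  have hμ0 : 0 < μ := div_pos hz ht0
  have hμ1 : μ ≤ t ^ (a * (m + 1) + b) := by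
    rw [hμ, div_le_iff₀ ht0]
    exact hn.trans (le_of_eq (by ring))
  obtain ⟨R, r, c, hr0, hR, hH⟩ := greedy B (fun x => ‖f x‖) (fun _ => norm_nonneg _) hμ0
  have hR1 : (R : ℝ) ≤ t ^ a := by
    rw [← hnn, ← hμn, mul_comm μ] at hR
    exact le_of_mul_le_mul_right hR hμ0
  set g : ℕ → V → ℂ := fun i x =>
    if B (r i) x = c i ∧ ∀ l < i, ¬ B (r l) x = c l then f x else 0 with hg
  set g0 : V → ℂ := fun x => if ∀ i < R, ¬ B (r i) x = c i then f x else 0 with hg0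
  have g1 : ∀ i x, ‖g i x‖ ≤ 1 := fun i x => by
    simp only [hg]; split_ifs; exacts [h1 x, by simp]
  have g01 : ∀ x, ‖g0 x‖ ≤ 1 := fun x => by
    simp only [hg0]; split_ifs; exacts [h1 x, by simp]
  have gs : ∀ i x, B (r i) x ≠ c i → g i x = 0 := fun i x h => by
    simp only [hg]; exact if_neg fun h' => h h'.1
  have gs' : ∀ i l, i < l → ∀ x, B (r i) x = c i → g l x = 0 := fun i l hil x h => by
    simp only [hg]; exact if_neg fun h' => h'.2 i hil h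
  have hsum : ∑ x, ‖g0 x‖ + ∑ i ∈ range R, ∑ x, ‖g i x‖ = n := by
    rw [sum_comm, ← sum_add_distrib]
    refine sum_congr rfl fun x _ => ?_
    rw [← split_first (fun i => B (r i) x = c i) ‖f x‖ R]
    simp only [hg, hg0, apply_ite norm, norm_zero]
  have s0 : 0 ≤ ∑ x, ‖g0 x‖ := sum_nonneg fun _ _ => norm_nonneg _
  have s1 : ∀ i, 0 ≤ ∑ x, ‖g i x‖ := fun i => sum_nonneg fun _ _ => norm_nonneg _
  have s2 : 0 ≤ ∑ i ∈ range R, ∑ x, ‖g i x‖ := sum_nonneg fun i _ => s1 i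
  have s3 : ∑ i ∈ range R, ∑ x, ‖g i x‖ ≤ n := by linarith
  set on : ℕ → V → ℂ := fun i ξ =>
    if B (r i) (r i) = 0 ∧ B (r i) ξ = 0 then ft ψ B (g i) ξ else 0 with hon
  set off : ℕ → V → ℂ := fun i ξ =>
    if B (r i) (r i) = 0 ∧ B (r i) ξ = 0 then 0 else ft ψ B (g i) ξ with hoff
  have hft : ∀ ξ, ft ψ B f ξ
      = ft ψ B g0 ξ + ∑ i ∈ range R, on i ξ + ∑ i ∈ range R, off i ξ := by
    intro ξ
    rw [add_assoc, ← sum_add_distrib,
      sum_congr rfl (g := fun i => ft ψ B (g i) ξ) (fun i _ => by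
        simp only [hon, hoff]; split_ifs <;> simp)]
    unfold ft
    rw [sum_comm, ← sum_add_distrib]
    refine sum_congr rfl fun x _ => ?_
    rw [← sum_mul, ← add_mul, split_first (fun i => B (r i) x = c i) (f x) R]
  have b0 : mass ψ j B g0 ≤ 4 * (q ^ (2 * (m + 1)) * t ^ a * n) := by
    have := port_rem hF hψ hj hm hG g0 g01 ht5 (one_le_pow₀ ht) hUT hqt
      (hμ1.trans (le_of_eq (by ring))) (by linarith) (fun s hs e => by
      simpa only [hg0, apply_ite norm, norm_zero] using hH s hs e)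
    rwa [hμn] at this
  have b1 : ∑ ξ with B ξ ξ = j, ‖∑ i ∈ range R, off i ξ‖ ^ 2
      ≤ 2 * (q ^ (2 * (m + 1)) * t ^ a * n) := by
    calc _ ≤ ∑ ξ with B ξ ξ = j, R * ∑ i ∈ range R, ‖off i ξ‖ ^ 2 := by
          refine sum_le_sum fun ξ _ => ?_
          refine (pow_le_pow_left₀ (norm_nonneg _) (norm_sum_le _ _) 2).trans ?_
          simpa using sq_sum_le_card_mul_sum_sq (s := range R) (f := fun i => ‖off i ξ‖)
      _ = R * ∑ i ∈ range R, ∑ ξ with B ξ ξ = j, ‖off i ξ‖ ^ 2 := by rw [← mul_sum, sum_comm]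
      _ ≤ t ^ a * ∑ i ∈ range R, 2 * (q ^ (2 * (m + 1)) * ∑ x, ‖g i x‖) := by
          gcongr with i
          have := off_bound hF hG (r i) (c i) (g i) (gs i)
          refine le_trans (le_of_eq ?_) (this.trans ?_)
          · refine sum_congr rfl fun ξ _ => ?_
            simp only [hoff]; split_ifs <;> simp
          · have := sq_le_one_sum (g i) (g1 i)
            gcongr
      _ = 2 * (q ^ (2 * (m + 1)) * t ^ a * ∑ i ∈ range R, ∑ x, ‖g i x‖) := by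
          rw [← mul_sum, ← mul_sum]; ring
      _ ≤ _ := by gcongr
  have b2 : ∀ i ∈ range R, ‖∑ ξ with B ξ ξ = j, on i ξ * (starRingEnd ℂ) (on i ξ)‖
      ≤ C * (q ^ (2 * (m + 1)) * t ^ a * ∑ x, ‖g i x‖) := by
    intro i hi
    by_cases hr : B (r i) (r i) = 0
    swap
    · simp only [hon, hr, false_and, if_false, zero_mul, sum_const_zero, norm_zero]
      have := s1 i
      positivity
    obtain ⟨r', hr'⟩ := exists_dual hG (hr0 i (mem_range.1 hi))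
    classical
    have := port_diag hG.symm hr hr' hC (IH _ _ (good_perp hψ hG hr hr')) (g i) (g1 i) (c i) (gs i) ht
      (by
        have := single_le_sum (f := fun i => ∑ x, ‖g i x‖) (fun i _ => s1 i) hi
        calc _ ≤ n := this.trans s3
          _ = t ^ a * μ := by rw [← hμn, mul_comm]
          _ ≤ _ := by gcongr)
    refine (norm_sum_le _ _).trans (le_trans (le_of_eq ?_) this)
    refine sum_congr rfl fun ξ _ => ?_
    simp only [hon, hr, true_and]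
    split_ifs
    · rw [norm_mul, RCLike.norm_conj, sq]
    · simp
  have b3 : ∀ i l, i ≠ l → q ^ 2 * ‖∑ ξ with B ξ ξ = j, on i ξ * (starRingEnd ℂ) (on l ξ)‖
      ≤ q ^ (2 * (m + 1) + 1) * (∑ x, ‖g i x‖ + ∑ x, ‖g l x‖)
        + 2 * q ^ (m + 1 + 1) * ((∑ x, ‖g i x‖) * ∑ x, ‖g l x‖) := by
    intro i l hil
    have := s1 i
    have := s1 l
    have hp : 0 ≤ q ^ (2 * (m + 1) + 1) := by positivity
    rcases lt_or_gt_of_ne hil with h | h
    · have := on_cross hF hψ hj hG (r i) (r l) (c i) (g i) (g l) (g1 i) (gs i) (gs' i l h)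
      refine this.trans ?_
      rw [← hq]
      nlinarith
    · have := on_cross hF hψ hj hG (r l) (r i) (c l) (g l) (g i) (g1 l) (gs l) (gs' l i h)
      rw [← RCLike.norm_conj, map_sum]
      simp only [map_mul, Complex.conj_conj, mul_comm ((starRingEnd ℂ) (on i _))]
      refine this.trans ?_
      rw [← hq]
      nlinarith
  have b4 : ∑ ξ with B ξ ξ = j, ‖∑ i ∈ range R, on i ξ‖ ^ 2
      ≤ (C + 4) * (q ^ (2 * (m + 1)) * t ^ a * n) := by
    refine (normsq_sum_le _ R on).trans ?_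
    have c1 : ∀ i ∈ range R, ∀ l ∈ range R,
        ‖∑ ξ with B ξ ξ = j, on i ξ * (starRingEnd ℂ) (on l ξ)‖
        ≤ (if i = l then C * (q ^ (2 * (m + 1)) * t ^ a * ∑ x, ‖g i x‖) else 0)
          + (q ^ (2 * m + 1) * (∑ x, ‖g i x‖ + ∑ x, ‖g l x‖)
            + 2 * q ^ m * ((∑ x, ‖g i x‖) * ∑ x, ‖g l x‖)) := by
      intro i hi l _
      have := s1 i
      have := s1 l
      split_ifs with h
      · subst h
        exact (b2 i hi).trans (le_add_of_nonneg_right (by positivity))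
      · rw [zero_add]
        refine le_of_mul_le_mul_left ((b3 i l h).trans (le_of_eq (by ring))) (by positivity)
    refine (sum_le_sum fun i hi => sum_le_sum fun l hl => c1 i hi l hl).trans ?_
    simp only [sum_add_distrib, sum_ite_eq, ← mul_sum, ← sum_mul, sum_const, card_range,
      nsmul_eq_mul]
    rw [sum_congr rfl fun i hi => if_pos hi]
    simp only [← mul_sum]
    generalize ∑ i ∈ range R, ∑ x, ‖g i x‖ = N at *
    have d1 : C * (q ^ (2 * (m + 1)) * t ^ a * N) ≤ C * (q ^ (2 * (m + 1)) * t ^ a * n) := by gcongr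
    have d2 : q ^ (2 * m + 1) * (R * N) ≤ q ^ (2 * (m + 1)) * t ^ a * n := by
      rw [mul_assoc]
      gcongr
      · linarith
      · omega
    have d3 : q ^ m * (N * N) ≤ q ^ (2 * (m + 1)) * t ^ a * n := by
      have : t ^ (a * (m + 1) + b) ≤ q ^ (m + 2) :=
        (pow_le_pow_right₀ ht (by nlinarith : a * (m + 1) + b ≤ a * (m + 2))).trans
          (by rw [pow_mul]; exact pow_le_pow_left₀ (by positivity) hqt _)
      calc q ^ m * (N * N) ≤ q ^ m * ((μ * t ^ a) * n) := by rw [hμn]; gcongr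
        _ ≤ q ^ m * ((q ^ (m + 2) * t ^ a) * n) := by gcongr; exact hμ1.trans this
        _ = _ := by ring
    nlinarith
  calc mass ψ j B f ≤ ∑ ξ with B ξ ξ = j, 3 * (‖ft ψ B g0 ξ‖ ^ 2 + ‖∑ i ∈ range R, on i ξ‖ ^ 2
        + ‖∑ i ∈ range R, off i ξ‖ ^ 2) :=
        sum_le_sum fun ξ _ => by rw [hft]; exact normsq_three _ _ _
    _ = 3 * (mass ψ j B g0 + ∑ ξ with B ξ ξ = j, ‖∑ i ∈ range R, on i ξ‖ ^ 2
        + ∑ ξ with B ξ ξ = j, ‖∑ i ∈ range R, off i ξ‖ ^ 2) := by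
        rw [← mul_sum, sum_add_distrib, sum_add_distrib]; rfl
    _ ≤ _ := by linarith


end Pool.Agent.Lib.MP_c8b0a1_an
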