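import Pool.Agent.Lib.MP_c8b0a1_an.CountA

set_option autoImplicit false
set_option linter.unusedSectionVars false

namespace Pool.Agent.Lib.MP_c8b0a1_an

open Finset

variable {F : Type} [Field F] [Fintype F] [DecidableEq F]
variable {V : Type} [AddCommGroup V] [Module F V] [Fintype V] [DecidableEq V]

lemma ft_parseval {ψ : AddChar F ℂ} {j : F} {B : V →ₗ[F] V →ₗ[F] F} {k : ℕ} (hG : Good ψ j B k)
    (g : V → ℂ) : ∑ ξ, ‖ft ψ B g ξ‖ ^ 2 = (Fintype.card F : ℝ) ^ (2 * k + 1) * ∑ x, ‖g x‖ ^ 2 :=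
  parseval_id ψ (fun ξ m => B ξ m) (fun _ _ _ => map_sub _ _ _) _ hG.orth g

lemma mass_nonneg (ψ : AddChar F ℂ) (j : F) (B : V →ₗ[F] V →ₗ[F] F) (g : V → ℂ) :
    0 ≤ mass ψ j B g := sum_nonneg fun _ _ => sq_nonneg _

lemma mass_triv {ψ : AddChar F ℂ} {j : F} {B : V →ₗ[F] V →ₗ[F] F} {k : ℕ} (hG : Good ψ j B k)
    (g : V → ℂ) : mass ψ j B g ≤ (Fintype.card F : ℝ) ^ (2 * k + 1) * ∑ x, ‖g x‖ ^ 2 := by
  rw [← ft_parseval hG]
  exact sum_le_sum_of_subset_of_nonneg (filter_subset _ _) fun _ _ _ => sq_nonneg _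

lemma mass_le {ψ : AddChar F ℂ} {j : F} {B : V →ₗ[F] V →ₗ[F] F} {k : ℕ} (hG : Good ψ j B k)
    (g : V → ℂ) : mass ψ j B g ≤ (Fintype.card F : ℝ) ^ (2 * k) * ∑ x, ‖g x‖ ^ 2
      + (Fintype.card F : ℝ) ^ k *
        ‖∑ y, (starRingEnd ℂ) (g y) * ∑ x, g x * phi ψ j (B (x - y) (x - y))‖ := by
  have e : (mass ψ j B g : ℂ) = (((Fintype.card F : ℝ) ^ (2 * k) * ∑ x, ‖g x‖ ^ 2 : ℝ) : ℂ)
      - (Fintype.card F : ℂ) ^ k *
        ∑ y, (starRingEnd ℂ) (g y) * ∑ x, g x * phi ψ j (B (x - y) (x - y)) := by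
    unfold mass ft
    rw [mass_expand ψ _ (fun ξ m => B ξ m) (fun x m m' => map_sub _ _ _) g (fun x => x)]
    simp_rw [hG.kf, mul_sub, sum_sub_distrib, sub_eq_zero]
    congr 1
    · rw [Complex.ofReal_mul, Complex.ofReal_sum, mul_sum]
      refine sum_congr rfl fun x _ => ?_
      rw [normsq_eq]
      simp [mul_comm]
    · rw [sum_comm, mul_sum]
      refine sum_congr rfl fun y _ => ?_
      simp only [mul_sum]
      exact sum_congr rfl fun x _ => by ring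
  have h1 : mass ψ j B g = ‖(mass ψ j B g : ℂ)‖ := by
    rw [Complex.norm_real, Real.norm_of_nonneg (mass_nonneg _ _ _ _)]
  rw [h1, e]
  refine (norm_sub_le _ _).trans (le_of_eq ?_)
  rw [Complex.norm_real, Real.norm_of_nonneg (by positivity), norm_mul, norm_pow,
    Complex.norm_natCast]

lemma sq_le_one_sum (g : V → ℂ) (h1 : ∀ x, ‖g x‖ ≤ 1) : ∑ x, ‖g x‖ ^ 2 ≤ ∑ x, ‖g x‖ :=
  sum_le_sum fun x _ => by nlinarith [h1 x, norm_nonneg (g x)]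

lemma kern_triv (ψ : AddChar F ℂ) (j : F) (B : V →ₗ[F] V →ₗ[F] F) (g : V → ℂ) :
    ‖∑ y, (starRingEnd ℂ) (g y) * ∑ x, g x * phi ψ j (B (x - y) (x - y))‖
      ≤ 2 * (∑ x, ‖g x‖) ^ 2 := by
  refine (norm_sum_le _ _).trans ?_
  have : ∀ y, ‖(starRingEnd ℂ) (g y) * ∑ x, g x * phi ψ j (B (x - y) (x - y))‖
      ≤ ‖g y‖ * ((∑ x, ‖g x‖) * 2) := by
    intro y
    rw [norm_mul, RCLike.norm_conj, sum_mul]
    refine mul_le_mul_of_nonneg_left ((norm_sum_le _ _).trans (sum_le_sum fun x _ => ?_))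
      (norm_nonneg _)
    rw [norm_mul]
    exact mul_le_mul_of_nonneg_left (norm_phi_le _ _ _) (norm_nonneg _)
  refine (sum_le_sum fun y _ => this y).trans (le_of_eq ?_)
  rw [← sum_mul]; ring

lemma kern_four {ψ : AddChar F ℂ} {j : F} {B : V →ₗ[F] V →ₗ[F] F} (hs : ∀ x y, B x y = B y x)
    (g : V → ℂ) (h1 : ∀ x, ‖g x‖ ≤ 1) :
    ‖∑ y, (starRingEnd ℂ) (g y) * ∑ x, g x * phi ψ j (B (x - y) (x - y))‖ ^ 4
      ≤ (∑ x, ‖g x‖) ^ 3 * ∑ p : V × F, ‖TT ψ j B g p.1 p.2‖ ^ 4 := by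
  have e : ∀ y, ∑ x, g x * phi ψ j (B (x - y) (x - y)) = TT ψ j B g y (B y y) := by
    intro y
    refine sum_congr rfl fun x _ => ?_
    congr 2
    simp only [map_sub, LinearMap.sub_apply, hs x y]
    ring
  simp_rw [e]
  have h2 : ‖∑ y, (starRingEnd ℂ) (g y) * TT ψ j B g y (B y y)‖
      ≤ ∑ y, ‖g y‖ * ‖TT ψ j B g y (B y y)‖ :=
    (norm_sum_le _ _).trans (le_of_eq (by simp only [norm_mul, RCLike.norm_conj]))
  have h3 := holder_four univ (fun y => ‖g y‖) (fun y => ‖TT ψ j B g y (B y y)‖)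
    (fun _ => norm_nonneg _)
  have h4 : ∑ y, ‖TT ψ j B g y (B y y)‖ ^ 4 ≤ ∑ p : V × F, ‖TT ψ j B g p.1 p.2‖ ^ 4 := by
    rw [Fintype.sum_prod_type]
    exact sum_le_sum fun y _ => single_le_sum (f := fun u => ‖TT ψ j B g y u‖ ^ 4)
      (fun _ _ => by positivity) (mem_univ _)
  have h5 := sq_le_one_sum g h1
  calc _ ≤ _ := pow_le_pow_left₀ (norm_nonneg _) h2 4
    _ ≤ _ := h3
    _ ≤ (∑ x, ‖g x‖) ^ 2 * ((∑ x, ‖g x‖) * ∑ p : V × F, ‖TT ψ j B g p.1 p.2‖ ^ 4) := by gcongr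
    _ = _ := by ring

lemma numeric (m : ℕ) {q t μ : ℝ} (ht : 1 ≤ t) (hq : t ^ 5 ≤ q) (hμ0 : 0 ≤ μ)
    (hμ : μ ≤ t ^ (5 * m + 6)) (hl : q ^ (m + 1) ≤ μ) :
    ((μ * t ^ 5) ^ 4 + q ^ (2 * m + 3) * μ ^ 2 * (μ * t ^ 5)) *
      (q * (5 * (μ * t ^ 5) ^ 3 + q ^ (m + 2) * (μ * t ^ 5) ^ 2))
      ≤ 12 * (q ^ (6 * m + 4) * t ^ 40 * (μ * t ^ 5) ^ 2) := by
  have ht0 : 0 < t := by linarith
  have hq0 : 0 < q := lt_of_lt_of_le (by positivity) hq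
  have hq6 : q ≤ t ^ 6 := by
    refine le_of_pow_le_pow_left₀ (n := m + 1) (by omega) (by positivity) (hl.trans (hμ.trans ?_))
    rw [← pow_mul]
    exact pow_le_pow_right₀ ht (by omega)
  have hQ : ∀ a b : ℕ, b ≤ 5 * a → t ^ b ≤ q ^ a := fun a b h =>
    (pow_le_pow_right₀ ht h).trans (by rw [pow_mul]; exact pow_le_pow_left₀ (by positivity) hq a)
  have hM : ∀ a : ℕ, μ ^ a ≤ t ^ ((5 * m + 6) * a) := fun a => by
    rw [pow_mul]; exact pow_le_pow_left₀ hμ0 hμ a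
  have a1 : q * (μ * t ^ 5) ^ 5 ≤ q ^ (6 * m + 4) * t ^ 40 := by
    calc q * (μ * t ^ 5) ^ 5 = q * μ ^ 5 * t ^ 25 := by ring
      _ ≤ q * t ^ ((5 * m + 6) * 5) * t ^ 25 := by gcongr; exact hM 5
      _ = q * t ^ (25 * m + 15) * t ^ 40 := by ring
      _ ≤ q * q ^ (6 * m + 3) * t ^ 40 := by gcongr; exact hQ _ _ (by omega)
      _ = _ := by ring
  have a2 : q ^ (m + 3) * (μ * t ^ 5) ^ 4 ≤ q ^ (6 * m + 4) * t ^ 40 := by
    calc q ^ (m + 3) * (μ * t ^ 5) ^ 4 = q ^ (m + 3) * μ ^ 4 * t ^ 20 := by ring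
      _ ≤ q ^ (m + 3) * t ^ ((5 * m + 6) * 4) * t ^ 20 := by gcongr; exact hM 4
      _ = q ^ (m + 3) * t ^ (20 * m + 4) * t ^ 40 := by ring
      _ ≤ q ^ (m + 3) * q ^ (5 * m + 1) * t ^ 40 := by gcongr; exact hQ _ _ (by omega)
      _ = _ := by ring
  have a3 : q ^ (2 * m + 4) * μ ^ 2 * (μ * t ^ 5) ^ 2 * t ≤ q ^ (6 * m + 4) * t ^ 40 := by
    calc q ^ (2 * m + 4) * μ ^ 2 * (μ * t ^ 5) ^ 2 * t = q ^ (2 * m + 4) * μ ^ 4 * t ^ 11 := by ring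
      _ ≤ q ^ (2 * m + 4) * t ^ ((5 * m + 6) * 4) * t ^ 11 := by gcongr; exact hM 4
      _ = q ^ (2 * m + 4) * t ^ (20 * m) * t ^ 35 := by ring
      _ ≤ q ^ (2 * m + 4) * q ^ (4 * m) * t ^ 40 := by
          have := hQ (4 * m) (20 * m) (by omega)
          have h2 : t ^ 35 ≤ t ^ 40 := pow_le_pow_right₀ ht (by norm_num)
          gcongr
      _ = _ := by ring
  have a3' : q ^ (2 * m + 4) * μ ^ 2 * (μ * t ^ 5) ^ 2 ≤ q ^ (6 * m + 4) * t ^ 40 :=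
    (le_mul_of_one_le_right (by positivity) ht).trans a3
  have a4 : q ^ (3 * m + 6) * μ ^ 2 * (μ * t ^ 5) ≤ q ^ (6 * m + 4) * t ^ 40 := by
    refine le_trans ?_ a3
    calc q ^ (3 * m + 6) * μ ^ 2 * (μ * t ^ 5)
        = q ^ (2 * m + 4) * μ ^ 2 * (μ * t ^ 5) * (q ^ (m + 1) * q) := by ring
      _ ≤ q ^ (2 * m + 4) * μ ^ 2 * (μ * t ^ 5) * (μ * t ^ 6) := by gcongr
      _ = _ := by ring
  have hN : 0 ≤ (μ * t ^ 5) ^ 2 := by positivity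
  calc _ = (5 * (q * (μ * t ^ 5) ^ 5) + q ^ (m + 3) * (μ * t ^ 5) ^ 4
        + 5 * (q ^ (2 * m + 4) * μ ^ 2 * (μ * t ^ 5) ^ 2)
        + q ^ (3 * m + 6) * μ ^ 2 * (μ * t ^ 5)) * (μ * t ^ 5) ^ 2 := by ring
    _ ≤ (12 * (q ^ (6 * m + 4) * t ^ 40)) * (μ * t ^ 5) ^ 2 :=
        mul_le_mul_of_nonneg_right (by linarith) hN
    _ = _ := by ring

theorem rem_bound (hF : ringChar F ≠ 2) {ψ : AddChar F ℂ} (hψ : ψ ≠ 1) {j : F} (hj : j ≠ 0)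
    {B : V →ₗ[F] V →ₗ[F] F} {m : ℕ} (hG : Good ψ j B (m + 1)) (g : V → ℂ) (h1 : ∀ x, ‖g x‖ ≤ 1)
    {t μ : ℝ} (ht : 1 ≤ t) (hq : t ^ 5 ≤ Fintype.card F) (hμ : μ ≤ t ^ (5 * m + 6))
    (hn : ∑ x, ‖g x‖ ≤ μ * t ^ 5)
    (hH : ∀ r, r ≠ 0 → ∀ c, ∑ x with B r x = c, ‖g x‖ ≤ μ) :
    mass ψ j B g ≤ 4 * ((Fintype.card F : ℝ) ^ (2 * (m + 1)) * t ^ 5 * (μ * t ^ 5)) := by
  set q : ℝ := (Fintype.card F : ℝ) with hqq
  set n := ∑ x, ‖g x‖ with hnn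
  have hq2 : 2 ≤ q := two_le_card
  have hn0 : 0 ≤ n := sum_nonneg fun x _ => norm_nonneg _
  have ht5 : 1 ≤ t ^ 5 := one_le_pow₀ ht
  have hμ0 : 0 ≤ μ := nonneg_of_mul_nonneg_left (hn0.trans hn) (by positivity)
  set N := μ * t ^ 5 with hN
  have hN0 : 0 ≤ N := by positivity
  have hm := mass_le hG g
  have hs := sq_le_one_sum g h1
  set Y := ‖∑ y, (starRingEnd ℂ) (g y) * ∑ x, g x * phi ψ j (B (x - y) (x - y))‖ with hY
  have hY0 : 0 ≤ Y := norm_nonneg _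
  suffices hY1 : Y ≤ 3 * (q ^ (m + 1) * t ^ 5 * N) by
    have b1 : q ^ (2 * (m + 1)) * ∑ x, ‖g x‖ ^ 2 ≤ q ^ (2 * (m + 1)) * t ^ 5 * N := by
      rw [mul_assoc]
      exact mul_le_mul_of_nonneg_left (by nlinarith) (by positivity)
    have b2 : q ^ (m + 1) * Y ≤ 3 * (q ^ (2 * (m + 1)) * t ^ 5 * N) :=
      (mul_le_mul_of_nonneg_left hY1 (by positivity)).trans (le_of_eq (by ring))
    linarith
  by_cases hl : μ ≤ q ^ (m + 1)
  · have := kern_triv ψ j B g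
    have b1 : n ^ 2 ≤ q ^ (m + 1) * t ^ 5 * N := by
      calc n ^ 2 ≤ N ^ 2 := by gcongr
        _ = μ * t ^ 5 * N := by rw [hN]; ring
        _ ≤ _ := by gcongr
    have : 0 ≤ q ^ (m + 1) * t ^ 5 * N := by positivity
    linarith
  have hnum := numeric m ht hq hμ0 hμ (le_of_not_ge hl)
  rw [← hN] at hnum
  have hW := WW_bound hF hψ hG (fun x => ‖g x‖) (fun _ => norm_nonneg _) h1 μ hH
    (hn.trans (by rw [hN, mul_comm]; exact mul_le_mul_of_nonneg_right hq hμ0))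
  have hI := Iso_bound hψ hj hG (fun x => ‖g x‖) (fun _ => norm_nonneg _) h1
  have hT := Tr_bound hG.symm (fun x => ‖g x‖) (fun _ => norm_nonneg _) h1
  have hA := AA_le_Tr B (fun x => ‖g x‖) (fun _ => norm_nonneg _)
  have hL := TT_bound hF hψ hj hG g
  have h4 := kern_four (ψ := ψ) (j := j) hG.symm g h1
  rw [← hqq, ← hnn] at hW hI hT
  rw [← hnn, ← hY] at h4
  rw [← hqq] at hL
  have hW0 : 0 ≤ WW F (fun y => ‖g y‖) := En_nonneg _ _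
  have hA0 : 0 ≤ AA B (fun y => ‖g y‖) := En_nonneg _ _
  have hS0 : 0 ≤ ∑ p : V × F, ‖TT ψ j B g p.1 p.2‖ ^ 4 := sum_nonneg fun _ _ => by positivity
  generalize WW F (fun y => ‖g y‖) = W at *
  generalize AA B (fun y => ‖g y‖) = A at *
  generalize ∑ p : V × F, ‖TT ψ j B g p.1 p.2‖ ^ 4 = S at *
  generalize Iso B (fun x => ‖g x‖) = I at *
  generalize Tr B (fun x => ‖g x‖) = T at *
  clear_value Y N n q
  have hW1 : q ^ (2 * m) * W ≤ N ^ 4 + q ^ (2 * m + 3) * μ ^ 2 * N := by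
    refine le_of_mul_le_mul_left ?_ (by positivity : 0 < q ^ 4)
    calc q ^ 4 * (q ^ (2 * m) * W) = q ^ (2 * (m + 1) + 2) * W := by ring
      _ ≤ _ := hW
      _ ≤ q ^ 4 * N ^ 4 + q ^ (2 * (m + 1) + 2) * (q ^ 3 * μ ^ 2 * N) := by gcongr
      _ = _ := by ring
  have hA1 : A ≤ 3 * (q * (5 * N ^ 3 + q ^ (m + 2) * N ^ 2)) := by
    refine hA.trans (mul_le_mul_of_nonneg_left (hT.trans ?_) (by norm_num))
    refine mul_le_mul_of_nonneg_left ?_ (by positivity)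
    calc n ^ 3 + q * (n * I) = n ^ 3 + n * (q * I) := by ring
      _ ≤ n ^ 3 + n * (q ^ (m + 1 + 1) * n + 4 * n ^ 2) := by gcongr
      _ ≤ N ^ 3 + N * (q ^ (m + 1 + 1) * N + 4 * N ^ 2) := by gcongr
      _ = _ := by ring
  have hWA : W * A ≤ 36 * (q ^ (4 * m + 4) * t ^ 40 * N ^ 2) := by
    refine le_of_mul_le_mul_left ?_ (by positivity : 0 < q ^ (2 * m))
    calc q ^ (2 * m) * (W * A) = (q ^ (2 * m) * W) * A := by ring
      _ ≤ (N ^ 4 + q ^ (2 * m + 3) * μ ^ 2 * N) * (3 * (q * (5 * N ^ 3 + q ^ (m + 2) * N ^ 2))) := by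
          gcongr
      _ = 3 * ((N ^ 4 + q ^ (2 * m + 3) * μ ^ 2 * N) * (q * (5 * N ^ 3 + q ^ (m + 2) * N ^ 2))) := by
          ring
      _ ≤ 3 * (12 * (q ^ (6 * m + 4) * t ^ 40 * N ^ 2)) := by gcongr
      _ = _ := by ring
  refine le_of_pow_le_pow_left₀ (n := 8) (by norm_num) (by positivity) ?_
  calc Y ^ 8 = (Y ^ 4) ^ 2 := by ring
    _ ≤ (N ^ 3 * S) ^ 2 := by
        gcongr
        exact h4.trans (by gcongr)
    _ = N ^ 6 * S ^ 2 := by ring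
    _ ≤ N ^ 6 * (12 * q ^ (4 * (m + 1)) * (36 * (q ^ (4 * m + 4) * t ^ 40 * N ^ 2))) := by
        gcongr
        exact hL.trans (by gcongr)
    _ = 432 * (q ^ (m + 1) * t ^ 5 * N) ^ 8 := by ring
    _ ≤ 3 ^ 8 * (q ^ (m + 1) * t ^ 5 * N) ^ 8 := by gcongr; norm_num
    _ = _ := by ring

end Pool.Agent.Lib.MP_c8b0a1_an
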